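import Pool.Agent.J6H82.Kollar.Non1

/-!
# Non finite generation: the core argument
-/

namespace Pool.Agent.J6H82.Kollar

noncomputable section

set_option maxHeartbeats 400000

open Polynomial

variable {k : Type} [Field k]

/-! ## exact orders -/

/-- exact order with respect to the outer variable -/
def OrdX (G : S2 k) (m : ℕ) : Prop := ∃ H : S2 k, G = X ^ m * H ∧ H.coeff 0 ≠ 0

theorem OrdX.mul {G G' : S2 k} {m m' : ℕ} (h : OrdX G m) (h' : OrdX G' m') :
    OrdX (G * G') (m + m') := by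
  obtain ⟨H, h1, h2⟩ := h
  obtain ⟨H', h1', h2'⟩ := h'
  refine ⟨H * H', by rw [h1, h1']; ring, ?_⟩
  rw [Polynomial.mul_coeff_zero]
  exact mul_ne_zero h2 h2'

theorem OrdX.le_of_dvd {G : S2 k} {m e : ℕ} (h : OrdX G m) (hd : (X : S2 k) ^ e ∣ G) : e ≤ m := by
  obtain ⟨H, h1, h2⟩ := h
  by_contra hcon
  push Not at hcon
  have h3 : (X : S2 k) ^ (m + 1) ∣ X ^ m * H := by
    rw [← h1]
    exact (pow_dvd_pow _ hcon).trans hd
  rw [pow_succ] at h3
  have h4 : (X : S2 k) ∣ H := (mul_dvd_mul_iff_left (pow_ne_zero _ Polynomial.X_ne_zero)).mp h3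
  exact h2 (Polynomial.X_dvd_iff.mp h4)

theorem OrdX_X_pow (m : ℕ) : OrdX (X ^ m : S2 k) m := ⟨1, by rw [mul_one], by simp⟩

theorem OrdX_C {g : k[X]} (hg : g ≠ 0) : OrdX (C g : S2 k) 0 := ⟨C g, by simp, by simpa using hg⟩

theorem OrdX_one : OrdX (1 : S2 k) 0 := ⟨1, by simp, by simp⟩

/-! ## the filtration -/

/-- elements of the field with `A * v ≥ c`, where `v` is the order along the vertex of the cone -/
def VB (k : Type) [Field k] (A : ℕ) (c : ℤ) : Set (KK k) :=
  {f | ∃ (F S : P3 k) (m e : ℕ), f * inc S = inc F ∧ OrdX (psi S) m ∧ (X : S2 k) ^ e ∣ psi F ∧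
    c + A * m ≤ A * e}

theorem VB_add {A : ℕ} {c : ℤ} {f g : KK k} (hf : f ∈ VB k A c) (hg : g ∈ VB k A c) :
    f + g ∈ VB k A c := by
  obtain ⟨F, S, m, e, h1, h2, h3, h4⟩ := hf
  obtain ⟨F', S', m', e', h1', h2', h3', h4'⟩ := hg
  refine ⟨F * S' + F' * S, S * S', m + m', min (e + m') (e' + m), ?_, ?_, ?_, ?_⟩
  · rw [map_add, map_mul, map_mul, map_mul, ← h1, ← h1']; ring
  · rw [map_mul]; exact h2.mul h2'
  · rw [map_add, map_mul, map_mul]
    obtain ⟨H, h5, _⟩ := h2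
    obtain ⟨H', h5', _⟩ := h2'
    apply dvd_add
    · refine (pow_dvd_pow _ (min_le_left _ _)).trans ?_
      rw [pow_add]
      exact mul_dvd_mul h3 ⟨H', h5'⟩
    · refine (pow_dvd_pow _ (min_le_right _ _)).trans ?_
      rw [pow_add]
      exact mul_dvd_mul h3' ⟨H, h5⟩
  · rcases min_cases (e + m') (e' + m) with ⟨h, _⟩ | ⟨h, _⟩
    · rw [h]; push_cast; linarith
    · rw [h]; push_cast; linarith

theorem VB_mul {A : ℕ} {c d : ℤ} {f g : KK k} (hf : f ∈ VB k A c) (hg : g ∈ VB k A d) :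
    f * g ∈ VB k A (c + d) := by
  obtain ⟨F, S, m, e, h1, h2, h3, h4⟩ := hf
  obtain ⟨F', S', m', e', h1', h2', h3', h4'⟩ := hg
  refine ⟨F * F', S * S', m + m', e + e', ?_, ?_, ?_, ?_⟩
  · rw [map_mul, map_mul, ← h1, ← h1']; ring
  · rw [map_mul]; exact h2.mul h2'
  · rw [map_mul, pow_add]; exact mul_dvd_mul h3 h3'
  · push_cast; linarith

theorem VB_mono {A : ℕ} {c d : ℤ} (h : d ≤ c) {f : KK k} (hf : f ∈ VB k A c) : f ∈ VB k A d := by
  obtain ⟨F, S, m, e, h1, h2, h3, h4⟩ := hf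
  exact ⟨F, S, m, e, h1, h2, h3, by linarith⟩

theorem VB_zero_mem {A : ℕ} (c : ℤ) (hA : 1 ≤ A) : (0 : KK k) ∈ VB k A c := by
  refine ⟨0, 1, 0, c.toNat, by simp, by rw [map_one]; exact OrdX_one, by simp, ?_⟩
  have h1 : c ≤ (c.toNat : ℤ) := Int.self_le_toNat c
  have h2 : (c.toNat : ℤ) ≤ A * c.toNat := by
    have : (1 : ℤ) ≤ A := by exact_mod_cast hA
    nlinarith [Int.natCast_nonneg c.toNat]
  push_cast
  linarith

/-- cross multiplication -/
theorem VB_bound {A : ℕ} {c : ℤ} {f : KK k} (hf : f ∈ VB k A c) {G T : P3 k} {a b : ℕ}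
    (h : f * inc T = inc G) (hG : OrdX (psi G) a) (hT : OrdX (psi T) b) : c + A * b ≤ A * a := by
  obtain ⟨F, S, m, e, h1, h2, h3, h4⟩ := hf
  have h5 : G * S = F * T := by
    apply inc_inj
    rw [map_mul, map_mul, ← h1, ← h]; ring
  have h6 : OrdX (psi (G * S)) (a + m) := by rw [map_mul]; exact hG.mul h2
  have h7 : e + b ≤ a + m := by
    apply h6.le_of_dvd
    rw [h5, map_mul, pow_add]
    obtain ⟨H, h8, _⟩ := hT
    exact mul_dvd_mul h3 ⟨H, h8⟩
  have h8 : (A : ℤ) * (e + b) ≤ A * (a + m) := by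
    apply mul_le_mul_of_nonneg_left _ (by positivity)
    exact_mod_cast h7
  linarith

variable [CharZero k]

theorem QQ_ne (m : Fin 37 → ℕ) : QQ k m ≠ 0 := (QQ_monic m).ne_zero

theorem OrdX_Le (e : Fin 11 → ℕ) : OrdX (psi (Le k e)) (∑ i, e i) :=
  ⟨C (QQ k (Sp e)), psi_Le e, by simpa using QQ_ne _⟩

/-- membership in `AA` in terms of divisibility -/
theorem dvd_of_mem_RR {n : ℕ} {f : KK k} (hf : f ∈ RR k n) {e : Fin 11 → ℕ} {F : P3 k}
    (h : f * inc (Le k e) = inc F) (p : Fin 37) : (MvPolynomial.X 0 : P3 k) ^ Sp e p ∣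
      MvPolynomial.X 0 ^ n * th3 (xs k p) (ys k p) F :=
  (twist_mem_OO_iff h p n).mp (hf.2 p)

theorem X_dvd_of_mem_AA {f : KK k} (hf : f ∈ AA k) {e : Fin 11 → ℕ} {F : P3 k}
    (h : f * inc (Le k e) = inc F) : (X : S2 k) ^ (∑ i, e i) ∣ psi F := by
  rw [Polynomial.X_pow_dvd_iff]
  intro m hm
  by_contra hne
  have h1 := key_zero (fun p _ => by
    have := dvd_of_mem_RR (mem_AA_iff_RR.mp hf) h p
    simpa using this) m hne
  omega

theorem AA_sub_VB {A : ℕ} {f : KK k} (hf : f ∈ AA k) : f ∈ VB k A 0 := by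
  obtain ⟨e, F, h⟩ := (mem_AA.mp hf).1
  exact ⟨F, Le k e, _, _, h, OrdX_Le e, X_dvd_of_mem_AA hf h, by linarith⟩

theorem RR_sub_VB {n N : ℕ} (hn : 1 ≤ n) {f : KK k} (hf : f ∈ RR k n) :
    f ∈ VB k (3 * N) (N - 12 * n * N) := by
  obtain ⟨e, F, h⟩ := hf.1
  refine ⟨F, Le k e, ∑ i, e i, (3 * (∑ i, e i) + 3 - 12 * n) / 3, h, OrdX_Le e, ?_, ?_⟩
  · rw [Polynomial.X_pow_dvd_iff]
    intro m hm
    by_contra hne
    have h1 := key_bound hn (fun p _ => dvd_of_mem_RR hf h p) m hne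
    omega
  · have h1 : (3 * ((∑ i, e i : ℕ) : ℤ) + 1 - 12 * n : ℤ) ≤
        3 * (((3 * (∑ i, e i) + 3 - 12 * n) / 3 : ℕ) : ℤ) := by omega
    have h2 : (N : ℤ) * (3 * ((∑ i, e i : ℕ) : ℤ) + 1 - 12 * n : ℤ) ≤
        N * (3 * (((3 * (∑ i, e i) + 3 - 12 * n) / 3 : ℕ) : ℤ)) :=
      mul_le_mul_of_nonneg_left h1 (by positivity)
    push_cast at h2 ⊢
    linarith

/-! ## the maximal ideal -/

/-- The maximal ideal of the vertex. -/
def mm (k : Type) [Field k] [CharZero k] : Ideal (AA k) where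
  carrier := {f | ∃ (e : Fin 11 → ℕ) (F : P3 k), (f : KK k) * inc (Le k e) = inc F ∧
    (X : S2 k) ^ (∑ i, e i + 1) ∣ psi F}
  add_mem' := by
    rintro f g ⟨e, F, h1, h2⟩ ⟨e', F', h1', h2'⟩
    refine ⟨e + e', F * Le k e' + F' * Le k e, ?_, ?_⟩
    · rw [Le_add, map_add, map_mul, map_mul, map_mul, ← h1, ← h1']
      push_cast
      ring
    · rw [map_add, map_mul, map_mul]
      have h3 : ∑ i, (e + e') i + 1 = (∑ i, e i + 1) + ∑ i, e' i := by
        simp only [Pi.add_apply, Finset.sum_add_distrib]; ring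
      have h4 : ∑ i, (e + e') i + 1 = (∑ i, e' i + 1) + ∑ i, e i := by
        simp only [Pi.add_apply, Finset.sum_add_distrib]; ring
      apply dvd_add
      · rw [h3, pow_add]
        exact mul_dvd_mul h2 ⟨_, psi_Le e'⟩
      · rw [h4, pow_add]
        exact mul_dvd_mul h2' ⟨_, psi_Le e⟩
  zero_mem' := ⟨0, 0, by simp, by simp⟩
  smul_mem' := by
    rintro g f ⟨e, F, h1, h2⟩
    obtain ⟨e', G, h3⟩ := (mem_AA.mp g.2).1
    refine ⟨e + e', F * G, ?_, ?_⟩
    · rw [Le_add, map_mul, map_mul, ← h1, ← h3]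
      simp only [smul_eq_mul, MulMemClass.coe_mul]
      ring
    · rw [map_mul]
      have h4 : ∑ i, (e + e') i + 1 = (∑ i, e i + 1) + ∑ i, e' i := by
        simp only [Pi.add_apply, Finset.sum_add_distrib]; ring
      rw [h4, pow_add]
      exact mul_dvd_mul h2 (X_dvd_of_mem_AA g.2 h3)

theorem mem_mm {f : AA k} : f ∈ mm k ↔ ∃ (e : Fin 11 → ℕ) (F : P3 k),
    (f : KK k) * inc (Le k e) = inc F ∧ (X : S2 k) ^ (∑ i, e i + 1) ∣ psi F := Iff.rfl

theorem algebraMap_not_mem_mm {c : k} (hc : c ≠ 0) : algebraMap k (AA k) c ∉ mm k := by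
  rintro ⟨e, F, h1, h2⟩
  have h3 : F = MvPolynomial.C c * Le k e := by
    apply inc_inj
    rw [← h1, map_mul, ← MvPolynomial.algebraMap_eq, AlgHom.commutes]
    rfl
  have h4 : OrdX (psi F) (∑ i, e i) := by
    rw [h3, map_mul, psi_C, ← zero_add (∑ i, e i)]
    exact (OrdX_C (by simpa using hc)).mul (OrdX_Le e)
  have := h4.le_of_dvd h2
  omega

theorem exists_const (f : AA k) : ∃ c : k, f - algebraMap k (AA k) c ∈ mm k := by
  obtain ⟨e, F, h⟩ := (mem_AA.mp f.2).1
  have h0 : ∃ c : k, (psi F).coeff (∑ i, e i) = C c * QQ k (Sp e) := by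
    by_cases h1 : (psi F).coeff (∑ i, e i) = 0
    · exact ⟨0, by rw [h1]; simp⟩
    · exact (key_zero (fun p _ => by
        have := dvd_of_mem_RR (mem_AA_iff_RR.mp f.2) h p
        simpa using this) _ h1).2 rfl
  obtain ⟨c, hc⟩ := h0
  refine ⟨c, e, F - MvPolynomial.C c * Le k e, ?_, ?_⟩
  · rw [map_sub, map_mul, ← h, ← MvPolynomial.algebraMap_eq, AlgHom.commutes]
    have : ((f - algebraMap k (AA k) c : AA k) : KK k) = (f : KK k) - algebraMap k (KK k) c := rfl
    rw [this]; ring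
  · rw [Polynomial.X_pow_dvd_iff]
    intro m hm
    rw [map_sub, map_mul, psi_C, psi_Le, Polynomial.coeff_sub, Polynomial.coeff_C_mul,
      Polynomial.coeff_mul_C, Polynomial.coeff_X_pow]
    rcases Nat.lt_succ_iff_lt_or_eq.mp hm with h1 | h1
    · rw [if_neg (by omega), (Polynomial.X_pow_dvd_iff.mp (X_dvd_of_mem_AA f.2 h)) m h1]
      simp
    · rw [h1, if_pos rfl, hc]; ring

instance mm_isMaximal : (mm k).IsMaximal := by
  rw [Ideal.isMaximal_iff]
  refine ⟨?_, ?_⟩
  · have := algebraMap_not_mem_mm (k := k) (c := 1) one_ne_zero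
    rwa [map_one] at this
  · intro J x hJ hx hxJ
    obtain ⟨c, hc⟩ := exists_const x
    have hc0 : c ≠ 0 := by
      rintro rfl
      rw [map_zero, sub_zero] at hc
      exact hx hc
    have h1 : algebraMap k (AA k) c ∈ J := by
      have := J.sub_mem hxJ (hJ hc)
      rwa [sub_sub_cancel] at this
    have h2 := J.mul_mem_left (algebraMap k (AA k) c⁻¹) h1
    rwa [← map_mul, inv_mul_cancel₀ hc0, map_one] at h2

/-- elements outside the maximal ideal have exact order zero -/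
theorem exists_ordX_of_not_mem {s : AA k} (hs : s ∉ mm k) :
    ∃ (e : Fin 11 → ℕ) (S : P3 k), (s : KK k) * inc (Le k e) = inc S ∧
      OrdX (psi S) (∑ i, e i) := by
  obtain ⟨c, hc⟩ := exists_const s
  have hc0 : c ≠ 0 := by
    rintro rfl
    rw [map_zero, sub_zero] at hc
    exact hs hc
  obtain ⟨e, T, h1, h2⟩ := mem_mm.mp hc
  refine ⟨e, T + MvPolynomial.C c * Le k e, ?_, ?_⟩
  · rw [map_add, map_mul, ← h1, ← MvPolynomial.algebraMap_eq, AlgHom.commutes]
    have : ((s - algebraMap k (AA k) c : AA k) : KK k) = (s : KK k) - algebraMap k (KK k) c := rfl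
    rw [this]; ring
  · obtain ⟨H, hH⟩ := h2
    refine ⟨X * H + C (C c) * C (QQ k (Sp e)), ?_, ?_⟩
    · rw [map_add, map_mul, psi_C, psi_Le, hH]; ring
    · rw [Polynomial.coeff_add, Polynomial.coeff_X_mul_zero, zero_add, ← C_mul,
        Polynomial.coeff_C_zero]
      exact mul_ne_zero (by simpa using hc0) (QQ_ne _)

theorem div_mem_VB {A : ℕ} {c : ℤ} {f : KK k} {s : AA k} (hs : s ∉ mm k)
    (h : f * (s : KK k) ∈ VB k A c) : f ∈ VB k A c := by
  obtain ⟨e, S, h1, h2⟩ := exists_ordX_of_not_mem hs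
  obtain ⟨F, T, m, e', h3, h4, h5, h6⟩ := h
  refine ⟨F * Le k e, T * S, m + ∑ i, e i, e' + ∑ i, e i, ?_, ?_, ?_, ?_⟩
  · rw [map_mul, map_mul, ← h1, ← h3]; ring
  · rw [map_mul]; exact h4.mul h2
  · rw [map_mul, pow_add]; exact mul_dvd_mul h5 ⟨_, psi_Le e⟩
  · push_cast at h6 ⊢
    linarith

/-! ## homogenisation -/

omit [CharZero k] in
/-- homogenisation in degree `d` -/
def hmg (d : ℕ) (F : S2 k) : P3 k :=
  ∑ j ∈ Finset.range (d + 1), ∑ i ∈ Finset.range (d + 1 - j),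
    MvPolynomial.C ((F.coeff j).coeff i) * MvPolynomial.X 0 ^ i * MvPolynomial.X 1 ^ j *
      MvPolynomial.X 2 ^ (d - i - j)

omit [CharZero k] in
theorem eq_sum_of_mem_Deg {d : ℕ} {F : S2 k} (hF : F ∈ Deg k d) :
    F = ∑ j ∈ Finset.range (d + 1), ∑ i ∈ Finset.range (d + 1 - j),
      C (C ((F.coeff j).coeff i)) * (C X) ^ i * X ^ j := by
  ext m n
  simp only [Polynomial.finsetSum_coeff]
  have h1 : ∀ j i, ((C (C ((F.coeff j).coeff i)) * (C X) ^ i * X ^ j : S2 k).coeff m).coeff n =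
      if m = j ∧ n = i then (F.coeff j).coeff i else 0 := by
    intro j i
    rw [← C_pow, ← C_mul, Polynomial.coeff_C_mul, Polynomial.coeff_X_pow]
    by_cases hm : m = j
    · by_cases hn : n = i
      · rw [if_pos hm, mul_one, Polynomial.coeff_C_mul, Polynomial.coeff_X_pow, if_pos hn,
          if_pos ⟨hm, hn⟩, mul_one]
      · rw [if_pos hm, mul_one, Polynomial.coeff_C_mul, Polynomial.coeff_X_pow, if_neg hn,
          if_neg (fun h => hn h.2), mul_zero]
    · rw [if_neg hm, mul_zero, Polynomial.coeff_zero, if_neg (fun h => hm h.1)]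
  simp only [h1]
  by_cases h : m + n ≤ d
  · rw [Finset.sum_eq_single m, Finset.sum_eq_single n]
    · simp
    · intro i _ hi
      rw [if_neg (fun h => hi h.2.symm)]
    · intro hn
      exact absurd (Finset.mem_range.mpr (by omega)) hn
    · intro j _ hj
      apply Finset.sum_eq_zero
      intro i _
      rw [if_neg (fun h => hj h.1.symm)]
    · intro hm
      exact absurd (Finset.mem_range.mpr (by omega)) hm
  · rw [hF n m (by omega)]
    symm
    apply Finset.sum_eq_zero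
    intro j hj
    apply Finset.sum_eq_zero
    intro i hi
    rw [Finset.mem_range] at hi hj
    rw [if_neg (by rintro ⟨rfl, rfl⟩; omega)]

omit [CharZero k] in
theorem map_hmg {B : Type*} [CommRing B] [Algebra k B] {d : ℕ} {F : S2 k} (hF : F ∈ Deg k d)
    (ρ : P3 k →ₐ[k] B) (χ : S2 k →ₐ[k] B) (h0 : ρ (MvPolynomial.X 0) = χ (C X) * ρ (MvPolynomial.X 2))
    (h1 : ρ (MvPolynomial.X 1) = χ X * ρ (MvPolynomial.X 2)) :
    ρ (hmg d F) = ρ (MvPolynomial.X 2) ^ d * χ F := by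
  conv_rhs => rw [eq_sum_of_mem_Deg hF]
  unfold hmg
  simp only [map_sum, Finset.mul_sum]
  apply Finset.sum_congr rfl
  intro j hj
  apply Finset.sum_congr rfl
  intro i hi
  rw [Finset.mem_range] at hi hj
  have h2 : ρ (MvPolynomial.C ((F.coeff j).coeff i)) = χ (C (C ((F.coeff j).coeff i))) := by
    rw [← MvPolynomial.algebraMap_eq, AlgHom.commutes]
    have : (C (C ((F.coeff j).coeff i)) : S2 k) = algebraMap k (S2 k) ((F.coeff j).coeff i) := by
      simp [Polynomial.algebraMap_apply]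
    rw [this, AlgHom.commutes]
  simp only [map_mul, map_pow]
  rw [h2, h0, h1]
  have h3 : d = i + j + (d - i - j) := by omega
  conv_rhs => rw [h3]
  rw [pow_add, pow_add, mul_pow, mul_pow]
  ring

omit [CharZero k] in
theorem psi_hmg {d : ℕ} {F : S2 k} (hF : F ∈ Deg k d) :
    psi (hmg d F) = X ^ d * C (ev (gG k) F) := by
  let χ : S2 k →ₐ[k] S2 k := (Polynomial.CAlgHom).comp (ev (gG k))
  have hχ : ∀ G, χ G = C (ev (gG k) G) := fun G => rfl
  rw [map_hmg hF psi χ]
  · rw [psi_X2, hχ]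
  · rw [psi_X0, hχ, ev_C, psi_X2]
  · rw [psi_X1, hχ, ev_X, psi_X2]

omit [CharZero k] in
theorem th3_hmg_dvd {d : ℕ} {F : S2 k} (hF : F ∈ Deg k d) {a b : k} {M : ℕ}
    (h : (X : S2 k) ^ M ∣ th a b F) :
    (MvPolynomial.X 0 : P3 k) ^ M ∣ th3 a b (hmg d F) := by
  have hz : inc (MvPolynomial.X 2 : P3 k) ≠ 0 := inc_ne (MvPolynomial.X_ne_zero 2)
  -- the substitution `w ↦ Y`, `α ↦ X / Z`
  let χ : S2 k →ₐ[k] KK k := Polynomial.eval₂AlgHom (aeval (inc (MvPolynomial.X 1 : P3 k)))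
    (inc (MvPolynomial.X 0) / inc (MvPolynomial.X 2)) (fun _ => Commute.all _ _)
  have hχC : χ (C X) = inc (MvPolynomial.X 1) := by simp [χ]
  have hχX : χ X = inc (MvPolynomial.X 0) / inc (MvPolynomial.X 2) := by simp [χ]
  have hχc : ∀ c : k, χ (C (C c)) = inc (MvPolynomial.C c) := by
    intro c
    rw [← MvPolynomial.algebraMap_eq, AlgHom.commutes]
    have : (C (C c) : S2 k) = algebraMap k (S2 k) c := by simp [Polynomial.algebraMap_apply]
    rw [this, AlgHom.commutes]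
  have h1 : inc (th3 a b (hmg d F)) = inc (MvPolynomial.X 2) ^ d * χ (th a b F) := by
    have := map_hmg hF ((inc (k := k)).comp (th3 a b)) (χ.comp (th a b)) ?_ ?_
    · simpa using this
    · simp only [AlgHom.comp_apply, th3_X0, th3_X2, th_C, aeval_X, map_add, map_mul]
      rw [hχc, hχX]
      field_simp
    · simp only [AlgHom.comp_apply, th3_X1, th3_X2, th_X, map_add, map_mul]
      rw [hχc, hχX, hχC]
      field_simp
  obtain ⟨H, hH⟩ := h
  -- clear denominators
  obtain ⟨D, G, hG⟩ : ∃ (D : ℕ) (G : P3 k), inc (MvPolynomial.X 2) ^ D * χ H = inc G := by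
    refine ⟨(dl k H).natDegree, MvPolynomial.aeval ![MvPolynomial.X 1 * MvPolynomial.X 2,
      MvPolynomial.X 0, MvPolynomial.X 2] (hmg (dl k H).natDegree H), ?_⟩
    have := map_hmg (mem_Deg_iff.mpr (le_refl (dl k H).natDegree))
      ((inc (k := k)).comp (MvPolynomial.aeval ![MvPolynomial.X 1 * MvPolynomial.X 2,
      MvPolynomial.X 0, MvPolynomial.X 2])) χ ?_ ?_
    · rw [AlgHom.comp_apply] at this
      rw [this]
      simp
    · rw [hχC]; simp
    · rw [hχX]; simp [hz]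
  rw [hH, map_mul, map_pow, hχX] at h1
  have h2 : (MvPolynomial.X 2 : P3 k) ^ (D + M) * th3 a b (hmg d F) =
      MvPolynomial.X 0 ^ M * (MvPolynomial.X 2 ^ d * G) := by
    apply inc_inj
    simp only [map_mul, map_pow]
    rw [h1, ← hG, div_pow, pow_add]
    field_simp
  have h3 : (MvPolynomial.X 0 : P3 k) ^ M ∣
      MvPolynomial.X 2 ^ (D + M) * th3 a b (hmg d F) := ⟨_, h2⟩
  refine X0_prime.pow_dvd_of_dvd_mul_left M ?_ h3
  apply not_X0_dvd_pow
  apply not_X0_dvd
  simp [ev0, MvPolynomial.X_ne_zero]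

/-! ## the special elements -/

/-- pole orders -/
def eE (l : ℕ) : Fin 11 → ℕ := fun i => l * (EE i).toNat

theorem EE_nonneg : ∀ i, 0 ≤ EE i := by decide +kernel

theorem Sp_eE (l : ℕ) (p : Fin 37) : Sp (eE l) p = l * (MM p).toNat + 14 * l := by
  have h1 := MM_eq p
  have h2 := MM_nonneg p
  have h3 : ((Sp (eE l) p : ℕ) : ℤ) = l * ∑ i, (if OnI i p then EE i else 0) := by
    unfold Sp eE
    rw [Nat.cast_sum, Finset.mul_sum]
    apply Finset.sum_congr rfl
    intro i _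
    split_ifs
    · rw [Nat.cast_mul, Int.toNat_of_nonneg (EE_nonneg i)]
    · simp
  have h4 : ((l * (MM p).toNat + 14 * l : ℕ) : ℤ) = l * (MM p + 14) := by
    push_cast
    rw [Int.toNat_of_nonneg h2]; ring
  have h5 : (∑ i, (if OnI i p then EE i else 0)) = MM p + 14 := by linarith
  have h6 : ((Sp (eE l) p : ℕ) : ℤ) = ((l * (MM p).toNat + 14 * l : ℕ) : ℤ) := by
    rw [h3, h4, h5]
  exact_mod_cast h6

theorem sum_eE (l : ℕ) : ∑ i, eE l i = 83 * l := by
  have h1 : ∑ i, (EE i).toNat = 83 := by decide +kernel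
  unfold eE
  rw [← Finset.mul_sum, h1]; ring

/-- For every `l` there is an element of the module in degree `14 l` with small order. -/
theorem exists_special (k : Type) [Field k] [CharZero k] (l : ℕ) :
    ∃ f : KK k, f ∈ RR k (14 * l) ∧ ∀ (A : ℕ) (c : ℤ), f ∈ VB k A c → c + A * (83 * l) ≤
      A * (27 * l + 8) := by
  obtain ⟨F, h1, h2, h3⟩ := exists_curve (k := k) l
  have hL : inc (Le k (eE l)) ≠ 0 := inc_ne (Le_ne _)
  have hf : (inc (hmg (27 * l + 8) F) / inc (Le k (eE l))) * inc (Le k (eE l)) =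
      inc (hmg (27 * l + 8) F) := div_mul_cancel₀ _ hL
  refine ⟨inc (hmg (27 * l + 8) F) / inc (Le k (eE l)), ⟨⟨_, _, hf⟩, fun p => ?_⟩, ?_⟩
  · rw [twist_mem_OO_iff hf p, Sp_eE, pow_add, mul_comm]
    exact mul_dvd_mul_left _ (th3_hmg_dvd h1 (h2 p))
  · intro A c hc
    have h4 := VB_bound hc hf (a := 27 * l + 8) (b := 83 * l) ?_ ?_
    · push_cast at h4; exact h4
    · rw [psi_hmg h1]
      have := (OrdX_X_pow (k := k) (27 * l + 8)).mul (OrdX_C h3)
      simpa using this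
    · have := OrdX_Le (k := k) (eE l)
      rwa [sum_eE] at this

/-! ## the core argument -/

/-- **Non finite generation.** -/
theorem not_fg_core {O : Type*} [CommRing O] [Algebra O (KK k)]
    (hO : ∀ x : O, ∃ s : AA k, s ∉ mm k ∧ algebraMap O (KK k) x * (s : KK k) ∈ AA k)
    (R : Subalgebra O (KK k)[X])
    (hR : ∀ P ∈ R, ∀ n, 1 ≤ n → ∃ s : AA k, s ∉ mm k ∧ P.coeff n * (s : KK k) ∈ RR k n)
    (hR0 : ∀ P ∈ R, ∃ s : AA k, s ∉ mm k ∧ P.coeff 0 * (s : KK k) ∈ AA k)
    (hR' : ∀ n, ∀ f ∈ RR k n, monomial n f ∈ R) : ¬ R.FG := by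
  rintro ⟨S, hS⟩
  obtain ⟨N, hN1, hN⟩ : ∃ N : ℕ, 1 ≤ N ∧ ∀ P ∈ S, P.natDegree ≤ N := by
    refine ⟨S.sup Polynomial.natDegree + 1, by omega, fun P hP => ?_⟩
    have := Finset.le_sup (f := Polynomial.natDegree) hP
    omega
  have hO' : ∀ x : O, algebraMap O (KK k) x ∈ VB k (3 * N) 0 := by
    intro x
    obtain ⟨s, hs, h⟩ := hO x
    exact div_mem_VB hs (AA_sub_VB h)
  -- the subalgebra of elements satisfying the linear bound
  let T : Subalgebra O (KK k)[X] :=
    { carrier := {P | ∀ n : ℕ, P.coeff n ∈ VB k (3 * N) (n - 12 * n * N)}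
      mul_mem' := by
        intro P Q hP hQ n
        rw [Polynomial.coeff_mul]
        have h0 : ∀ s : Finset (ℕ × ℕ), (∀ x ∈ s, x.1 + x.2 = n) →
            ∑ x ∈ s, P.coeff x.1 * Q.coeff x.2 ∈ VB k (3 * N) (n - 12 * n * N) := by
          intro s
          induction s using Finset.induction_on with
          | empty => intro _; simp only [Finset.sum_empty]; exact VB_zero_mem _ (by omega)
          | insert a s ha ih =>
            intro hs
            rw [Finset.sum_insert ha]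
            apply VB_add
            · refine VB_mono ?_ (VB_mul (hP a.1) (hQ a.2))
              have h1 := hs a (Finset.mem_insert_self _ _)
              have h2 : (a.1 : ℤ) + a.2 = n := by exact_mod_cast h1
              rw [← h2]
              apply le_of_eq
              ring
            · exact ih (fun x hx => hs x (Finset.mem_insert_of_mem hx))
        exact h0 _ (fun x hx => Finset.HasAntidiagonal.mem_antidiagonal.mp hx)
      add_mem' := by
        intro P Q hP hQ n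
        rw [Polynomial.coeff_add]
        exact VB_add (hP n) (hQ n)
      algebraMap_mem' := by
        intro x n
        rw [Polynomial.algebraMap_apply, Polynomial.coeff_C]
        split_ifs with h
        · subst h
          refine VB_mono (by simp) (hO' x)
        · exact VB_zero_mem _ (by omega) }
  have hST : (S : Set (KK k)[X]) ⊆ T := by
    intro P hP n
    have hPR : P ∈ R := by rw [← hS]; exact Algebra.subset_adjoin hP
    by_cases hn : n ≤ N
    · rcases Nat.eq_zero_or_pos n with h0 | h0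
      · subst h0
        obtain ⟨s, hs, h⟩ := hR0 P hPR
        exact VB_mono (by simp) (div_mem_VB hs (AA_sub_VB (A := 3 * N) h))
      · obtain ⟨s, hs, h⟩ := hR P hPR n h0
        refine VB_mono ?_ (div_mem_VB hs (RR_sub_VB (N := N) h0 h))
        have : (n : ℤ) ≤ N := by exact_mod_cast hn
        linarith
    · rw [Polynomial.coeff_eq_zero_of_natDegree_lt (by have := hN P hP; omega)]
      exact VB_zero_mem _ (by omega)
  have hRT : R ≤ T := by
    rw [← hS]
    exact Algebra.adjoin_le hST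
  obtain ⟨f, hf1, hf2⟩ := exists_special k (2 * N)
  have h1 := hRT (hR' _ f hf1) (14 * (2 * N))
  rw [Polynomial.coeff_monomial_same] at h1
  have h2 := hf2 _ _ h1
  have h3 : (1 : ℤ) ≤ N := by exact_mod_cast hN1
  push_cast at h2
  nlinarith

end

end Pool.Agent.J6H82.Kollar
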