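import Pool.Agent.J6H82.Kollar.CanonDefs
import Pool.Agent.J6H82.Kollar.Non2

/-!
# Differentials: linear algebra
-/

namespace Pool.Agent.J6H82.Kollar

noncomputable section

set_option maxHeartbeats 400000

open MvPolynomial Module

variable {k : Type} [Field k]

/-! ## alternating maps and determinants -/

theorem alt_det {K M : Type*} [Field K] [AddCommGroup M] [Module K M] (f : M [⋀^Fin 3]→ₗ[K] K)
    (v m : Fin 3 → M) (a : Fin 3 → Fin 3 → K) (h : ∀ j, m j = ∑ i, a j i • v i) :
    f m = Matrix.det (Matrix.of a) * f v := by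
  let g : (Fin 3 → K) →ₗ[K] M := Fintype.linearCombination K v
  have h1 : (f.compLinearMap g) = (f.compLinearMap g) (Pi.basisFun K (Fin 3)) •
    (Pi.basisFun K (Fin 3)).det := AlternatingMap.eq_smul_basis_det _ _
  have h2 : f m = (f.compLinearMap g) (fun j => a j) := by
    rw [AlternatingMap.compLinearMap_apply]
    congr 1
    ext j
    rw [h j]
    simp [g, Fintype.linearCombination_apply]
  have h3 : (f.compLinearMap g) (Pi.basisFun K (Fin 3)) = f v := by
    rw [AlternatingMap.compLinearMap_apply]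
    congr 1
    ext j
    simp [g, Fintype.linearCombination_apply, Pi.single_apply]
  rw [h2, h1, h3, AlternatingMap.smul_apply, Pi.basisFun_det, smul_eq_mul, mul_comm]
  rfl

theorem det_mem {K : Type*} [Field K] [Algebra k K] (R' : Subalgebra k K) (a : Fin 3 → Fin 3 → K)
    (h : ∀ i j, a i j ∈ R') : Matrix.det (Matrix.of a) ∈ R' := by
  rw [Matrix.det_apply]
  apply R'.sum_mem
  intro σ _
  rw [Units.smul_def, zsmul_eq_mul]
  apply R'.mul_mem (intCast_mem R' _)
  apply R'.prod_mem
  intro i _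
  exact h _ _

/-- the `R'`-span of three vectors -/
def InSpan {K M : Type*} [Field K] [AddCommGroup M] [Module K M] [Algebra k K]
    (R' : Subalgebra k K) (v : Fin 3 → M) (m : M) : Prop :=
  ∃ a : Fin 3 → K, (∀ i, a i ∈ R') ∧ m = ∑ i, a i • v i

theorem alt_mem {K M : Type*} [Field K] [AddCommGroup M] [Module K M] [Algebra k K]
    (f : M [⋀^Fin 3]→ₗ[K] K) (R' : Subalgebra k K) (v m : Fin 3 → M)
    (h : ∀ j, InSpan R' v (m j)) : ∃ r ∈ R', f m = r * f v := by
  choose a ha h' using h
  exact ⟨_, det_mem R' a ha, alt_det f v m a h'⟩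

section InSpan

variable {K M : Type*} [Field K] [AddCommGroup M] [Module K M] [Algebra k K]
  {R' : Subalgebra k K} {v : Fin 3 → M}

theorem InSpan.add {m n : M} (h : InSpan R' v m) (h' : InSpan R' v n) : InSpan R' v (m + n) := by
  obtain ⟨a, ha, rfl⟩ := h
  obtain ⟨b, hb, rfl⟩ := h'
  exact ⟨a + b, fun i => R'.add_mem (ha i) (hb i), by
    simp [add_smul, Finset.sum_add_distrib]⟩

theorem InSpan.smul {m : M} {r : K} (hr : r ∈ R') (h : InSpan R' v m) : InSpan R' v (r • m) := by
  obtain ⟨a, ha, rfl⟩ := h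
  exact ⟨fun i => r * a i, fun i => R'.mul_mem hr (ha i), by
    simp [Finset.smul_sum, mul_smul]⟩

theorem InSpan.zero : InSpan R' v (0 : M) := ⟨0, fun _ => R'.zero_mem, by simp⟩

theorem InSpan.basis (i : Fin 3) : InSpan R' v (v i) := by
  refine ⟨Pi.single i 1, fun j => ?_, ?_⟩
  · by_cases h : j = i
    · subst h; simpa using R'.one_mem
    · simp [h, R'.zero_mem]
  · rw [Finset.sum_eq_single i]
    · simp
    · intro j _ hj
      simp [hj]
    · simp

/-- the subalgebra of elements of `R'` whose differential is in the span -/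
def dSub [Module k M] [IsScalarTower k K M] (d : Derivation k K M) (R' : Subalgebra k K)
    (v : Fin 3 → M) : Subalgebra k K where
  carrier := {f | f ∈ R' ∧ InSpan R' v (d f)}
  mul_mem' := by
    rintro f g ⟨h1, h2⟩ ⟨h3, h4⟩
    refine ⟨R'.mul_mem h1 h3, ?_⟩
    rw [d.leibniz]
    exact (h4.smul h1).add (h2.smul h3)
  add_mem' := by
    rintro f g ⟨h1, h2⟩ ⟨h3, h4⟩
    refine ⟨R'.add_mem h1 h3, ?_⟩
    rw [map_add]
    exact h2.add h4
  algebraMap_mem' := by
    intro r
    refine ⟨R'.algebraMap_mem r, ?_⟩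
    rw [d.map_algebraMap]
    exact InSpan.zero

theorem mem_dSub [Module k M] [IsScalarTower k K M] {d : Derivation k K M} {f : K} :
    f ∈ dSub d R' v ↔ f ∈ R' ∧ InSpan R' v (d f) := Iff.rfl

theorem dSub_inv [Module k M] [IsScalarTower k K M] {d : Derivation k K M} {f : K}
    (h : f ∈ dSub d R' v) (hf : f⁻¹ ∈ R') : f⁻¹ ∈ dSub d R' v := by
  refine ⟨hf, ?_⟩
  rw [d.leibniz_inv]
  have h1 : -f⁻¹ ^ 2 ∈ R' := R'.neg_mem (R'.pow_mem hf 2)
  exact h.2.smul h1

end InSpan

/-! ## the differentials of the function field -/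

/-- the basis `dX, dY, dZ` -/
def dBasis (k : Type) [Field k] : Basis (Fin 3) (KK k) Ω[KK k⁄k] :=
  (KaehlerDifferential.mvPolynomialBasis k (Fin 3)).ofIsLocalizedModule (KK k)
    (nonZeroDivisors (P3 k)) (KaehlerDifferential.map k k (P3 k) (KK k))

theorem dBasis_apply (i : Fin 3) : dBasis k i = KaehlerDifferential.D k (KK k) (inc (X i)) := by
  unfold dBasis
  rw [Basis.ofIsLocalizedModule_apply]
  have h1 : KaehlerDifferential.mvPolynomialBasis k (Fin 3) i = KaehlerDifferential.D k (P3 k) (X i) := by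
    apply (KaehlerDifferential.mvPolynomialBasis k (Fin 3)).repr.injective
    rw [Basis.repr_self, KaehlerDifferential.mvPolynomialBasis_repr_D_X]
  rw [h1, KaehlerDifferential.map_D]
  rfl

theorem finrank_Omega : finrank (KK k) Ω[KK k⁄k] = 3 := by
  rw [finrank_eq_card_basis (dBasis k)]; simp

/-- the form `dX ∧ dY ∧ dZ` -/
theorem exists_form (k : Type) [Field k] : ∃ ω : Ω[KK k⁄k] [⋀^Fin 3]→ₗ[KK k] KK k,
    ω (fun i => KaehlerDifferential.D k (KK k) (inc (X i))) = 1 := by
  refine ⟨(dBasis k).det, ?_⟩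
  have h2 : (fun i => KaehlerDifferential.D k (KK k) (inc (X i))) = dBasis k := by
    ext i; rw [dBasis_apply]
  rw [h2]
  exact (dBasis k).det_self

/-- the chain rule -/
theorem D_map {K M : Type*} [Field K] [Algebra k K] [AddCommGroup M] [Module K M] [Module k M]
    [IsScalarTower k K M] (d : Derivation k K M) (ρ : P3 k →ₐ[k] K) (F : P3 k) :
    d (ρ F) = ∑ i, ρ (pderiv i F) • d (ρ (X i)) := by
  induction F using MvPolynomial.induction_on with
  | C c =>
    rw [← MvPolynomial.algebraMap_eq, AlgHom.commutes, d.map_algebraMap]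
    symm
    apply Finset.sum_eq_zero
    intro i _
    rw [(pderiv i).map_algebraMap, map_zero, zero_smul]
  | add p q hp hq =>
    rw [map_add, map_add, hp, hq, ← Finset.sum_add_distrib]
    apply Finset.sum_congr rfl
    intro i _
    rw [map_add, map_add, add_smul]
  | mul_X p j hp =>
    rw [map_mul, d.leibniz, hp, Finset.smul_sum]
    have h1 : ∀ i, ρ (pderiv i (p * X j)) • d (ρ (X i)) =
        (if i = j then ρ p • d (ρ (X j)) else 0) + ρ (X j) • (ρ (pderiv i p) • d (ρ (X i))) := by
      intro i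
      rw [(pderiv i).leibniz, map_add, smul_eq_mul, smul_eq_mul, map_mul, map_mul, add_smul,
        mul_smul, mul_smul]
      congr 1
      by_cases h : i = j
      · subst h; rw [pderiv_X_self, map_one, one_smul, if_pos rfl]
      · rw [pderiv_X_of_ne (fun h' => h h'.symm), map_zero, zero_smul, smul_zero, if_neg h]
    rw [Finset.sum_congr rfl (fun i _ => h1 i), Finset.sum_add_distrib, Finset.sum_ite_eq' ,
      if_pos (Finset.mem_univ j)]

end

end Pool.Agent.J6H82.Kollar
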