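import Pool.Agent.J6H82.Kollar.Canon1

/-!
# The canonical algebra of the threefold
-/

namespace Pool.Agent.J6H82.Kollar

noncomputable section

set_option maxHeartbeats 400000

open MvPolynomial Module

variable {k : Type} [Field k]

theorem kap_mem_OO (a b : k) (F : P3 k) : kap a b F ∈ OO a b :=
  ⟨F, 1, not_X0_dvd_one, by rw [map_one, mul_one]⟩

theorem kap_inv_mem_OO {a b : k} {G : P3 k} (hG : ¬ (X 0 : P3 k) ∣ G) :
    (kap a b G)⁻¹ ∈ OO a b := by
  have hG0 : G ≠ 0 := by rintro rfl; exact hG (dvd_zero _)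
  exact ⟨1, G, hG, by rw [map_one, inv_mul_cancel₀ (kap_ne hG0)]⟩

theorem inc_Le_inv_mem (e : Fin 11 → ℕ) : (inc (Le k e))⁻¹ ∈ WW k :=
  ⟨e, 1, by rw [map_one, inv_mul_cancel₀ (inc_ne (Le_ne e))]⟩

variable [CharZero k]

theorem AA_le_WW : AA k ≤ WW k := fun _ h => (mem_AA.mp h).1

theorem AA_le_OO (p : Fin 37) : AA k ≤ OO (xs k p) (ys k p) := fun _ h => (mem_AA.mp h).2 p

/-- localisation at the maximal ideal of an algebra containing `AA k` -/
def locm (T : Subalgebra k (KK k)) (hT : AA k ≤ T) : Subalgebra k (KK k) where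
  carrier := {x | ∃ s : AA k, s ∉ mm k ∧ x * (s : KK k) ∈ T}
  mul_mem' := by
    rintro x y ⟨s, hs, h⟩ ⟨t, ht, h'⟩
    refine ⟨s * t, fun hst => ?_, ?_⟩
    · rcases (mm_isMaximal (k := k)).isPrime.mem_or_mem hst with h1 | h1
      · exact hs h1
      · exact ht h1
    · have := T.mul_mem h h'
      rwa [show x * (s : KK k) * (y * (t : KK k)) = x * y * ((s * t : AA k) : KK k) by
        push_cast; ring] at this
  add_mem' := by
    rintro x y ⟨s, hs, h⟩ ⟨t, ht, h'⟩
    refine ⟨s * t, fun hst => ?_, ?_⟩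
    · rcases (mm_isMaximal (k := k)).isPrime.mem_or_mem hst with h1 | h1
      · exact hs h1
      · exact ht h1
    · have := T.add_mem (T.mul_mem h (hT t.2)) (T.mul_mem h' (hT s.2))
      rwa [show x * (s : KK k) * (t : KK k) + y * (t : KK k) * (s : KK k) =
        (x + y) * ((s * t : AA k) : KK k) by push_cast; ring] at this
  algebraMap_mem' := by
    intro r
    refine ⟨1, (Ideal.ne_top_iff_one _).mp (mm_isMaximal (k := k)).ne_top, ?_⟩
    simp only [OneMemClass.coe_one, mul_one]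
    exact T.algebraMap_mem r

theorem one_not_mem_mm : (1 : AA k) ∉ mm k :=
  (Ideal.ne_top_iff_one _).mp (mm_isMaximal (k := k)).ne_top

theorem mul_not_mem_mm {s t : AA k} (hs : s ∉ mm k) (ht : t ∉ mm k) : s * t ∉ mm k := by
  intro hst
  rcases (mm_isMaximal (k := k)).isPrime.mem_or_mem hst with h1 | h1
  · exact hs h1
  · exact ht h1

theorem mem_locm {T : Subalgebra k (KK k)} {hT : AA k ≤ T} {x : KK k} :
    x ∈ locm T hT ↔ ∃ s : AA k, s ∉ mm k ∧ x * (s : KK k) ∈ T := Iff.rfl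

theorem le_locm (T : Subalgebra k (KK k)) (hT : AA k ≤ T) : T ≤ locm T hT := by
  intro x hx
  exact ⟨1, one_not_mem_mm, by simpa using hx⟩

theorem coe_ne_of_not_mem {s : AA k} (hs : s ∉ mm k) : (s : KK k) ≠ 0 := by
  intro h
  apply hs
  have : s = 0 := Subtype.ext h
  rw [this]; exact (mm k).zero_mem

theorem inv_mem_locm {T : Subalgebra k (KK k)} {hT : AA k ≤ T} {s : AA k} (hs : s ∉ mm k) :
    (s : KK k)⁻¹ ∈ locm T hT :=
  ⟨s, hs, by rw [inv_mul_cancel₀ (coe_ne_of_not_mem hs)]; exact T.one_mem⟩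

theorem locm_mono {T T' : Subalgebra k (KK k)} {hT : AA k ≤ T} {hT' : AA k ≤ T'} (h : T ≤ T') :
    locm T hT ≤ locm T' hT' := by
  rintro x ⟨s, hs, hx⟩
  exact ⟨s, hs, h hx⟩

section der

variable {M : Type*} [AddCommGroup M] [Module (KK k) M] [Module k M] [IsScalarTower k (KK k) M]

theorem locm_le_dSub {T : Subalgebra k (KK k)} {hT : AA k ≤ T} {v : Fin 3 → M}
    {d : Derivation k (KK k) M} (h : T ≤ dSub d (locm T hT) v) :
    locm T hT ≤ dSub d (locm T hT) v := by
  rintro x ⟨s, hs, hx⟩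
  have h1 := h hx
  have h2 := dSub_inv (h (hT s.2)) (inv_mem_locm (hT := hT) hs)
  have h3 := (dSub d (locm T hT) v).mul_mem h1 h2
  rwa [mul_assoc, mul_inv_cancel₀ (coe_ne_of_not_mem hs), mul_one] at h3

theorem WW_le_dSub (d : Derivation k (KK k) M) :
    WW k ≤ dSub d (locm (WW k) AA_le_WW) (fun i => d (inc (X i))) := by
  have h0 : ∀ F : P3 k, inc F ∈ dSub d (locm (WW k) AA_le_WW) (fun i => d (inc (X i))) := by
    intro F
    refine ⟨le_locm _ _ (inc_mem_WW F), fun i => inc (pderiv i F),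
      fun i => le_locm _ _ (inc_mem_WW _), ?_⟩
    exact D_map d inc F
  rintro f ⟨e, F, h⟩
  have h1 := dSub_inv (h0 (Le k e)) (le_locm _ _ (inc_Le_inv_mem e))
  have h2 := (dSub d (locm (WW k) AA_le_WW) (fun i => d (inc (X i)))).mul_mem (h0 F) h1
  rwa [← h, mul_assoc, mul_inv_cancel₀ (inc_ne (Le_ne e)), mul_one] at h2

theorem OO_le_dSub (d : Derivation k (KK k) M) (p : Fin 37) :
    OO (xs k p) (ys k p) ≤ dSub d (locm (OO (xs k p) (ys k p)) (AA_le_OO p))
      (fun i => d (kap (xs k p) (ys k p) (X i))) := by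
  have h0 : ∀ F : P3 k, kap (xs k p) (ys k p) F ∈ dSub d
      (locm (OO (xs k p) (ys k p)) (AA_le_OO p)) (fun i => d (kap (xs k p) (ys k p) (X i))) := by
    intro F
    refine ⟨le_locm _ _ (kap_mem_OO _ _ F), fun i => kap (xs k p) (ys k p) (pderiv i F),
      fun i => le_locm _ _ (kap_mem_OO _ _ _), ?_⟩
    exact D_map d (kap (xs k p) (ys k p)) F
  rintro f ⟨F, G, hG, h⟩
  have hG0 : G ≠ 0 := by rintro rfl; exact hG (dvd_zero _)
  have h1 := dSub_inv (h0 G) (le_locm _ _ (kap_inv_mem_OO hG))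
  have h2 := (dSub d (locm (OO (xs k p) (ys k p)) (AA_le_OO p))
    (fun i => d (kap (xs k p) (ys k p) (X i)))).mul_mem (h0 F) h1
  rwa [← h, mul_assoc, mul_inv_cancel₀ (kap_ne hG0), mul_one] at h2

/-- the exceptional frame: `dX ∧ dY ∧ dZ = α dα ∧ dw ∧ dζ` -/
theorem alt_frame (d : Derivation k (KK k) M) (f : M [⋀^Fin 3]→ₗ[KK k] KK k) (p : Fin 37) :
    f (fun i => d (inc (X i))) = inc (al (xs k p)) * f (fun i => d (kap (xs k p) (ys k p) (X i))) := by
  have hC : ∀ c : k, kap (xs k p) (ys k p) (C c) = algebraMap k (KK k) c := by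
    intro c
    rw [← MvPolynomial.algebraMap_eq, AlgHom.commutes]
  have h0 : inc (X 0 : P3 k) = algebraMap k (KK k) (xs k p) * kap (xs k p) (ys k p) (X 2) +
      kap (xs k p) (ys k p) (X 0) := by
    rw [← kap_th3 (xs k p) (ys k p) (X 0), th3_X0, map_add, map_mul, hC]
  have h1 : inc (X 1 : P3 k) = algebraMap k (KK k) (ys k p) * kap (xs k p) (ys k p) (X 2) +
      kap (xs k p) (ys k p) (X 0) * kap (xs k p) (ys k p) (X 1) := by
    rw [← kap_th3 (xs k p) (ys k p) (X 1), th3_X1, map_add, map_mul, map_mul, hC]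
  have h2 : inc (X 2 : P3 k) = kap (xs k p) (ys k p) (X 2) := (kap_X2 _ _).symm
  have key := alt_det f (fun i => d (kap (xs k p) (ys k p) (X i))) (fun i => d (inc (X i)))
    ![![1, 0, algebraMap k (KK k) (xs k p)],
      ![kap (xs k p) (ys k p) (X 1), kap (xs k p) (ys k p) (X 0), algebraMap k (KK k) (ys k p)],
      ![0, 0, 1]] ?_
  · rw [key, Matrix.det_fin_three]
    simp only [Matrix.of_apply, Matrix.cons_val_zero, Matrix.cons_val_one, Matrix.cons_val]
    rw [kap_X0]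
    ring
  · intro j
    rw [Fin.sum_univ_three]
    fin_cases j
    · simp only [Fin.zero_eta, Matrix.cons_val_zero, Matrix.cons_val_one, Matrix.cons_val]
      rw [h0, map_add, d.leibniz, d.map_algebraMap, smul_zero, add_zero, one_smul, zero_smul,
        add_zero]
      exact add_comm _ _
    · simp only [Fin.mk_one, Matrix.cons_val_zero, Matrix.cons_val_one, Matrix.cons_val]
      rw [h1, map_add, d.leibniz, d.leibniz, d.map_algebraMap, smul_zero, add_zero]
      abel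
    · simp only [Fin.reduceFinMk, Matrix.cons_val_zero, Matrix.cons_val_one, Matrix.cons_val]
      rw [h2]
      simp

end der

/-! ## localised pluricanonical modules -/

/-- the localisation of the pluricanonical module at the maximal ideal -/
def RRm (k : Type) [Field k] [CharZero k] (n : ℕ) : Set (KK k) :=
  {x | ∃ s : AA k, s ∉ mm k ∧ x * (s : KK k) ∈ RR k n}

theorem mul_mem_RR {n m : ℕ} {x y : KK k} (hx : x ∈ RR k n) (hy : y ∈ RR k m) :
    x * y ∈ RR k (n + m) := by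
  refine ⟨(WW k).mul_mem hx.1 hy.1, fun p => ?_⟩
  have := (OO (xs k p) (ys k p)).mul_mem (hx.2 p) (hy.2 p)
  rwa [show inc (al (xs k p)) ^ n * x * (inc (al (xs k p)) ^ m * y) =
    inc (al (xs k p)) ^ (n + m) * (x * y) by rw [pow_add]; ring] at this

theorem add_mem_RR {n : ℕ} {x y : KK k} (hx : x ∈ RR k n) (hy : y ∈ RR k n) :
    x + y ∈ RR k n := by
  refine ⟨(WW k).add_mem hx.1 hy.1, fun p => ?_⟩
  have := (OO (xs k p) (ys k p)).add_mem (hx.2 p) (hy.2 p)
  rwa [← mul_add] at this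

theorem AA_mul_mem_RR {n : ℕ} {x y : KK k} (hx : x ∈ AA k) (hy : y ∈ RR k n) :
    x * y ∈ RR k n := by
  have := mul_mem_RR (mem_AA_iff_RR.mp hx) hy
  rwa [zero_add] at this

theorem mul_mem_RRm {n m : ℕ} {x y : KK k} (hx : x ∈ RRm k n) (hy : y ∈ RRm k m) :
    x * y ∈ RRm k (n + m) := by
  obtain ⟨s, hs, h⟩ := hx
  obtain ⟨t, ht, h'⟩ := hy
  refine ⟨s * t, mul_not_mem_mm hs ht, ?_⟩
  have := mul_mem_RR h h'
  rwa [show x * (s : KK k) * (y * (t : KK k)) = x * y * ((s * t : AA k) : KK k) by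
    push_cast; ring] at this

theorem add_mem_RRm {n : ℕ} {x y : KK k} (hx : x ∈ RRm k n) (hy : y ∈ RRm k n) :
    x + y ∈ RRm k n := by
  obtain ⟨s, hs, h⟩ := hx
  obtain ⟨t, ht, h'⟩ := hy
  refine ⟨s * t, mul_not_mem_mm hs ht, ?_⟩
  have := add_mem_RR (AA_mul_mem_RR t.2 h) (AA_mul_mem_RR s.2 h')
  rwa [show (t : KK k) * (x * (s : KK k)) + (s : KK k) * (y * (t : KK k)) =
    (x + y) * ((s * t : AA k) : KK k) by push_cast; ring] at this

/-- finitely many denominators -/
theorem common_denominator {ι : Type*} (F : Finset ι) {P : ι → Set (KK k)} {x : KK k}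
    (hP : ∀ i ∈ F, ∀ y ∈ P i, ∀ a ∈ AA k, a * y ∈ P i)
    (h : ∀ i ∈ F, ∃ s : AA k, s ∉ mm k ∧ x * (s : KK k) ∈ P i) :
    ∃ s : AA k, s ∉ mm k ∧ ∀ i ∈ F, x * (s : KK k) ∈ P i := by
  classical
  induction F using Finset.induction_on with
  | empty => exact ⟨1, one_not_mem_mm, by simp⟩
  | insert a F ha ih =>
    obtain ⟨s, hs, h1⟩ := ih (fun i hi => hP i (Finset.mem_insert_of_mem hi))
      (fun i hi => h i (Finset.mem_insert_of_mem hi))
    obtain ⟨t, ht, h2⟩ := h a (Finset.mem_insert_self _ _)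
    refine ⟨s * t, mul_not_mem_mm hs ht, fun i hi => ?_⟩
    rcases Finset.mem_insert.mp hi with rfl | hi'
    · have := hP i hi _ h2 s s.2
      rwa [show (s : KK k) * (x * (t : KK k)) = x * ((s * t : AA k) : KK k) by
        push_cast; ring] at this
    · have := hP i hi _ (h1 i hi') t t.2
      rwa [show (t : KK k) * (x * (s : KK k)) = x * ((s * t : AA k) : KK k) by
        push_cast; ring] at this

theorem mem_RRm_of {n : ℕ} {x : KK k} (h1 : x ∈ locm (WW k) AA_le_WW)
    (h2 : ∀ p, inc (al (xs k p)) ^ n * x ∈ locm (OO (xs k p) (ys k p)) (AA_le_OO p)) :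
    x ∈ RRm k n := by
  obtain ⟨s, hs, h⟩ := h1
  have h3 := common_denominator (Finset.univ : Finset (Fin 37))
    (P := fun p => {y | inc (al (xs k p)) ^ n * y ∈ OO (xs k p) (ys k p)}) (x := x)
    (by
      intro p _ y hy a ha
      have := (OO (xs k p) (ys k p)).mul_mem (AA_le_OO p ha) hy
      simp only [Set.mem_ofPred_eq] at this ⊢
      rwa [show a * (inc (al (xs k p)) ^ n * y) = inc (al (xs k p)) ^ n * (a * y) by ring] at this)
    (by
      intro p _
      obtain ⟨t, ht, h'⟩ := h2 p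
      exact ⟨t, ht, by rwa [mul_assoc] at h'⟩)
  obtain ⟨t, ht, h4⟩ := h3
  refine ⟨s * t, mul_not_mem_mm hs ht, ?_, fun p => ?_⟩
  · have := (WW k).mul_mem h (AA_le_WW t.2)
    rwa [show x * (s : KK k) * (t : KK k) = x * ((s * t : AA k) : KK k) by push_cast; ring] at this
  · have := (OO (xs k p) (ys k p)).mul_mem (AA_le_OO p s.2) (h4 p (Finset.mem_univ p))
    rwa [show (s : KK k) * (inc (al (xs k p)) ^ n * (x * (t : KK k))) =
      inc (al (xs k p)) ^ n * (x * ((s * t : AA k) : KK k)) by push_cast; ring] at this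

/-- differential forms of the local ring have at most simple poles -/
theorem form_mem_RRm (g : Ω[KK k⁄k] [⋀^Fin 3]→ₗ[KK k] KK k)
    (hg : g (fun i => KaehlerDifferential.D k (KK k) (inc (X i))) = 1) (f : Fin 3 → KK k)
    (hf : ∀ i, f i ∈ locm (AA k) le_rfl) :
    g (fun i => KaehlerDifferential.D k (KK k) (f i)) ∈ RRm k 1 := by
  apply mem_RRm_of
  · obtain ⟨r, hr, h⟩ := alt_mem g (locm (WW k) AA_le_WW)
      (fun i => KaehlerDifferential.D k (KK k) (inc (X i)))
      (fun i => KaehlerDifferential.D k (KK k) (f i)) (fun j =>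
        (mem_dSub.mp (locm_le_dSub (WW_le_dSub _) (locm_mono AA_le_WW (hf j)))).2)
    rw [h, hg, mul_one]; exact hr
  · intro p
    obtain ⟨r, hr, h⟩ := alt_mem g (locm (OO (xs k p) (ys k p)) (AA_le_OO p))
      (fun i => KaehlerDifferential.D k (KK k) (kap (xs k p) (ys k p) (X i)))
      (fun i => KaehlerDifferential.D k (KK k) (f i)) (fun j =>
        (mem_dSub.mp (locm_le_dSub (OO_le_dSub _ p) (locm_mono (AA_le_OO p) (hf j)))).2)
    have h2 := alt_frame (KaehlerDifferential.D k (KK k)) g p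
    rw [hg] at h2
    rw [h, pow_one, show inc (al (xs k p)) * (r * g (fun i => KaehlerDifferential.D k (KK k)
      (kap (xs k p) (ys k p) (X i)))) = r * (inc (al (xs k p)) * g (fun i =>
      KaehlerDifferential.D k (KK k) (kap (xs k p) (ys k p) (X i)))) by ring, ← h2, mul_one]
    exact hr

/-! ## test elements -/

theorem mul_mem_AA_of_dvd {g : P3 k} {n : ℕ}
    (hg : ∀ q, (X 0 : P3 k) ^ n ∣ th3 (xs k q) (ys k q) g) {y : KK k} (hy : y ∈ RR k n) :
    inc g * y ∈ AA k := by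
  rw [mem_AA]
  refine ⟨(WW k).mul_mem (inc_mem_WW g) hy.1, fun q => ?_⟩
  obtain ⟨H, hH⟩ := hg q
  have h1 : inc g = inc (al (xs k q)) ^ n * kap (xs k q) (ys k q) H := by
    rw [← kap_th3 (xs k q) (ys k q) g, hH, map_mul, map_pow, kap_X0]
  have := (OO (xs k q) (ys k q)).mul_mem (kap_mem_OO _ _ H) (hy.2 q)
  rwa [show kap (xs k q) (ys k q) H * (inc (al (xs k q)) ^ n * y) = inc g * y by
    rw [h1]; ring] at this

theorem exists_line (p : Fin 37) : ∃ i, OnI i p := by
  obtain ⟨i, j, _, h, _⟩ := two_lines p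
  exact ⟨i, h⟩

theorem dvd_th3_Le (n : ℕ) (q : Fin 37) :
    (X 0 : P3 k) ^ n ∣ th3 (xs k q) (ys k q) (Le k (fun _ => n)) := by
  obtain ⟨G, _, hG⟩ := th3_Le (k := k) (fun _ => n) q
  rw [hG]
  refine Dvd.dvd.mul_right (pow_dvd_pow _ ?_) _
  obtain ⟨i, hi⟩ := exists_line q
  unfold Sp
  calc n = if OnI i q then n else 0 := by rw [if_pos hi]
    _ ≤ _ := Finset.single_le_sum (f := fun i => if OnI i q then n else 0)
      (fun _ _ => Nat.zero_le _) (Finset.mem_univ i)

/-- a linear form through `q`, not through `p` unless `p = q` -/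
def lam (k : Type) [Field k] [CharZero k] [DecidableEq k] (p q : Fin 37) : P3 k :=
  if xs k p = xs k q then X 1 - C (ys k q) * X 2 else al (xs k q)

theorem dvd_th3_lam [DecidableEq k] (p q : Fin 37) :
    (X 0 : P3 k) ∣ th3 (xs k q) (ys k q) (lam k p q) := by
  unfold lam
  split_ifs
  · refine ⟨X 1, ?_⟩
    simp
  · rw [th3_al]

theorem not_dvd_C_mul_X2_add {c : k} (hc : c ≠ 0) (H : P3 k) :
    ¬ (X 0 : P3 k) ∣ C c * X 2 + X 0 * H := by
  apply not_X0_dvd
  have h1 : ev0 (C c : P3 k) = C c := by simp [ev0]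
  have h2 : ev0 (X 2 : P3 k) = X 2 := by simp [ev0]
  rw [map_add, map_mul, map_mul, ev0_X0, zero_mul, add_zero, h1, h2]
  exact mul_ne_zero (by simpa using hc) (X_ne_zero 2)

theorem th3_lam_self [DecidableEq k] (p : Fin 37) :
    th3 (xs k p) (ys k p) (lam k p p) = X 0 * X 1 := by
  unfold lam
  rw [if_pos rfl]
  simp

theorem not_dvd_X1 : ¬ (X 0 : P3 k) ∣ X 1 := by
  apply not_X0_dvd
  simp [ev0, X_ne_zero]

theorem not_dvd_th3_lam [DecidableEq k] {p q : Fin 37} (h : p ≠ q) :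
    ¬ (X 0 : P3 k) ∣ th3 (xs k p) (ys k p) (lam k p q) := by
  unfold lam
  split_ifs with hx
  · have hy : ys k p - ys k q ≠ 0 := by
      intro hy
      exact h (xy_inj p q hx (by linear_combination hy))
    have : th3 (xs k p) (ys k p) (X 1 - C (ys k q) * X 2 : P3 k) =
        C (ys k p - ys k q) * X 2 + X 0 * X 1 := by
      simp only [map_sub, map_mul, th3_X1, th3_X2, th3_C]
      ring
    rw [this]
    exact not_dvd_C_mul_X2_add hy _
  · have hy : xs k p - xs k q ≠ 0 := by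
      intro hy
      exact hx (by linear_combination hy)
    have : th3 (xs k p) (ys k p) (al (xs k q)) = C (xs k p - xs k q) * X 2 + X 0 * 1 := by
      simp only [al, map_sub, map_mul, th3_X0, th3_X2, th3_C]
      ring
    rw [this]
    exact not_dvd_C_mul_X2_add hy _

/-- the product of these linear forms, to the power `n` -/
theorem exists_test (p : Fin 37) (n : ℕ) : ∃ g : P3 k,
    (∀ q, (X 0 : P3 k) ^ n ∣ th3 (xs k q) (ys k q) g) ∧
    ∃ G, ¬ (X 0 : P3 k) ∣ G ∧ th3 (xs k p) (ys k p) g = X 0 ^ n * G := by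
  classical
  refine ⟨∏ q, lam k p q ^ n, fun q => ?_, ?_⟩
  · rw [map_prod]
    refine (pow_dvd_pow_of_dvd (dvd_th3_lam p q) n).trans ?_
    rw [← map_pow]
    exact Finset.dvd_prod_of_mem (fun q' => th3 (xs k q) (ys k q) (lam k p q' ^ n))
      (Finset.mem_univ q)
  · refine ⟨X 1 ^ n * ∏ q ∈ Finset.univ.erase p, th3 (xs k p) (ys k p) (lam k p q) ^ n, ?_, ?_⟩
    · apply not_X0_dvd_mul (not_X0_dvd_pow not_dvd_X1 n)
      intro h
      obtain ⟨q, hq, hq'⟩ := (Prime.dvd_finsetProd_iff X0_prime _).mp h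
      exact not_X0_dvd_pow (not_dvd_th3_lam (Finset.ne_of_mem_erase hq).symm) n hq'
    · rw [map_prod, ← Finset.mul_prod_erase _ _ (Finset.mem_univ p)]
      simp only [map_pow]
      rw [th3_lam_self, mul_pow]
      ring

theorem mem_RR_of_test {x : KK k} {n : ℕ} (g : Fin 37 → P3 k)
    (hg : ∀ p, ∃ G, ¬ (X 0 : P3 k) ∣ G ∧ th3 (xs k p) (ys k p) (g p) = X 0 ^ n * G)
    (h0 : x * inc (Le k (fun _ => n)) ∈ AA k) (h : ∀ p, x * inc (g p) ∈ AA k) : x ∈ RR k n := by
  refine ⟨?_, fun p => ?_⟩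
  · have := (WW k).mul_mem (AA_le_WW h0) (inc_Le_inv_mem (fun _ => n))
    rwa [mul_assoc, mul_inv_cancel₀ (inc_ne (Le_ne _)), mul_one] at this
  · obtain ⟨G, hG, hgG⟩ := hg p
    have hG0 : G ≠ 0 := by rintro rfl; exact hG (dvd_zero _)
    have h1 := (OO (xs k p) (ys k p)).mul_mem (AA_le_OO p (h p)) (kap_inv_mem_OO hG)
    have h2 : inc (g p) = inc (al (xs k p)) ^ n * kap (xs k p) (ys k p) G := by
      rw [← kap_th3 (xs k p) (ys k p) (g p), hgG, map_mul, map_pow, kap_X0]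
    rwa [show x * inc (g p) * (kap (xs k p) (ys k p) G)⁻¹ = inc (al (xs k p)) ^ n * x by
      rw [h2]
      have := kap_ne (a := xs k p) (b := ys k p) hG0
      field_simp] at h1

end

end Pool.Agent.J6H82.Kollar
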