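import Pool.Agent.J6H82.Kollar.Canon2

/-!
# The canonical algebra of the local ring is not finitely generated
-/

namespace Pool.Agent.J6H82.Kollar

noncomputable section

set_option maxHeartbeats 400000

open MvPolynomial Module

variable {k : Type} [Field k] [CharZero k]

/-! ## the derivative of the products -/

theorem pderiv_one_al (a : k) : pderiv 1 (al a) = 0 := by
  unfold al
  rw [map_sub, pderiv_C_mul, pderiv_X_of_ne (by decide), pderiv_X_of_ne (by decide)]
  simp

theorem pderiv_zero_al (a : k) : pderiv 0 (al a) = 1 := by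
  unfold al
  rw [map_sub, pderiv_C_mul, pderiv_X_self, pderiv_X_of_ne (by decide)]
  simp

theorem pderiv_one_PP (i : Fin 11) : pderiv 1 (PP k i) = 0 := by
  unfold PP
  have h1 : ∀ s : Finset (Fin 37), pderiv 1 (∏ p ∈ s, al (xs k p)) = 0 := by
    classical
    intro s
    induction s using Finset.induction_on with
    | empty => simp
    | insert a s ha ih =>
      rw [Finset.prod_insert ha, (pderiv 1).leibniz, ih, smul_zero, zero_add, pderiv_one_al,
        smul_zero]
  exact h1 _

theorem th3_dPP {i : Fin 11} {p : Fin 37} (hp : p ∈ LL i) :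
    ¬ (X 0 : P3 k) ∣ th3 (xs k p) (ys k p) (pderiv 0 (PP k i)) := by
  classical
  have h1 : PP k i = al (xs k p) * ∏ q ∈ (LL i).erase p, al (xs k q) := by
    exact (Finset.mul_prod_erase _ (fun q => al (xs k q)) hp).symm
  have h2 : pderiv 0 (al (xs k p) : P3 k) = 1 := pderiv_zero_al _
  rw [h1, (pderiv 0).leibniz, h2, map_add, smul_eq_mul, smul_eq_mul, mul_one, map_mul, th3_al]
  intro h
  have h3 : (X 0 : P3 k) ∣ th3 (xs k p) (ys k p) (∏ q ∈ (LL i).erase p, al (xs k q)) :=
    (dvd_add_right (dvd_mul_right _ _)).mp h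
  rw [map_prod] at h3
  obtain ⟨q, hq, hq'⟩ := (Prime.dvd_finsetProd_iff X0_prime _).mp h3
  have hx : xs k p - xs k q ≠ 0 := by
    intro hx
    exact xs_ne_of_mem hp (Finset.mem_of_mem_erase hq) (Finset.ne_of_mem_erase hq).symm
      (by linear_combination hx)
  have : th3 (xs k p) (ys k p) (al (xs k q)) = C (xs k p - xs k q) * X 2 + X 0 * 1 := by
    simp only [al, map_sub, map_mul, th3_X0, th3_X2, th3_C]
    ring
  rw [this] at hq'
  exact not_dvd_C_mul_X2_add hx _ hq'

/-- the coefficient of `dℓ ∧ du ∧ dZ` -/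
def hh (k : Type) [Field k] [CharZero k] (i : Fin 11) : KK k :=
  - inc (pderiv 0 (PP k i)) / inc (ell k i)

theorem form_ell_uu (d : Derivation k (KK k) Ω[KK k⁄k]) (f : Ω[KK k⁄k] [⋀^Fin 3]→ₗ[KK k] KK k)
    (i : Fin 11) : f ![d (inc (ell k i)), d (uu k i), d (inc (X 2))] =
      hh k i * f (fun j => d (inc (X j))) := by
  have hl : inc (ell k i) ≠ 0 := inc_ne (ell_ne i)
  have h1 : d (inc (ell k i)) = (- algebraMap k (KK k) (lineS i : k)) • d (inc (X 0)) +
      (1 : KK k) • d (inc (X 1)) + (- algebraMap k (KK k) (lineC i : k)) • d (inc (X 2)) := by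
    have h2 : inc (ell k i) = inc (X 1) - algebraMap k (KK k) (lineS i : k) * inc (X 0) -
        algebraMap k (KK k) (lineC i : k) * inc (X 2) := by
      unfold ell
      rw [map_sub, map_sub, map_mul, map_mul, ← MvPolynomial.algebraMap_eq, AlgHom.commutes,
        AlgHom.commutes]
    rw [h2, map_sub, map_sub, d.leibniz, d.leibniz, d.map_algebraMap, d.map_algebraMap]
    simp only [smul_zero, add_zero, neg_smul, one_smul]
    abel
  have h3 : d (inc (PP k i)) = inc (pderiv 0 (PP k i)) • d (inc (X 0)) +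
      inc (pderiv 2 (PP k i)) • d (inc (X 2)) := by
    rw [D_map d inc, Fin.sum_univ_three, pderiv_one_PP]
    simp
  have h4 : d (uu k i) = (inc (ell k i))⁻¹ • (d (inc (PP k i)) - uu k i • d (inc (ell k i))) := by
    have h5 : d (uu k i * inc (ell k i)) = d (inc (PP k i)) := by rw [uu_mul]
    rw [d.leibniz] at h5
    rw [← h5, add_sub_cancel_left, smul_smul, inv_mul_cancel₀ hl, one_smul]
  have key := alt_det f (fun j => d (inc (X j)))
    ![d (inc (ell k i)), d (uu k i), d (inc (X 2))]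
    ![![- algebraMap k (KK k) (lineS i : k), 1, - algebraMap k (KK k) (lineC i : k)],
      ![(inc (ell k i))⁻¹ * (inc (pderiv 0 (PP k i)) + uu k i * algebraMap k (KK k) (lineS i : k)),
        - (inc (ell k i))⁻¹ * uu k i,
        (inc (ell k i))⁻¹ * (inc (pderiv 2 (PP k i)) + uu k i * algebraMap k (KK k) (lineC i : k))],
      ![0, 0, 1]] ?_
  · rw [key, Matrix.det_fin_three]
    simp only [Matrix.of_apply, Matrix.cons_val_zero, Matrix.cons_val_one, Matrix.cons_val]
    unfold hh
    congr 1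
    field_simp
    ring
  · intro j
    rw [Fin.sum_univ_three]
    fin_cases j
    · simp only [Fin.zero_eta, Matrix.cons_val_zero, Matrix.cons_val_one, Matrix.cons_val]
      exact h1
    · simp only [Fin.mk_one, Matrix.cons_val_zero, Matrix.cons_val_one, Matrix.cons_val]
      rw [h4, h3, h1]
      generalize d (inc (X 0)) = v0
      generalize d (inc (X 1)) = v1
      generalize d (inc (X 2)) = v2
      generalize algebraMap k (KK k) (lineS i : k) = c0
      generalize algebraMap k (KK k) (lineC i : k) = c1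
      simp only [smul_sub, smul_add, smul_smul, neg_smul, smul_neg, one_smul, add_smul, mul_add,
        neg_mul, mul_neg, mul_one]
      abel
    · simp only [Fin.reduceFinMk, Matrix.cons_val_zero, Matrix.cons_val_one, Matrix.cons_val]
      simp

/-- the order of `hh` along the exceptional divisors -/
theorem mul_hh_pow {i : Fin 11} {p : Fin 37} (hp : p ∈ LL i) {n : ℕ} {x : KK k}
    (h : x * hh k i ^ n ∈ OO (xs k p) (ys k p)) :
    x * (inc (al (xs k p)))⁻¹ ^ n ∈ OO (xs k p) (ys k p) := by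
  have hp' : OnI i p := by simpa [LL] using hp
  have hal : inc (al (xs k p)) ≠ 0 := inc_ne (al_ne _)
  set D := th3 (xs k p) (ys k p) (pderiv 0 (PP k i)) with hD
  have hD1 : ¬ (X 0 : P3 k) ∣ D := th3_dPP hp
  have hD0 : D ≠ 0 := by intro h; rw [h] at hD1; exact hD1 (dvd_zero _)
  have hE1 : ¬ (X 0 : P3 k) ∣ X 1 - C (lineS i : k) := not_dvd_X1_sub _
  have hE0 : (X 1 - C (lineS i : k) : P3 k) ≠ 0 := by intro h; rw [h] at hE1; exact hE1 (dvd_zero _)
  have h1 : inc (ell k i) = inc (al (xs k p)) * kap (xs k p) (ys k p) (X 1 - C (lineS i : k)) := by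
    rw [← kap_th3 (xs k p) (ys k p) (ell k i), th3_ell_on hp', map_mul, kap_X0]
  have h2 : inc (pderiv 0 (PP k i)) = kap (xs k p) (ys k p) D := by
    rw [hD, kap_th3]
  have h3 : hh k i = - kap (xs k p) (ys k p) D * (inc (al (xs k p)))⁻¹ *
      (kap (xs k p) (ys k p) (X 1 - C (lineS i : k)))⁻¹ := by
    unfold hh
    rw [h1, h2]
    have := kap_ne (a := xs k p) (b := ys k p) hE0
    field_simp
  have h4 : (- (kap (xs k p) (ys k p) D)⁻¹ * kap (xs k p) (ys k p) (X 1 - C (lineS i : k))) ^ n ∈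
      OO (xs k p) (ys k p) := by
    apply Subalgebra.pow_mem
    apply Subalgebra.mul_mem
    · exact Subalgebra.neg_mem _ (kap_inv_mem_OO hD1)
    · exact kap_mem_OO _ _ _
  have h5 := (OO (xs k p) (ys k p)).mul_mem h h4
  have h6 : hh k i * (- (kap (xs k p) (ys k p) D)⁻¹ *
      kap (xs k p) (ys k p) (X 1 - C (lineS i : k))) = (inc (al (xs k p)))⁻¹ := by
    rw [h3]
    have := kap_ne (a := xs k p) (b := ys k p) hE0
    have := kap_ne (a := xs k p) (b := ys k p) hD0
    field_simp
  rwa [mul_assoc, ← mul_pow, h6] at h5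

/-! ## the main theorem -/

section main

variable {O : Type} [CommRing O] [Algebra O (KK k)]

/-- the localised pluricanonical module, as a submodule -/
def RRS (hO : ∀ x : O, algebraMap O (KK k) x ∈ locm (AA k) le_rfl) (n : ℕ) :
    Submodule O (KK k) where
  carrier := RRm k n
  add_mem' := add_mem_RRm
  zero_mem' := ⟨1, one_not_mem_mm, by
    rw [zero_mul]
    exact ⟨(WW k).zero_mem, fun p => by rw [mul_zero]; exact Subalgebra.zero_mem _⟩⟩
  smul_mem' := by
    intro c x hx
    rw [Algebra.smul_def]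
    have h1 : algebraMap O (KK k) c ∈ RRm k 0 := by
      obtain ⟨s, hs, h⟩ := hO c
      exact ⟨s, hs, mem_AA_iff_RR.mp h⟩
    have := mul_mem_RRm h1 hx
    rwa [zero_add] at this

theorem mem_RRS {hO : ∀ x : O, algebraMap O (KK k) x ∈ locm (AA k) le_rfl} {n : ℕ} {x : KK k} :
    x ∈ RRS hO n ↔ x ∈ RRm k n := Iff.rfl

variable (hO : ∀ x : O, algebraMap O (KK k) x ∈ locm (AA k) le_rfl)
  (hO' : ∀ x ∈ locm (AA k) le_rfl, ∃ y : O, algebraMap O (KK k) y = x)
  (ω : Ω[KK k⁄k] [⋀^Fin 3]→ₗ[KK k] KK k)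
  (hω : ω (fun i => KaehlerDifferential.D k (KK k) (inc (X i))) = 1)

include hO hω

theorem formsIdeal_le : formsIdeal k O (KK k) 3 ω ≤ RRS hO 1 := by
  unfold formsIdeal
  rw [Submodule.span_le]
  rintro _ ⟨f, rfl⟩
  exact form_mem_RRm ω hω (fun i => algebraMap O (KK k) (f i)) (fun i => hO (f i))

theorem formsIdeal_pow_le (n : ℕ) : formsIdeal k O (KK k) 3 ω ^ n ≤ RRS hO n := by
  induction n with
  | zero =>
    rw [pow_zero, Submodule.one_le, mem_RRS]
    exact ⟨1, one_not_mem_mm, by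
      rw [one_mul]; exact mem_AA_iff_RR.mp (AA k).one_mem⟩
  | succ n ih =>
    rw [pow_succ, Submodule.mul_le]
    intro x hx y hy
    exact mul_mem_RRm (ih hx) (formsIdeal_le hO ω hω hy)

include hO'

theorem one_mem_formsIdeal : (1 : KK k) ∈ formsIdeal k O (KK k) 3 ω := by
  have h1 : ∀ i : Fin 3, ∃ y : O, algebraMap O (KK k) y = inc (X i) :=
    fun i => hO' _ (le_locm _ _ (inc_mem_AA _))
  choose y hy using h1
  apply Submodule.subset_span
  refine ⟨y, ?_⟩
  simp only [hy]
  exact hω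

theorem hh_mem_formsIdeal (i : Fin 11) : hh k i ∈ formsIdeal k O (KK k) 3 ω := by
  obtain ⟨y0, hy0⟩ := hO' _ (le_locm _ _ (inc_mem_AA (ell k i)))
  obtain ⟨y1, hy1⟩ := hO' _ (le_locm _ _ (uu_mem_AA i))
  obtain ⟨y2, hy2⟩ := hO' _ (le_locm _ _ (inc_mem_AA (X 2)))
  apply Submodule.subset_span
  refine ⟨![y0, y1, y2], ?_⟩
  have h1 := form_ell_uu (KaehlerDifferential.D k (KK k)) ω i
  rw [hω, mul_one] at h1
  rw [← h1]
  have h3 : (fun j => KaehlerDifferential.D k (KK k) (algebraMap O (KK k) (![y0, y1, y2] j))) =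
      ![KaehlerDifferential.D k (KK k) (inc (ell k i)), KaehlerDifferential.D k (KK k) (uu k i),
        KaehlerDifferential.D k (KK k) (inc (X 2))] := by
    funext j
    fin_cases j
    · simp [hy0]
    · simp [hy1]
    · simp [hy2]
  show ω (fun j => KaehlerDifferential.D k (KK k) (algebraMap O (KK k) (![y0, y1, y2] j))) = _
  rw [h3]

theorem pluricanonical_le {n : ℕ} {x : KK k} (hx : x ∈ pluricanonical k O (KK k) 3 ω n) :
    x ∈ RRm k n := by
  unfold pluricanonical reflexiveHull at hx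
  rw [Submodule.mem_div_iff_forall_mul_mem] at hx
  -- test elements
  have h1 : ∀ g : P3 k, (∀ q, (X 0 : P3 k) ^ n ∣ th3 (xs k q) (ys k q) g) →
      ∃ s : AA k, s ∉ mm k ∧ x * (s : KK k) ∈ {y | y * inc g ∈ AA k} := by
    intro g hg
    have h2 : inc g ∈ 1 / formsIdeal k O (KK k) 3 ω ^ n := by
      rw [Submodule.mem_div_iff_forall_mul_mem]
      intro y hy
      obtain ⟨s, hs, h⟩ := formsIdeal_pow_le hO ω hω n hy
      rw [Submodule.mem_one]
      apply hO'
      refine ⟨s, hs, ?_⟩
      rw [mul_assoc]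
      exact mul_mem_AA_of_dvd hg h
    have h3 := hx _ h2
    rw [Submodule.mem_one] at h3
    obtain ⟨y, hy⟩ := h3
    obtain ⟨s, hs, h⟩ := hO y
    refine ⟨s, hs, ?_⟩
    rw [hy] at h
    show x * (s : KK k) * inc g ∈ AA k
    rwa [mul_right_comm]
  choose g hg1 hg2 using fun p => exists_test (k := k) p n
  have h4 : ∀ g : P3 k, ∀ y ∈ {y : KK k | y * inc g ∈ AA k}, ∀ a ∈ AA k,
      a * y ∈ {y : KK k | y * inc g ∈ AA k} := by
    intro g y hy a ha
    show a * y * inc g ∈ AA k
    rw [mul_assoc]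
    exact (AA k).mul_mem ha hy
  obtain ⟨s, hs, h5⟩ := h1 (Le k (fun _ => n)) (dvd_th3_Le n)
  obtain ⟨t, ht, h6⟩ := common_denominator (Finset.univ : Finset (Fin 37))
    (P := fun p => {y : KK k | y * inc (g p) ∈ AA k}) (x := x)
    (fun p _ => h4 (g p)) (fun p _ => h1 (g p) (hg1 p))
  refine ⟨s * t, mul_not_mem_mm hs ht, ?_⟩
  apply mem_RR_of_test g hg2
  · have := h4 _ _ h5 t t.2
    rwa [show (t : KK k) * (x * (s : KK k)) = x * ((s * t : AA k) : KK k) by
      push_cast; ring] at this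
  · intro p
    have := h4 _ _ (h6 p (Finset.mem_univ p)) s s.2
    rwa [show (s : KK k) * (x * (t : KK k)) = x * ((s * t : AA k) : KK k) by
      push_cast; ring] at this

theorem le_pluricanonical {n : ℕ} {x : KK k} (hx : x ∈ RR k n) :
    x ∈ pluricanonical k O (KK k) 3 ω n := by
  unfold pluricanonical reflexiveHull
  rw [Submodule.mem_div_iff_forall_mul_mem]
  intro g hg
  rw [Submodule.mem_div_iff_forall_mul_mem] at hg
  have h1 : ∀ h ∈ formsIdeal k O (KK k) 3 ω, ∃ s : AA k, s ∉ mm k ∧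
      g * (s : KK k) ∈ {y | y * h ^ n ∈ AA k} := by
    intro h hh
    have h2 := hg _ (Submodule.pow_mem_pow _ hh n)
    rw [Submodule.mem_one] at h2
    obtain ⟨y, hy⟩ := h2
    obtain ⟨s, hs, h3⟩ := hO y
    refine ⟨s, hs, ?_⟩
    show g * (s : KK k) * h ^ n ∈ AA k
    rw [hy] at h3
    rwa [mul_right_comm]
  have h4 : ∀ h : KK k, ∀ y ∈ {y : KK k | y * h ^ n ∈ AA k}, ∀ a ∈ AA k,
      a * y ∈ {y : KK k | y * h ^ n ∈ AA k} := by
    intro h y hy a ha
    show a * y * h ^ n ∈ AA k
    rw [mul_assoc]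
    exact (AA k).mul_mem ha hy
  obtain ⟨s, hs, h5⟩ := h1 1 (one_mem_formsIdeal hO hO' ω hω)
  obtain ⟨t, ht, h6⟩ := common_denominator (Finset.univ : Finset (Fin 11))
    (P := fun i => {y : KK k | y * hh k i ^ n ∈ AA k}) (x := g)
    (fun i _ => h4 (hh k i)) (fun i _ => h1 _ (hh_mem_formsIdeal hO hO' ω hω i))
  rw [Submodule.mem_one]
  apply hO'
  refine ⟨s * t, mul_not_mem_mm hs ht, ?_⟩
  have h7 : g * ((s * t : AA k) : KK k) ∈ AA k := by
    have h8 : g * (s : KK k) ∈ AA k := by
      have : g * (s : KK k) * 1 ^ n ∈ AA k := h5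
      rwa [one_pow, mul_one] at this
    have := (AA k).mul_mem h8 t.2
    rwa [show g * (s : KK k) * (t : KK k) = g * ((s * t : AA k) : KK k) by
      push_cast; ring] at this
  rw [mem_AA]
  refine ⟨?_, fun p => ?_⟩
  · have := (WW k).mul_mem hx.1 (AA_le_WW h7)
    rwa [show x * (g * ((s * t : AA k) : KK k)) = x * g * ((s * t : AA k) : KK k) by ring] at this
  · obtain ⟨i, hi⟩ := exists_line p
    have h8 : g * (t : KK k) * hh k i ^ n ∈ AA k := h6 i (Finset.mem_univ i)
    have h9 := (AA k).mul_mem s.2 h8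
    rw [show (s : KK k) * (g * (t : KK k) * hh k i ^ n) =
      g * ((s * t : AA k) : KK k) * hh k i ^ n by push_cast; ring] at h9
    have h10 := mul_hh_pow (i := i) (p := p) (by simp [LL, hi]) (AA_le_OO p h9)
    have h11 := (OO (xs k p) (ys k p)).mul_mem (hx.2 p) h10
    have hal : inc (al (xs k p)) ≠ 0 := inc_ne (al_ne _)
    rwa [show inc (al (xs k p)) ^ n * x * (g * ((s * t : AA k) : KK k) *
      (inc (al (xs k p)))⁻¹ ^ n) = x * g * ((s * t : AA k) : KK k) by
      rw [inv_pow]; field_simp] at h11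

/-- **The canonical algebra is not finitely generated.** -/
theorem canonicalAlgebra_not_fg : ¬ (canonicalAlgebra k O (KK k) 3 ω).FG := by
  apply not_fg_core
  · intro x
    obtain ⟨s, hs, h⟩ := hO x
    exact ⟨s, hs, h⟩
  · intro P hP n _
    exact pluricanonical_le hO hO' ω hω (hP n)
  · intro P hP
    obtain ⟨s, hs, h⟩ := pluricanonical_le hO hO' ω hω (hP 0)
    exact ⟨s, hs, mem_AA_iff_RR.mpr h⟩
  · intro n f hf m
    rw [Polynomial.coeff_monomial]
    split_ifs with h
    · subst h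
      exact le_pluricanonical hO hO' ω hω hf
    · exact Submodule.zero_mem _

end main

end

end Pool.Agent.J6H82.Kollar
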