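import Mathlib

/-!
# The canonical algebra of a domain over a field

Let `R` be a normal domain over a field `k` of characteristic zero, with fraction field `K` of
transcendence degree `d`.  The space `Ω[K⁄k]` of Kaehler differentials has dimension `d` over `K`, and a
nonzero alternating form `ω` in `d` variables on it is the same as an isomorphism of `⋀^d Ω[K⁄k]` with
`K`.  With the help of `ω`, the canonical algebra of `R` is realised inside `K[X]`.
-/

namespace Pool.Agent.J6H82.Kollar

open scoped Polynomial

noncomputable section

variable (k : Type) [Field k] (R : Type) [CommRing R] (K : Type) [Field K] [Algebra k K]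
  [Algebra R K] (d : ℕ) (ω : Ω[K⁄k] [⋀^Fin d]→ₗ[K] K)

/-- The `R`-module of `d`-forms of `R`, modulo torsion, as an `R`-submodule of `K`: it is spanned by the
`ω (df₁, ..., df_d)` with `f₁, ..., f_d` in `R`. -/
def formsIdeal : Submodule R K :=
  Submodule.span R (Set.range fun f : Fin d → R =>
    ω (fun i => KaehlerDifferential.D k K (algebraMap R K (f i))))

/-- The reflexive hull `R : (R : I)` of a submodule `I` of `K`. -/
def reflexiveHull (I : Submodule R K) : Submodule R K := 1 / (1 / I)

/-- The module `O(nK)`: the reflexive hull of the `n`-th power of the module of `d`-forms. -/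
def pluricanonical (n : ℕ) : Submodule R K := reflexiveHull R K (formsIdeal k R K d ω ^ n)

theorem mul_mem_reflexiveHull {I J : Submodule R K} {x y : K} (hx : x ∈ reflexiveHull R K I)
    (hy : y ∈ reflexiveHull R K J) : x * y ∈ reflexiveHull R K (I * J) := by
  unfold reflexiveHull at hx hy ⊢
  rw [Submodule.mem_div_iff_forall_mul_mem] at hx hy ⊢
  intro z hz
  rw [Submodule.mem_div_iff_forall_mul_mem] at hz
  have h1 : x * z ∈ (1 : Submodule R K) / J := by
    rw [Submodule.mem_div_iff_forall_mul_mem]
    intro j hj
    have h2 : z * j ∈ (1 : Submodule R K) / I := by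
      rw [Submodule.mem_div_iff_forall_mul_mem]
      intro i hi
      have := hz (i * j) (Submodule.mul_mem_mul hi hj)
      rwa [show z * j * i = z * (i * j) by ring]
    have := hx _ h2
    rwa [show x * z * j = x * (z * j) by ring]
  have := hy _ h1
  rwa [show x * y * z = y * (x * z) by ring]

theorem one_mem_reflexiveHull_one : (1 : K) ∈ reflexiveHull R K 1 := by
  unfold reflexiveHull
  rw [Submodule.mem_div_iff_forall_mul_mem]
  intro z hz
  rw [Submodule.mem_div_iff_forall_mul_mem] at hz
  have := hz 1 (Submodule.one_le.mp le_rfl)
  rwa [mul_comm]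

/-- **The canonical algebra** `⨁ₙ O(nK)`, as a subalgebra of `K[X]`: the coefficient of `X ^ n` lies in
`O(nK)`. -/
def canonicalAlgebra : Subalgebra R K[X] where
  carrier := {P | ∀ n, P.coeff n ∈ pluricanonical k R K d ω n}
  mul_mem' := by
    intro P Q hP hQ n
    rw [Polynomial.coeff_mul]
    apply Submodule.sum_mem
    intro x hx
    rw [Finset.HasAntidiagonal.mem_antidiagonal] at hx
    have := mul_mem_reflexiveHull R K (hP x.1) (hQ x.2)
    rwa [← pow_add, hx] at this
  add_mem' := by
    intro P Q hP hQ n
    rw [Polynomial.coeff_add]
    exact Submodule.add_mem _ (hP n) (hQ n)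
  algebraMap_mem' := by
    intro r n
    rw [Polynomial.algebraMap_apply, Polynomial.coeff_C]
    split_ifs with h
    · subst h
      unfold pluricanonical
      rw [pow_zero, Algebra.algebraMap_eq_smul_one]
      exact Submodule.smul_mem _ _ (one_mem_reflexiveHull_one R K)
    · exact Submodule.zero_mem _

end

end Pool.Agent.J6H82.Kollar
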