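import Pool.Agent.J6H82.Kollar.CanonDefs

/-!
# Independence of the choices

Finite generation of the canonical algebra does not depend on the fraction field `K` nor on the
form `ω`.
-/

namespace Pool.Agent.J6H82.Kollar

open scoped Polynomial

noncomputable section

set_option maxHeartbeats 400000

section twist

variable {R K K' : Type} [CommRing R] [Field K] [Field K'] [Algebra R K] [Algebra R K']
  (θ : K ≃ₐ[R] K')

/-- the twisted identification `x ↦ θ (c x)` -/
def tw (c : K) : K →ₗ[R] K' :=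
  θ.toLinearMap.comp (LinearMap.mulLeft R c)

theorem tw_apply (c x : K) : tw θ c x = θ (c * x) := rfl

theorem tw_inv {c : K} (hc : c ≠ 0) (y : K') : tw θ c (c⁻¹ * θ.symm y) = y := by
  rw [tw_apply, ← mul_assoc, mul_inv_cancel₀ hc, one_mul, AlgEquiv.apply_symm_apply]

theorem mem_map_tw {c : K} (hc : c ≠ 0) {I : Submodule R K} {y : K'} :
    y ∈ I.map (tw θ c) ↔ c⁻¹ * θ.symm y ∈ I := by
  constructor
  · rintro ⟨x, hx, rfl⟩
    rw [tw_apply, AlgEquiv.symm_apply_apply, ← mul_assoc, inv_mul_cancel₀ hc, one_mul]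
    exact hx
  · intro h
    exact ⟨_, h, tw_inv θ hc y⟩

theorem tw_mul {c d : K} (hc : c ≠ 0) (hd : d ≠ 0) (I J : Submodule R K) :
    I.map (tw θ c) * J.map (tw θ d) = (I * J).map (tw θ (c * d)) := by
  have hcd : c * d ≠ 0 := mul_ne_zero hc hd
  apply le_antisymm
  · rw [Submodule.mul_le]
    rintro _ ⟨x, hx, rfl⟩ _ ⟨y, hy, rfl⟩
    refine ⟨x * y, Submodule.mul_mem_mul hx hy, ?_⟩
    rw [tw_apply, tw_apply, tw_apply, ← map_mul]
    congr 1; ring
  · rw [Submodule.map_le_iff_le_comap, Submodule.mul_le]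
    intro x hx y hy
    rw [Submodule.mem_comap]
    have : tw θ (c * d) (x * y) = tw θ c x * tw θ d y := by
      rw [tw_apply, tw_apply, tw_apply, ← map_mul]
      congr 1; ring
    rw [this]
    exact Submodule.mul_mem_mul ⟨x, hx, rfl⟩ ⟨y, hy, rfl⟩

theorem tw_one : (1 : Submodule R K).map (tw θ 1) = 1 := by
  ext y
  rw [mem_map_tw θ one_ne_zero, inv_one, one_mul, Submodule.mem_one, Submodule.mem_one]
  constructor
  · rintro ⟨r, hr⟩
    refine ⟨r, ?_⟩
    rw [← AlgEquiv.commutes θ, hr, AlgEquiv.apply_symm_apply]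
  · rintro ⟨r, rfl⟩
    exact ⟨r, by rw [AlgEquiv.commutes]⟩

theorem tw_pow {c : K} (hc : c ≠ 0) (I : Submodule R K) (n : ℕ) :
    I.map (tw θ c) ^ n = (I ^ n).map (tw θ (c ^ n)) := by
  induction n with
  | zero => rw [pow_zero, pow_zero, pow_zero, tw_one]
  | succ n ih => rw [pow_succ, ih, tw_mul θ (pow_ne_zero n hc) hc, pow_succ, pow_succ]

theorem tw_div {c : K} (hc : c ≠ 0) (I : Submodule R K) :
    1 / I.map (tw θ c) = (1 / I).map (tw θ c⁻¹) := by
  have h1 : ∀ z : K, z ∈ (1 : Submodule R K) ↔ θ z ∈ (1 : Submodule R K') := by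
    intro z
    rw [← tw_one θ, mem_map_tw θ one_ne_zero, inv_one, one_mul, AlgEquiv.symm_apply_apply]
  ext y
  rw [mem_map_tw θ (inv_ne_zero hc), inv_inv, Submodule.mem_div_iff_forall_mul_mem,
    Submodule.mem_div_iff_forall_mul_mem]
  constructor
  · intro h x hx
    rw [h1, map_mul, map_mul, AlgEquiv.apply_symm_apply]
    have := h _ ⟨x, hx, rfl⟩
    rw [tw_apply, map_mul] at this
    rwa [show θ c * y * θ x = y * (θ c * θ x) by ring]
  · rintro h _ ⟨x, hx, rfl⟩
    have := h x hx
    rw [h1, map_mul, map_mul, AlgEquiv.apply_symm_apply] at this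
    rw [tw_apply, map_mul]
    rwa [show y * (θ c * θ x) = θ c * y * θ x by ring]

theorem reflexiveHull_tw {c : K} (hc : c ≠ 0) (I : Submodule R K) :
    reflexiveHull R K' (I.map (tw θ c)) = (reflexiveHull R K I).map (tw θ c) := by
  unfold reflexiveHull
  rw [tw_div θ hc, tw_div θ (inv_ne_zero hc), inv_inv]

end twist

section inv

variable {k : Type} [Field k] {R : Type} [CommRing R] {K K' : Type} [Field K] [Field K']
  [Algebra k K] [Algebra R K] [Algebra k K'] [Algebra R K'] {d : ℕ}

/-- two forms are proportional -/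
theorem exists_ratio (θ : K ≃ₐ[k] K') (b : Module.Basis (Fin d) K Ω[K⁄k])
    {ω : Ω[K⁄k] [⋀^Fin d]→ₗ[K] K} (hω : ω ≠ 0) {ω' : Ω[K'⁄k] [⋀^Fin d]→ₗ[K'] K'} (hω' : ω' ≠ 0) :
    ∃ c : K, c ≠ 0 ∧ ∀ f : Fin d → K,
      ω' (fun i => KaehlerDifferential.D k K' (θ (f i))) =
        θ (c * ω (fun i => KaehlerDifferential.D k K (f i))) := by
  let _ : Algebra K K' := θ.toAlgHom.toRingHom.toAlgebra
  have hmap : ∀ x : K, algebraMap K K' x = θ x := fun _ => rfl
  have hst : IsScalarTower k K K' := by
    apply IsScalarTower.of_algebraMap_eq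
    intro c
    rw [hmap, AlgEquiv.commutes]
  let μ : Ω[K⁄k] →ₗ[K] Ω[K'⁄k] := KaehlerDifferential.map k k K K'
  have hμD : ∀ x : K, μ (KaehlerDifferential.D k K x) = KaehlerDifferential.D k K' (θ x) := by
    intro x
    exact KaehlerDifferential.map_D k k K K' x
  have hμs : ∀ (c : K) (m : Ω[K⁄k]), μ (c • m) = θ c • μ m := by
    intro c m
    rw [map_smul, ← hmap, algebraMap_smul]
  -- the pulled back form
  let h : Ω[K⁄k] [⋀^Fin d]→ₗ[K] K :=
    { toFun := fun m => θ.symm (ω' (fun i => μ (m i)))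
      map_update_add' := by
        intro _ m i x y
        have e : ∀ z : Ω[K⁄k], (fun j => μ (Function.update m i z j)) =
            Function.update (fun j => μ (m j)) i (μ z) := by
          intro z
          ext j
          by_cases hj : j = i
          · subst hj; simp
          · simp [hj]
        rw [e, e, e, map_add, AlternatingMap.map_update_add, map_add]
      map_update_smul' := by
        intro _ m i c x
        have e : ∀ z : Ω[K⁄k], (fun j => μ (Function.update m i z j)) =
            Function.update (fun j => μ (m j)) i (μ z) := by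
          intro z
          ext j
          by_cases hj : j = i
          · subst hj; simp
          · simp [hj]
        rw [e, e, hμs, AlternatingMap.map_update_smul, smul_eq_mul, map_mul,
          AlgEquiv.symm_apply_apply, smul_eq_mul]
      map_eq_zero_of_eq' := by
        intro m i j hij hne
        rw [AlternatingMap.map_eq_zero_of_eq _ _ (i := i) (j := j) (by rw [hij]) hne, map_zero] }
  have hh : ∀ m, h m = θ.symm (ω' (fun i => μ (m i))) := fun _ => rfl
  have h0 : h ≠ 0 := by
    intro h0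
    apply hω'
    have hsurj : ∀ z : Ω[K'⁄k], ∃ m, μ m = z := by
      intro z
      have hz : z ∈ Submodule.span K' (Set.range (KaehlerDifferential.D k K')) := by
        rw [KaehlerDifferential.span_range_derivation]; exact Submodule.mem_top
      induction hz using Submodule.span_induction with
      | mem z hz =>
        obtain ⟨x, rfl⟩ := hz
        exact ⟨KaehlerDifferential.D k K (θ.symm x), by
          rw [hμD, AlgEquiv.apply_symm_apply]⟩
      | zero => exact ⟨0, map_zero _⟩
      | add z w _ _ hz hw =>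
        obtain ⟨a, rfl⟩ := hz
        obtain ⟨b, rfl⟩ := hw
        exact ⟨a + b, map_add _ _ _⟩
      | smul c z _ hz =>
        obtain ⟨a, rfl⟩ := hz
        exact ⟨θ.symm c • a, by rw [hμs, AlgEquiv.apply_symm_apply]⟩
    ext m
    choose a ha using fun i => hsurj (m i)
    have h3 : θ.symm (ω' (fun i => μ (a i))) = 0 := by
      rw [← hh, h0]; rfl
    rw [funext ha, map_eq_zero_iff _ θ.symm.injective] at h3
    exact h3
  have hb := AlternatingMap.eq_smul_basis_det b h
  have hb' := AlternatingMap.eq_smul_basis_det b ω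
  have hhb : h b ≠ 0 := by
    intro h1
    apply h0
    rw [hb, h1, zero_smul]
  have hωb : ω b ≠ 0 := by
    intro h1
    apply hω
    rw [hb', h1, zero_smul]
  refine ⟨h b * (ω b)⁻¹, mul_ne_zero hhb (inv_ne_zero hωb), fun f => ?_⟩
  have h1 : h (fun i => KaehlerDifferential.D k K (f i)) =
      h b * (ω b)⁻¹ * ω (fun i => KaehlerDifferential.D k K (f i)) := by
    have e1 := congrArg (fun g => g (fun i => KaehlerDifferential.D k K (f i))) hb
    have e2 := congrArg (fun g => g (fun i => KaehlerDifferential.D k K (f i))) hb'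
    simp only [AlternatingMap.smul_apply, smul_eq_mul] at e1 e2
    rw [e1, e2]
    field_simp
  rw [← h1, hh, AlgEquiv.apply_symm_apply]
  congr 1
  ext i
  rw [hμD]

theorem formsIdeal_tw (θ : K ≃ₐ[R] K') (ω : Ω[K⁄k] [⋀^Fin d]→ₗ[K] K)
    (ω' : Ω[K'⁄k] [⋀^Fin d]→ₗ[K'] K') {c : K} (h : ∀ f : Fin d → K,
      ω' (fun i => KaehlerDifferential.D k K' (θ (f i))) =
        θ (c * ω (fun i => KaehlerDifferential.D k K (f i)))) :
    formsIdeal k R K' d ω' = (formsIdeal k R K d ω).map (tw θ c) := by
  unfold formsIdeal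
  rw [Submodule.map_span, ← Set.range_comp]
  congr 1
  congr 1
  ext f
  have := h (fun i => algebraMap R K (f i))
  simp only [AlgEquiv.commutes] at this
  rw [this]
  rfl

/-- finite generation transfers along an isomorphism of fraction fields -/
theorem fg_of_fg (θ : K ≃ₐ[R] K') (ω : Ω[K⁄k] [⋀^Fin d]→ₗ[K] K)
    (ω' : Ω[K'⁄k] [⋀^Fin d]→ₗ[K'] K') {c : K} (hc : c ≠ 0) (h : ∀ f : Fin d → K,
      ω' (fun i => KaehlerDifferential.D k K' (θ (f i))) =
        θ (c * ω (fun i => KaehlerDifferential.D k K (f i))))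
    (hfg : (canonicalAlgebra k R K d ω).FG) : (canonicalAlgebra k R K' d ω').FG := by
  have hn : ∀ n, pluricanonical k R K' d ω' n =
      (pluricanonical k R K d ω n).map (tw θ (c ^ n)) := by
    intro n
    unfold pluricanonical
    rw [formsIdeal_tw θ ω ω' h, tw_pow θ hc, reflexiveHull_tw θ (pow_ne_zero n hc)]
  let σ : K[X] →ₐ[R] K'[X] := (Polynomial.mapAlgHom (θ : K →ₐ[R] K')).comp
    ((Polynomial.aeval (Polynomial.C c * Polynomial.X) : K[X] →ₐ[K] K[X]).restrictScalars R)
  have hσ : ∀ P n, (σ P).coeff n = θ (c ^ n * P.coeff n) := by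
    intro P n
    show (Polynomial.map (θ : K →ₐ[R] K').toRingHom
      (Polynomial.aeval (Polynomial.C c * Polynomial.X) P)).coeff n = _
    rw [Polynomial.coeff_map]
    have : Polynomial.aeval (Polynomial.C c * Polynomial.X : K[X]) P =
        P.comp (Polynomial.C c * Polynomial.X) := rfl
    rw [this, Polynomial.comp_C_mul_X_coeff, mul_comm]
    rfl
  have h1 : (canonicalAlgebra k R K d ω).map σ = canonicalAlgebra k R K' d ω' := by
    apply le_antisymm
    · rintro _ ⟨P, hP, rfl⟩
      intro n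
      show (σ P).coeff n ∈ _
      rw [hσ, hn]
      exact ⟨P.coeff n, hP n, rfl⟩
    · intro Q hQ
      -- the preimage
      let P : K[X] := (Polynomial.map (θ.symm : K' →+* K) Q).comp
        (Polynomial.C c⁻¹ * Polynomial.X)
      have hP : ∀ n, P.coeff n = (c ^ n)⁻¹ * θ.symm (Q.coeff n) := by
        intro n
        simp only [P]
        rw [Polynomial.comp_C_mul_X_coeff, Polynomial.coeff_map, inv_pow, mul_comm]
        rfl
      refine ⟨P, fun n => ?_, ?_⟩
      · rw [hP, ← mem_map_tw θ (pow_ne_zero n hc), ← hn]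
        exact hQ n
      · ext n
        show (σ P).coeff n = Q.coeff n
        rw [hσ, hP]
        exact tw_inv θ (pow_ne_zero n hc) _
  rw [← h1]
  exact hfg.map σ

end inv

/-- **Independence of the choices.** For a `k`-algebra `R` with fraction fields `K` and `K'`, such that
`Ω[K⁄k]` has dimension `d`, finite generation of the canonical algebra with respect to `ω` and to `ω'` are
equivalent. -/
theorem canonicalAlgebra_fg_iff {k : Type} [Field k] {R : Type} [CommRing R] [Algebra k R]
    {K K' : Type} [Field K] [Field K'] [Algebra k K] [Algebra R K] [IsScalarTower k R K]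
    [IsFractionRing R K] [Algebra k K'] [Algebra R K'] [IsScalarTower k R K']
    [IsFractionRing R K'] {d : ℕ} (b : Module.Basis (Fin d) K Ω[K⁄k])
    {ω : Ω[K⁄k] [⋀^Fin d]→ₗ[K] K} (hω : ω ≠ 0)
    {ω' : Ω[K'⁄k] [⋀^Fin d]→ₗ[K'] K'} (hω' : ω' ≠ 0) :
    (canonicalAlgebra k R K d ω).FG ↔ (canonicalAlgebra k R K' d ω').FG := by
  let θ : K ≃ₐ[R] K' := IsLocalization.algEquiv (nonZeroDivisors R) K K'
  have hk : ∀ c : k, θ (algebraMap k K c) = algebraMap k K' c := by
    intro c
    rw [IsScalarTower.algebraMap_apply k R K, AlgEquiv.commutes,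
      ← IsScalarTower.algebraMap_apply k R K']
  let θk : K ≃ₐ[k] K' := AlgEquiv.ofRingEquiv (f := (θ : K ≃+* K')) hk
  have hθ : ∀ x, θk x = θ x := fun _ => rfl
  obtain ⟨c, hc, h⟩ := exists_ratio θk b hω hω'
  constructor
  · exact fg_of_fg θ ω ω' hc h
  · have hc' : (θ c)⁻¹ ≠ 0 := inv_ne_zero ((map_ne_zero_iff _ θ.injective).mpr hc)
    apply fg_of_fg θ.symm ω' ω hc'
    intro f
    have h1 := h (fun i => θ.symm (f i))
    simp only [hθ, AlgEquiv.apply_symm_apply] at h1
    have h2 : (θ c)⁻¹ * θ (c * ω (fun i => KaehlerDifferential.D k K (θ.symm (f i)))) =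
        θ (ω (fun i => KaehlerDifferential.D k K (θ.symm (f i)))) := by
      rw [map_mul, inv_mul_cancel_left₀ ((map_ne_zero_iff _ θ.injective).mpr hc)]
    rw [h1, h2, AlgEquiv.symm_apply_apply]

end

end Pool.Agent.J6H82.Kollar
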