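import Pool.Agent.J6H82.Kollar.Geo1

/-!
# The ring of the threefold: generators
-/

namespace Pool.Agent.J6H82.Kollar

noncomputable section

set_option maxHeartbeats 400000

open MvPolynomial

variable (k : Type) [Field k]

/-- the lines -/
def ell (i : Fin 11) : P3 k := X 1 - C (lineS i : k) * X 0 - C (lineC i : k) * X 2

/-- the product of the lines, with exponents -/
def Le (e : Fin 11 → ℕ) : P3 k := ∏ i, ell k i ^ e i

/-- the localisation at the product of the lines -/
def WW : Subalgebra k (KK k) where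
  carrier := {f | ∃ (e : Fin 11 → ℕ) (F : P3 k), f * inc (Le k e) = inc F}
  mul_mem' := by
    rintro f g ⟨N, F, h⟩ ⟨M, G, h'⟩
    refine ⟨N + M, F * G, ?_⟩
    have : Le k (N + M) = Le k N * Le k M := by
      simp [Le, pow_add, Finset.prod_mul_distrib]
    rw [this, map_mul, map_mul, ← h, ← h']; ring
  add_mem' := by
    rintro f g ⟨N, F, h⟩ ⟨M, G, h'⟩
    refine ⟨N + M, F * Le k M + G * Le k N, ?_⟩
    have : Le k (N + M) = Le k N * Le k M := by
      simp [Le, pow_add, Finset.prod_mul_distrib]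
    rw [this, map_add, map_mul, map_mul, map_mul, ← h, ← h']; ring
  algebraMap_mem' := by
    intro r
    refine ⟨0, C r, ?_⟩
    have : Le k 0 = 1 := by simp [Le]
    rw [this, map_one, mul_one, ← MvPolynomial.algebraMap_eq, AlgHom.commutes]

variable {k}

theorem Le_add (e e' : Fin 11 → ℕ) : Le k (e + e') = Le k e * Le k e' := by
  simp [Le, pow_add, Finset.prod_mul_distrib]

theorem Le_zero : Le k 0 = 1 := by simp [Le]

theorem ell_ne (i : Fin 11) : ell k i ≠ 0 := by
  intro h
  have := congrArg (MvPolynomial.eval ![0, 1, 0]) h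
  simp [ell] at this

theorem Le_ne (e : Fin 11 → ℕ) : Le k e ≠ 0 :=
  Finset.prod_ne_zero_iff.mpr (fun i _ => pow_ne_zero _ (ell_ne i))

theorem inc_mem_WW (F : P3 k) : inc F ∈ WW k := ⟨0, F, by rw [Le_zero, map_one, mul_one]⟩

variable [CharZero k]

theorem th3_ell (i : Fin 11) (p : Fin 37) : th3 (xs k p) (ys k p) (ell k i) =
    C (ys k p - lineS i * xs k p - lineC i) * X 2 + X 0 * (X 1 - C (lineS i : k)) := by
  simp only [ell, map_sub, map_mul, th3_X0, th3_X1, th3_X2, th3_C]
  ring

/-- total exponent of the lines through `p` -/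
def Sp (e : Fin 11 → ℕ) (p : Fin 37) : ℕ := ∑ i, if OnI i p then e i else 0

theorem Sp_add (e e' : Fin 11 → ℕ) (p : Fin 37) : Sp (e + e') p = Sp e p + Sp e' p := by
  unfold Sp
  rw [← Finset.sum_add_distrib]
  apply Finset.sum_congr rfl
  intro i _
  split_ifs <;> simp

theorem th3_ell_on {i : Fin 11} {p : Fin 37} (h : OnI i p) : th3 (xs k p) (ys k p) (ell k i) =
    X 0 * (X 1 - C (lineS i : k)) := by
  rw [th3_ell]
  have := (onI_iff (k := k) i p).mp h
  rw [this]
  have h2 : (lineS i * xs k p + lineC i - lineS i * xs k p - lineC i : k) = 0 := by ring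
  rw [h2]; simp

theorem not_dvd_th3_ell {i : Fin 11} {p : Fin 37} (h : ¬ OnI i p) :
    ¬ (X 0 : P3 k) ∣ th3 (xs k p) (ys k p) (ell k i) := by
  rw [th3_ell]
  apply not_X0_dvd
  rw [onI_iff (k := k)] at h
  simp only [map_add, map_mul, ev0_X0, zero_mul, add_zero]
  have h1 : ev0 (C (ys k p - lineS i * xs k p - lineC i) : P3 k) =
    C (ys k p - lineS i * xs k p - lineC i) := by simp [ev0]
  have h2 : ev0 (X 2 : P3 k) = X 2 := by simp [ev0]
  rw [h1, h2]
  apply mul_ne_zero
  · rw [Ne, C_eq_zero]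
    intro h3
    apply h
    linear_combination h3
  · exact X_ne_zero 2

theorem not_dvd_X1_sub (c : k) : ¬ (X 0 : P3 k) ∣ X 1 - C c := by
  apply not_X0_dvd
  have h2 : ev0 (X 1 - C c : P3 k) = X 1 - C c := by simp [ev0]
  rw [h2]
  intro h3
  have := congrArg (MvPolynomial.eval ![0, c + 1, 0]) h3
  simp at this

theorem th3_Le (e : Fin 11 → ℕ) (p : Fin 37) : ∃ G : P3 k, ¬ (X 0 : P3 k) ∣ G ∧
    th3 (xs k p) (ys k p) (Le k e) = X 0 ^ Sp e p * G := by
  have h1 : ∀ i, ∃ G : P3 k, ¬ (X 0 : P3 k) ∣ G ∧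
      th3 (xs k p) (ys k p) (ell k i ^ e i) = X 0 ^ (if OnI i p then e i else 0) * G := by
    intro i
    by_cases h : OnI i p
    · refine ⟨(X 1 - C (lineS i : k)) ^ e i, not_X0_dvd_pow (not_dvd_X1_sub _) _, ?_⟩
      rw [map_pow, th3_ell_on h, mul_pow, if_pos h]
    · refine ⟨th3 (xs k p) (ys k p) (ell k i) ^ e i, not_X0_dvd_pow (not_dvd_th3_ell h) _, ?_⟩
      rw [map_pow, if_neg h, pow_zero, one_mul]
  choose G hG hG' using h1
  refine ⟨∏ i, G i, ?_, ?_⟩
  · intro h
    obtain ⟨i, _, hi⟩ := (Prime.dvd_finsetProd_iff X0_prime _).mp h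
    exact hG i hi
  · unfold Le Sp
    rw [map_prod, ← Finset.prod_pow_eq_pow_sum, ← Finset.prod_mul_distrib]
    exact Finset.prod_congr rfl (fun i _ => hG' i)

/-- membership in the valuation ring, up to a twist -/
theorem twist_mem_OO_iff {f : KK k} {e : Fin 11 → ℕ} {F : P3 k} (hf : f * inc (Le k e) = inc F)
    (p : Fin 37) (n : ℕ) : inc (al (xs k p)) ^ n * f ∈ OO (xs k p) (ys k p) ↔
      (X 0 : P3 k) ^ Sp e p ∣ X 0 ^ n * th3 (xs k p) (ys k p) F := by
  obtain ⟨G, hG, hG'⟩ := th3_Le (k := k) e p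
  apply mem_OO_iff hG
  rw [← hG', kap_th3, map_mul, map_pow, kap_X0, kap_th3, ← hf]; ring

variable (k) in
/-- The pluricanonical pieces: elements of `WW` with a pole of order at most `n` along each
exceptional divisor. -/
def RR (n : ℕ) : Set (KK k) :=
  {f | f ∈ WW k ∧ ∀ p, inc (al (xs k p)) ^ n * f ∈ OO (xs k p) (ys k p)}

variable (k) in
/-- the ring of the threefold -/
def AA : Subalgebra k (KK k) := WW k ⊓ ⨅ p, OO (xs k p) (ys k p)

theorem mem_AA {f : KK k} : f ∈ AA k ↔ f ∈ WW k ∧ ∀ p, f ∈ OO (xs k p) (ys k p) := by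
  unfold AA
  rw [Algebra.mem_inf, Algebra.mem_iInf]

theorem mem_AA_iff_RR {f : KK k} : f ∈ AA k ↔ f ∈ RR k 0 := by
  rw [mem_AA]
  unfold RR
  simp

theorem inc_mem_AA (F : P3 k) : inc F ∈ AA k :=
  mem_AA.mpr ⟨inc_mem_WW F, fun _ => inc_mem_OO _ _ F⟩

variable (k) in
/-- product of the `X - a Z` over the points of the line -/
def PP (i : Fin 11) : P3 k := ∏ p ∈ LL i, al (xs k p)

variable (k) in
/-- the additional generators -/
def uu (i : Fin 11) : KK k := inc (PP k i) / inc (ell k i)

theorem uu_mul (i : Fin 11) : uu k i * inc (ell k i) = inc (PP k i) :=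
  div_mul_cancel₀ _ (inc_ne (ell_ne i))

theorem Le_single (i : Fin 11) (n : ℕ) : Le k (Pi.single i n) = ell k i ^ n := by
  unfold Le
  rw [Finset.prod_eq_single i]
  · simp
  · intro j _ hj
    simp [hj]
  · simp

theorem Sp_single (i : Fin 11) (n : ℕ) (p : Fin 37) :
    Sp (Pi.single i n) p = if OnI i p then n else 0 := by
  unfold Sp
  rw [Finset.sum_eq_single i]
  · simp
  · intro j _ hj
    simp [hj]
  · simp

theorem th3_al (p : Fin 37) : th3 (xs k p) (ys k p) (al (xs k p)) = X 0 := by
  simp [al]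

theorem uu_mem_AA (i : Fin 11) : uu k i ∈ AA k := by
  have h1 : uu k i * inc (Le k (Pi.single i 1)) = inc (PP k i) := by
    rw [Le_single, pow_one]; exact uu_mul i
  rw [mem_AA]
  refine ⟨⟨_, _, h1⟩, fun p => ?_⟩
  have h2 := (twist_mem_OO_iff h1 p 0)
  simp only [pow_zero, one_mul] at h2
  rw [h2, Sp_single]
  by_cases h : OnI i p
  · rw [if_pos h, pow_one]
    have : p ∈ LL i := by simp [LL, h]
    unfold PP
    rw [map_prod, ← Finset.mul_prod_erase _ _ this, th3_al]
    exact dvd_mul_right _ _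
  · rw [if_neg h, pow_zero]; exact one_dvd _

/-! ## restriction to a line -/

variable (k) in
/-- restriction to a line, as an endomorphism -/
def res (i : Fin 11) : P3 k →ₐ[k] P3 k :=
  aeval ![X 0, C (lineS i : k) * X 0 + C (lineC i : k) * X 2, X 2]

theorem ell_dvd_sub_res (i : Fin 11) (F : P3 k) : ell k i ∣ F - res k i F := by
  rw [← Ideal.mem_span_singleton, ← Ideal.Quotient.eq]
  have : (Ideal.Quotient.mkₐ k (Ideal.span {ell k i})) =
      (Ideal.Quotient.mkₐ k (Ideal.span {ell k i})).comp (res k i) := by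
    apply algHom_ext3
    · simp [res]
    · simp only [AlgHom.comp_apply, Ideal.Quotient.mkₐ_eq_mk]
      rw [Ideal.Quotient.eq, Ideal.mem_span_singleton]
      have : res k i (X 1) = C (lineS i : k) * X 0 + C (lineC i : k) * X 2 := by simp [res]
      rw [this]
      refine ⟨1, ?_⟩
      unfold ell; ring
    · simp [res]
  exact congrArg (fun f => f F) this

theorem pow_dvd_res {i : Fin 11} {p : Fin 37} (h : OnI i p) {m : ℕ} {F : P3 k}
    (hF : (X 0 : P3 k) ^ m ∣ th3 (xs k p) (ys k p) F) : al (xs k p) ^ m ∣ res k i F := by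
  let σ : P3 k →ₐ[k] P3 k := aeval ![al (xs k p), C (lineS i : k), X 2]
  have hσ : σ.comp (th3 (xs k p) (ys k p)) = res k i := by
    apply algHom_ext3
    · simp only [AlgHom.comp_apply, th3_X0, map_add, map_mul]
      simp [σ, res, al, algHom_C]
    · simp only [AlgHom.comp_apply, th3_X1, map_add, map_mul]
      have h1 := (onI_iff (k := k) i p).mp h
      simp only [σ, res, algHom_C, aeval_X, Matrix.cons_val_zero, Matrix.cons_val_one,
        Matrix.cons_val, al, MvPolynomial.algebraMap_eq]
      rw [h1]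
      simp only [map_add, map_mul]
      ring
    · simp [σ, res]
  obtain ⟨G, hG⟩ := hF
  refine ⟨σ G, ?_⟩
  rw [← hσ, AlgHom.comp_apply, hG, map_mul, map_pow]
  simp [σ]

/-! ## the linear forms `al a` -/

/-- the automorphism `X ↦ X - a Z` -/
def shiftEquiv (a : k) : P3 k ≃ₐ[k] P3 k :=
  AlgEquiv.ofAlgHom (aeval ![al a, X 1, X 2]) (aeval ![X 0 + C a * X 2, X 1, X 2])
    (by
      apply algHom_ext3
      · simp [al, algHom_C]
      · simp
      · simp)
    (by
      apply algHom_ext3
      · simp [al, algHom_C]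
      · simp
      · simp)

theorem al_prime (a : k) : Prime (al a) := by
  have h : shiftEquiv a (X 0) = al a := by
    simp [shiftEquiv]
  rw [← h, MulEquiv.prime_iff]
  exact X0_prime

theorem al_not_dvd {a b : k} (h : a ≠ b) : ¬ al a ∣ al b := by
  rintro ⟨G, hG⟩
  have := congrArg (MvPolynomial.eval ![a, 0, 1]) hG
  simp [al, sub_eq_zero] at this
  exact h this

theorem al_isRelPrime {a b : k} (h : a ≠ b) (m n : ℕ) : IsRelPrime (al a ^ m) (al b ^ n) := by
  apply IsRelPrime.pow
  rw [(al_prime a).irreducible.isRelPrime_iff_not_dvd]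
  exact al_not_dvd h

theorem xs_ne_of_mem {i : Fin 11} {p q : Fin 37} (hp : p ∈ LL i) (hq : q ∈ LL i) (h : p ≠ q) :
    xs k p ≠ xs k q := by
  intro h1
  apply h
  apply xy_inj (k := k) p q h1
  rw [← (mem_LL (k := k) i p).mp hp, ← (mem_LL (k := k) i q).mp hq, h1]

theorem card_inter : ∀ i j : Fin 11, i ≠ j → (LL i ∩ LL j).card = 1 := by decide +kernel

theorem res_ell {i j : Fin 11} {p : Fin 37} (hi : OnI i p) (hj : OnI j p) :
    res k i (ell k j) = C ((lineS i : k) - lineS j) * al (xs k p) := by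
  have h1 := (onI_iff (k := k) i p).mp hi
  have h2 := (onI_iff (k := k) j p).mp hj
  have h3 : (lineC i : k) - lineC j = ((lineS i : k) - lineS j) * (- xs k p) := by
    linear_combination h2 - h1
  have h4 : (C (lineC i : k) - C (lineC j : k) : P3 k) =
      (C (lineS i : k) - C (lineS j : k)) * (- C (xs k p)) := by
    rw [← C_sub, h3, C_mul, C_sub, C_neg]
  simp only [res, ell, map_sub, map_mul, algHom_C, aeval_X, Matrix.cons_val_zero,
    Matrix.cons_val_one, Matrix.cons_val, al, MvPolynomial.algebraMap_eq]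
  linear_combination (X 2 : P3 k) * h4

theorem lineS_ne {i j : Fin 11} (h : i ≠ j) : (lineS i : k) - lineS j ≠ 0 := by
  intro h1
  apply h
  apply lineS_inj
  have : (lineS i : k) = lineS j := by linear_combination h1
  exact_mod_cast this

/-- The product of the restrictions of the other lines. -/
theorem prod_res (i : Fin 11) (e : Fin 11 → ℕ) : ∃ c : k, c ≠ 0 ∧
    ∏ j ∈ Finset.univ.erase i, res k i (ell k j) ^ e j =
      C c * ∏ p ∈ LL i, al (xs k p) ^ (∑ j ∈ Finset.univ.erase i, if OnI j p then e j else 0) := by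
  have h1 : ∀ j ∈ Finset.univ.erase i, res k i (ell k j) ^ e j =
      C (((lineS i : k) - lineS j) ^ e j) *
        ∏ p ∈ LL i, al (xs k p) ^ (if OnI j p then e j else 0) := by
    intro j hj
    have hij : i ≠ j := (Finset.ne_of_mem_erase hj).symm
    obtain ⟨p, hp⟩ := Finset.card_eq_one.mp (card_inter i j hij)
    have hpi : p ∈ LL i ∩ LL j := by rw [hp]; exact Finset.mem_singleton_self p
    rw [Finset.mem_inter] at hpi
    have hi : OnI i p := by simpa [LL] using hpi.1
    have hj' : OnI j p := by simpa [LL] using hpi.2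
    rw [res_ell hi hj', mul_pow, ← C_pow]
    congr 1
    rw [Finset.prod_eq_single p]
    · rw [if_pos hj']
    · intro q hq hqp
      rw [if_neg, pow_zero]
      intro hq'
      apply hqp
      have : q ∈ LL i ∩ LL j := by
        rw [Finset.mem_inter]; exact ⟨hq, by simp [LL, hq']⟩
      rw [hp, Finset.mem_singleton] at this
      exact this
    · intro h; exact absurd hpi.1 h
  refine ⟨∏ j ∈ Finset.univ.erase i, ((lineS i : k) - lineS j) ^ e j, ?_, ?_⟩
  · rw [Finset.prod_ne_zero_iff]
    intro j hj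
    exact pow_ne_zero _ (lineS_ne (Finset.ne_of_mem_erase hj).symm)
  · rw [Finset.prod_congr rfl h1, Finset.prod_mul_distrib, map_prod, Finset.prod_comm]
    congr 1
    apply Finset.prod_congr rfl
    intro p _
    rw [Finset.prod_pow_eq_pow_sum]

/-- the subalgebra generated by the coordinates and the additional generators -/
def Agen (k : Type) [Field k] [CharZero k] : Subalgebra k (KK k) :=
  Algebra.adjoin k (Set.range (fun j : Fin 3 => inc (X j : P3 k)) ∪ Set.range (uu k))

theorem inc_mem_Agen (F : P3 k) : inc F ∈ Agen k := by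
  have h1 : (inc : P3 k →ₐ[k] KK k) = aeval (fun j : Fin 3 => inc (X j : P3 k)) := by
    apply MvPolynomial.algHom_ext
    intro i
    rw [aeval_X]
  rw [h1]
  have h2 : aeval (fun j : Fin 3 => inc (X j : P3 k)) F ∈
      Algebra.adjoin k (Set.range (fun j : Fin 3 => inc (X j : P3 k))) := by
    rw [← aeval_range]
    exact AlgHom.mem_range_self _ F
  exact Algebra.adjoin_mono Set.subset_union_left h2

theorem uu_mem_Agen (i : Fin 11) : uu k i ∈ Agen k :=
  Algebra.subset_adjoin (Or.inr ⟨i, rfl⟩)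

/-- one reduction step -/
theorem reduce {f : KK k} {e : Fin 11 → ℕ} {F : P3 k} (hf : f * inc (Le k e) = inc F)
    (hfA : f ∈ AA k) (i : Fin 11) (hi : 0 < e i) :
    ∃ q G : P3 k, (f - inc q * uu k i ^ e i) * inc (Le k (Function.update e i (e i - 1))) =
      inc G := by
  rw [mem_AA] at hfA
  -- divisibility on the line
  have h1 : ∀ p ∈ LL i, al (xs k p) ^ (Sp e p) ∣ res k i F := by
    intro p hp
    have hp' : OnI i p := by simpa [LL] using hp
    apply pow_dvd_res hp'
    have := (twist_mem_OO_iff hf p 0).mp (by simpa using hfA.2 p)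
    simpa using this
  have h2 : ∏ p ∈ LL i, al (xs k p) ^ (Sp e p) ∣ res k i F := by
    apply Finset.prod_dvd_of_isRelPrime
    · intro p hp q hq hpq
      exact al_isRelPrime (xs_ne_of_mem hp hq hpq) _ _
    · exact h1
  obtain ⟨c, hc, hc'⟩ := prod_res (k := k) i e
  have h3 : ∏ p ∈ LL i, al (xs k p) ^ (Sp e p) = PP k i ^ e i *
      ∏ p ∈ LL i, al (xs k p) ^ (∑ j ∈ Finset.univ.erase i, if OnI j p then e j else 0) := by
    unfold PP
    rw [← Finset.prod_pow, ← Finset.prod_mul_distrib]
    apply Finset.prod_congr rfl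
    intro p hp
    have hp' : OnI i p := by simpa [LL] using hp
    rw [← pow_add]
    congr 1
    unfold Sp
    rw [← Finset.add_sum_erase _ _ (Finset.mem_univ i), if_pos hp']
  obtain ⟨q0, hq0⟩ := h2
  obtain ⟨q, hqdef⟩ : ∃ q : P3 k, q = C c⁻¹ * q0 := ⟨_, rfl⟩
  have h4 : res k i F = q * PP k i ^ e i * ∏ j ∈ Finset.univ.erase i, res k i (ell k j) ^ e j := by
    rw [hc', hq0, h3]
    have : (C c⁻¹ * C c : P3 k) = 1 := by rw [← C_mul, inv_mul_cancel₀ hc, C_1]
    rw [hqdef]
    linear_combination (-(PP k i ^ e i *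
      ∏ p ∈ LL i, al (xs k p) ^ (∑ j ∈ Finset.univ.erase i, if OnI j p then e j else 0)) * q0) * this
  -- restriction fixes `PP` and the restrictions
  have hres : ∀ H : P3 k, res k i (res k i H) = res k i H := by
    intro H
    have : (res k i).comp (res k i) = res k i := by
      apply algHom_ext3
      · simp [res]
      · simp [res, algHom_C]
      · simp [res]
    exact congrArg (fun f => f H) this
  have hPP : res k i (PP k i) = PP k i := by
    unfold PP
    rw [map_prod]
    apply Finset.prod_congr rfl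
    intro p _
    simp [res, al, algHom_C]
  have h5 : ell k i ∣ F - res k i q * PP k i ^ e i * ∏ j ∈ Finset.univ.erase i, ell k j ^ e j := by
    have h6 := ell_dvd_sub_res i (F - res k i q * PP k i ^ e i *
      ∏ j ∈ Finset.univ.erase i, ell k j ^ e j)
    have h7 : res k i (F - res k i q * PP k i ^ e i *
        ∏ j ∈ Finset.univ.erase i, ell k j ^ e j) = 0 := by
      rw [map_sub, map_mul, map_mul, hres, map_pow, hPP, map_prod]
      simp only [map_pow]
      have h8 := congrArg (res k i) h4
      rw [hres, map_mul, map_mul, map_pow, hPP, map_prod] at h8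
      simp only [map_pow, hres] at h8
      rw [h8, sub_self]
    rwa [h7, sub_zero] at h6
  obtain ⟨G, hG⟩ := h5
  refine ⟨res k i q, G, ?_⟩
  have h8 : Le k e = ell k i * Le k (Function.update e i (e i - 1)) := by
    have : e = Pi.single i 1 + Function.update e i (e i - 1) := by
      ext j
      by_cases hj : j = i
      · subst hj; simp; omega
      · simp [hj]
    conv_lhs => rw [this]
    rw [Le_add, Le_single, pow_one]
  have h9 : Le k e = ell k i ^ e i * ∏ j ∈ Finset.univ.erase i, ell k j ^ e j := by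
    unfold Le
    rw [Finset.mul_prod_erase _ (fun j => ell k j ^ e j) (Finset.mem_univ i)]
  have hell : inc (ell k i) ≠ 0 := inc_ne (ell_ne i)
  apply mul_left_cancel₀ hell
  have h10 : inc (ell k i) * ((f - inc (res k i q) * uu k i ^ e i) *
      inc (Le k (Function.update e i (e i - 1)))) =
      f * inc (Le k e) - inc (res k i q) * (uu k i ^ e i * inc (Le k e)) := by
    rw [h8, map_mul inc]; ring
  rw [h10, hf, ← map_mul, ← hG, h9]
  have h11 : uu k i ^ e i * inc (ell k i ^ e i * ∏ j ∈ Finset.univ.erase i, ell k j ^ e j) =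
      inc (PP k i ^ e i * ∏ j ∈ Finset.univ.erase i, ell k j ^ e j) := by
    rw [map_mul, map_mul, map_pow, map_pow, ← mul_assoc, ← mul_pow, uu_mul]
  rw [h11]
  simp only [map_sub, map_mul]
  ring

theorem AA_le_Agen_aux : ∀ (N : ℕ) (e : Fin 11 → ℕ), ∑ i, e i = N → ∀ (f : KK k) (F : P3 k),
    f * inc (Le k e) = inc F → f ∈ AA k → f ∈ Agen k := by
  intro N
  induction N with
  | zero =>
    intro e he f F hf _
    have : e = 0 := by
      ext i
      have := (Finset.sum_eq_zero_iff.mp he) i (Finset.mem_univ i)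
      simpa using this
    rw [this, Le_zero, map_one, mul_one] at hf
    rw [hf]; exact inc_mem_Agen F
  | succ N ih =>
    intro e he f F hf hfA
    obtain ⟨i, hi⟩ : ∃ i, 0 < e i := by
      by_contra hcon
      push Not at hcon
      have : ∑ i, e i = 0 := Finset.sum_eq_zero (fun i _ => by have := hcon i; omega)
      omega
    obtain ⟨q, G, hG⟩ := reduce hf hfA i hi
    have h1 : f - inc q * uu k i ^ e i ∈ Agen k := by
      refine ih _ ?_ _ G hG ?_
      · have := Finset.add_sum_erase Finset.univ (Function.update e i (e i - 1)) (Finset.mem_univ i)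
        have h2 := Finset.add_sum_erase Finset.univ e (Finset.mem_univ i)
        have h3 : ∑ j ∈ Finset.univ.erase i, Function.update e i (e i - 1) j =
            ∑ j ∈ Finset.univ.erase i, e j := by
          apply Finset.sum_congr rfl
          intro j hj
          rw [Function.update_of_ne (Finset.ne_of_mem_erase hj)]
        rw [Function.update_self] at this
        omega
      · exact (AA k).sub_mem hfA ((AA k).mul_mem (inc_mem_AA q) ((AA k).pow_mem (uu_mem_AA i) _))
    have h2 : f = (f - inc q * uu k i ^ e i) + inc q * uu k i ^ e i := by ring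
    rw [h2]
    exact (Agen k).add_mem h1 ((Agen k).mul_mem (inc_mem_Agen q) ((Agen k).pow_mem (uu_mem_Agen i) _))

theorem AA_eq_Agen : AA k = Agen k := by
  apply le_antisymm
  · intro f hf
    obtain ⟨e, F, h⟩ := (mem_AA.mp hf).1
    exact AA_le_Agen_aux _ e rfl f F h hf
  · unfold Agen
    rw [Algebra.adjoin_le_iff]
    rintro _ (⟨j, rfl⟩ | ⟨i, rfl⟩)
    · exact inc_mem_AA _
    · exact uu_mem_AA i

end

end Pool.Agent.J6H82.Kollar
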