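import Pool.Agent.J6H82.Kollar.Res5
import Pool.Agent.J6H82.Kollar.Geo2

/-!
# The central fibre
-/

namespace Pool.Agent.J6H82.Kollar

noncomputable section

set_option maxHeartbeats 400000

open MvPolynomial

/-- the Laurent polynomials over the function field of the line -/
abbrev Lam (k : Type) [Field k] := LaurentPolynomial (FF k)

variable {k : Type} [Field k]

/-- restriction to `Z = 0`, in the coordinates `T = X`, `w = Y / X` -/
def rho0 : P3 k →ₐ[k] Lam k :=
  aeval ![LaurentPolynomial.T 1, LaurentPolynomial.C (ww k) * LaurentPolynomial.T 1, 0]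

@[simp] theorem rho0_X0 : rho0 (X 0 : P3 k) = LaurentPolynomial.T 1 := by simp [rho0]
@[simp] theorem rho0_X1 : rho0 (X 1 : P3 k) = LaurentPolynomial.C (ww k) * LaurentPolynomial.T 1 := by
  simp [rho0]
@[simp] theorem rho0_X2 : rho0 (X 2 : P3 k) = 0 := by simp [rho0]

theorem rho0_C (c : k) : rho0 (C c : P3 k) = LaurentPolynomial.C (algebraMap k (FF k) c) := by
  rw [← MvPolynomial.algebraMap_eq, AlgHom.commutes]; rfl

theorem rho0_ell (i : Fin 11) : rho0 (ell k i) =
    LaurentPolynomial.C (piP k (some i)) * LaurentPolynomial.T 1 := by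
  unfold ell piP
  simp only [map_sub, map_mul, rho0_X0, rho0_X1, rho0_X2, rho0_C, mul_zero, sub_zero]
  ring

theorem piP_ne (P : Option (Fin 11)) : piP k P ≠ 0 := π_ne_zero_of (k := k) (piP_inj P)

theorem isUnit_C {x : FF k} (hx : x ≠ 0) : IsUnit (LaurentPolynomial.C x : Lam k) :=
  (isUnit_iff_ne_zero.mpr hx).map LaurentPolynomial.C

theorem isUnit_rho0_ell (i : Fin 11) : IsUnit (rho0 (ell k i)) := by
  rw [rho0_ell]
  exact (isUnit_C (piP_ne _)).mul (LaurentPolynomial.isUnit_T 1)

theorem isUnit_rho0_Le (e : Fin 11 → ℕ) : IsUnit (rho0 (Le k e)) := by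
  have h1 : ∀ s : Finset (Fin 11), IsUnit (rho0 (∏ i ∈ s, ell k i ^ e i)) := by
    classical
    intro s
    induction s using Finset.induction_on with
    | empty => simp
    | insert a s ha ih =>
      rw [Finset.prod_insert ha, map_mul, map_pow]
      exact ((isUnit_rho0_ell a).pow _).mul ih
  exact h1 Finset.univ

theorem exists_rho (f : WW k) : ∃ l : Lam k, ∀ (e : Fin 11 → ℕ) (F : P3 k),
    (f : KK k) * inc (Le k e) = inc F → l * rho0 (Le k e) = rho0 F := by
  obtain ⟨e, F, h⟩ := f.2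
  obtain ⟨u, hu⟩ := isUnit_rho0_Le (k := k) e
  refine ⟨rho0 F * (↑u⁻¹ : Lam k), fun e' F' h' => ?_⟩
  have h1 : F * Le k e' = F' * Le k e := by
    apply inc_inj
    rw [map_mul, map_mul, ← h, ← h']; ring
  have h2 := congrArg rho0 h1
  rw [map_mul, map_mul, ← hu] at h2
  rw [mul_right_comm, h2, mul_assoc, Units.mul_inv, mul_one]

/-- restriction to the central fibre -/
def rhoFun (f : WW k) : Lam k := (exists_rho f).choose

theorem rhoFun_spec (f : WW k) {e : Fin 11 → ℕ} {F : P3 k}
    (h : (f : KK k) * inc (Le k e) = inc F) : rhoFun f * rho0 (Le k e) = rho0 F :=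
  (exists_rho f).choose_spec e F h

theorem rhoFun_unique (f : WW k) {e : Fin 11 → ℕ} {F : P3 k}
    (h : (f : KK k) * inc (Le k e) = inc F) {l : Lam k} (hl : l * rho0 (Le k e) = rho0 F) :
    rhoFun f = l :=
  (isUnit_rho0_Le e).mul_right_cancel (by rw [rhoFun_spec f h, hl])

/-- restriction to the central fibre, as a homomorphism -/
def rho : WW k →ₐ[k] Lam k where
  toFun := rhoFun
  map_one' := by
    apply rhoFun_unique (e := 0) (F := 1) <;> simp [Le_zero]
  map_zero' := by
    apply rhoFun_unique (e := 0) (F := 0) <;> simp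
  map_mul' f g := by
    obtain ⟨e, F, h⟩ := f.2
    obtain ⟨e', F', h'⟩ := g.2
    apply rhoFun_unique (e := e + e') (F := F * F')
    · rw [Le_add, map_mul, map_mul, ← h, ← h']
      push_cast
      ring
    · rw [Le_add, map_mul, map_mul, ← rhoFun_spec f h, ← rhoFun_spec g h']
      ring
  map_add' f g := by
    obtain ⟨e, F, h⟩ := f.2
    obtain ⟨e', F', h'⟩ := g.2
    apply rhoFun_unique (e := e + e') (F := F * Le k e' + F' * Le k e)
    · rw [Le_add, map_mul, map_add, map_mul, map_mul, ← h, ← h']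
      push_cast
      ring
    · rw [Le_add, map_mul, map_add, map_mul, map_mul, ← rhoFun_spec f h, ← rhoFun_spec g h']
      ring
  commutes' c := by
    apply rhoFun_unique (e := 0) (F := C c)
    · rw [Le_zero, map_one, mul_one, ← MvPolynomial.algebraMap_eq, AlgHom.commutes]
      rfl
    · rw [Le_zero, map_one, mul_one, ← MvPolynomial.algebraMap_eq, AlgHom.commutes]

theorem rho_spec (f : WW k) {e : Fin 11 → ℕ} {F : P3 k}
    (h : (f : KK k) * inc (Le k e) = inc F) : rho f * rho0 (Le k e) = rho0 F := rhoFun_spec f h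

theorem rho_inc (F : P3 k) : rho ⟨inc F, inc_mem_WW F⟩ = rho0 F := by
  have := rho_spec (⟨inc F, inc_mem_WW F⟩ : WW k) (e := 0) (F := F) (by simp [Le_zero])
  rwa [Le_zero, map_one, mul_one] at this

/-! ## the kernel -/

/-- set `Z = 0` -/
def ev02 : P3 k →ₐ[k] P3 k := aeval ![X 0, X 1, 0]

theorem X2_dvd_sub (F : P3 k) : (X 2 : P3 k) ∣ F - ev02 F := by
  rw [← Ideal.mem_span_singleton, ← Ideal.Quotient.eq]
  have : (Ideal.Quotient.mkₐ k (Ideal.span {(X 2 : P3 k)})) =
      (Ideal.Quotient.mkₐ k (Ideal.span {(X 2 : P3 k)})).comp ev02 := by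
    apply algHom_ext3
    · simp [ev02]
    · simp [ev02]
    · simp only [AlgHom.comp_apply]
      have : ev02 (X 2 : P3 k) = 0 := by simp [ev02]
      rw [this, map_zero, Ideal.Quotient.mkₐ_eq_mk, Ideal.Quotient.eq_zero_iff_mem]
      exact Ideal.mem_span_singleton_self _
  exact congrArg (fun f => f F) this

/-- relabelling of the variables -/
def relab : P3 k →ₐ[k] S2 k := aeval ![Polynomial.X, Polynomial.C Polynomial.X, 0]

theorem th3_inj (a b : k) : Function.Injective (th3 a b) := by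
  intro F G h
  apply inc_inj
  rw [← kap_th3 a b F, ← kap_th3 a b G, h]

theorem X2_dvd_of_relab {F : P3 k} (h : relab (th3 0 0 F) = 0) : (X 2 : P3 k) ∣ F := by
  let back : S2 k →ₐ[k] P3 k := ev2 (X 1) (X 0)
  have h1 : back.comp relab = ev02 := by
    apply algHom_ext3
    · simp [back, relab, ev02]
    · simp [back, relab, ev02]
    · simp [back, relab, ev02]
  have h2 : ev02 (th3 0 0 F) = 0 := by
    rw [← h1, AlgHom.comp_apply, h, map_zero]
  have h3 : (ev02 (k := k)).comp (th3 0 0) = (th3 0 0).comp ev02 := by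
    apply algHom_ext3
    · simp [ev02]
    · simp [ev02]
    · simp [ev02]
  have h4 : th3 0 0 (ev02 F) = 0 := by
    rw [← AlgHom.comp_apply, ← h3, AlgHom.comp_apply, h2]
  have h5 : ev02 F = 0 := th3_inj 0 0 (by rw [h4, map_zero])
  have h6 := X2_dvd_sub F
  rwa [h5, sub_zero] at h6

variable [CharZero k]

theorem X2_dvd_of_rho0 {F : P3 k} (h : rho0 F = 0) : (X 2 : P3 k) ∣ F := by
  apply X2_dvd_of_relab
  have h1 : (((theStar k).kapT (some 10)).comp relab).comp (th3 0 0) = rho0 := by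
    have hπ : (theStar k).π (some 10) = ww k := by
      show ww k - algebraMap k (FF k) (lineS 10 : k) = ww k
      rw [lineS_zero, map_zero, sub_zero]
    apply algHom_ext3
    · simp only [AlgHom.comp_apply, th3_X0, C_0, zero_mul, zero_add, rho0_X0]
      simp [relab, LStar.kapT]
    · simp only [AlgHom.comp_apply, th3_X1, C_0, zero_mul, zero_add, rho0_X1]
      simp only [relab, LStar.kapT, map_mul, aeval_X, Matrix.cons_val_zero, Matrix.cons_val_one,
        ev2_X, ev2_C, Polynomial.aeval_X]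
      rw [hπ, mul_comm]
    · simp [relab]
  apply (theStar k).kapT_inj (some 10)
  rw [map_zero, ← h, ← h1]
  rfl

/-! ## the restriction of the ring of the threefold -/

/-- restriction of the ring of the threefold to the central fibre -/
def rhoA (k : Type) [Field k] [CharZero k] : AA k →ₐ[k] Lam k :=
  rho.comp (Subalgebra.inclusion (fun _ h => (mem_AA.mp h).1 : AA k ≤ WW k))

theorem rhoA_spec (f : AA k) {e : Fin 11 → ℕ} {F : P3 k}
    (h : (f : KK k) * inc (Le k e) = inc F) : rhoA k f * rho0 (Le k e) = rho0 F :=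
  rho_spec _ h

theorem rhoA_inc (F : P3 k) : rhoA k ⟨inc F, inc_mem_AA F⟩ = rho0 F := rho_inc F

theorem card_LL_pos : ∀ i, 0 < (LL i).card := by decide +kernel

theorem rhoA_uu (i : Fin 11) : rhoA k ⟨uu k i, uu_mem_AA i⟩ = (theStar k).gP (some i) := by
  have h1 := rhoA_spec (⟨uu k i, uu_mem_AA i⟩ : AA k) (e := Pi.single i 1) (F := PP k i)
    (by rw [Le_single, pow_one]; exact uu_mul i)
  rw [Le_single, pow_one, rho0_ell] at h1
  have h2 : rho0 (PP k i) = LaurentPolynomial.T ((LL i).card : ℤ) := by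
    unfold PP
    rw [map_prod]
    have : ∀ p ∈ LL i, rho0 (al (xs k p)) = LaurentPolynomial.T 1 := by
      intro p _
      unfold al
      simp
    rw [Finset.prod_congr rfl this, Finset.prod_const, LStar.T_one_pow]
  have hu : IsUnit (LaurentPolynomial.C (piP k (some i)) * LaurentPolynomial.T 1 : Lam k) :=
    (isUnit_C (piP_ne _)).mul (LaurentPolynomial.isUnit_T 1)
  apply hu.mul_right_cancel
  rw [h1, h2]
  show _ = LaurentPolynomial.C (piP k (some i))⁻¹ * LaurentPolynomial.T (((LL i).card - 1 : ℕ) : ℤ) *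
    (LaurentPolynomial.C (piP k (some i)) * LaurentPolynomial.T 1)
  rw [show (LaurentPolynomial.C (piP k (some i))⁻¹ *
    LaurentPolynomial.T (((LL i).card - 1 : ℕ) : ℤ) *
    (LaurentPolynomial.C (piP k (some i)) * LaurentPolynomial.T 1) : Lam k) =
    (LaurentPolynomial.C (piP k (some i))⁻¹ * LaurentPolynomial.C (piP k (some i))) *
    (LaurentPolynomial.T (((LL i).card - 1 : ℕ) : ℤ) * LaurentPolynomial.T 1) by ring,
    C_inv_mul (piP_ne _), one_mul, T_mul_T]
  congr 1
  have := card_LL_pos i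
  omega

theorem rhoA_X1 : rhoA k ⟨inc (X 1), inc_mem_AA (X 1)⟩ = (theStar k).gP none := by
  rw [rhoA_inc, rho0_X1]
  show _ = LaurentPolynomial.C (ww k)⁻¹⁻¹ * LaurentPolynomial.T ((1 : ℕ) : ℤ)
  rw [inv_inv, Nat.cast_one]

theorem rhoA_mem (f : AA k) : rhoA k f ∈ (theStar k).Bgen := by
  have h1 : Agen k ≤ (((theStar k).Bgen).comap (rhoA k)).map (AA k).val := by
    unfold Agen
    rw [Algebra.adjoin_le_iff]
    rintro _ (⟨j, rfl⟩ | ⟨i, rfl⟩)
    · refine ⟨⟨inc (X j), inc_mem_AA _⟩, ?_, rfl⟩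
      show rhoA k ⟨inc (X j), inc_mem_AA _⟩ ∈ (theStar k).Bgen
      fin_cases j
      · have := rhoA_inc (k := k) (X 0)
        rw [rho0_X0] at this
        simp only [Fin.zero_eta]
        rw [this]
        exact (theStar k).T_mem_Bgen
      · simp only [Fin.mk_one]
        rw [rhoA_X1]
        exact (theStar k).gP_mem_Bgen _
      · have := rhoA_inc (k := k) (X 2)
        rw [rho0_X2] at this
        simp only [Fin.reduceFinMk]
        rw [this]
        exact Subalgebra.zero_mem _
    · refine ⟨⟨uu k i, uu_mem_AA i⟩, ?_, rfl⟩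
      show rhoA k ⟨uu k i, uu_mem_AA i⟩ ∈ (theStar k).Bgen
      rw [rhoA_uu]
      exact (theStar k).gP_mem_Bgen _
  have h2 : (f : KK k) ∈ Agen k := by
    rw [← AA_eq_Agen]; exact f.2
  obtain ⟨g, hg, hgf⟩ := h1 h2
  have h3 : g = f := Subtype.ext hgf
  rw [← h3]
  exact hg

theorem Bgen_le_range : (theStar k).Bgen ≤ (rhoA k).range := by
  unfold LStar.Bgen
  rw [Algebra.adjoin_le_iff]
  rintro _ (rfl | ⟨P, rfl⟩)
  · exact ⟨⟨inc (X 0), inc_mem_AA _⟩, by
      show rhoA k _ = _
      rw [rhoA_inc, rho0_X0]⟩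
  · rcases P with _ | i
    · exact ⟨_, rhoA_X1⟩
    · exact ⟨_, rhoA_uu i⟩

/-- the parameter -/
def gZ (k : Type) [Field k] [CharZero k] : AA k := ⟨inc (X 2), inc_mem_AA _⟩

theorem gZ_coe : ((gZ k : AA k) : KK k) = inc (X 2) := rfl

theorem not_dvd_X2 : ¬ (X 0 : P3 k) ∣ X 2 := by
  apply not_X0_dvd
  simp [ev0, X_ne_zero]

theorem mem_span_of_rhoA {f : AA k} (h : rhoA k f = 0) : f ∈ Ideal.span {gZ k} := by
  obtain ⟨e, F, hF⟩ := (mem_AA.mp f.2).1
  have h1 := rhoA_spec f hF
  rw [h, zero_mul] at h1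
  obtain ⟨F', rfl⟩ := X2_dvd_of_rho0 h1.symm
  have hz : inc (X 2 : P3 k) ≠ 0 := inc_ne (X_ne_zero 2)
  have hg : (f : KK k) / inc (X 2) * inc (Le k e) = inc F' := by
    rw [div_mul_eq_mul_div, hF, map_mul, mul_div_cancel_left₀ _ hz]
  have hmem : (f : KK k) / inc (X 2) ∈ AA k := by
    rw [mem_AA]
    refine ⟨⟨e, F', hg⟩, fun p => ?_⟩
    have h2 := (twist_mem_OO_iff hF p 0).mp (by simpa using (mem_AA.mp f.2).2 p)
    have h3 := twist_mem_OO_iff hg p 0
    simp only [pow_zero, one_mul] at h2 h3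
    rw [h3]
    rw [map_mul, th3_X2] at h2
    exact X0_prime.pow_dvd_of_dvd_mul_left _ not_dvd_X2 h2
  rw [Ideal.mem_span_singleton]
  refine ⟨⟨_, hmem⟩, ?_⟩
  apply Subtype.ext
  show (f : KK k) = inc (X 2) * ((f : KK k) / inc (X 2))
  rw [mul_div_cancel₀ _ hz]

theorem rhoA_gZ : rhoA k (gZ k) = 0 := by
  unfold gZ
  rw [rhoA_inc, rho0_X2]

/-- the central fibre is the surface of the star -/
def centralEquiv (k : Type) [Field k] [CharZero k] :
    (AA k ⧸ Ideal.span {gZ k}) ≃ₐ[k] (theStar k).Bgen := by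
  let φ : AA k →ₐ[k] (theStar k).Bgen := (rhoA k).codRestrict _ rhoA_mem
  have hsurj : Function.Surjective φ := by
    rintro ⟨x, hx⟩
    obtain ⟨f, hf⟩ := Bgen_le_range hx
    exact ⟨f, Subtype.ext hf⟩
  have hker : Ideal.span {gZ k} = RingHom.ker φ := by
    apply le_antisymm
    · rw [Ideal.span_singleton_le_iff_mem, RingHom.mem_ker]
      apply Subtype.ext
      exact rhoA_gZ
    · intro f hf
      apply mem_span_of_rhoA
      rw [RingHom.mem_ker] at hf
      exact congrArg Subtype.val hf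
  exact (Ideal.quotientEquivAlgOfEq k hker).trans (Ideal.quotientKerAlgEquivOfSurjective hsurj)

/-- **The central fibre has rational singularities.** -/
theorem central_isRationalSurface (k : Type) [Field k] [CharZero k] :
    IsRationalSurface k (AA k ⧸ Ideal.span {gZ k}) :=
  (theStar k).isRationalSurface _ (centralEquiv k)

end

end Pool.Agent.J6H82.Kollar
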