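import Mathlib

/-!
# Plane curves with assigned multiplicities: counting

`k[x][y]` with the filtration by total degree, the blow-up substitution at a point, and the spaces of
polynomials of bounded degree with assigned multiplicities at finitely many points.
-/

namespace Pool.Agent.J6H82.Kollar

open Polynomial

noncomputable section

variable {k : Type} [Field k]

/-- Bivariate polynomials `k[x][y]`. -/
abbrev S2 (k : Type) [Field k] := Polynomial (Polynomial k)

/-- Polynomials of total degree at most `d`. -/
def Deg (k : Type) [Field k] (d : ℕ) : Submodule k (S2 k) where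
  carrier := {F | ∀ i j, d < i + j → (F.coeff j).coeff i = 0}
  add_mem' := by
    intro F G hF hG i j h
    simp [hF i j h, hG i j h]
  zero_mem' := by intro i j _; simp
  smul_mem' := by
    intro c F hF i j h
    simp [Polynomial.coeff_smul, hF i j h]

theorem mem_Deg {d : ℕ} {F : S2 k} :
    F ∈ Deg k d ↔ ∀ i j, d < i + j → (F.coeff j).coeff i = 0 := Iff.rfl

/-- index type for the monomials of degree at most `d` -/
abbrev Idx (d : ℕ) := Σ j : Fin (d + 1), Fin (d + 1 - j)

theorem card_Idx (d : ℕ) : 2 * Fintype.card (Idx d) = (d + 1) * (d + 2) := by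
  simp only [Fintype.card_sigma, Fintype.card_fin]
  rw [Finset.sum_fin_eq_sum_range]
  have h1 : ∑ i ∈ Finset.range (d + 1), (if h : i < d + 1 then d + 1 - i else 0)
      = ∑ i ∈ Finset.range (d + 1), (i + 1) := by
    rw [← Finset.sum_range_reflect]
    apply Finset.sum_congr rfl
    intro i hi
    rw [Finset.mem_range] at hi
    rw [dif_pos (by omega)]
    omega
  rw [h1, Finset.sum_add_distrib]
  have := Finset.sum_range_id_mul_two (d + 1)
  simp only [Finset.sum_const, Finset.card_range, smul_eq_mul, mul_one]
  have h2 : (d + 1) * (d + 1 - 1) = (d + 1) * d := by simp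
  rw [h2] at this
  nlinarith

/-- coefficients give a linear equivalence -/
def degEquiv (k : Type) [Field k] (d : ℕ) : Deg k d ≃ₗ[k] (Idx d → k) where
  toFun F := fun q => (F.1.coeff q.1).coeff q.2
  map_add' F G := by ext q; simp
  map_smul' c F := by ext q; simp
  invFun c := ⟨∑ q : Idx d, monomial q.1.1 (monomial q.2.1 (c q)), by
    intro i j h
    simp only [finsetSum_coeff, coeff_monomial]
    apply Finset.sum_eq_zero
    intro q _
    have := q.1.2
    have := q.2.2
    by_cases h1 : (q.1 : ℕ) = j
    · rw [if_pos h1, coeff_monomial, if_neg (by omega)]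
    · rw [if_neg h1]; simp⟩
  left_inv F := by
    apply Subtype.ext
    ext j i
    simp only [finsetSum_coeff, coeff_monomial]
    by_cases h : d < i + j
    · rw [F.2 i j h]
      apply Finset.sum_eq_zero
      intro q _
      have := q.1.2
      have := q.2.2
      by_cases h1 : (q.1 : ℕ) = j
      · rw [if_pos h1, coeff_monomial, if_neg (by omega)]
      · rw [if_neg h1]; simp
    · rw [Finset.sum_eq_single (⟨⟨j, by omega⟩, ⟨i, by simp; omega⟩⟩ : Idx d)]
      · simp [coeff_monomial]
      · intro q _ hq
        by_cases h1 : (q.1 : ℕ) = j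
        · rw [if_pos h1, coeff_monomial, if_neg]
          intro h2
          apply hq
          obtain ⟨⟨q1, hq1⟩, ⟨q2, hq2⟩⟩ := q
          simp only at h1 h2
          subst h1; subst h2
          rfl
        · rw [if_neg h1]; simp
      · simp
  right_inv c := by
    ext q
    simp only [finsetSum_coeff, coeff_monomial]
    rw [Finset.sum_eq_single q]
    · simp
    · intro r _ hr
      by_cases h1 : (r.1 : ℕ) = q.1
      · rw [if_pos h1, coeff_monomial, if_neg]
        intro h2
        apply hr
        obtain ⟨⟨q1, hq1⟩, ⟨q2, hq2⟩⟩ := q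
        obtain ⟨⟨r1, hr1⟩, ⟨r2, hr2⟩⟩ := r
        simp only at h1 h2
        subst h1; subst h2
        rfl
      · rw [if_neg h1]; simp
    · simp

instance (d : ℕ) : Module.Finite k (Deg k d) :=
  Module.Finite.equiv (degEquiv k d).symm

theorem finrank_Deg (d : ℕ) : 2 * Module.finrank k (Deg k d) = (d + 1) * (d + 2) := by
  rw [(degEquiv k d).finrank_eq, Module.finrank_fintype_fun_eq_card, card_Idx]

/-- The blow-up substitution `x ↦ a + α`, `y ↦ b + w α` at the point `(a, b)`; the target is
`k[w][α]`. -/
def th (a b : k) : S2 k →ₐ[k] S2 k :=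
  Polynomial.eval₂AlgHom (aeval (C (C a) + X : S2 k)) (C (C b) + C X * X)
    (fun _ => Commute.all _ _)

@[simp] theorem th_C (a b : k) (g : k[X]) : th a b (C g) = aeval (C (C a) + X : S2 k) g := by
  simp [th]

@[simp] theorem th_X (a b : k) : th a b X = C (C b) + C X * X := by
  simp [th]

/-- restriction to the curve `y = g(x)` -/
def ev (g : k[X]) : S2 k →ₐ[k] k[X] := (Polynomial.aeval g : S2 k →ₐ[k[X]] k[X]).restrictScalars k

@[simp] theorem ev_C (g h : k[X]) : ev g (C h) = h := by simp [ev]
@[simp] theorem ev_X (g : k[X]) : ev g X = g := by simp [ev]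

theorem ev_eq_zero_iff (g : k[X]) (F : S2 k) : ev g F = 0 ↔ (X - C g) ∣ F := by
  rw [Polynomial.dvd_iff_isRoot]
  simp [ev, Polynomial.IsRoot, Polynomial.coe_aeval_eq_eval]

/-- Two `k`-algebra homs from `k[x][y]` agreeing on `x`, `y` are equal. -/
theorem algHom_ext2 {B : Type*} [Semiring B] [Algebra k B] {f g : S2 k →ₐ[k] B}
    (h1 : f (C X) = g (C X)) (h2 : f X = g X) : f = g := by
  apply Polynomial.algHom_ext'
  · apply Polynomial.algHom_ext
    simpa using h1
  · exact h2

theorem ev_dvd_of_th_dvd {a b : k} {g : k[X]} (hg : g.eval a = b) {m : ℕ} {F : S2 k}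
    (h : X ^ m ∣ th a b F) : (X - C a) ^ m ∣ ev g F := by
  obtain ⟨q, hq⟩ : (X - C a) ∣ g - C b := by
    rw [Polynomial.dvd_iff_isRoot]; simp [hg]
  -- the substitution `w ↦ q`, `α ↦ x - a`
  let σ : S2 k →ₐ[k] k[X] := Polynomial.eval₂AlgHom (aeval q) (X - C a) (fun _ => Commute.all _ _)
  have hσ : σ.comp (th a b) = ev g := by
    apply algHom_ext2
    · simp [σ]
    · simp [σ]
      linear_combination -hq
  obtain ⟨G, hG⟩ := h
  rw [← hσ]
  refine ⟨σ G, ?_⟩
  rw [AlgHom.comp_apply, hG, map_mul, map_pow]
  simp [σ]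

end

end Pool.Agent.J6H82.Kollar
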