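import Pool.Agent.J6H82.Kollar.Count1

/-!
# Plane curves with assigned multiplicities: the basic steps
-/

namespace Pool.Agent.J6H82.Kollar

open Polynomial

noncomputable section

variable {k : Type} [Field k]

/-! ## divisibility at a point -/

theorem not_X_dvd_iff {F : S2 k} : ¬ (X : S2 k) ∣ F ↔ F.coeff 0 ≠ 0 := by
  rw [Polynomial.X_dvd_iff]

theorem aeval_shift_coeff_zero (a : k) (g : k[X]) :
    ((aeval (C (C a) + X : S2 k) g : S2 k)).coeff 0 = C (g.eval a) := by
  have : (Polynomial.evalRingHom (0 : k[X])).comp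
      ((aeval (C (C a) + X : S2 k) : k[X] →ₐ[k] S2 k) : k[X] →+* S2 k)
      = (C : k →+* k[X]).comp (Polynomial.evalRingHom a) := by
    apply Polynomial.ringHom_ext
    · intro r; simp [← Polynomial.algebraMap_eq, Polynomial.algebraMap_apply]
    · simp
  have h := congrArg (fun f => f g) this
  simpa [Polynomial.coeff_zero_eq_eval_zero] using h

theorem th_sub_of_ne {a b : k} {g : k[X]} (hg : g.eval a ≠ b) :
    ¬ (X : S2 k) ∣ th a b (X - C g) := by
  rw [not_X_dvd_iff, map_sub, th_X, th_C, coeff_sub, aeval_shift_coeff_zero]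
  simp only [coeff_add, coeff_C_zero, mul_coeff_zero, coeff_X_zero, mul_zero, add_zero]
  rw [← C_sub]
  intro h
  rw [C_eq_zero, sub_eq_zero] at h
  exact hg h.symm

theorem th_sub_of_eq {a b : k} {g : k[X]} (hg : g.eval a = b) :
    ∃ u : S2 k, th a b (X - C g) = X * u ∧ ¬ (X : S2 k) ∣ u := by
  obtain ⟨q, hq⟩ : (X - C a) ∣ g - C b := by
    rw [Polynomial.dvd_iff_isRoot]; simp [hg]
  refine ⟨C X - aeval (C (C a) + X : S2 k) q, ?_, ?_⟩
  · have h1 : aeval (C (C a) + X : S2 k) g = C (C b) + X * aeval (C (C a) + X : S2 k) q := by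
      have : g = C b + (X - C a) * q := by linear_combination hq
      conv_lhs => rw [this]
      simp only [map_add, map_mul, map_sub, aeval_X, aeval_C, Polynomial.algebraMap_apply,
        Algebra.algebraMap_self, RingHom.id_apply]
      ring
    rw [map_sub, th_X, th_C, h1]
    ring
  · rw [not_X_dvd_iff, coeff_sub, aeval_shift_coeff_zero, coeff_C_zero]
    intro h
    have := congrArg (fun f => Polynomial.coeff f 1) h
    simp at this

theorem pow_dvd_of_mul_of_ne {a b : k} {g : k[X]} (hg : g.eval a ≠ b) {m : ℕ} {F : S2 k}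
    (h : X ^ m ∣ th a b ((X - C g) * F)) : X ^ m ∣ th a b F := by
  rw [map_mul] at h
  exact (Polynomial.prime_X).pow_dvd_of_dvd_mul_left m (th_sub_of_ne hg) h

theorem pow_dvd_of_mul_of_eq {a b : k} {g : k[X]} (hg : g.eval a = b) {m : ℕ} {F : S2 k}
    (h : X ^ m ∣ th a b ((X - C g) * F)) : X ^ (m - 1) ∣ th a b F := by
  obtain ⟨u, hu, hu'⟩ := th_sub_of_eq hg
  rw [map_mul, hu] at h
  rcases m with _ | m
  · simp
  · have h2 : X ^ m ∣ u * th a b F := by
      rw [pow_succ', mul_assoc] at h
      exact (mul_dvd_mul_iff_left Polynomial.X_ne_zero).mp h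
    exact (Polynomial.prime_X).pow_dvd_of_dvd_mul_left m hu' h2

/-! ## degree of coefficients of the blow-up substitution -/

theorem natDegree_coeff_th_le (a b : k) (F : S2 k) (m : ℕ) :
    ((th a b F).coeff m).natDegree ≤ m := by
  -- the set of `G` with `natDegree (G.coeff m) ≤ m` is a subalgebra
  let S : Subalgebra k (S2 k) :=
    { carrier := {G | ∀ m, (G.coeff m).natDegree ≤ m}
      mul_mem' := by
        intro G H hG hH m
        rw [coeff_mul]
        apply Polynomial.natDegree_sum_le_of_forall_le
        intro q hq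
        replace hq := Finset.HasAntidiagonal.mem_antidiagonal.mp hq
        calc _ ≤ _ := Polynomial.natDegree_mul_le
          _ ≤ q.1 + q.2 := add_le_add (hG _) (hH _)
          _ ≤ m := hq.le
      add_mem' := by
        intro G H hG hH m
        rw [coeff_add]
        exact (Polynomial.natDegree_add_le _ _).trans (max_le (hG m) (hH m))
      algebraMap_mem' := by
        intro r m
        rw [Polynomial.algebraMap_apply, Polynomial.algebraMap_apply, coeff_C]
        split <;> simp }
  have h1 : ∀ g : k[X], aeval (C (C a) + X : S2 k) g ∈ S := by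
    intro g
    have hx : (C (C a) + X : S2 k) ∈ S := by
      intro m
      rw [coeff_add, coeff_C, coeff_X]
      split_ifs <;> simp
    have : aeval (C (C a) + X : S2 k) g ∈ Algebra.adjoin k {(C (C a) + X : S2 k)} := by
      exact Polynomial.aeval_mem_adjoin_singleton k _
    exact (Algebra.adjoin_le (by simpa using hx)) this
  have h2 : th a b F ∈ S := by
    induction F using Polynomial.induction_on' with
    | add p q hp hq => rw [map_add]; exact S.add_mem hp hq
    | monomial n g =>
      rw [← C_mul_X_pow_eq_monomial, map_mul, map_pow, th_C, th_X]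
      refine S.mul_mem (h1 g) (S.pow_mem ?_ n)
      intro m
      rw [coeff_add, coeff_C_mul, coeff_C, coeff_X]
      split_ifs <;> simp <;> omega
  exact h2 m

/-! ## total degree -/

/-- `x ↦ xT`, `y ↦ yT` -/
def dl (k : Type) [Field k] : S2 k →ₐ[k] Polynomial (S2 k) :=
  Polynomial.aevalTower (aeval (C (C X) * X : Polynomial (S2 k))) (C X * X)

@[simp] theorem dl_CX : dl k (C X) = C (C X) * X := by simp [dl]
@[simp] theorem dl_X : dl k X = C X * X := by simp [dl]
@[simp] theorem dl_CC (c : k) : dl k (C (C c)) = C (C (C c)) := by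
  simp [dl, Polynomial.algebraMap_apply]

theorem coeff_dl (F : S2 k) (m i j : ℕ) :
    (((dl k F).coeff m).coeff j).coeff i = if i + j = m then (F.coeff j).coeff i else 0 := by
  induction F using Polynomial.induction_on' with
  | add p q hp hq => simp only [map_add, coeff_add, hp, hq]; split_ifs <;> simp
  | monomial n g =>
    induction g using Polynomial.induction_on' with
    | add p q hp hq => simp only [map_add, coeff_add, hp, hq]; split_ifs <;> simp
    | monomial l c =>
      have h1 : (monomial n (monomial l c) : S2 k) = C (C c) * (C X) ^ l * X ^ n := by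
        rw [← C_mul_X_pow_eq_monomial, ← C_mul_X_pow_eq_monomial]
        simp
      have h2 : dl k (monomial n (monomial l c)) = monomial (l + n) (monomial n (monomial l c)) := by
        rw [h1]
        simp only [map_mul, map_pow, dl_CX, dl_X, dl_CC]
        rw [← h1, ← C_mul_X_pow_eq_monomial, h1]
        simp only [map_mul, map_pow]
        ring
      rw [h2]
      simp only [coeff_monomial]
      by_cases h3 : l + n = m
      · rw [if_pos h3, coeff_monomial]
        by_cases h4 : n = j
        · rw [if_pos h4, coeff_monomial]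
          by_cases h5 : l = i
          · rw [if_pos h5, if_pos (by omega)]
          · rw [if_neg h5]; split_ifs <;> rfl
        · rw [if_neg h4]; simp
      · rw [if_neg h3]
        by_cases h4 : n = j
        · by_cases h5 : l = i
          · rw [if_neg (by omega)]; simp
          · simp [h4, coeff_monomial, h5]
        · simp [h4]

theorem mem_Deg_iff {d : ℕ} {F : S2 k} : F ∈ Deg k d ↔ (dl k F).natDegree ≤ d := by
  rw [Polynomial.natDegree_le_iff_coeff_eq_zero, mem_Deg]
  constructor
  · intro h m hm
    ext j i
    rw [coeff_dl]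
    split_ifs with h1
    · rw [h i j (by omega)]; simp
    · simp
  · intro h i j hij
    have := coeff_dl F (i + j) i j
    rw [h _ hij, if_pos rfl] at this
    simpa using this.symm

theorem mem_Deg_of_mul {g : k[X]} {e d : ℕ} (he : (dl k (X - C g)).natDegree = e)
    {F : S2 k} (h : (X - C g) * F ∈ Deg k (d + e)) : F ∈ Deg k d := by
  by_cases hF : F = 0
  · rw [hF]; exact (Deg k d).zero_mem
  have hinj : Function.Injective (dl k) := by
    rw [injective_iff_map_eq_zero]
    intro G hG
    ext j i
    have := coeff_dl G (i + j) i j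
    rw [hG, if_pos rfl] at this
    simpa using this.symm
  have h1 : dl k (X - C g) ≠ 0 := by
    rw [Ne, map_eq_zero_iff _ hinj]
    exact Polynomial.X_sub_C_ne_zero g
  have h2 : dl k F ≠ 0 := by rwa [Ne, map_eq_zero_iff _ hinj]
  rw [mem_Deg_iff, map_mul, Polynomial.natDegree_mul h1 h2, he] at h
  rw [mem_Deg_iff]
  omega

/-! ## restriction to a curve -/

theorem natDegree_ev_le {g : k[X]} {e D : ℕ} (he : 1 ≤ e) (hg : g.natDegree ≤ e) {F : S2 k}
    (hF : F ∈ Deg k D) : (ev g F).natDegree ≤ e * D := by
  have h1 : ev g F = F.sum fun j h => h * g ^ j := by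
    simp [ev, Polynomial.coe_aeval_eq_eval, Polynomial.eval_eq_sum]
  rw [h1, Polynomial.sum_def]
  apply Polynomial.natDegree_sum_le_of_forall_le
  intro j hj
  have hj' : F.coeff j ≠ 0 := by simpa using hj
  have hjd : (F.coeff j).natDegree + j ≤ D := by
    by_contra hcon
    apply hj'
    rw [← Polynomial.leadingCoeff_eq_zero]
    exact hF _ _ (by omega)
  calc (F.coeff j * g ^ j).natDegree ≤ (F.coeff j).natDegree + j * g.natDegree :=
        Polynomial.natDegree_mul_le.trans (by gcongr; exact Polynomial.natDegree_pow_le)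
    _ ≤ (F.coeff j).natDegree + j * e := by gcongr
    _ ≤ e * (F.coeff j).natDegree + j * e := by nlinarith
    _ = e * ((F.coeff j).natDegree + j) := by ring
    _ ≤ e * D := by gcongr

theorem coeff_ev_cubic {g : k[X]} (hg : g.Monic) (hg3 : g.natDegree = 3) (hg2 : g.coeff 2 = 0)
    {D : ℕ} (hD : 1 ≤ D) {F : S2 k} (hF : F ∈ Deg k D) : (ev g F).coeff (3 * D - 1) = 0 := by
  have h1 : ev g F = F.sum fun j h => h * g ^ j := by
    simp [ev, Polynomial.coe_aeval_eq_eval, Polynomial.eval_eq_sum]
  rw [h1, Polynomial.sum_def, Polynomial.finsetSum_coeff]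
  apply Finset.sum_eq_zero
  intro j hj
  have hj' : F.coeff j ≠ 0 := by simpa using hj
  have hjd : (F.coeff j).natDegree + j ≤ D := by
    by_contra hcon
    apply hj'
    rw [← Polynomial.leadingCoeff_eq_zero]
    exact hF _ _ (by omega)
  by_cases hjD : j = D
  · have h0 : (F.coeff j).natDegree = 0 := by omega
    rw [Polynomial.eq_C_of_natDegree_eq_zero h0, coeff_C_mul]
    have hm : (g ^ j).Monic := hg.pow j
    have hn : (g ^ j).nextCoeff = 0 := by
      rw [hg.nextCoeff_pow, Polynomial.nextCoeff_of_natDegree_pos (by omega), hg3]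
      simp [hg2]
    have hd : (g ^ j).natDegree = 3 * D := by rw [hg.natDegree_pow, hg3, hjD]; ring
    rw [Polynomial.nextCoeff_of_natDegree_pos (by omega), hd] at hn
    rw [hn, mul_zero]
  · apply Polynomial.coeff_eq_zero_of_natDegree_lt
    calc (F.coeff j * g ^ j).natDegree ≤ (F.coeff j).natDegree + j * g.natDegree :=
        Polynomial.natDegree_mul_le.trans (by gcongr; exact Polynomial.natDegree_pow_le)
      _ < 3 * D - 1 := by rw [hg3]; omega

end

end Pool.Agent.J6H82.Kollar
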