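import Pool.Agent.J6H82.Kollar.Count2

/-!
# Plane curves with assigned multiplicities: dimension estimates
-/

namespace Pool.Agent.J6H82.Kollar

open Polynomial Module

noncomputable section

variable {k : Type} [Field k]

/-! ## spaces of univariate polynomials -/

theorem finrank_le_of_dvd {W : Submodule k k[X]} {Q : k[X]} {N : ℕ} (hQ : Q.Monic)
    (h : ∀ f ∈ W, f.natDegree ≤ N ∧ Q ∣ f) (hN : Q.natDegree ≤ N + 1) :
    Module.Finite k W ∧ finrank k W ≤ N + 1 - Q.natDegree := by
  set n := N + 1 - Q.natDegree with hn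
  let T : Submodule k k[X] := (degreeLT k n).map (LinearMap.mulLeft k Q)
  have hWT : W ≤ T := by
    intro f hf
    obtain ⟨h1, r, hr⟩ := h f hf
    refine ⟨r, ?_, by simp [hr]⟩
    by_cases hr0 : r = 0
    · rw [hr0]; exact (degreeLT k n).zero_mem
    · rw [SetLike.mem_coe, mem_degreeLT]
      have : f.natDegree = Q.natDegree + r.natDegree := by
        rw [hr, hQ.natDegree_mul' hr0]
      rw [Polynomial.degree_eq_natDegree hr0]
      exact_mod_cast (by omega : r.natDegree < n)
  have : Module.Finite k (degreeLT k n) :=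
    Module.Finite.equiv (Polynomial.degreeLTEquiv k n).symm
  have hT : Module.Finite k T := by infer_instance
  have hW : Module.Finite k W := Submodule.finiteDimensional_of_le hWT
  refine ⟨hW, ?_⟩
  calc finrank k W ≤ finrank k T := Submodule.finrank_mono hWT
    _ ≤ finrank k (degreeLT k n) := Submodule.finrank_map_le _ _
    _ = n := by rw [(Polynomial.degreeLTEquiv k n).finrank_eq]; simp

theorem finrank_le_of_dvd_of_coeff {W : Submodule k k[X]} {Q : k[X]} {N : ℕ} (hQ : Q.Monic)
    (h : ∀ f ∈ W, f.natDegree ≤ N ∧ Q ∣ f ∧ f.coeff (N - 1) = 0) (hN : Q.natDegree + 1 ≤ N) :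
    finrank k W ≤ N - Q.natDegree := by
  -- enlarge `W` by the polynomial `Q * X ^ (N - 1 - deg Q)`
  set q := Q.natDegree with hq
  let f0 : k[X] := Q * X ^ (N - 1 - q)
  have hf0 : f0.natDegree = N - 1 := by
    simp only [f0]
    rw [Polynomial.natDegree_mul_X_pow _ hQ.ne_zero]; omega
  have hf0c : f0.coeff (N - 1) = 1 := by
    have : f0.Monic := hQ.mul (monic_X_pow _)
    rw [← hf0]; exact this
  let W' : Submodule k k[X] := W ⊔ k ∙ f0
  have hW' : ∀ f ∈ W', f.natDegree ≤ N ∧ Q ∣ f := by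
    intro f hf
    obtain ⟨w, hw, z, hz, rfl⟩ := Submodule.mem_sup.mp hf
    obtain ⟨c, rfl⟩ := Submodule.mem_span_singleton.mp hz
    obtain ⟨h1, h2, h3⟩ := h w hw
    constructor
    · refine (natDegree_add_le _ _).trans (max_le h1 ?_)
      refine (natDegree_smul_le _ _).trans ?_
      omega
    · exact dvd_add h2 ⟨c • X ^ (N - 1 - q), by simp only [f0]; rw [mul_smul_comm]⟩
  obtain ⟨hfin, hle⟩ := finrank_le_of_dvd hQ hW' (by omega)
  have hlt : W < W' := by
    refine lt_of_le_of_ne le_sup_left ?_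
    intro heq
    have : f0 ∈ W := by
      rw [heq]; exact Submodule.mem_sup_right (Submodule.mem_span_singleton_self _)
    have := (h f0 this).2.2
    rw [hf0c] at this
    exact one_ne_zero this
  have := Submodule.finrank_lt_finrank_of_lt hlt
  omega

/-! ## the spaces `V` -/

variable {π : Type} [Fintype π] [DecidableEq π]

/-- polynomials of degree at most `d` with multiplicity at least `μ p` at the points `(x p, y p)` -/
def V (x y : π → k) (d : ℕ) (μ : π → ℤ) : Submodule k (S2 k) where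
  carrier := {F | F ∈ Deg k d ∧ ∀ p, X ^ (μ p).toNat ∣ th (x p) (y p) F}
  add_mem' := by
    rintro F G ⟨h1, h2⟩ ⟨h3, h4⟩
    exact ⟨(Deg k d).add_mem h1 h3, fun p => by rw [map_add]; exact dvd_add (h2 p) (h4 p)⟩
  zero_mem' := ⟨(Deg k d).zero_mem, fun p => by simp⟩
  smul_mem' := by
    rintro c F ⟨h1, h2⟩
    exact ⟨(Deg k d).smul_mem c h1, fun p => by
      obtain ⟨G, hG⟩ := h2 p
      exact ⟨c • G, by rw [map_smul, hG, mul_smul_comm]⟩⟩

variable {x y : π → k}

theorem mem_V {d : ℕ} {μ : π → ℤ} {F : S2 k} :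
    F ∈ V x y d μ ↔ F ∈ Deg k d ∧ ∀ p, X ^ (μ p).toNat ∣ th (x p) (y p) F := Iff.rfl

instance (d : ℕ) (μ : π → ℤ) : Module.Finite k (V x y d μ) :=
  Submodule.finiteDimensional_of_le (S₂ := Deg k d) (fun _ h => h.1)

theorem V_eq_Deg {d : ℕ} {μ : π → ℤ} (h : ∀ p, μ p ≤ 0) : V x y d μ = Deg k d := by
  ext F
  rw [mem_V]
  refine ⟨fun h => h.1, fun hF => ⟨hF, fun p => ?_⟩⟩
  rw [Int.toNat_of_nonpos (h p)]
  simp

/-- twice the expected dimension -/
def chi (d : ℕ) (μ : π → ℤ) : ℤ := ((d : ℤ) + 1) * ((d : ℤ) + 2) - ∑ p, μ p * (μ p + 1)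

/-- the dimension is at most the expected one -/
def Good (x y : π → k) (d : ℕ) (μ : π → ℤ) : Prop :=
  2 * (finrank k (V x y d μ) : ℤ) ≤ chi d μ

theorem good_of_nonpos {d : ℕ} {μ : π → ℤ} (h : ∀ p, μ p = 0 ∨ μ p = -1) : Good x y d μ := by
  unfold Good chi
  rw [V_eq_Deg (fun p => by rcases h p with h | h <;> omega)]
  have h1 := finrank_Deg (k := k) d
  have h2 : ∑ p, μ p * (μ p + 1) = 0 := by
    apply Finset.sum_eq_zero
    intro p _
    rcases h p with h | h <;> rw [h] <;> simp
  rw [h2]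
  have : (2 * (finrank k (Deg k d) : ℤ)) = ((d : ℤ) + 1) * ((d : ℤ) + 2) := by exact_mod_cast h1
  omega

/-- The restriction sequence. -/
theorem finrank_V_le {g : k[X]} {e d : ℕ} (he : (dl k (X - C g)).natDegree = e)
    {L : Finset π} (hL : ∀ p, p ∈ L ↔ g.eval (x p) = y p) {μ : π → ℤ} (hμ : ∀ p ∈ L, -1 ≤ μ p)
    {R : ℕ} (hR : finrank k ((V x y (d + e) (fun p => μ p + if p ∈ L then 1 else 0)).map
      (ev g).toLinearMap) ≤ R) :
    finrank k (V x y (d + e) (fun p => μ p + if p ∈ L then 1 else 0)) ≤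
      finrank k (V x y d μ) + R := by
  set V1 := V x y (d + e) (fun p => μ p + if p ∈ L then 1 else 0) with hV1
  let r : V1 →ₗ[k] k[X] := (ev g).toLinearMap.comp V1.subtype
  have hrange : LinearMap.range r = V1.map (ev g).toLinearMap := by
    simp only [r]
    rw [LinearMap.range_comp, Submodule.range_subtype]
  have hker : finrank k (LinearMap.ker r) ≤ finrank k (V x y d μ) := by
    have hmem : ∀ z : LinearMap.ker r, ∃ F1 ∈ V x y d μ, (z.1.1 : S2 k) = (X - C g) * F1 := by
      rintro ⟨⟨F, hF⟩, hz⟩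
      have h1 : ev g F = 0 := by simpa [r] using hz
      rw [ev_eq_zero_iff] at h1
      obtain ⟨F1, hF1⟩ := h1
      refine ⟨F1, ⟨?_, ?_⟩, hF1⟩
      · apply mem_Deg_of_mul he
        rw [← hF1]; exact hF.1
      · intro p
        have h2 := hF.2 p
        rw [hF1] at h2
        by_cases hp : p ∈ L
        · simp only [hp, if_true] at h2
          have := pow_dvd_of_mul_of_eq ((hL p).mp hp) h2
          have h3 : (μ p + 1).toNat - 1 = (μ p).toNat := by
            have := hμ p hp; omega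
          rwa [h3] at this
        · simp only [hp, if_false, add_zero] at h2
          exact pow_dvd_of_mul_of_ne (fun h => hp ((hL p).mpr h)) h2
    -- build the injection
    let M : Submodule k (S2 k) := (V x y d μ).map (LinearMap.mulLeft k (X - C g))
    have hM : finrank k M ≤ finrank k (V x y d μ) := Submodule.finrank_map_le _ _
    let j : LinearMap.ker r →ₗ[k] M :=
      LinearMap.codRestrict M (V1.subtype.comp (LinearMap.ker r).subtype) (by
        intro z
        obtain ⟨F1, h1, h2⟩ := hmem z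
        exact ⟨F1, h1, by simp [h2]⟩)
    have hj : Function.Injective j := by
      intro z w h
      apply Subtype.ext
      apply Subtype.ext
      have := congrArg Subtype.val h
      simpa [j] using this
    exact (LinearMap.finrank_le_finrank_of_injective hj).trans hM
  have h1 := LinearMap.finrank_range_add_finrank_ker (K := k) (V := V1) (V₂ := k[X]) r
  rw [hrange] at h1
  omega

theorem prod_dvd_ev {g : k[X]} {L : Finset π} (hL : ∀ p, p ∈ L ↔ g.eval (x p) = y p)
    (hinj : ∀ p q, x p = x q → y p = y q → p = q) {d : ℕ} {μ : π → ℤ} {F : S2 k}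
    (hF : F ∈ V x y d μ) : ∏ p ∈ L, (X - C (x p)) ^ (μ p).toNat ∣ ev g F := by
  apply Finset.prod_dvd_of_coprime
  · intro p hp q hq hpq
    apply IsCoprime.pow
    apply Polynomial.isCoprime_X_sub_C_of_isUnit_sub
    rw [isUnit_iff_ne_zero, sub_ne_zero]
    intro h
    apply hpq
    apply hinj p q h
    rw [← (hL p).mp hp, ← (hL q).mp hq, h]
  · intro p hp
    exact ev_dvd_of_th_dvd ((hL p).mp hp) (hF.2 p)

theorem natDegree_prod_pow (L : Finset π) (m : π → ℕ) :
    (∏ p ∈ L, (X - C (x p)) ^ (m p)).natDegree = ∑ p ∈ L, m p := by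
  rw [Polynomial.natDegree_prod_of_monic]
  · apply Finset.sum_congr rfl
    intro p _
    rw [(monic_X_sub_C _).natDegree_pow]; simp
  · intro p _
    exact (monic_X_sub_C _).pow _

theorem monic_prod_pow (L : Finset π) (m : π → ℕ) :
    (∏ p ∈ L, (X - C (x p)) ^ (m p)).Monic :=
  monic_prod_of_monic _ _ (fun p _ => (monic_X_sub_C _).pow _)

theorem sum_toNat {L : Finset π} {μ : π → ℤ} (h : ∀ p ∈ L, 0 ≤ μ p) :
    ((∑ p ∈ L, (μ p).toNat : ℕ) : ℤ) = ∑ p ∈ L, μ p := by
  rw [Nat.cast_sum]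
  exact Finset.sum_congr rfl (fun p hp => by rw [Int.toNat_of_nonneg (h p hp)])

theorem chi_add_ind (d e : ℕ) (L : Finset π) (μ : π → ℤ) :
    chi (d + e) (fun p => μ p + if p ∈ L then 1 else 0) =
      chi d μ + (2 * e * (d + e) + 3 * e - e * e) - 2 * ∑ p ∈ L, (μ p + 1) := by
  unfold chi
  have : ∑ p, (μ p + if p ∈ L then 1 else 0) * ((μ p + if p ∈ L then 1 else 0) + 1)
      = ∑ p, μ p * (μ p + 1) + 2 * ∑ p ∈ L, (μ p + 1) := by
    rw [Finset.mul_sum, ← Finset.sum_filter_add_sum_filter_not Finset.univ (· ∈ L)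
      (fun p => μ p * (μ p + 1)), ← Finset.sum_filter_add_sum_filter_not Finset.univ (· ∈ L)
      (fun p => (μ p + if p ∈ L then 1 else 0) * ((μ p + if p ∈ L then 1 else 0) + 1))]
    have h1 : ∑ p ∈ Finset.univ with p ∈ L,
        (μ p + if p ∈ L then 1 else 0) * ((μ p + if p ∈ L then 1 else 0) + 1)
        = ∑ p ∈ Finset.univ with p ∈ L, μ p * (μ p + 1) + ∑ p ∈ L, 2 * (μ p + 1) := by
      have : L = Finset.univ.filter (· ∈ L) := by ext p; simp
      conv_rhs => rw [show ∑ p ∈ L, 2 * (μ p + 1) = ∑ p ∈ Finset.univ.filter (· ∈ L), 2 * (μ p + 1)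
        by rw [← this]]
      rw [← Finset.sum_add_distrib]
      apply Finset.sum_congr rfl
      intro p hp
      rw [Finset.mem_filter] at hp
      rw [if_pos hp.2]; ring
    have h2 : ∑ p ∈ Finset.univ with p ∉ L,
        (μ p + if p ∈ L then 1 else 0) * ((μ p + if p ∈ L then 1 else 0) + 1)
        = ∑ p ∈ Finset.univ with p ∉ L, μ p * (μ p + 1) := by
      apply Finset.sum_congr rfl
      intro p hp
      rw [Finset.mem_filter] at hp
      rw [if_neg hp.2]; ring
    rw [h1, h2]; ring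
  rw [this]
  push_cast
  ring

end

end Pool.Agent.J6H82.Kollar
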