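import Pool.Agent.J6H82.Kollar.Count3

/-!
# Plane curves with assigned multiplicities: adding curves
-/

namespace Pool.Agent.J6H82.Kollar

open Polynomial Module

noncomputable section

set_option maxHeartbeats 400000

variable {k : Type} [Field k] {π : Type} [Fintype π] [DecidableEq π] {x y : π → k}

theorem natDegree_dl_line {g : k[X]} (hg : g.natDegree ≤ 1) :
    (dl k (X - C g)).natDegree = 1 := by
  obtain ⟨a, b, rfl⟩ := Polynomial.exists_eq_X_add_C_of_natDegree_le_one hg
  have h : dl k (X - C (C a * X + C b)) = C (X - C (C a * X)) * X + C (- C (C b)) := by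
    simp only [map_sub, map_add, map_mul, dl_X, dl_CX, dl_CC]
    ring_nf
    simp
    ring
  rw [h]
  apply Polynomial.natDegree_linear
  intro h0
  have := congrArg (fun f => Polynomial.coeff f 1) h0
  simp at this

theorem natDegree_dl_cubic {g : k[X]} (hg : g.Monic) (hg3 : g.natDegree = 3) :
    (dl k (X - C g)).natDegree = 3 := by
  apply le_antisymm
  · rw [← mem_Deg_iff]
    intro i j hij
    rw [coeff_sub, coeff_X, coeff_C]
    by_cases h0 : j = 0
    · subst h0
      simp
      apply Polynomial.coeff_eq_zero_of_natDegree_lt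
      omega
    · by_cases h1 : 1 = j
      · subst h1
        simp [coeff_one]
        omega
      · simp [h0, h1]
  · by_contra h
    push Not at h
    have h1 : (X - C g) ∈ Deg k 2 := by rw [mem_Deg_iff]; omega
    have := h1 3 0 (by norm_num)
    rw [coeff_sub, coeff_X, coeff_C] at this
    simp at this
    rw [← hg3] at this
    have h2 : g.coeff g.natDegree = 1 := hg
    rw [h2] at this
    exact one_ne_zero this

theorem line_step {g : k[X]} (hg : g.natDegree ≤ 1)
    (hinj : ∀ p q, x p = x q → y p = y q → p = q)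
    {L : Finset π} (hL : ∀ p, p ∈ L ↔ g.eval (x p) = y p) {d : ℕ} {μ : π → ℤ}
    (hμ : ∀ p ∈ L, -1 ≤ μ p) (hd : ∑ p ∈ L, (μ p + 1) ≤ d + 2) (h : Good x y d μ) :
    Good x y (d + 1) (fun p => μ p + if p ∈ L then 1 else 0) := by
  set μ' : π → ℤ := fun p => μ p + if p ∈ L then 1 else 0 with hμ'
  have hs : ((∑ p ∈ L, (μ' p).toNat : ℕ) : ℤ) = ∑ p ∈ L, (μ p + 1) := by
    rw [sum_toNat]
    · apply Finset.sum_congr rfl
      intro p hp
      simp [hμ', hp]
    · intro p hp
      have := hμ p hp
      simp only [hμ', hp, if_true]; omega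
  have hb : finrank k ((V x y (d + 1) μ').map (ev g).toLinearMap) ≤
      (d + 1) + 1 - ∑ p ∈ L, (μ' p).toNat := by
    have := (finrank_le_of_dvd (W := (V x y (d + 1) μ').map (ev g).toLinearMap)
      (monic_prod_pow (x := x) L (fun p => (μ' p).toNat)) (N := d + 1) ?_ ?_).2
    · rwa [natDegree_prod_pow] at this
    · rintro f ⟨F, hF, rfl⟩
      constructor
      · have := natDegree_ev_le (e := 1) le_rfl hg hF.1
        simpa using this
      · exact prod_dvd_ev hL hinj hF
    · rw [natDegree_prod_pow]
      omega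
  have h1 := finrank_V_le (natDegree_dl_line hg) hL hμ hb
  rw [← hμ'] at h1
  have h2 := chi_add_ind d 1 L μ
  unfold Good at h ⊢
  rw [h2]
  have h3 : (finrank k (V x y (d + 1) μ') : ℤ) ≤ finrank k (V x y d μ) + ((d + 2) -
      ∑ p ∈ L, (μ p + 1)) := by
    have : (finrank k (V x y (d + 1) μ') : ℤ) ≤
      ((finrank k (V x y d μ) + ((d + 1) + 1 - ∑ p ∈ L, (μ' p).toNat) : ℕ) : ℤ) := by
      exact_mod_cast h1
    refine this.trans ?_
    rw [← hs]
    omega
  push_cast
  linarith

theorem gamma_step {g : k[X]} (hg : g.Monic) (hg3 : g.natDegree = 3) (hg2 : g.coeff 2 = 0)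
    (hinj : ∀ p q, x p = x q → y p = y q → p = q)
    {L : Finset π} (hL : ∀ p, p ∈ L ↔ g.eval (x p) = y p) {d : ℕ} {μ : π → ℤ}
    (hμ : ∀ p ∈ L, -1 ≤ μ p) (hd : ∑ p ∈ L, (μ p + 1) + 1 ≤ 3 * (d + 3)) (h : Good x y d μ) :
    Good x y (d + 3) (fun p => μ p + if p ∈ L then 1 else 0) := by
  set μ' : π → ℤ := fun p => μ p + if p ∈ L then 1 else 0 with hμ'
  have hs : ((∑ p ∈ L, (μ' p).toNat : ℕ) : ℤ) = ∑ p ∈ L, (μ p + 1) := by
    rw [sum_toNat]
    · apply Finset.sum_congr rfl
      intro p hp
      simp [hμ', hp]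
    · intro p hp
      have := hμ p hp
      simp only [hμ', hp, if_true]; omega
  have hb : finrank k ((V x y (d + 3) μ').map (ev g).toLinearMap) ≤
      3 * (d + 3) - ∑ p ∈ L, (μ' p).toNat := by
    have := (finrank_le_of_dvd_of_coeff (W := (V x y (d + 3) μ').map (ev g).toLinearMap)
      (monic_prod_pow (x := x) L (fun p => (μ' p).toNat)) (N := 3 * (d + 3)) ?_ ?_)
    · rwa [natDegree_prod_pow] at this
    · rintro f ⟨F, hF, rfl⟩
      refine ⟨?_, prod_dvd_ev hL hinj hF, ?_⟩
      · have := natDegree_ev_le (e := 3) (by norm_num) hg3.le hF.1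
        simpa using this
      · exact coeff_ev_cubic hg hg3 hg2 (by omega) hF.1
    · rw [natDegree_prod_pow]
      omega
  have h1 := finrank_V_le (natDegree_dl_cubic hg hg3) hL hμ hb
  rw [← hμ'] at h1
  have h2 := chi_add_ind d 3 L μ
  unfold Good at h ⊢
  rw [h2]
  have h3 : (finrank k (V x y (d + 3) μ') : ℤ) ≤ finrank k (V x y d μ) + (3 * (d + 3) -
      ∑ p ∈ L, (μ p + 1)) := by
    have : (finrank k (V x y (d + 3) μ') : ℤ) ≤
      ((finrank k (V x y d μ) + (3 * (d + 3) - ∑ p ∈ L, (μ' p).toNat) : ℕ) : ℤ) := by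
      exact_mod_cast h1
    refine this.trans ?_
    rw [← hs]
    omega
  push_cast
  linarith

theorem point_mem (d : ℕ) (μ : π → ℤ) (p : π) (hp : 0 ≤ μ p) (m : ℕ) (hm : (μ p).toNat = m + 1)
    (F : S2 k) (hF : F ∈ V x y d (fun q => μ q - if q = p then 1 else 0))
    (hz : (th (x p) (y p) F).coeff m = 0) : F ∈ V x y d μ := by
  refine ⟨hF.1, fun q => ?_⟩
  have h2 := hF.2 q
  by_cases hq : q = p
  · rw [hq] at h2 ⊢
    have hμp : (μ p - if p = p then 1 else 0).toNat = m := by rw [if_pos rfl]; omega
    rw [hμp, X_pow_dvd_iff] at h2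
    rw [hm, X_pow_dvd_iff]
    intro e he
    rcases Nat.lt_succ_iff_lt_or_eq.mp he with h3 | h3
    · exact h2 e h3
    · rw [h3]; exact hz
  · have h3 : (fun q => μ q - if q = p then 1 else 0) q = μ q := by simp [hq]
    rw [h3] at h2
    exact h2

/-- Imposing one more condition of order `m` at `p` costs at most `m + 1`. -/
theorem finrank_V_point (d : ℕ) (μ : π → ℤ) (p : π) (hp : 0 ≤ μ p) :
    finrank k (V x y d (fun q => μ q - if q = p then 1 else 0)) ≤
      finrank k (V x y d μ) + (μ p).toNat := by
  set μ' : π → ℤ := fun q => μ q - if q = p then 1 else 0 with hμ'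
  rcases Nat.eq_zero_or_pos (μ p).toNat with h0 | h0
  · -- nothing changes
    have : V x y d μ' = V x y d μ := by
      ext F
      rw [mem_V, mem_V]
      have : ∀ q, (μ' q).toNat = (μ q).toNat := by
        intro q
        simp only [hμ']
        by_cases hq : q = p
        · subst hq; simp; omega
        · simp [hq]
      simp only [this]
    rw [this, h0]; simp
  · obtain ⟨m, hm⟩ : ∃ m, (μ p).toNat = m + 1 := ⟨(μ p).toNat - 1, by omega⟩
    have hμp : (μ' p).toNat = m := by simp [hμ']; omega
    let r : V x y d μ' →ₗ[k] k[X] :=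
      ((Polynomial.lcoeff k[X] m).restrictScalars k).comp
        ((th (x p) (y p)).toLinearMap.comp (V x y d μ').subtype)
    have hr : ∀ F : V x y d μ', r F = (th (x p) (y p) F.1).coeff m := fun F => rfl
    have hrange : finrank k (LinearMap.range r) ≤ m + 1 := by
      have hle : LinearMap.range r ≤ degreeLT k (m + 1) := by
        rintro _ ⟨F, rfl⟩
        rw [mem_degreeLT, hr]
        have := natDegree_coeff_th_le (x p) (y p) F.1 m
        refine lt_of_le_of_lt Polynomial.degree_le_natDegree ?_
        exact_mod_cast Nat.lt_succ_of_le this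
      have : Module.Finite k (degreeLT k (m + 1)) :=
        Module.Finite.equiv (Polynomial.degreeLTEquiv k (m + 1)).symm
      calc finrank k (LinearMap.range r) ≤ finrank k (degreeLT k (m + 1)) :=
            Submodule.finrank_mono hle
        _ = m + 1 := by rw [(Polynomial.degreeLTEquiv k (m + 1)).finrank_eq]; simp
    have hmem : ∀ z : LinearMap.ker r, ((z.1 : V x y d μ') : S2 k) ∈ V x y d μ := by
      intro z
      have hz : (th (x p) (y p) z.1.1).coeff m = 0 := by
        rw [← hr]; exact z.2
      have hF := z.1.2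
      exact point_mem d μ p hp m hm _ hF hz
    have hker : finrank k (LinearMap.ker r) ≤ finrank k (V x y d μ) := by
      let j : LinearMap.ker r →ₗ[k] V x y d μ :=
        LinearMap.codRestrict _ ((V x y d μ').subtype.comp (LinearMap.ker r).subtype) hmem
      have hj : Function.Injective j := by
        intro z w h
        apply Subtype.ext
        apply Subtype.ext
        have h5 := congrArg Subtype.val h
        rw [LinearMap.codRestrict_apply, LinearMap.codRestrict_apply] at h5
        exact h5
      exact LinearMap.finrank_le_finrank_of_injective hj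
    have h1 := LinearMap.finrank_range_add_finrank_ker (K := k) (V := V x y d μ') (V₂ := k[X]) r
    omega

theorem chi_sub_ind (d : ℕ) (μ : π → ℤ) (p : π) :
    chi d (fun q => μ q - if q = p then 1 else 0) = chi d μ + 2 * μ p := by
  unfold chi
  have h : ∑ q, (μ q - if q = p then 1 else 0) * ((μ q - if q = p then 1 else 0) + 1)
      = ∑ q, μ q * (μ q + 1) - 2 * μ p := by
    have h1 : ∀ q, (μ q - if q = p then 1 else 0) * ((μ q - if q = p then 1 else 0) + 1)
        = μ q * (μ q + 1) - (if q = p then 2 * μ q else 0) := by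
      intro q
      by_cases hq : q = p
      · simp only [hq, if_true]; ring
      · simp [hq]
    simp only [h1, Finset.sum_sub_distrib, Finset.sum_ite_eq', Finset.mem_univ, if_true]
  rw [h]; ring

theorem pt_step {d : ℕ} {μ : π → ℤ} {p : π} (hp : 0 ≤ μ p) (h : Good x y d μ) :
    Good x y d (fun q => μ q - if q = p then 1 else 0) := by
  have h1 := finrank_V_point (x := x) (y := y) d μ p hp
  unfold Good at h ⊢
  rw [chi_sub_ind]
  have : ((μ p).toNat : ℤ) = μ p := Int.toNat_of_nonneg hp
  omega

/-- Lower bound: the dimension is at least the expected one. -/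
theorem chi_le_finrank (d : ℕ) : ∀ (n : ℕ) (μ : π → ℤ), (∀ p, 0 ≤ μ p) → ∑ p, μ p = n →
    chi d μ ≤ 2 * (finrank k (V x y d μ) : ℤ) := by
  intro n
  induction n with
  | zero =>
    intro μ hμ hn
    have h0 : ∀ p, μ p = 0 := by
      intro p
      have := (Finset.sum_eq_zero_iff_of_nonneg (fun q _ => hμ q)).mp (by simpa using hn)
      exact this p (Finset.mem_univ p)
    rw [V_eq_Deg (fun p => (h0 p).le)]
    have h1 := finrank_Deg (k := k) d
    have : (2 * (finrank k (Deg k d) : ℤ)) = ((d : ℤ) + 1) * ((d : ℤ) + 2) := by exact_mod_cast h1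
    unfold chi
    rw [this]
    simp [h0]
  | succ n ih =>
    intro μ hμ hn
    obtain ⟨p, hp⟩ : ∃ p, 1 ≤ μ p := by
      by_contra hcon
      push Not at hcon
      have : ∑ p, μ p ≤ 0 := Finset.sum_nonpos (fun p _ => by have := hcon p; omega)
      rw [hn] at this
      push_cast at this
      omega
    have h1 := ih (fun q => μ q - if q = p then 1 else 0) (by
      intro q
      by_cases hq : q = p
      · subst hq; simp; omega
      · simp [hq, hμ q]) (by
      rw [Finset.sum_sub_distrib, hn]
      simp)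
    rw [chi_sub_ind] at h1
    have h2 := finrank_V_point (x := x) (y := y) d μ p (hμ p)
    have : ((μ p).toNat : ℤ) = μ p := Int.toNat_of_nonneg (hμ p)
    omega

end

end Pool.Agent.J6H82.Kollar
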