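import Mathlib

/-!
# The arrangement

Eleven lines `y = s x + c`; their `37` points of intersection `(ptX / ptD, ptY / ptD)`; the first twelve
of these lie on the cuspidal cubic `y = x ^ 3 - 9 x`, and each line meets the cubic in three of them.
-/

namespace Pool.Agent.J6H82.Kollar

/-- slopes -/
def lineS : Fin 11 → ℤ := ![55, 48, 40, 43, 27, 22, 28, 19, 4, 10, 0]

/-- intercepts -/
def lineC : Fin 11 → ℤ := ![0, -56, -120, 96, 0, -30, 84, 48, -12, 30, 0]

/-- numerators of the `x`-coordinates -/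
def ptX : Fin 37 → ℤ :=
  ![-8, -6, -4, -3, -2, 0, 1, 3, 5, 6, 7, 8, -84, -72, -19, -7, -36, -48, -96, -10, -4, -12, -4, 2,
    7, 4, 15, 30, 43, 8, 28, 104, 8, 120, 17, 26, 152]

/-- numerators of the `y`-coordinates -/
def ptY : Fin 37 → ℤ :=
  ![-440, -162, -28, 0, 10, 0, -8, 0, 80, 162, 280, 440, -2268, -3000, -448, -40, -300, 0, 0, -550,
    308, -324, -220, 110, 0, 220, 0, 810, 1000, 216, 1540, 3368, 200, 3240, 560, 542, 7016]

/-- common denominators -/
def ptD : Fin 37 → ℤ :=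
  ![1, 1, 1, 1, 1, 1, 1, 1, 1, 1, 1, 1, 1, 1, 1, 1, 13, 19, 43, 11, 5, 23, 17, 3, 6, 3, 11, 17, 19,
    3, 9, 29, 1, 13, 1, 1, 5]

/-- the point `p` lies on the line `i` -/
def OnI (i : Fin 11) (p : Fin 37) : Prop := ptY p = lineS i * ptX p + lineC i * ptD p

instance (i : Fin 11) (p : Fin 37) : Decidable (OnI i p) := by unfold OnI; infer_instance

/-- the point `p` lies on the cubic -/
def OnG (p : Fin 37) : Prop := ptY p * ptD p ^ 2 = ptX p ^ 3 - 9 * (ptX p * ptD p ^ 2)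

instance (p : Fin 37) : Decidable (OnG p) := by unfold OnG; infer_instance

/-- points on the line `i` -/
def LL (i : Fin 11) : Finset (Fin 37) := Finset.univ.filter (OnI i)

/-- points on the cubic -/
def GG : Finset (Fin 37) := Finset.univ.filter OnG

/-- multiplicities of the basic class -/
def MM : Fin 37 → ℤ :=
  ![9, 9, 9, 8, 9, 9, 8, 7, 7, 2, 2, 2, 2, 1, 1, 0, 1, 1, 1, 1, 2, 1, 1, 1, 1, 2, 0, 1, 1, 2, 2, 2,
    1, 1, 1, 1, 2]

/-- pole orders along the lines -/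
def EE : Fin 11 → ℤ := ![8, 8, 7, 8, 8, 7, 8, 8, 7, 7, 7]

theorem ptD_pos : ∀ p, 0 < ptD p := by decide

theorem mem_GG : ∀ p, p ∈ GG ↔ p.1 < 12 := by decide +kernel

theorem pts_inj : ∀ p q, ptX p * ptD q = ptX q * ptD p → ptY p * ptD q = ptY q * ptD p → p = q := by
  decide +kernel

theorem lines_meet : ∀ i j, i ≠ j → ∃ p, OnI i p ∧ OnI j p := by decide +kernel

theorem lineS_inj : ∀ i j, lineS i = lineS j → i = j := by decide +kernel

theorem two_lines : ∀ p, ∃ i j, i ≠ j ∧ OnI i p ∧ OnI j p := by decide +kernel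

theorem sum_MM_LL : ∀ i, ∑ p ∈ LL i, MM p = 27 := by decide +kernel

theorem sum_MM_GG : ∑ p ∈ GG, MM p = 81 := by decide +kernel

theorem MM_eq : ∀ p, MM p = ∑ i, (if OnI i p then EE i else 0) - 14 := by decide +kernel

theorem MM_nonneg : ∀ p, 0 ≤ MM p := by decide +kernel

theorem sum_ptX_LL : ∀ i, ∑ p ∈ LL i ∩ GG, ptX p = 0 := by decide +kernel

theorem card_LL_GG : ∀ i, (LL i ∩ GG).card = 3 := by decide +kernel

theorem card_LL : ∀ i, (LL i).card = ![8, 8, 7, 8, 8, 7, 8, 8, 7, 7, 7] i := by decide +kernel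

theorem sum_ptX_GG : ∑ p ∈ GG, ptX p = 7 := by decide +kernel

theorem ptD_GG : ∀ p ∈ GG, ptD p = 1 := by decide +kernel

end Pool.Agent.J6H82.Kollar
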