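import Pool.Agent.J6H82.Kollar.Count4
import Pool.Agent.J6H82.Kollar.Data

/-!
# Curves with prescribed multiplicities that do not contain the cubic
-/

namespace Pool.Agent.J6H82.Kollar

open Polynomial Module

noncomputable section

set_option maxHeartbeats 400000

variable (k : Type) [Field k] [CharZero k]

/-- coordinates of the points -/
def xs (p : Fin 37) : k := (ptX p : k) / (ptD p : k)

/-- coordinates of the points -/
def ys (p : Fin 37) : k := (ptY p : k) / (ptD p : k)

/-- the cubic `x ^ 3 - 9 x` -/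
def gG : k[X] := X ^ 3 - C 9 * X

/-- the linear polynomial `s x + c` -/
def gL (i : Fin 11) : k[X] := C (lineS i : k) * X + C (lineC i : k)

variable {k}

theorem ptD_ne (p : Fin 37) : (ptD p : k) ≠ 0 := by
  have := ptD_pos p
  exact_mod_cast this.ne'

theorem xy_inj (p q : Fin 37) (h1 : xs k p = xs k q) (h2 : ys k p = ys k q) : p = q := by
  unfold xs at h1
  unfold ys at h2
  rw [div_eq_div_iff (ptD_ne p) (ptD_ne q)] at h1 h2
  exact pts_inj p q (by exact_mod_cast h1) (by exact_mod_cast h2)

theorem onI_iff (i : Fin 11) (p : Fin 37) :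
    OnI i p ↔ ys k p = (lineS i : k) * xs k p + (lineC i : k) := by
  unfold OnI ys xs
  have h := ptD_ne (k := k) p
  rw [div_eq_iff h, add_mul, mul_assoc, div_mul_cancel₀ _ h]
  exact_mod_cast Iff.rfl

theorem onG_iff (p : Fin 37) : OnG p ↔ ys k p = xs k p ^ 3 - 9 * xs k p := by
  unfold OnG ys xs
  have h := ptD_ne (k := k) p
  rw [div_eq_iff h]
  have h2 : (((ptX p : k) / (ptD p : k)) ^ 3 - 9 * ((ptX p : k) / (ptD p : k))) * (ptD p : k)
    = ((ptX p : k) ^ 3 - 9 * ((ptX p : k) * (ptD p : k) ^ 2)) / (ptD p : k) ^ 2 := by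
    field_simp
  rw [h2, eq_div_iff (pow_ne_zero 2 h)]
  exact_mod_cast Iff.rfl

theorem mem_LL (i : Fin 11) (p : Fin 37) : p ∈ LL i ↔ (gL k i).eval (xs k p) = ys k p := by
  unfold LL gL
  rw [Finset.mem_filter, onI_iff (k := k)]
  simp [eq_comm]

theorem mem_GG' (p : Fin 37) : p ∈ GG ↔ (gG k).eval (xs k p) = ys k p := by
  unfold GG gG
  rw [Finset.mem_filter, onG_iff (k := k)]
  simp [eq_comm]

theorem gG_monic : (gG k).Monic := by
  unfold gG
  have : (X ^ 3 - C 9 * X : k[X]) = X ^ 3 + (-(C 9 * X)) := by ring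
  rw [this]
  apply Polynomial.monic_X_pow_add
  rw [degree_neg]
  refine lt_of_le_of_lt (degree_C_mul_X_le _) ?_
  norm_num

theorem gG_natDegree : (gG k).natDegree = 3 := by
  unfold gG
  compute_degree!

theorem gG_coeff : (gG k).coeff 2 = 0 := by
  unfold gG
  simp [coeff_X]

theorem gL_natDegree (i : Fin 11) : (gL k i).natDegree ≤ 1 := by
  unfold gL
  compute_degree

/-! ## the path -/

/-- `l` copies of the basic class plus a numerical correction -/
abbrev cl (l : ℕ) (ν : Fin 37 → ℤ) : Fin 37 → ℤ := fun p => l * MM p + ν p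

theorem cl_line (l d : ℕ) (ν : Fin 37 → ℤ) (i : Fin 11) (h1 : ∀ p ∈ LL i, -1 ≤ ν p)
    (h2 : ∑ p ∈ LL i, (ν p + 1) ≤ d + 2) (h : Good (xs k) (ys k) (27 * l + d) (cl l ν)) :
    Good (xs k) (ys k) (27 * l + (d + 1)) (cl l (fun p => ν p + if p ∈ LL i then 1 else 0)) := by
  have := line_step (gL_natDegree (k := k) i) xy_inj (mem_LL i) (μ := cl l ν) (d := 27 * l + d)
    (by
      intro p hp
      have h3 := h1 p hp
      have h4 := MM_nonneg p
      have h5 : (0 : ℤ) ≤ l * MM p := by positivity
      simp only [cl]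
      omega) (by
      have : ∑ p ∈ LL i, (cl l ν p + 1) = l * ∑ p ∈ LL i, MM p + ∑ p ∈ LL i, (ν p + 1) := by
        rw [Finset.mul_sum, ← Finset.sum_add_distrib]
        apply Finset.sum_congr rfl
        intro p _
        simp only [cl]; ring
      rw [this, sum_MM_LL]
      push_cast
      linarith) h
  have h6 : (fun p => cl l ν p + if p ∈ LL i then 1 else 0) =
      cl l (fun p => ν p + if p ∈ LL i then 1 else 0) := by
    ext p; simp only [cl]; ring
  rw [h6] at this
  exact this

theorem cl_gamma (l d : ℕ) (ν : Fin 37 → ℤ) (h1 : ∀ p ∈ GG, -1 ≤ ν p)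
    (h2 : ∑ p ∈ GG, (ν p + 1) + 1 ≤ 3 * (d + 3))
    (h : Good (xs k) (ys k) (27 * l + d) (cl l ν)) :
    Good (xs k) (ys k) (27 * l + (d + 3)) (cl l (fun p => ν p + if p ∈ GG then 1 else 0)) := by
  have := gamma_step (gG_monic (k := k)) gG_natDegree gG_coeff xy_inj mem_GG' (μ := cl l ν)
    (d := 27 * l + d)
    (by
      intro p hp
      have h3 := h1 p hp
      have h4 := MM_nonneg p
      have h5 : (0 : ℤ) ≤ l * MM p := by positivity
      simp only [cl]
      omega) (by
      have : ∑ p ∈ GG, (cl l ν p + 1) = l * ∑ p ∈ GG, MM p + ∑ p ∈ GG, (ν p + 1) := by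
        rw [Finset.mul_sum, ← Finset.sum_add_distrib]
        apply Finset.sum_congr rfl
        intro p _
        simp only [cl]; ring
      rw [this, sum_MM_GG]
      push_cast
      linarith) h
  have h6 : (fun p => cl l ν p + if p ∈ GG then 1 else 0) =
      cl l (fun p => ν p + if p ∈ GG then 1 else 0) := by
    ext p; simp only [cl]; ring
  rw [h6] at this
  exact this

theorem cl_pt (l d : ℕ) (ν : Fin 37 → ℤ) (p : Fin 37) (h1 : 0 ≤ ν p)
    (h : Good (xs k) (ys k) (27 * l + d) (cl l ν)) :
    Good (xs k) (ys k) (27 * l + d) (cl l (fun q => ν q - if q = p then 1 else 0)) := by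
  have := pt_step (μ := cl l ν) (p := p) (by
      have h4 := MM_nonneg p
      have h5 : (0 : ℤ) ≤ l * MM p := by positivity
      simp only [cl]
      omega) h
  have h6 : (fun q => cl l ν q - if q = p then 1 else 0) =
      cl l (fun q => ν q - if q = p then 1 else 0) := by
    ext p; simp only [cl]; ring
  rw [h6] at this
  exact this

/-- a step of the path -/
inductive St where
  | line (i : Fin 11)
  | gamma
  | pt (p : Fin 37)

/-- is the step allowed -/
def St.ok (d : ℕ) (ν : Fin 37 → ℤ) : St → Bool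
  | .line i => decide (∀ p ∈ LL i, -1 ≤ ν p) && decide (∑ p ∈ LL i, (ν p + 1) ≤ (d : ℤ) + 2)
  | .gamma => decide (∀ p ∈ GG, -1 ≤ ν p) && decide (∑ p ∈ GG, (ν p + 1) + 1 ≤ 3 * ((d : ℤ) + 3))
  | .pt p => decide (0 ≤ ν p)

/-- degree after the step -/
def St.nd (d : ℕ) : St → ℕ
  | .line _ => d + 1
  | .gamma => d + 3
  | .pt _ => d

/-- multiplicities after the step -/
def St.nν (ν : Fin 37 → ℤ) : St → Fin 37 → ℤ
  | .line i => fun p => ν p + if p ∈ LL i then 1 else 0
  | .gamma => fun p => ν p + if p ∈ GG then 1 else 0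
  | .pt p => fun q => ν q - if q = p then 1 else 0

theorem good_step (l d : ℕ) (ν : Fin 37 → ℤ) (s : St) (hs : s.ok d ν = true)
    (h : Good (xs k) (ys k) (27 * l + d) (cl l ν)) :
    Good (xs k) (ys k) (27 * l + s.nd d) (cl l (s.nν ν)) := by
  cases s with
  | line i =>
    simp only [St.ok, Bool.and_eq_true, decide_eq_true_eq] at hs
    exact cl_line l d ν i hs.1 hs.2 h
  | gamma =>
    simp only [St.ok, Bool.and_eq_true, decide_eq_true_eq] at hs
    exact cl_gamma l d ν hs.1 hs.2 h
  | pt p =>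
    simp only [St.ok, decide_eq_true_eq] at hs
    exact cl_pt l d ν p hs h

/-- checking a path -/
def okPath : ℕ → (Fin 37 → ℤ) → List St → Bool
  | _, _, [] => true
  | d, ν, s :: L => s.ok d ν && okPath (s.nd d) (s.nν ν) L

/-- end of a path -/
def endD : ℕ → List St → ℕ
  | d, [] => d
  | d, s :: L => endD (s.nd d) L

/-- end of a path -/
def endν : (Fin 37 → ℤ) → List St → Fin 37 → ℤ
  | ν, [] => ν
  | ν, s :: L => endν (s.nν ν) L

theorem good_path (l : ℕ) (L : List St) : ∀ (d : ℕ) (ν : Fin 37 → ℤ), okPath d ν L = true →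
    Good (xs k) (ys k) (27 * l + d) (cl l ν) →
    Good (xs k) (ys k) (27 * l + endD d L) (cl l (endν ν L)) := by
  induction L with
  | nil => intro d ν _ h; exact h
  | cons s L ih =>
    intro d ν hok h
    simp only [okPath, Bool.and_eq_true] at hok
    exact ih _ _ hok.2 (good_step l d ν s hok.1 h)

/-- the path of one period -/
def thePath : List St :=
  [.line 0, .line 1, .line 3, .line 4, .line 6, .line 7, .gamma, .gamma, .gamma, .gamma, .gamma,
    .gamma, .gamma, .pt 9, .pt 9, .pt 9, .pt 9, .pt 9, .pt 9, .pt 9,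
    .pt 10, .pt 10, .pt 10, .pt 10, .pt 10, .pt 10, .pt 10,
    .pt 11, .pt 11, .pt 11, .pt 11, .pt 11, .pt 11, .pt 11]

/-- start: minus the cubic -/
def ν0 : Fin 37 → ℤ := fun p => if p ∈ GG then -1 else 0

theorem okPath_thePath : okPath 5 ν0 thePath = true := by decide +kernel

theorem endD_thePath : endD 5 thePath = 32 := by decide +kernel

theorem endν_thePath : ∀ p, endν ν0 thePath p = MM p + ν0 p := by decide +kernel

theorem good_all (l : ℕ) : Good (xs k) (ys k) (27 * l + 5) (cl l ν0) := by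
  induction l with
  | zero =>
    apply good_of_nonpos
    intro p
    simp only [cl, ν0]
    split_ifs <;> simp
  | succ l ih =>
    have h := good_path (k := k) l thePath 5 ν0 okPath_thePath ih
    rw [endD_thePath] at h
    have h1 : cl l (endν ν0 thePath) = cl (l + 1) ν0 := by
      ext p
      simp only [cl, endν_thePath]
      push_cast
      ring
    rw [h1] at h
    have h2 : 27 * l + 32 = 27 * (l + 1) + 5 := by ring
    rwa [h2] at h

/-- For every `l` there is a plane curve of degree `27 l + 8` with multiplicity at least `l * MM p` at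
the points of the arrangement that does not contain the cubic. -/
theorem exists_curve (l : ℕ) : ∃ F : S2 k, F ∈ Deg k (27 * l + 8) ∧
    (∀ p, X ^ (l * (MM p).toNat) ∣ th (xs k p) (ys k p) F) ∧ ev (gG k) F ≠ 0 := by
  by_contra hcon
  push Not at hcon
  -- all curves contain the cubic
  set μ : Fin 37 → ℤ := fun p => l * MM p with hμ
  have hμ0 : ∀ p, 0 ≤ μ p := fun p => by
    have := MM_nonneg p
    positivity
  have hall : ∀ F ∈ V (xs k) (ys k) (27 * l + 8) μ, ev (gG k) F = 0 := by
    intro F hF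
    apply hcon F hF.1
    intro p
    have h1 := hF.2 p
    have h2 : (μ p).toNat = l * (MM p).toNat := by
      rw [hμ]
      have h3 := Int.toNat_of_nonneg (MM_nonneg p)
      have h4 : ((l * (MM p).toNat : ℕ) : ℤ) = l * MM p := by push_cast; rw [h3]
      show ((l : ℤ) * MM p).toNat = _
      rw [← h4, Int.toNat_natCast]
    rwa [h2] at h1
  have heq : (fun p => cl l ν0 p + if p ∈ GG then 1 else 0) = μ := by
    ext p
    simp only [cl, ν0, hμ]
    split_ifs <;> ring
  have h1 := finrank_V_le (k := k) (x := xs k) (y := ys k) (g := gG k) (e := 3) (d := 27 * l + 5)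
    (natDegree_dl_cubic gG_monic gG_natDegree) (L := GG) mem_GG' (μ := cl l ν0)
    (by
      intro p hp
      have h4 := MM_nonneg p
      have h5 : (0 : ℤ) ≤ l * MM p := by positivity
      simp only [cl, ν0]
      split_ifs <;> omega) (R := 0) (by
      rw [heq]
      have : (V (xs k) (ys k) (27 * l + 5 + 3) μ).map (ev (gG k)).toLinearMap = ⊥ := by
        rw [eq_bot_iff]
        rintro _ ⟨F, hF, rfl⟩
        rw [Submodule.mem_bot]
        exact hall F hF
      rw [this]
      simp)
  rw [heq] at h1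
  have h2 := good_all (k := k) l
  unfold Good at h2
  have h3 := chi_le_finrank (k := k) (x := xs k) (y := ys k) (27 * l + 8) (∑ p, μ p).toNat μ hμ0
    (by rw [Int.toNat_of_nonneg (Finset.sum_nonneg (fun p _ => hμ0 p))])
  have h4 := chi_add_ind (27 * l + 5) 3 GG (cl l ν0)
  rw [heq] at h4
  have h5 : ∑ p ∈ GG, (cl l ν0 p + 1) = l * 81 := by
    rw [← sum_MM_GG, Finset.mul_sum]
    apply Finset.sum_congr rfl
    intro p hp
    simp only [cl, ν0, hp, if_true]
    ring
  rw [h5] at h4
  have h6 : 27 * l + 5 + 3 = 27 * l + 8 := by ring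
  rw [h6] at h4 h1
  push_cast at h4
  have h7 : (finrank k (V (xs k) (ys k) (27 * l + 8) μ) : ℤ) ≤
      finrank k (V (xs k) (ys k) (27 * l + 5) (cl l ν0)) := by exact_mod_cast h1
  linarith

end

end Pool.Agent.J6H82.Kollar
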