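import Pool.Agent.J6H82.Kollar.Sm2

/-!
# Smoothness of the family; normality, flatness and dimension of the total space
-/

namespace Pool.Agent.J6H82.Kollar

noncomputable section

set_option maxHeartbeats 400000

open MvPolynomial

variable {k : Type} [Field k] [CharZero k]

/-- the inclusion of the polynomial ring in the ring of the threefold -/
def incA (k : Type) [Field k] [CharZero k] : P3 k →ₐ[k] AA k := inc.codRestrict (AA k) inc_mem_AA

theorem incA_coe (F : P3 k) : ((incA k F : AA k) : KK k) = inc F := rfl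

theorem incA_X2 : incA k (X 2) = gZ k := rfl

theorem isUnit_incA_C {c : k} (hc : c ≠ 0) : IsUnit (incA k (C c)) := by
  have h : IsUnit (C c : P3 k) := (isUnit_iff_ne_zero.mpr hc).map C
  exact h.map (incA k)

theorem cover_prime (Q : Ideal (AA k)) [hQp : Q.IsPrime] (hQ : gZ k ∉ Q)
    (h1 : incA k (Le k 1) ∈ Q) (h2 : ∀ p, incA k (hp k p) ∈ Q) : False := by
  have hconst : ∀ c : k, c ≠ 0 → incA k (C c * X 2) ∈ Q → False := by
    intro c hc h
    rw [map_mul, incA_X2] at h
    rcases hQp.mem_or_mem h with h | h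
    · exact hQp.ne_top (Ideal.eq_top_of_isUnit_mem _ h (isUnit_incA_C hc))
    · exact hQ h
  unfold Le at h1
  rw [map_prod] at h1
  obtain ⟨i, _, hi⟩ := (hQp.prod_mem_iff).mp h1
  simp only [Pi.one_apply, pow_one] at hi
  have h3 : incA k (PP k i) ∈ Q := by
    have h4 : incA k (PP k i) = ⟨uu k i, uu_mem_AA i⟩ * incA k (ell k i) := by
      apply Subtype.ext
      show inc (PP k i) = uu k i * inc (ell k i)
      rw [uu_mul]
    rw [h4]
    exact Q.mul_mem_left _ hi
  unfold PP at h3
  rw [map_prod] at h3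
  obtain ⟨p, hp1, hp2⟩ := (hQp.prod_mem_iff).mp h3
  have hip : OnI i p := by simpa [LL] using hp1
  have h5 := h2 p
  unfold hp at h5
  rw [map_prod] at h5
  obtain ⟨j, _, hj⟩ := (hQp.prod_mem_iff).mp h5
  split_ifs at hj with hjp
  · unfold cof at hj
    rw [map_prod] at hj
    obtain ⟨q, hq1, hq2⟩ := (hQp.prod_mem_iff).mp hj
    have hpj : p ∈ LL j := by simp [LL, hjp]
    have hx := xs_ne_of_mem (k := k) hpj (Finset.mem_of_mem_erase hq1)
      (Finset.ne_of_mem_erase hq1).symm
    apply hconst (xs k q - xs k p) (by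
      intro h
      exact hx (by linear_combination -h))
    have h6 := Q.sub_mem hp2 hq2
    rw [← map_sub] at h6
    have h7 : al (xs k p) - al (xs k q) = C (xs k q - xs k p) * X 2 := by
      unfold al
      rw [C_sub]; ring
    rwa [h7] at h6
  · have hyi := (onI_iff (k := k) i p).mp hip
    apply hconst (ys k p - lineS j * xs k p - lineC j) (by
      intro h
      apply hjp
      rw [onI_iff (k := k)]
      linear_combination h)
    have h6 := Q.sub_mem (Q.sub_mem hj hi)
      (Q.mul_mem_left (incA k (C ((lineS i : k) - lineS j))) hp2)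
    rw [← map_sub, ← map_mul, ← map_sub] at h6
    have h7 : ell k j - ell k i - C ((lineS i : k) - lineS j) * al (xs k p) =
        C (ys k p - lineS j * xs k p - lineC j) * X 2 := by
      unfold al ell
      rw [hyi]
      simp only [map_sub, map_add, map_mul]
      ring
    rwa [h7] at h6

/-- the elements defining the charts -/
def rr (k : Type) [Field k] [CharZero k] : Option (Fin 37) → AA k
  | none => incA k (Le k 1)
  | some p => incA k (hp k p)

theorem gZ_ne : gZ k ≠ 0 := by
  intro h
  have : inc (X 2 : P3 k) = 0 := congrArg Subtype.val h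
  exact inc_ne (X_ne_zero 2) this

theorem rr_ne (o : Option (Fin 37)) : rr k o ≠ 0 := by
  rcases o with _ | p
  · intro h
    have : inc (Le k 1) = 0 := congrArg Subtype.val h
    exact inc_ne (Le_ne _) this
  · intro h
    have : inc (hp k p) = 0 := congrArg Subtype.val h
    exact inc_ne (hp_ne _) this

theorem span_rr : Ideal.span (Set.range fun o => algebraMap (AA k) (Localization.Away (gZ k))
    (rr k o)) = ⊤ := by
  by_contra hcon
  obtain ⟨M, hM, hle⟩ := Ideal.exists_le_maximal _ hcon
  have hMp := hM.isPrime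
  have hQp : (M.comap (algebraMap (AA k) (Localization.Away (gZ k)))).IsPrime :=
    Ideal.comap_isPrime _ _
  have hmem : ∀ o, rr k o ∈ M.comap (algebraMap (AA k) (Localization.Away (gZ k))) := by
    intro o
    exact hle (Ideal.subset_span ⟨o, rfl⟩)
  refine cover_prime (M.comap (algebraMap (AA k) (Localization.Away (gZ k)))) ?_
    (hmem none) (fun p => hmem (some p))
  intro h
  have h1 : IsUnit (algebraMap (AA k) (Localization.Away (gZ k)) (gZ k)) :=
    IsLocalization.Away.algebraMap_isUnit _
  exact hMp.ne_top (Ideal.eq_top_of_isUnit_mem _ h h1)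

/-- **The family is smooth away from the central fibre.** -/
theorem smooth_family (k : Type) [Field k] [CharZero k] :
    RingHom.Smooth ((algebraMap (AA k) (Localization.Away (gZ k))).comp (gHom k).toRingHom) := by
  apply RingHom.Smooth.ofLocalizationSpanTarget _ _ (span_rr (k := k))
  rintro ⟨_, ⟨o, rfl⟩⟩
  have h0 : (gZ k * rr k o : AA k) ≠ 0 := mul_ne_zero gZ_ne (rr_ne o)
  rcases o with _ | p
  · exact smooth_chart inc inc_inj rfl (rr k none) (Le k 1) h0
      (mul_ne_zero (X_ne_zero 2) (Le_ne 1)) chart_none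
  · obtain ⟨i, hi⟩ : ∃ i, OnI i p := by
      obtain ⟨i, j, _, h, _⟩ := two_lines p
      exact ⟨i, h⟩
    exact smooth_chart (thc k p i) (thc_inj hi) (thc_X2 p i) (rr k (some p)) (HH k p i) h0
      (mul_ne_zero (X_ne_zero 2) (HH_ne hi)) (chart_some hi)

/-! ## normality, dimension, finiteness -/

instance AA_isFractionRing : IsFractionRing (AA k) (KK k) := by
  apply IsFractionRing.of_field
  intro z
  obtain ⟨F, G, _, rfl⟩ := IsFractionRing.div_surjective (A := P3 k) z
  exact ⟨incA k F, incA k G, rfl⟩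

theorem WW_integrallyClosed : ∀ x : KK k, IsIntegral (WW k) x → x ∈ WW k := by
  let _ : Algebra (P3 k) (WW k) := (inc.codRestrict (WW k) inc_mem_WW).toRingHom.toAlgebra
  have hloc : IsLocalization.Away (Le k 1) (WW k) := by
    apply IsLocalization.Away.mk
    · refine IsUnit.of_mul_eq_one ⟨(inc (Le k 1))⁻¹, ⟨1, 1, ?_⟩⟩ ?_
      · rw [map_one, inv_mul_cancel₀ (inc_ne (Le_ne 1))]
      · apply Subtype.ext
        show inc (Le k 1) * (inc (Le k 1))⁻¹ = 1
        exact mul_inv_cancel₀ (inc_ne (Le_ne 1))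
    · rintro ⟨x, e, F, hF⟩
      obtain ⟨M, e', he⟩ : ∃ (M : ℕ) (e' : Fin 11 → ℕ), e + e' = fun _ => M := by
        refine ⟨∑ i, e i, fun i => ∑ j, e j - e i, ?_⟩
        ext i
        have : e i ≤ ∑ j, e j :=
          Finset.single_le_sum (fun _ _ => Nat.zero_le _) (Finset.mem_univ i)
        simp only [Pi.add_apply]
        omega
      have h1 : Le k 1 ^ M = Le k e * Le k e' := by
        rw [← Le_add, he]
        unfold Le
        rw [← Finset.prod_pow]
        simp
      refine ⟨M, F * Le k e', Subtype.ext ?_⟩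
      show x * inc (Le k 1) ^ M = inc (F * Le k e')
      rw [← map_pow, h1, map_mul, map_mul, ← hF]
      ring
    · intro a b h
      refine ⟨0, ?_⟩
      have h' : inc a = inc b := congrArg Subtype.val h
      rw [inc_inj h']
  have hic : IsIntegrallyClosed (WW k) :=
    isIntegrallyClosed_of_isLocalization (R := P3 k) (S := WW k) (Submonoid.powers (Le k 1))
      (by
        rintro _ ⟨n, rfl⟩
        exact mem_nonZeroDivisors_of_ne_zero (pow_ne_zero n (Le_ne 1)))
  have hfr : IsFractionRing (WW k) (KK k) := by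
    apply IsFractionRing.of_field
    intro z
    obtain ⟨F, G, _, rfl⟩ := IsFractionRing.div_surjective (A := P3 k) z
    exact ⟨⟨inc F, inc_mem_WW F⟩, ⟨inc G, inc_mem_WW G⟩, rfl⟩
  intro x hx
  obtain ⟨y, hy⟩ := (isIntegrallyClosed_iff (KK k)).mp hic hx
  rw [← hy]
  exact y.2

theorem isIntegral_of_le {S T : Subalgebra k (KK k)} (h : S ≤ T) {x : KK k}
    (hx : IsIntegral S x) : IsIntegral T x := by
  obtain ⟨p, hp, hpx⟩ := hx
  refine ⟨p.map (Subalgebra.inclusion h).toRingHom, hp.map _, ?_⟩
  rw [Polynomial.eval₂_map]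
  exact hpx

instance AA_integrallyClosed : IsIntegrallyClosed (AA k) := by
  rw [isIntegrallyClosed_iff (KK k)]
  intro x hx
  have h1 : x ∈ AA k := by
    rw [mem_AA]
    refine ⟨WW_integrallyClosed x (isIntegral_of_le (fun _ h => (mem_AA.mp h).1) hx), fun p => ?_⟩
    have h2 : IsIntegral (OO (xs k p) (ys k p)) x :=
      isIntegral_of_le (fun _ h => (mem_AA.mp h).2 p) hx
    have h3 : IsIntegral (OV (xs k p) (ys k p)) x := by
      obtain ⟨q, hq, hqx⟩ := h2
      exact ⟨q, hq, hqx⟩
    obtain ⟨y, hy⟩ := (isIntegrallyClosed_iff (KK k)).mp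
      (inferInstance : IsIntegrallyClosed (OV (xs k p) (ys k p))) h3
    rw [← hy]
    exact y.2
  exact ⟨⟨x, h1⟩, rfl⟩

theorem AA_finiteType : Algebra.FiniteType k (AA k) := by
  rw [← Subalgebra.fg_iff_finiteType, AA_eq_Agen]
  have hfin : (Set.range (fun j : Fin 3 => inc (X j : P3 k)) ∪ Set.range (uu k)).Finite :=
    (Set.finite_range _).union (Set.finite_range _)
  exact ⟨hfin.toFinset, by rw [hfin.coe_toFinset]; rfl⟩

theorem AA_trdeg : Algebra.trdeg k (AA k) = 3 := by
  have h1 : Algebra.IsAlgebraic (AA k) (KK k) :=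
    IsLocalization.isAlgebraic (KK k) (nonZeroDivisors (AA k))
  have h2 : Algebra.IsAlgebraic (P3 k) (KK k) :=
    IsLocalization.isAlgebraic (KK k) (nonZeroDivisors (P3 k))
  have h3 := trdeg_add_eq k (AA k) (A := KK k)
  rw [trdeg_eq_zero (R := AA k) (A := KK k), add_zero] at h3
  have h4 := trdeg_add_eq k (P3 k) (A := KK k)
  rw [trdeg_eq_zero (R := P3 k) (A := KK k), add_zero] at h4
  rw [h3, ← h4, MvPolynomial.trdeg_of_isDomain]
  simp

/-! ## flatness -/

theorem gHom_inj : Function.Injective (gHom k) := by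
  intro f g h
  have h1 : ∀ f : Polynomial k, ((gHom k f : AA k) : KK k) =
      inc (Polynomial.aeval (X 2 : P3 k) f) := by
    intro f
    have : ((AA k).val).comp (gHom k) = (inc (k := k)).comp (Polynomial.aeval (X 2 : P3 k)) := by
      apply Polynomial.algHom_ext
      simp only [AlgHom.comp_apply, gHom, Polynomial.aeval_X]
      rfl
    exact congrArg (fun φ => φ f) this
  have h2 : inc (Polynomial.aeval (X 2 : P3 k) f) = inc (Polynomial.aeval (X 2 : P3 k) g) := by
    rw [← h1, ← h1, h]
  have h3 := inc_inj h2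
  -- evaluate at the last variable
  let ε : P3 k →ₐ[k] Polynomial k := aeval ![0, 0, Polynomial.X]
  have h4 : ∀ f : Polynomial k, ε (Polynomial.aeval (X 2 : P3 k) f) = f := by
    intro f
    have : ε.comp (Polynomial.aeval (X 2 : P3 k)) = AlgHom.id k _ := by
      apply Polynomial.algHom_ext
      simp [ε]
    exact congrArg (fun φ => φ f) this
  rw [← h4 f, ← h4 g, h3]

theorem flat_family (k : Type) [Field k] [CharZero k] : (gHom k).toRingHom.Flat := by
  let _ : Algebra (Polynomial k) (AA k) := (gHom k).toRingHom.toAlgebra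
  show Module.Flat (Polynomial k) (AA k)
  rw [Module.Flat.flat_iff_torsion_eq_bot_of_isBezout, eq_bot_iff]
  intro a ha
  rw [Submodule.mem_torsion_iff] at ha
  obtain ⟨s, hs⟩ := ha
  rw [Submodule.mem_bot]
  have h1 : gHom k s.1 * a = 0 := hs
  rcases mul_eq_zero.mp h1 with h2 | h2
  · exfalso
    have h3 : s.1 = 0 := gHom_inj (by rw [h2, map_zero])
    exact nonZeroDivisors.ne_zero s.2 h3
  · exact h2

end

end Pool.Agent.J6H82.Kollar
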