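import Pool.Agent.J6H82.Kollar.SmoothingDefs
import Pool.Agent.J6H82.Kollar.Canon3
import Pool.Agent.J6H82.Kollar.Sm3

/-!
# The counterexample
-/

namespace Pool.Agent.J6H82.Kollar

noncomputable section

set_option maxHeartbeats 400000

open MvPolynomial

variable {k : Type} [Field k] [CharZero k]

theorem gZ_mem_mm : gZ k ∈ mm k := by
  refine ⟨0, X 2, ?_, ?_⟩
  · rw [Le_zero, map_one, mul_one]; rfl
  · rw [psi_X2]; simp

theorem isSmoothing (k : Type) [Field k] [CharZero k] :
    IsSmoothingOfRational k (AA k) (gZ k) (mm k) where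
  isDomain := inferInstance
  finiteType := AA_finiteType
  isIntegrallyClosed := AA_integrallyClosed
  trdeg := AA_trdeg
  isMaximal := mm_isMaximal
  mem := gZ_mem_mm
  flat := flat_family k
  smooth := smooth_family k
  central := central_isRationalSurface k

/-! ## the local ring of the vertex -/

section generic

variable {O : Type} [CommRing O] [Algebra (AA k) O] [IsLocalization.AtPrime O (mm k)]

/-- the embedding of the local ring in the function field -/
def locHom : O →+* KK k :=
  IsLocalization.lift (M := (mm k).primeCompl) (g := (AA k).val.toRingHom) (fun y => by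
    apply isUnit_iff_ne_zero.mpr
    exact coe_ne_of_not_mem y.2)

theorem locHom_apply (a : AA k) : locHom (algebraMap (AA k) O a) = (a : KK k) :=
  IsLocalization.lift_eq _ a

variable [Algebra O (KK k)] (h : ∀ a : AA k, algebraMap O (KK k) (algebraMap (AA k) O a) = a)

include h

theorem loc_mem (x : O) : algebraMap O (KK k) x ∈ locm (AA k) le_rfl := by
  obtain ⟨a, s, rfl⟩ := IsLocalization.exists_mk'_eq (mm k).primeCompl x
  refine ⟨s.1, s.2, ?_⟩
  have h : algebraMap O (KK k) (IsLocalization.mk' O a s) * (s.1 : KK k) =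
      (a : KK k) := by
    rw [← h s.1, ← map_mul, IsLocalization.mk'_spec, h]
  rw [h]
  exact a.2

theorem loc_surj (x : KK k) (hx : x ∈ locm (AA k) le_rfl) :
    ∃ y : O, algebraMap O (KK k) y = x := by
  obtain ⟨s, hs, h'⟩ := hx
  obtain ⟨a, ha⟩ : ∃ a : AA k, (a : KK k) = x * (s : KK k) := ⟨⟨_, h'⟩, rfl⟩
  obtain ⟨t, ht⟩ : ∃ t : (mm k).primeCompl, t.1 = s := ⟨⟨s, hs⟩, rfl⟩
  refine ⟨IsLocalization.mk' O a t, ?_⟩
  have hs0 : (s : KK k) ≠ 0 := coe_ne_of_not_mem hs
  apply mul_right_cancel₀ hs0
  rw [← ha, ← ht, ← h t.1, ← map_mul, IsLocalization.mk'_spec, h]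

theorem not_fg_loc {ω : Ω[KK k⁄k] [⋀^Fin 3]→ₗ[KK k] KK k}
    (hω : ω (fun i => KaehlerDifferential.D k (KK k) (inc (X i))) = 1) :
    ¬ (canonicalAlgebra k O (KK k) 3 ω).FG :=
  canonicalAlgebra_not_fg (loc_mem h) (loc_surj h) ω hω

end generic

/-- **The canonical algebra of the local ring of the threefold at the vertex is not finitely
generated.** -/
theorem canonicalAlgebra_notFG (O : Type) [CommRing O] [Algebra k O] [Algebra (AA k) O]
    [IsScalarTower k (AA k) O] [IsLocalization.AtPrime O (mm k)] :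
    CanonicalAlgebraNotFG k O 3 := by
  let _ : Algebra O (KK k) := (locHom (k := k) (O := O)).toAlgebra
  have h : ∀ a : AA k, algebraMap O (KK k) (algebraMap (AA k) O a) = a := locHom_apply
  have _ : IsScalarTower (AA k) O (KK k) := by
    apply IsScalarTower.of_algebraMap_eq
    intro a
    rw [h]; rfl
  have _ : IsFractionRing O (KK k) :=
    IsFractionRing.isFractionRing_of_isDomain_of_isLocalization (mm k).primeCompl O (KK k)
  have _ : IsScalarTower k O (KK k) := by
    apply IsScalarTower.of_algebraMap_eq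
    intro c
    rw [IsScalarTower.algebraMap_apply k (AA k) O, h]
    rfl
  obtain ⟨ω0, hω0⟩ := exists_form k
  have h0 : ω0 ≠ 0 := by
    rintro rfl
    exact zero_ne_one hω0
  refine ⟨⟨KK k, inferInstance, inferInstance, inferInstance, inferInstance, inferInstance,
    finrank_Omega, ω0, h0⟩, ?_⟩
  intro K _ _ _ _ _ ω hω hfg
  exact not_fg_loc h hω0 ((canonicalAlgebra_fg_iff (k := k) (R := O) (dBasis k) h0 hω).mpr hfg)

/-- **The counterexample.** -/
theorem counterexample (k : Type) [Field k] [CharZero k] :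
    ∃ (A : Type) (_ : CommRing A) (_ : Algebra k A) (g : A) (𝔪 : Ideal A) (_ : 𝔪.IsPrime),
      IsSmoothingOfRational k A g 𝔪 ∧ CanonicalAlgebraNotFG k (Localization.AtPrime 𝔪) 3 :=
  ⟨AA k, inferInstance, inferInstance, gZ k, mm k, inferInstance, isSmoothing k,
    canonicalAlgebra_notFG (Localization.AtPrime (mm k))⟩

end

end Pool.Agent.J6H82.Kollar
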