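import Pool.Agent.J6H82.Kollar.Count5

/-!
# The threefold: basic objects

`P3 k = k[X, Y, Z]`, its fraction field `KK k`, the lines `ell i`, the blow-up substitutions `th3 p`, the
discrete valuation rings `OO p` and the localisation `WW` at the product of the lines.
-/

namespace Pool.Agent.J6H82.Kollar

noncomputable section

set_option maxHeartbeats 400000

open MvPolynomial

variable (k : Type) [Field k]

/-- `k[X, Y, Z]` -/
abbrev P3 := MvPolynomial (Fin 3) k

/-- its fraction field -/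
abbrev KK := FractionRing (P3 k)

variable {k}

/-- the inclusion -/
abbrev inc : P3 k →ₐ[k] KK k := Algebra.algHom k (P3 k) (KK k)

theorem inc_apply (F : P3 k) : inc F = algebraMap (P3 k) (KK k) F := rfl

theorem inc_inj : Function.Injective (inc (k := k)) := IsFractionRing.injective (P3 k) (KK k)

theorem inc_ne {F : P3 k} (h : F ≠ 0) : inc F ≠ 0 := by
  rwa [Ne, map_eq_zero_iff _ inc_inj]

theorem algHom_ext3 {B : Type*} [CommSemiring B] [Algebra k B] {f g : P3 k →ₐ[k] B}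
    (h0 : f (X 0) = g (X 0)) (h1 : f (X 1) = g (X 1)) (h2 : f (X 2) = g (X 2)) : f = g := by
  apply MvPolynomial.algHom_ext
  intro i
  fin_cases i
  · exact h0
  · exact h1
  · exact h2

/-! ## divisibility by `X 0` -/

/-- set `X 0 = 0` -/
def ev0 : P3 k →ₐ[k] P3 k := aeval ![0, X 1, X 2]

theorem ev0_X0 : ev0 (X 0 : P3 k) = 0 := by simp [ev0]

theorem not_X0_dvd {F : P3 k} (h : ev0 F ≠ 0) : ¬ (X 0 : P3 k) ∣ F := by
  rintro ⟨G, rfl⟩
  apply h
  rw [map_mul, ev0_X0, zero_mul]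

theorem X0_prime : Prime (X 0 : P3 k) := MvPolynomial.X_prime

theorem X0_dvd_iff {F : P3 k} : (X 0 : P3 k) ∣ F ↔ ev0 F = 0 := by
  constructor
  · rintro ⟨G, rfl⟩
    rw [map_mul, ev0_X0, zero_mul]
  · intro h
    -- `F - ev0 F` is divisible by `X 0`
    have h1 : ∀ F : P3 k, (X 0 : P3 k) ∣ F - ev0 F := by
      intro F
      rw [← Ideal.mem_span_singleton, ← Ideal.Quotient.eq]
      have : (Ideal.Quotient.mkₐ k (Ideal.span {(X 0 : P3 k)})) =
          (Ideal.Quotient.mkₐ k (Ideal.span {(X 0 : P3 k)})).comp ev0 := by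
        apply algHom_ext3
        · simp only [AlgHom.comp_apply, ev0_X0, map_zero, Ideal.Quotient.mkₐ_eq_mk]
          rw [Ideal.Quotient.eq_zero_iff_mem]
          exact Ideal.mem_span_singleton_self _
        · simp [ev0]
        · simp [ev0]
      exact congrArg (fun f => f F) this
    have h2 := h1 F
    rwa [h, sub_zero] at h2

theorem not_X0_dvd_mul {F G : P3 k} (hF : ¬ (X 0 : P3 k) ∣ F) (hG : ¬ (X 0 : P3 k) ∣ G) :
    ¬ (X 0 : P3 k) ∣ F * G := fun h => (X0_prime.dvd_or_dvd h).elim hF hG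

theorem not_X0_dvd_pow {F : P3 k} (hF : ¬ (X 0 : P3 k) ∣ F) (n : ℕ) :
    ¬ (X 0 : P3 k) ∣ F ^ n := fun h => hF (X0_prime.dvd_of_dvd_pow h)

theorem not_X0_dvd_one : ¬ (X 0 : P3 k) ∣ 1 := by
  apply not_X0_dvd; simp

/-! ## the coordinates of the blow-up at the point `(a, b)` -/

/-- `X - a Z` -/
def al (a : k) : P3 k := X 0 - C a * X 2

/-- `X ↦ a Z + X`, `Y ↦ b Z + X Y`, `Z ↦ Z` -/
def th3 (a b : k) : P3 k →ₐ[k] P3 k := aeval ![C a * X 2 + X 0, C b * X 2 + X 0 * X 1, X 2]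

@[simp] theorem th3_X0 (a b : k) : th3 a b (X 0) = C a * X 2 + X 0 := by simp [th3]
@[simp] theorem th3_X1 (a b : k) : th3 a b (X 1) = C b * X 2 + X 0 * X 1 := by simp [th3]
@[simp] theorem th3_X2 (a b : k) : th3 a b (X 2) = X 2 := by simp [th3]
@[simp] theorem th3_C (a b c : k) : th3 a b (C c) = C c := by simp [th3]

theorem al_ne (a : k) : al a ≠ 0 := by
  intro h
  have := congrArg (MvPolynomial.eval ![1, 0, 0]) h
  simp [al] at this

/-- `X ↦ X - a Z`, `Y ↦ (Y - b Z) / (X - a Z)`, `Z ↦ Z` -/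
def kap (a b : k) : P3 k →ₐ[k] KK k :=
  aeval ![inc (al a), inc (X 1 - C b * X 2) / inc (al a), inc (X 2)]

@[simp] theorem kap_X0 (a b : k) : kap a b (X 0) = inc (al a) := by simp [kap]
@[simp] theorem kap_X1 (a b : k) : kap a b (X 1) = inc (X 1 - C b * X 2) / inc (al a) := by
  simp [kap]
@[simp] theorem kap_X2 (a b : k) : kap a b (X 2) = inc (X 2) := by simp [kap]

theorem kap_th3 (a b : k) (F : P3 k) : kap a b (th3 a b F) = inc F := by
  have : (kap a b).comp (th3 a b) = inc := by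
    apply algHom_ext3
    · simp only [AlgHom.comp_apply, th3_X0, map_add, map_mul, kap_X0, kap_X2]
      have : kap a b (C a) = inc (C a) := by simp [kap, algHom_C]
      rw [this, ← map_mul, ← map_add]
      congr 1
      simp [al]
    · simp only [AlgHom.comp_apply, th3_X1, map_add, map_mul, kap_X0, kap_X1, kap_X2]
      have : kap a b (C b) = inc (C b) := by simp [kap, algHom_C]
      rw [this, mul_div_cancel₀ _ (inc_ne (al_ne a)), ← map_mul, ← map_add]
      congr 1
      ring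
    · simp only [AlgHom.comp_apply, th3_X2, kap_X2]
  exact congrArg (fun f => f F) this

theorem exists_th3 (a b : k) (F : P3 k) : ∃ (N : ℕ) (G : P3 k), X 0 ^ N * F = th3 a b G := by
  induction F using MvPolynomial.induction_on with
  | C c => exact ⟨0, C c, by simp⟩
  | add p q hp hq =>
    obtain ⟨N, G, hG⟩ := hp
    obtain ⟨M, H, hH⟩ := hq
    refine ⟨N + M, al a ^ M * G + al a ^ N * H, ?_⟩
    have h1 : th3 a b (al a) = X 0 := by simp [al]
    rw [map_add, map_mul, map_mul, map_pow, map_pow, h1, ← hG, ← hH]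
    ring
  | mul_X p i hp =>
    obtain ⟨N, G, hG⟩ := hp
    have h1 : th3 a b (al a) = X 0 := by simp [al]
    have h2 : th3 a b (X 1 - C b * X 2) = X 0 * X 1 := by simp
    fin_cases i
    · refine ⟨N, G * al a, ?_⟩
      rw [map_mul, h1, ← hG]
      simp only [Fin.zero_eta]; ring
    · refine ⟨N + 1, G * (X 1 - C b * X 2), ?_⟩
      rw [map_mul, h2, ← hG]
      simp only [Fin.mk_one]; ring
    · refine ⟨N, G * X 2, ?_⟩
      rw [map_mul, th3_X2, ← hG]
      simp only [Fin.reduceFinMk]; ring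

theorem kap_inj (a b : k) : Function.Injective (kap a b) := by
  rw [injective_iff_map_eq_zero]
  intro F hF
  obtain ⟨N, G, hG⟩ := exists_th3 a b F
  have h1 : kap a b (X 0 ^ N * F) = 0 := by rw [map_mul, hF, mul_zero]
  rw [hG, kap_th3, map_eq_zero_iff _ inc_inj] at h1
  rw [h1, map_zero] at hG
  rcases mul_eq_zero.mp hG with h | h
  · exact absurd h (pow_ne_zero N (X_ne_zero 0))
  · exact h

theorem kap_ne {a b : k} {F : P3 k} (h : F ≠ 0) : kap a b F ≠ 0 := by
  rwa [Ne, map_eq_zero_iff _ (kap_inj a b)]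

/-! ## the discrete valuation rings -/

/-- The discrete valuation ring of the exceptional divisor of the blow-up at `(a, b)`. -/
def OO (a b : k) : Subalgebra k (KK k) where
  carrier := {f | ∃ F G : P3 k, ¬ (X 0 : P3 k) ∣ G ∧ f * kap a b G = kap a b F}
  mul_mem' := by
    rintro f g ⟨F, G, hG, h⟩ ⟨F', G', hG', h'⟩
    refine ⟨F * F', G * G', not_X0_dvd_mul hG hG', ?_⟩
    rw [map_mul, map_mul, ← h, ← h']; ring
  add_mem' := by
    rintro f g ⟨F, G, hG, h⟩ ⟨F', G', hG', h'⟩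
    refine ⟨F * G' + F' * G, G * G', not_X0_dvd_mul hG hG', ?_⟩
    rw [map_mul, map_add, map_mul, map_mul, ← h, ← h']; ring
  algebraMap_mem' := by
    intro r
    refine ⟨C r, 1, not_X0_dvd_one, ?_⟩
    rw [map_one, mul_one, ← MvPolynomial.algebraMap_eq, AlgHom.commutes]

theorem mem_OO {a b : k} {f : KK k} :
    f ∈ OO a b ↔ ∃ F G : P3 k, ¬ (X 0 : P3 k) ∣ G ∧ f * kap a b G = kap a b F := Iff.rfl

theorem mem_OO_iff {a b : k} {f : KK k} {F G : P3 k} {m : ℕ} (hG : ¬ (X 0 : P3 k) ∣ G)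
    (h : f * kap a b (X 0 ^ m * G) = kap a b F) : f ∈ OO a b ↔ X 0 ^ m ∣ F := by
  constructor
  · rintro ⟨F', G', hG', h'⟩
    have h1 : F * G' = F' * (X 0 ^ m * G) := by
      apply kap_inj a b
      rw [map_mul, map_mul, ← h, ← h']; ring
    have h2 : X 0 ^ m ∣ F * G' := ⟨F' * G, by rw [h1]; ring⟩
    exact X0_prime.pow_dvd_of_dvd_mul_right m hG' h2
  · rintro ⟨F', hF'⟩
    refine ⟨F', G, hG, ?_⟩
    rw [hF', map_mul, map_mul] at h
    have h3 : kap a b (X 0 ^ m : P3 k) ≠ 0 := kap_ne (pow_ne_zero _ (X_ne_zero 0))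
    apply mul_left_cancel₀ h3
    rw [← h]; ring

theorem inc_mem_OO (a b : k) (F : P3 k) : inc F ∈ OO a b :=
  ⟨th3 a b F, 1, not_X0_dvd_one, by rw [map_one, mul_one, kap_th3]⟩

/-- `OO` is integrally closed in the field: a fraction with denominators not divisible by `X 0`. -/
theorem OO_valuation {a b : k} (f : KK k) (hf : f ≠ 0) : f ∈ OO a b ∨ f⁻¹ ∈ OO a b := by
  obtain ⟨F, G, hG, rfl⟩ := IsFractionRing.div_surjective (A := P3 k) f
  have hG0 : G ≠ 0 := nonZeroDivisors.ne_zero hG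
  have hF0 : F ≠ 0 := by
    rintro rfl
    simp at hf
  have h1 : ∀ H : P3 k, H ≠ 0 → ∃ (m : ℕ) (H' : P3 k), ¬ (X 0 : P3 k) ∣ H' ∧
      th3 a b H = X 0 ^ m * H' := by
    intro H hH
    have h2 : th3 a b H ≠ 0 := by
      intro h
      have := kap_th3 a b H
      rw [h, map_zero] at this
      exact inc_ne hH this.symm
    obtain ⟨H', h3, h4⟩ := (FiniteMultiplicity.of_prime_left X0_prime h2).exists_eq_pow_mul_and_not_dvd
    exact ⟨_, H', h4, h3⟩
  obtain ⟨m, F', hF', hF⟩ := h1 F hF0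
  obtain ⟨n, G', hG', hG1⟩ := h1 G hG0
  have e1 : (algebraMap (P3 k) (KK k) F) = kap a b (X 0 ^ m * F') := by
    rw [← hF, kap_th3]; rfl
  have e2 : (algebraMap (P3 k) (KK k) G) = kap a b (X 0 ^ n * G') := by
    rw [← hG1, kap_th3]; rfl
  have hF2 : kap a b (X 0 ^ m * F') ≠ 0 := by
    rw [← e1]; exact inc_ne hF0
  have hG2 : kap a b (X 0 ^ n * G') ≠ 0 := by
    rw [← e2]; exact inc_ne hG0
  rcases le_total n m with hnm | hnm
  · left
    refine (mem_OO_iff (m := n) (F := X 0 ^ m * F') hG' ?_).mpr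
      (Dvd.dvd.mul_right (pow_dvd_pow _ hnm) _)
    rw [e1, e2, div_mul_cancel₀ _ hG2]
  · right
    refine (mem_OO_iff (m := m) (F := X 0 ^ n * G') hF' ?_).mpr
      (Dvd.dvd.mul_right (pow_dvd_pow _ hnm) _)
    rw [e1, e2, inv_div, div_mul_cancel₀ _ hF2]

/-- the corresponding valuation subring -/
def OV (a b : k) : ValuationSubring (KK k) where
  toSubring := (OO a b).toSubring
  mem_or_inv_mem' := by
    intro f
    by_cases hf : f = 0
    · left; rw [hf]; exact (OO a b).zero_mem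
    · exact OO_valuation f hf

theorem mem_OV {a b : k} {f : KK k} : f ∈ OV a b ↔ f ∈ OO a b := Iff.rfl

end

end Pool.Agent.J6H82.Kollar
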