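import Pool.Agent.J6H82.Kollar.Geo2

/-!
# Restriction to the cone over the cubic
-/

namespace Pool.Agent.J6H82.Kollar

noncomputable section

set_option maxHeartbeats 400000

open Polynomial

variable {k : Type} [Field k]

/-! ## the numerical semigroup condition -/

variable (k) in
/-- spanned by the `a ^ j ζ ^ m` with `3 m - j` in the semigroup generated by `2` and `3` -/
def SG : Subalgebra k (S2 k) where
  carrier := {G | ∀ m j, (G.coeff m).coeff j ≠ 0 → ∃ t, j + t = 3 * m ∧ t ≠ 1}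
  mul_mem' := by
    intro G H hG hH m r hne
    rw [Polynomial.coeff_mul, Polynomial.finsetSum_coeff] at hne
    obtain ⟨⟨i, j⟩, hij, h1⟩ := Finset.exists_ne_zero_of_sum_ne_zero hne
    rw [Polynomial.coeff_mul] at h1
    obtain ⟨⟨s, t⟩, hst, h2⟩ := Finset.exists_ne_zero_of_sum_ne_zero h1
    rw [Finset.HasAntidiagonal.mem_antidiagonal] at hij hst
    obtain ⟨t1, h3, h4⟩ := hG i s (left_ne_zero_of_mul h2)
    obtain ⟨t2, h5, h6⟩ := hH j t (right_ne_zero_of_mul h2)
    simp only at hij hst h3 h5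
    exact ⟨t1 + t2, by omega, by omega⟩
  add_mem' := by
    intro G H hG hH m r hne
    rw [Polynomial.coeff_add, Polynomial.coeff_add] at hne
    by_cases h : (G.coeff m).coeff r = 0
    · rw [h, zero_add] at hne
      exact hH m r hne
    · exact hG m r h
  algebraMap_mem' := by
    intro c m r hne
    rw [Polynomial.algebraMap_apply, Polynomial.coeff_C] at hne
    split_ifs at hne with hm
    · subst hm
      rw [Polynomial.algebraMap_apply, Polynomial.coeff_C] at hne
      split_ifs at hne with hr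
      · subst hr; exact ⟨0, by omega, by omega⟩
      · exact absurd rfl hne
    · simp at hne

theorem mem_SG {G : S2 k} : G ∈ SG k ↔
    ∀ m j, (G.coeff m).coeff j ≠ 0 → ∃ t, j + t = 3 * m ∧ t ≠ 1 := Iff.rfl

/-- restriction to the cone over the cubic: `X ↦ a ζ`, `Y ↦ (a ^ 3 - 9 a) ζ`, `Z ↦ ζ` -/
def psi : P3 k →ₐ[k] S2 k := MvPolynomial.aeval ![C X * X, C (gG k) * X, X]

@[simp] theorem psi_X0 : psi (MvPolynomial.X 0 : P3 k) = C X * X := by simp [psi]
@[simp] theorem psi_X1 : psi (MvPolynomial.X 1 : P3 k) = C (gG k) * X := by simp [psi]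
@[simp] theorem psi_X2 : psi (MvPolynomial.X 2 : P3 k) = X := by simp [psi]
@[simp] theorem psi_C (c : k) : psi (MvPolynomial.C c : P3 k) = C (C c) := by
  simp [psi, Polynomial.algebraMap_apply]

theorem mem_SG_mul_X {g : k[X]} (h : ∀ j, g.coeff j ≠ 0 → ∃ t, j + t = 3 ∧ t ≠ 1) :
    C g * X ∈ SG k := by
  intro m j hne
  rw [Polynomial.coeff_C_mul, Polynomial.coeff_X] at hne
  split_ifs at hne with hm
  · rw [mul_one] at hne
    obtain ⟨t, h1, h2⟩ := h j hne
    exact ⟨t, by omega, h2⟩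
  · simp at hne

theorem psi_mem_SG (F : P3 k) : psi F ∈ SG k := by
  induction F using MvPolynomial.induction_on with
  | C c =>
    rw [← MvPolynomial.algebraMap_eq, AlgHom.commutes]
    exact (SG k).algebraMap_mem c
  | add p q hp hq => rw [map_add]; exact (SG k).add_mem hp hq
  | mul_X p i hp =>
    rw [map_mul]
    refine (SG k).mul_mem hp ?_
    fin_cases i
    · simp only [Fin.zero_eta, psi_X0]
      apply mem_SG_mul_X
      intro j hj
      rw [Polynomial.coeff_X] at hj
      split_ifs at hj with h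
      · exact ⟨2, by omega, by omega⟩
      · exact absurd rfl hj
    · simp only [Fin.mk_one, psi_X1]
      apply mem_SG_mul_X
      intro j hj
      unfold gG at hj
      rw [Polynomial.coeff_sub, Polynomial.coeff_X_pow, Polynomial.coeff_C_mul,
        Polynomial.coeff_X] at hj
      by_cases h3 : j = 3
      · exact ⟨0, by omega, by omega⟩
      · by_cases h1 : j = 1
        · exact ⟨2, by omega, by omega⟩
        · rw [if_neg h3, if_neg (fun h => h1 h.symm)] at hj
          simp at hj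
    · simp only [Fin.reduceFinMk, psi_X2]
      have h := mem_SG_mul_X (k := k) (g := 1) (by
        intro j hj
        rw [Polynomial.coeff_one] at hj
        split_ifs at hj with h
        · exact ⟨3, by omega, by omega⟩
        · exact absurd rfl hj)
      rwa [map_one, one_mul] at h

variable [CharZero k]

/-- divisibility on the cone -/
theorem psi_dvd {p : Fin 37} (hp : p ∈ GG) {m : ℕ} {F : P3 k}
    (h : (MvPolynomial.X 0 : P3 k) ^ m ∣ th3 (xs k p) (ys k p) F) (j : ℕ) :
    (X - C (xs k p)) ^ m ∣ (psi F).coeff j := by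
  have hb : ys k p = xs k p ^ 3 - 9 * xs k p := by
    rw [← onG_iff]
    have := hp
    simp only [GG, Finset.mem_filter, Finset.mem_univ, true_and] at this
    exact this
  let σ : P3 k →ₐ[k] S2 k := MvPolynomial.aeval
    ![C (X - C (xs k p)) * X, C (X ^ 2 + C (xs k p) * X + C (xs k p ^ 2) - C 9), X]
  have hσC : ∀ c : k, σ (MvPolynomial.C c) = C (C c) := by
    intro c
    simp [σ, Polynomial.algebraMap_apply]
  have hσ0 : σ (MvPolynomial.X 0) = C (X - C (xs k p)) * X := by simp [σ]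
  have hσ1 : σ (MvPolynomial.X 1) = C (X ^ 2 + C (xs k p) * X + C (xs k p ^ 2) - C 9) := by
    simp [σ]
  have hσ2 : σ (MvPolynomial.X 2) = X := by simp [σ]
  have hσ : σ.comp (th3 (xs k p) (ys k p)) = psi := by
    apply algHom_ext3
    · rw [AlgHom.comp_apply, th3_X0, map_add, map_mul, hσ0, hσ2, hσC, psi_X0, map_sub]
      ring
    · rw [AlgHom.comp_apply, th3_X1, map_add, map_mul, map_mul, hσ0, hσ1, hσ2, hσC, psi_X1]
      have h1 : C (ys k p) = (C (xs k p)) ^ 3 - C 9 * C (xs k p) := by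
        rw [hb]; simp only [map_sub, map_mul, map_pow, map_ofNat]
      rw [mul_right_comm, ← C_mul, ← add_mul, ← C_add, h1]
      congr 2
      unfold gG
      simp only [map_pow]
      ring
    · rw [AlgHom.comp_apply, th3_X2, hσ2, psi_X2]
  obtain ⟨G, hG⟩ := h
  have h2 : C ((X - C (xs k p)) ^ m) ∣ psi F := by
    rw [← hσ, AlgHom.comp_apply, hG, map_mul σ, map_pow σ, hσ0, mul_pow, ← C_pow]
    exact ⟨X ^ m * σ G, by ring⟩
  exact (Polynomial.C_dvd_iff_dvd_coeff _ _).mp h2 j

theorem xs_inj_GG {p q : Fin 37} (hp : p ∈ GG) (hq : q ∈ GG) (h : xs k p = xs k q) : p = q := by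
  apply xy_inj (k := k) p q h
  rw [← (mem_GG' (k := k) p).mp hp, ← (mem_GG' (k := k) q).mp hq, h]

/-- product over the points of the cubic -/
def QQ (k : Type) [Field k] (m : Fin 37 → ℕ) : k[X] := ∏ p ∈ GG, (X - C (xs k p)) ^ m p

theorem QQ_monic (m : Fin 37 → ℕ) : (QQ k m).Monic := monic_prod_pow (x := xs k) GG m

theorem QQ_natDegree (m : Fin 37 → ℕ) : (QQ k m).natDegree = ∑ p ∈ GG, m p :=
  natDegree_prod_pow (x := xs k) GG m

theorem QQ_dvd {m : Fin 37 → ℕ} {φ : k[X]} (h : ∀ p ∈ GG, (X - C (xs k p)) ^ m p ∣ φ) :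
    QQ k m ∣ φ := by
  apply Finset.prod_dvd_of_coprime
  · intro p hp q hq hpq
    apply IsCoprime.pow
    apply Polynomial.isCoprime_X_sub_C_of_isUnit_sub
    rw [isUnit_iff_ne_zero, sub_ne_zero]
    intro h
    exact hpq (xs_inj_GG hp hq h)
  · exact h

theorem sum_Sp_GG (e : Fin 11 → ℕ) : ∑ p ∈ GG, Sp e p = 3 * ∑ i, e i := by
  unfold Sp
  rw [Finset.sum_comm, Finset.mul_sum]
  apply Finset.sum_congr rfl
  intro i _
  have h1 : ∑ p ∈ GG, (if OnI i p then e i else 0) = ∑ p ∈ LL i ∩ GG, e i := by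
    rw [← Finset.sum_filter]
    apply Finset.sum_congr _ (fun _ _ => rfl)
    ext p
    simp [LL, and_comm]
  rw [h1, Finset.sum_const, card_LL_GG, smul_eq_mul]

theorem xs_GG {p : Fin 37} (hp : p ∈ GG) : xs k p = (ptX p : k) := by
  unfold xs
  rw [ptD_GG p hp]; simp

theorem sum_Sp_xs (e : Fin 11 → ℕ) : ∑ p ∈ GG, (Sp e p : k) * xs k p = 0 := by
  have h1 : ∑ p ∈ GG, (Sp e p : k) * xs k p =
      ∑ i, (e i : k) * ((∑ p ∈ LL i ∩ GG, ptX p : ℤ) : k) := by
    unfold Sp
    simp only [Nat.cast_sum, Finset.sum_mul, Int.cast_sum, Finset.mul_sum]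
    rw [Finset.sum_comm]
    apply Finset.sum_congr rfl
    intro i _
    have h2 : LL i ∩ GG = GG.filter (OnI i) := by
      ext p
      simp [LL, and_comm]
    rw [h2, Finset.sum_filter]
    apply Finset.sum_congr rfl
    intro p hp
    rw [xs_GG hp]
    split_ifs <;> simp
  rw [h1]
  apply Finset.sum_eq_zero
  intro i _
  rw [sum_ptX_LL]; simp

theorem sum_xs_GG : ∑ p ∈ GG, xs k p = 7 := by
  rw [Finset.sum_congr rfl (fun p hp => xs_GG hp), ← Int.cast_sum, sum_ptX_GG]; simp

theorem card_GG : GG.card = 12 := by decide +kernel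

theorem QQ_nextCoeff (m : Fin 37 → ℕ) : (QQ k m).nextCoeff = - ∑ p ∈ GG, (m p : k) * xs k p := by
  unfold QQ
  rw [Polynomial.Monic.nextCoeff_prod _ _ (fun p _ => (monic_X_sub_C _).pow _),
    ← Finset.sum_neg_distrib]
  apply Finset.sum_congr rfl
  intro p _
  rw [(monic_X_sub_C _).nextCoeff_pow, nextCoeff_X_sub_C]
  simp

theorem dvd_sub_of_dvd_mul {S n : ℕ} {G : P3 k}
    (h : (MvPolynomial.X 0 : P3 k) ^ S ∣ MvPolynomial.X 0 ^ n * G) :
    (MvPolynomial.X 0 : P3 k) ^ (S - n) ∣ G := by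
  rcases le_total S n with hS | hS
  · rw [Nat.sub_eq_zero_of_le hS, pow_zero]; exact one_dvd _
  · have h1 : S = n + (S - n) := by omega
    rw [h1, pow_add] at h
    exact (mul_dvd_mul_iff_left (pow_ne_zero _ (MvPolynomial.X_ne_zero 0))).mp h

/-- **The bound.** The coefficients of the restriction to the cone over the cubic. -/
theorem key_bound {e : Fin 11 → ℕ} {n : ℕ} (hn : 1 ≤ n) {F : P3 k}
    (hF : ∀ p ∈ GG, (MvPolynomial.X 0 : P3 k) ^ Sp e p ∣
      MvPolynomial.X 0 ^ n * th3 (xs k p) (ys k p) F) (m : ℕ) (hm : (psi F).coeff m ≠ 0) :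
    3 * (∑ i, e i) + 1 ≤ 3 * m + 12 * n := by
  by_contra hcon
  push Not at hcon
  set φ := (psi F).coeff m with hφ
  set M : Fin 37 → ℕ := fun p => Sp e p - n with hM
  have h1 : QQ k M ∣ φ := by
    apply QQ_dvd
    intro p hp
    exact psi_dvd hp (dvd_sub_of_dvd_mul (hF p hp)) m
  obtain ⟨q, hq⟩ := h1
  have hq0 : q ≠ 0 := by
    rintro rfl
    rw [mul_zero] at hq
    exact hm hq
  have hdeg : φ.natDegree ≤ 3 * m := by
    obtain ⟨t, ht, _⟩ := psi_mem_SG F m φ.natDegree (by
      rw [← hφ]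
      show φ.leadingCoeff ≠ 0
      rwa [Ne, Polynomial.leadingCoeff_eq_zero])
    omega
  have hdeg2 : φ.natDegree = (∑ p ∈ GG, M p) + q.natDegree := by
    rw [hq, (QQ_monic M).natDegree_mul' hq0, QQ_natDegree]
  have hle : ∀ p ∈ GG, (Sp e p : ℤ) - n ≤ (M p : ℤ) := by
    intro p _
    simp only [hM]
    omega
  have hsum : ∑ p ∈ GG, ((Sp e p : ℤ) - n) = 3 * ((∑ i, e i : ℕ) : ℤ) - 12 * n := by
    rw [Finset.sum_sub_distrib, Finset.sum_const, card_GG, ← Nat.cast_sum, sum_Sp_GG]
    push_cast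
    ring
  have hsum2 : ∑ p ∈ GG, ((Sp e p : ℤ) - n) ≤ ∑ p ∈ GG, (M p : ℤ) := Finset.sum_le_sum hle
  have hsum3 : ∑ p ∈ GG, (M p : ℤ) = ((∑ p ∈ GG, M p : ℕ) : ℤ) := by push_cast; rfl
  have hq1 : q.natDegree = 0 := by omega
  have hMm : ∑ p ∈ GG, M p = 3 * m := by omega
  have heq : ∀ p ∈ GG, (Sp e p : ℤ) - n = (M p : ℤ) := by
    apply (Finset.sum_eq_sum_iff_of_le hle).mp
    rw [hsum, hsum3]
    omega
  have hx : ∑ p ∈ GG, (M p : k) * xs k p = - (7 * n) := by
    have h2 : ∀ p ∈ GG, (M p : k) * xs k p = (Sp e p : k) * xs k p - (n : k) * xs k p := by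
      intro p hp
      have h3 : (M p : k) = (Sp e p : k) - (n : k) := by
        have := congrArg (fun z : ℤ => (z : k)) (heq p hp)
        push_cast at this
        exact this.symm
      rw [h3]; ring
    rw [Finset.sum_congr rfl h2, Finset.sum_sub_distrib, sum_Sp_xs, ← Finset.mul_sum, sum_xs_GG]
    ring
  have hn0 : (7 * n : k) ≠ 0 := by
    have : ((7 * n : ℕ) : k) ≠ 0 := Nat.cast_ne_zero.mpr (by omega)
    simpa using this
  rcases Nat.eq_zero_or_pos m with h0 | h0
  · subst h0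
    have h4 : ∀ p ∈ GG, M p = 0 := by
      rw [mul_zero] at hMm
      exact fun p hp => Finset.sum_eq_zero_iff.mp hMm p hp
    rw [Finset.sum_eq_zero (fun p hp => by rw [h4 p hp]; simp)] at hx
    apply hn0
    linear_combination hx
  · -- the next coefficient
    rw [Polynomial.eq_C_of_natDegree_eq_zero hq1] at hq
    have h5 : φ.coeff (3 * m - 1) = 0 := by
      by_contra hne
      obtain ⟨t, ht, ht1⟩ := psi_mem_SG F m (3 * m - 1) hne
      omega
    have h6 : (QQ k M).nextCoeff = (QQ k M).coeff (3 * m - 1) := by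
      rw [Polynomial.nextCoeff_of_natDegree_pos (by rw [QQ_natDegree]; omega), QQ_natDegree, hMm]
    rw [hq, Polynomial.coeff_mul_C, ← h6, QQ_nextCoeff, hx, neg_neg] at h5
    rcases mul_eq_zero.mp h5 with h7 | h7
    · exact hn0 h7
    · apply hq0
      rw [Polynomial.eq_C_of_natDegree_eq_zero hq1, h7, C_0]

/-- The same without poles: the leading coefficient is a multiple of `QQ`. -/
theorem key_zero {e : Fin 11 → ℕ} {F : P3 k}
    (hF : ∀ p ∈ GG, (MvPolynomial.X 0 : P3 k) ^ Sp e p ∣ th3 (xs k p) (ys k p) F) (m : ℕ)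
    (hm : (psi F).coeff m ≠ 0) : ∑ i, e i ≤ m ∧
      (m = ∑ i, e i → ∃ c : k, (psi F).coeff m = C c * QQ k (Sp e)) := by
  set φ := (psi F).coeff m with hφ
  have h1 : QQ k (Sp e) ∣ φ := by
    apply QQ_dvd
    intro p hp
    exact psi_dvd hp (hF p hp) m
  obtain ⟨q, hq⟩ := h1
  have hq0 : q ≠ 0 := by
    rintro rfl
    rw [mul_zero] at hq
    exact hm hq
  have hdeg : φ.natDegree ≤ 3 * m := by
    obtain ⟨t, ht, _⟩ := psi_mem_SG F m φ.natDegree (by
      rw [← hφ]
      show φ.leadingCoeff ≠ 0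
      rwa [Ne, Polynomial.leadingCoeff_eq_zero])
    omega
  have hdeg2 : φ.natDegree = 3 * (∑ i, e i) + q.natDegree := by
    rw [hq, (QQ_monic _).natDegree_mul' hq0, QQ_natDegree, sum_Sp_GG]
  refine ⟨by omega, fun h => ⟨q.coeff 0, ?_⟩⟩
  have hq1 : q.natDegree = 0 := by omega
  rw [← Polynomial.eq_C_of_natDegree_eq_zero hq1, hq, mul_comm]

/-- the restriction of a line to the cubic -/
theorem gG_sub_gL (i : Fin 11) : gG k - gL k i = ∏ p ∈ LL i ∩ GG, (X - C (xs k p)) := by
  have hm : (gG k - gL k i).Monic := by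
    apply gG_monic.sub_of_left
    apply Polynomial.degree_lt_degree
    rw [gG_natDegree]
    have := gL_natDegree (k := k) i
    omega
  have hd : (gG k - gL k i).natDegree = 3 := by
    rw [Polynomial.natDegree_sub_eq_left_of_natDegree_lt]
    · exact gG_natDegree
    · rw [gG_natDegree]
      have := gL_natDegree (k := k) i
      omega
  have hm2 : (∏ p ∈ LL i ∩ GG, (X - C (xs k p))).Monic :=
    monic_prod_of_monic _ _ (fun p _ => monic_X_sub_C _)
  apply Polynomial.eq_of_monic_of_dvd_of_natDegree_le hm2 hm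
  · apply Finset.prod_dvd_of_coprime
    · intro p hp q hq hpq
      apply Polynomial.isCoprime_X_sub_C_of_isUnit_sub
      rw [isUnit_iff_ne_zero, sub_ne_zero]
      intro h
      exact hpq (xs_inj_GG (Finset.mem_of_mem_inter_right hp) (Finset.mem_of_mem_inter_right hq) h)
    · intro p hp
      rw [Polynomial.dvd_iff_isRoot]
      rw [Finset.mem_inter] at hp
      simp only [IsRoot.def, eval_sub]
      rw [(mem_LL (k := k) i p).mp hp.1, (mem_GG' (k := k) p).mp hp.2, sub_self]
  · rw [hd, Polynomial.natDegree_prod_of_monic _ _ (fun p _ => monic_X_sub_C _)]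
    simp [card_LL_GG]

theorem psi_ell (i : Fin 11) : psi (ell k i) = C (gG k - gL k i) * X := by
  unfold ell gL
  simp only [map_sub, map_mul, psi_X0, psi_X1, psi_X2, psi_C, map_add]
  ring

theorem QQ_Sp (e : Fin 11 → ℕ) : QQ k (Sp e) = ∏ i, (gG k - gL k i) ^ e i := by
  have h2 : ∀ i ∈ Finset.univ, (gG k - gL k i) ^ e i =
      ∏ p ∈ GG, (X - C (xs k p)) ^ (if OnI i p then e i else 0) := by
    intro i _
    have h3 : LL i ∩ GG = GG.filter (OnI i) := by
      ext p
      simp [LL, and_comm]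
    rw [gG_sub_gL, ← Finset.prod_pow, h3, Finset.prod_filter]
    apply Finset.prod_congr rfl
    intro p _
    split_ifs <;> simp
  rw [Finset.prod_congr rfl h2, Finset.prod_comm]
  unfold QQ Sp
  apply Finset.prod_congr rfl
  intro p _
  rw [Finset.prod_pow_eq_pow_sum]

theorem psi_Le (e : Fin 11 → ℕ) : psi (Le k e) = X ^ (∑ i, e i) * C (QQ k (Sp e)) := by
  have h1 : ∀ i ∈ Finset.univ, psi (ell k i ^ e i) = C ((gG k - gL k i) ^ e i) * X ^ e i := by
    intro i _
    rw [map_pow, psi_ell, mul_pow, C_pow]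
  have h4 : psi (Le k e) = ∏ i, psi (ell k i ^ e i) := by
    unfold Le
    rw [map_prod]
  rw [h4, Finset.prod_congr rfl h1, Finset.prod_mul_distrib, Finset.prod_pow_eq_pow_sum, QQ_Sp,
    map_prod]
  exact mul_comm _ _

end

end Pool.Agent.J6H82.Kollar
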