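import Mathlib

/-!
# Star-shaped resolutions: vanishing of the first Cech cohomology

Abstract setting: a field `F`, a subalgebra `Pl`, finitely many places `P` with local rings `O P` and
uniformisers `π P`; the graded charts live in the Laurent polynomials over `F`.
-/

namespace Pool.Agent.J6H82.Kollar

noncomputable section

set_option maxHeartbeats 400000

open LaurentPolynomial

/-- places of a rational curve, with arms of lengths `n P` -/
structure Star (k F : Type) [Field k] [Field F] [Algebra k F] (ι : Type) where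
  /-- functions regular away from the places -/
  Pl : Subalgebra k F
  /-- local rings of the places -/
  O : ι → Subalgebra k F
  /-- uniformisers -/
  π : ι → F
  /-- lengths of the arms -/
  n : ι → ℕ
  n_pos : ∀ P, 0 < n P
  π_ne : ∀ P, π P ≠ 0
  π_mem : ∀ P, π P ∈ Pl
  π_inv_mem : ∀ P, (π P)⁻¹ ∈ Pl
  π_mem_O : ∀ P, π P ∈ O P
  π_inv_O : ∀ P Q, P ≠ Q → (π P)⁻¹ ∈ O Q
  res : ∀ P x, x ∈ O P → ∃ c : k, (x - algebraMap k F c) * (π P)⁻¹ ∈ O P
  pole : ∀ P φ, φ ∈ Pl → ∃ N : ℕ, φ * π P ^ N ∈ O P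
  const : ∀ φ ∈ Pl, (∀ P, φ ∈ O P) → ∃ c : k, algebraMap k F c = φ

variable {k F : Type} [Field k] [Field F] [Algebra k F]

/-! ## graded subalgebras -/

/-- the graded subalgebra with prescribed graded pieces -/
def gsub (S : ℤ → Submodule k F) (h1 : (1 : F) ∈ S 0)
    (hmul : ∀ m n, ∀ a ∈ S m, ∀ b ∈ S n, a * b ∈ S (m + n)) : Subalgebra k F[T;T⁻¹] where
  carrier := {x | ∀ m, x.coeff m ∈ S m}
  mul_mem' := by
    intro x y hx hy m
    rw [AddMonoidAlgebra.coeff_mul]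
    apply Submodule.sum_mem
    intro a _
    apply Submodule.sum_mem
    intro b _
    simp only
    split_ifs with h
    · rw [← h]; exact hmul _ _ _ (hx a) _ (hy b)
    · exact Submodule.zero_mem _
  add_mem' := by
    intro x y hx hy m
    rw [AddMonoidAlgebra.coeff_add]
    exact Submodule.add_mem _ (hx m) (hy m)
  algebraMap_mem' := by
    intro r m
    rw [LaurentPolynomial.algebraMap_apply, LaurentPolynomial.C_apply]
    split_ifs with h
    · subst h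
      rw [Algebra.algebraMap_eq_smul_one]
      exact Submodule.smul_mem _ _ h1
    · exact Submodule.zero_mem _

theorem mem_gsub {S : ℤ → Submodule k F} {h1 : (1 : F) ∈ S 0}
    {hmul : ∀ m n, ∀ a ∈ S m, ∀ b ∈ S n, a * b ∈ S (m + n)} {x : F[T;T⁻¹]} :
    x ∈ gsub S h1 hmul ↔ ∀ m, x.coeff m ∈ S m := Iff.rfl

theorem coeff_CT (φ : F) (n m : ℤ) : (C φ * T n : F[T;T⁻¹]).coeff m = if n = m then φ else 0 := by
  rw [← single_eq_C_mul_T, AddMonoidAlgebra.coeff_single, Finsupp.single_apply]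

theorem CT_mem_gsub {S : ℤ → Submodule k F} {h1 : (1 : F) ∈ S 0}
    {hmul : ∀ m n, ∀ a ∈ S m, ∀ b ∈ S n, a * b ∈ S (m + n)} {φ : F} {n : ℤ} (h : φ ∈ S n) :
    (C φ * T n : F[T;T⁻¹]) ∈ gsub S h1 hmul := by
  intro m
  rw [coeff_CT]
  split_ifs with hm
  · subst hm; exact h
  · exact Submodule.zero_mem _

/-- every Laurent polynomial is the sum of its homogeneous parts -/
theorem eq_sum_CT (x : F[T;T⁻¹]) : x = ∑ m ∈ x.coeff.support, C (x.coeff m) * T m := by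
  ext n
  rw [AddMonoidAlgebra.coeff_sum, Finset.sum_apply']
  simp only [coeff_CT]
  rw [Finset.sum_ite_eq']
  split_ifs with h
  · rfl
  · exact Finsupp.notMem_support_iff.mp h

/-- a subalgebra containing the homogeneous parts contains the element -/
theorem mem_of_CT_mem {A : Subalgebra k F[T;T⁻¹]} {x : F[T;T⁻¹]}
    (h : ∀ m, C (x.coeff m) * T m ∈ A) : x ∈ A := by
  rw [eq_sum_CT x]
  exact A.sum_mem (fun m _ => h m)

namespace Star

variable {ι : Type} (D : Star k F ι)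

theorem π_zpow_mem_O (P : ι) {a : ℤ} (ha : 0 ≤ a) : D.π P ^ a ∈ D.O P := by
  lift a to ℕ using ha
  rw [zpow_natCast]
  exact (D.O P).pow_mem (D.π_mem_O P) a

theorem π_zpow_mem (P : ι) (a : ℤ) : D.π P ^ a ∈ D.Pl := by
  rcases Int.le_total 0 a with ha | ha
  · lift a to ℕ using ha
    rw [zpow_natCast]
    exact D.Pl.pow_mem (D.π_mem P) a
  · obtain ⟨b, rfl⟩ : ∃ b : ℕ, a = -b := ⟨a.natAbs, by omega⟩
    rw [zpow_neg, zpow_natCast, ← inv_pow]
    exact D.Pl.pow_mem (D.π_inv_mem P) b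

theorem mul_zpow_mem_of_le {P : ι} {φ : F} {a b : ℤ} (hab : a ≤ b) (h : φ * D.π P ^ a ∈ D.O P) :
    φ * D.π P ^ b ∈ D.O P := by
  have h1 := (D.O P).mul_mem h (D.π_zpow_mem_O P (sub_nonneg.mpr hab))
  rwa [mul_assoc, ← zpow_add₀ (D.π_ne P), add_sub_cancel] at h1

/-- the condition at the vertex `j` of the arm `P`, in degree `m` -/
def vS (P : ι) : ℕ → ℤ → Submodule k F
  | 0, m => if 0 ≤ m then ⊤ else ⊥
  | (j + 1), m =>
    { carrier := {φ | φ * D.π P ^ (m / ((j + 1 : ℕ) : ℤ)) ∈ D.O P}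
      add_mem' := by
        intro a b ha hb
        show (a + b) * D.π P ^ (m / ((j + 1 : ℕ) : ℤ)) ∈ D.O P
        rw [add_mul]
        exact (D.O P).add_mem ha hb
      zero_mem' := by
        show (0 : F) * D.π P ^ (m / ((j + 1 : ℕ) : ℤ)) ∈ D.O P
        rw [zero_mul]; exact (D.O P).zero_mem
      smul_mem' := by
        intro c x hx
        show (c • x) * D.π P ^ (m / ((j + 1 : ℕ) : ℤ)) ∈ D.O P
        rw [smul_mul_assoc]
        exact (D.O P).smul_mem hx c }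

theorem mem_vS_succ {P : ι} {j : ℕ} {m : ℤ} {φ : F} :
    φ ∈ D.vS P (j + 1) m ↔ φ * D.π P ^ (m / ((j + 1 : ℕ) : ℤ)) ∈ D.O P := Iff.rfl

theorem mem_vS_zero {P : ι} {m : ℤ} {φ : F} : φ ∈ D.vS P 0 m ↔ 0 ≤ m ∨ φ = 0 := by
  show φ ∈ (if 0 ≤ m then ⊤ else ⊥ : Submodule k F) ↔ _
  split_ifs with h
  · simp [h]
  · simp [h]

theorem one_mem_vS (P : ι) (j : ℕ) : (1 : F) ∈ D.vS P j 0 := by
  rcases j with _ | j
  · rw [mem_vS_zero]; left; rfl
  · rw [mem_vS_succ]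
    simp only [Int.zero_ediv, zpow_zero, mul_one]
    exact (D.O P).one_mem

theorem add_div_le (m n : ℤ) (j : ℕ) : m / ((j + 1 : ℕ) : ℤ) + n / ((j + 1 : ℕ) : ℤ) ≤
    (m + n) / ((j + 1 : ℕ) : ℤ) := by
  have hj : (0 : ℤ) < ((j + 1 : ℕ) : ℤ) := by positivity
  rw [Int.le_ediv_iff_mul_le hj, add_mul]
  exact add_le_add (Int.ediv_mul_le m hj.ne') (Int.ediv_mul_le n hj.ne')

theorem mul_mem_vS (P : ι) (j : ℕ) (m n : ℤ) {a b : F} (ha : a ∈ D.vS P j m)
    (hb : b ∈ D.vS P j n) : a * b ∈ D.vS P j (m + n) := by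
  rcases j with _ | j
  · rw [mem_vS_zero] at ha hb ⊢
    rcases ha with ha | ha
    · rcases hb with hb | hb
      · left; omega
      · right; rw [hb, mul_zero]
    · right; rw [ha, zero_mul]
  · rw [mem_vS_succ] at ha hb ⊢
    apply D.mul_zpow_mem_of_le (add_div_le m n j)
    have := (D.O P).mul_mem ha hb
    rwa [show a * D.π P ^ (m / ((j + 1 : ℕ) : ℤ)) * (b * D.π P ^ (n / ((j + 1 : ℕ) : ℤ))) =
      a * b * D.π P ^ (m / ((j + 1 : ℕ) : ℤ) + n / ((j + 1 : ℕ) : ℤ)) by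
      rw [zpow_add₀ (D.π_ne P)]; ring] at this

/-- the Laurent polynomials over `Pl` -/
def PT : Subalgebra k F[T;T⁻¹] := gsub (fun _ => Subalgebra.toSubmodule D.Pl) D.Pl.one_mem
  (fun _ _ _ ha _ hb => D.Pl.mul_mem ha hb)

theorem mem_PT {x : F[T;T⁻¹]} : x ∈ D.PT ↔ ∀ m, x.coeff m ∈ D.Pl := Iff.rfl

/-- functions regular at the vertex `j` of the arm `P` -/
def VV (P : ι) (j : ℕ) : Subalgebra k F[T;T⁻¹] := gsub (D.vS P j) (D.one_mem_vS P j)
  (fun m n _ ha _ hb => D.mul_mem_vS P j m n ha hb)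

theorem mem_VV {P : ι} {j : ℕ} {x : F[T;T⁻¹]} : x ∈ D.VV P j ↔ ∀ m, x.coeff m ∈ D.vS P j m :=
  Iff.rfl

/-- the index type of the charts -/
abbrev Idx' := Σ P : ι, Fin (D.n P)

/-- the charts -/
def U (α : D.Idx') : Subalgebra k F[T;T⁻¹] := D.PT ⊓ (D.VV α.1 α.2 ⊓ D.VV α.1 (α.2 + 1))

theorem mem_U {α : D.Idx'} {x : F[T;T⁻¹]} : x ∈ D.U α ↔
    ∀ m, x.coeff m ∈ D.Pl ∧ x.coeff m ∈ D.vS α.1 α.2 m ∧ x.coeff m ∈ D.vS α.1 (α.2 + 1) m := by
  unfold U
  rw [Algebra.mem_inf, Algebra.mem_inf, mem_PT, mem_VV, mem_VV]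
  exact ⟨fun h m => ⟨h.1 m, h.2.1 m, h.2.2 m⟩,
    fun h => ⟨fun m => (h m).1, fun m => (h m).2.1, fun m => (h m).2.2⟩⟩

theorem CT_mem_U {α : D.Idx'} {φ : F} {m : ℤ} (h1 : φ ∈ D.Pl) (h2 : φ ∈ D.vS α.1 α.2 m)
    (h3 : φ ∈ D.vS α.1 (α.2 + 1) m) : (C φ * T m : F[T;T⁻¹]) ∈ D.U α := by
  unfold U
  rw [Algebra.mem_inf, Algebra.mem_inf]
  exact ⟨CT_mem_gsub h1, CT_mem_gsub h2, CT_mem_gsub h3⟩

theorem U_le_PT (α : D.Idx') : D.U α ≤ D.PT := inf_le_left

theorem VV_zero (P Q : ι) : D.VV P 0 = D.VV Q 0 := rfl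

theorem sup_le_PT (α β : D.Idx') : D.U α ⊔ D.U β ≤ D.PT := sup_le (D.U_le_PT α) (D.U_le_PT β)

/-! ## monotonicity -/

theorem vS_mono_nonneg {P : ι} {j l : ℕ} (hjl : j ≤ l) {m : ℤ} (hm : 0 ≤ m) :
    D.vS P (l + 1) m ≤ D.vS P (j + 1) m := by
  intro φ hφ
  rw [mem_vS_succ] at hφ ⊢
  apply D.mul_zpow_mem_of_le _ hφ
  have hj : (0 : ℤ) < ((j + 1 : ℕ) : ℤ) := by positivity
  have hl : (0 : ℤ) < ((l + 1 : ℕ) : ℤ) := by positivity
  rw [Int.le_ediv_iff_mul_le hj]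
  calc m / ((l + 1 : ℕ) : ℤ) * ((j + 1 : ℕ) : ℤ) ≤ m / ((l + 1 : ℕ) : ℤ) * ((l + 1 : ℕ) : ℤ) := by
        apply mul_le_mul_of_nonneg_left
        · exact_mod_cast Nat.succ_le_succ hjl
        · exact Int.ediv_nonneg hm hl.le
    _ ≤ m := Int.ediv_mul_le m hl.ne'

theorem vS_mono_neg {P : ι} {j l : ℕ} (hjl : j ≤ l) {m : ℤ} (hm : m ≤ 0) :
    D.vS P (j + 1) m ≤ D.vS P (l + 1) m := by
  intro φ hφ
  rw [mem_vS_succ] at hφ ⊢
  apply D.mul_zpow_mem_of_le _ hφ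
  have hj : (0 : ℤ) < ((j + 1 : ℕ) : ℤ) := by positivity
  have hl : (0 : ℤ) < ((l + 1 : ℕ) : ℤ) := by positivity
  rw [Int.le_ediv_iff_mul_le hl]
  have h1 : m / ((j + 1 : ℕ) : ℤ) ≤ 0 := by
    rw [← Int.lt_add_one_iff, Int.ediv_lt_iff_lt_mul hj]
    push_cast
    nlinarith
  calc m / ((j + 1 : ℕ) : ℤ) * ((l + 1 : ℕ) : ℤ) ≤ m / ((j + 1 : ℕ) : ℤ) * ((j + 1 : ℕ) : ℤ) := by
        apply mul_le_mul_of_nonpos_left _ h1
        exact_mod_cast Nat.succ_le_succ hjl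
    _ ≤ m := Int.ediv_mul_le m hj.ne'

theorem O_le_vS {P : ι} {j : ℕ} {m : ℤ} (hm : 0 ≤ m) {φ : F} (h : φ ∈ D.O P) :
    φ ∈ D.vS P (j + 1) m := by
  rw [mem_vS_succ]
  exact (D.O P).mul_mem h (D.π_zpow_mem_O P (Int.ediv_nonneg hm (by positivity)))

/-! ## approximation -/

theorem approx_aux (P : ι) (N : ℕ) : ∀ φ : F, φ * D.π P ^ N ∈ D.O P →
    ∃ ψ ∈ D.Pl, φ - ψ ∈ D.O P ∧ ∀ Q, Q ≠ P → ψ ∈ D.O Q := by
  induction N with
  | zero =>
    intro φ h
    refine ⟨0, D.Pl.zero_mem, ?_, fun Q _ => (D.O Q).zero_mem⟩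
    rwa [pow_zero, mul_one, ← sub_zero φ] at h
  | succ N ih =>
    intro φ h
    obtain ⟨c, hc⟩ := D.res P _ h
    have h1 : (φ - algebraMap k F c * (D.π P)⁻¹ ^ (N + 1)) * D.π P ^ N ∈ D.O P := by
      rwa [show (φ - algebraMap k F c * (D.π P)⁻¹ ^ (N + 1)) * D.π P ^ N =
        (φ * D.π P ^ (N + 1) - algebraMap k F c) * (D.π P)⁻¹ by
        have := D.π_ne P
        rw [inv_pow]
        field_simp
        ring]
    obtain ⟨ψ, h2, h3, h4⟩ := ih _ h1
    refine ⟨ψ + algebraMap k F c * (D.π P)⁻¹ ^ (N + 1), ?_, ?_, ?_⟩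
    · exact D.Pl.add_mem h2 (D.Pl.mul_mem (D.Pl.algebraMap_mem c)
        (D.Pl.pow_mem (D.π_inv_mem P) _))
    · rwa [show φ - (ψ + algebraMap k F c * (D.π P)⁻¹ ^ (N + 1)) =
        φ - algebraMap k F c * (D.π P)⁻¹ ^ (N + 1) - ψ by ring]
    · intro Q hQ
      exact (D.O Q).add_mem (h4 Q hQ) ((D.O Q).mul_mem ((D.O Q).algebraMap_mem c)
        ((D.O Q).pow_mem (D.π_inv_O P Q hQ.symm) _))

theorem approx (P : ι) {φ : F} (h : φ ∈ D.Pl) :
    ∃ ψ ∈ D.Pl, φ - ψ ∈ D.O P ∧ ∀ Q, Q ≠ P → ψ ∈ D.O Q := by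
  obtain ⟨N, hN⟩ := D.pole P φ h
  exact D.approx_aux P N φ hN

theorem approx_all [Fintype ι] (φ : ι → F) (h : ∀ P, φ P ∈ D.Pl) :
    ∃ z ∈ D.Pl, ∀ P, φ P - z ∈ D.O P := by
  classical
  choose ψ h1 h2 h3 using fun P => D.approx P (h P)
  refine ⟨∑ P, ψ P, D.Pl.sum_mem (fun P _ => h1 P), fun P => ?_⟩
  rw [← Finset.add_sum_erase _ _ (Finset.mem_univ P), ← sub_sub]
  exact (D.O P).sub_mem (h2 P) ((D.O P).sum_mem
    (fun Q hQ => h3 Q P (Finset.ne_of_mem_erase hQ).symm))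

/-! ## the degreewise statement -/

theorem last_lt (P : ι) : D.n P - 1 < D.n P := by have := D.n_pos P; omega

theorem degreewise [Fintype ι] [Nonempty ι] (m : ℤ) (β : D.Idx' → F) (h0 : ∀ α, β α ∈ D.Pl)
    (h1 : ∀ (P : ι) (j : ℕ) (hj : j + 1 < D.n P),
      β ⟨P, ⟨j, by omega⟩⟩ - β ⟨P, ⟨j + 1, hj⟩⟩ ∈ D.vS P (j + 1) m)
    (h2 : ∀ P Q : ι, β ⟨P, ⟨0, D.n_pos P⟩⟩ - β ⟨Q, ⟨0, D.n_pos Q⟩⟩ ∈ D.vS P 0 m) :
    ∃ z ∈ D.Pl, ∀ α : D.Idx', β α - z ∈ D.vS α.1 α.2 m ∧ β α - z ∈ D.vS α.1 (α.2 + 1) m := by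
  rcases Int.le_total 0 m with hm | hm
  · -- nonnegative degrees
    obtain ⟨z, hz, hz'⟩ := D.approx_all (fun P => β ⟨P, ⟨D.n P - 1, D.last_lt P⟩⟩)
      (fun P => h0 _)
    refine ⟨z, hz, ?_⟩
    have key : ∀ (P : ι) (t j : ℕ) (hj : j < D.n P), D.n P - 1 - j = t →
        β ⟨P, ⟨j, hj⟩⟩ - z ∈ D.vS P (j + 1) m := by
      intro P t
      induction t with
      | zero =>
        intro j hj ht
        have : j = D.n P - 1 := by omega
        subst this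
        exact D.O_le_vS hm (hz' P)
      | succ t ih =>
        intro j hj ht
        have h3 := ih (j + 1) (by omega) (by omega)
        have h4 := h1 P j (by omega)
        have h5 := Submodule.add_mem _ h4 (D.vS_mono_nonneg (Nat.le_succ j) hm h3)
        rwa [sub_add_sub_cancel] at h5
    intro α
    obtain ⟨P, ⟨j, hj⟩⟩ := α
    have h3 := key P _ j hj rfl
    refine ⟨?_, h3⟩
    rcases j with _ | j
    · exact (D.mem_vS_zero).mpr (Or.inl hm)
    · exact D.vS_mono_nonneg (Nat.le_succ j) hm h3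
  · rcases hm.lt_or_eq with hm' | hm'
    · -- negative degrees
      have hm0 : ¬ (0 ≤ m) := by omega
      obtain ⟨P0⟩ := (inferInstance : Nonempty ι)
      refine ⟨β ⟨P0, ⟨0, D.n_pos P0⟩⟩, h0 _, ?_⟩
      have key : ∀ (P : ι) (j : ℕ) (hj : j < D.n P), 1 ≤ j →
          β ⟨P, ⟨j, hj⟩⟩ - β ⟨P0, ⟨0, D.n_pos P0⟩⟩ ∈ D.vS P j m := by
        intro P j
        induction j with
        | zero => intro _ h; omega
        | succ j ih =>
          intro hj _
          have h4 := Submodule.neg_mem _ (h1 P j hj)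
          rw [neg_sub] at h4
          rcases j with _ | j
          · have h5 := (D.mem_vS_zero).mp (h2 P P0)
            rcases h5 with h5 | h5
            · exact absurd h5 hm0
            · have h6 : β ⟨P, ⟨0, D.n_pos P⟩⟩ = β ⟨P0, ⟨0, D.n_pos P0⟩⟩ := sub_eq_zero.mp h5
              rw [← h6]
              exact h4
          · have h5 := ih (by omega) (by omega)
            have h6 := Submodule.add_mem _ h4 (D.vS_mono_neg (Nat.le_succ j) hm h5)
            rwa [sub_add_sub_cancel] at h6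
      intro α
      obtain ⟨P, ⟨j, hj⟩⟩ := α
      rcases j with _ | j
      · have h5 := (D.mem_vS_zero).mp (h2 P P0)
        rcases h5 with h5 | h5
        · exact absurd h5 hm0
        · have h6 : β ⟨P, ⟨0, hj⟩⟩ - β ⟨P0, ⟨0, D.n_pos P0⟩⟩ = 0 := h5
          simp only
          rw [h6]
          exact ⟨Submodule.zero_mem _, Submodule.zero_mem _⟩
      · have h3 := key P (j + 1) hj (by omega)
        exact ⟨h3, D.vS_mono_neg (Nat.le_succ j) hm h3⟩
    · -- degree zero, same as the nonnegative case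
      obtain ⟨z, hz, hz'⟩ := D.approx_all (fun P => β ⟨P, ⟨D.n P - 1, D.last_lt P⟩⟩)
        (fun P => h0 _)
      refine ⟨z, hz, ?_⟩
      have hm2 : 0 ≤ m := hm'.ge
      have key : ∀ (P : ι) (t j : ℕ) (hj : j < D.n P), D.n P - 1 - j = t →
          β ⟨P, ⟨j, hj⟩⟩ - z ∈ D.vS P (j + 1) m := by
        intro P t
        induction t with
        | zero =>
          intro j hj ht
          have : j = D.n P - 1 := by omega
          subst this
          exact D.O_le_vS hm2 (hz' P)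
        | succ t ih =>
          intro j hj ht
          have h3 := ih (j + 1) (by omega) (by omega)
          have h4 := h1 P j (by omega)
          have h5 := Submodule.add_mem _ h4 (D.vS_mono_nonneg (Nat.le_succ j) hm2 h3)
          rwa [sub_add_sub_cancel] at h5
      intro α
      obtain ⟨P, ⟨j, hj⟩⟩ := α
      have h3 := key P _ j hj rfl
      refine ⟨?_, h3⟩
      rcases j with _ | j
      · exact (D.mem_vS_zero).mpr (Or.inl hm2)
      · exact D.vS_mono_nonneg (Nat.le_succ j) hm2 h3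

/-- **Vanishing of the first Cech cohomology.** -/
theorem cech [Fintype ι] (c : D.Idx' → D.Idx' → F[T;T⁻¹])
    (hc : ∀ α β, c α β ∈ D.U α ⊔ D.U β) (hcoc : ∀ α β γ, c α β + c β γ = c α γ) :
    ∃ b : D.Idx' → F[T;T⁻¹], (∀ α, b α ∈ D.U α) ∧ ∀ α β, c α β = b α - b β := by
  classical
  rcases isEmpty_or_nonempty ι with hι | hι
  · exact ⟨fun _ => 0, fun α => (hι.false α.1).elim, fun α => (hι.false α.1).elim⟩
  obtain ⟨P0⟩ := hι
  have : Nonempty ι := ⟨P0⟩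
  set α0 : D.Idx' := ⟨P0, ⟨0, D.n_pos P0⟩⟩ with hα0
  have hdiff : ∀ α β, c α β = c α α0 - c β α0 := fun α β => by
    rw [← hcoc α β α0]; ring
  have hPT : ∀ α m, (c α α0).coeff m ∈ D.Pl := fun α m => (D.sup_le_PT α α0 (hc α α0)) m
  -- choose the corrections degree by degree
  have hdeg : ∀ m : ℤ, ∃ z ∈ D.Pl, ∀ α : D.Idx', (c α α0).coeff m - z ∈ D.vS α.1 α.2 m ∧
      (c α α0).coeff m - z ∈ D.vS α.1 (α.2 + 1) m := by
    intro m
    apply D.degreewise m (fun α => (c α α0).coeff m) (fun α => hPT α m)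
    · intro P j hj
      have h1 := hc ⟨P, ⟨j, by omega⟩⟩ ⟨P, ⟨j + 1, hj⟩⟩
      have h2 : D.U ⟨P, ⟨j, by omega⟩⟩ ⊔ D.U ⟨P, ⟨j + 1, hj⟩⟩ ≤ D.VV P (j + 1) := by
        apply sup_le
        · exact inf_le_right.trans inf_le_right
        · exact inf_le_right.trans inf_le_left
      have h3 := (h2 h1) m
      rw [hdiff, AddMonoidAlgebra.coeff_sub] at h3
      exact h3
    · intro P Q
      have h1 := hc ⟨P, ⟨0, D.n_pos P⟩⟩ ⟨Q, ⟨0, D.n_pos Q⟩⟩
      have h2 : D.U ⟨P, ⟨0, D.n_pos P⟩⟩ ⊔ D.U ⟨Q, ⟨0, D.n_pos Q⟩⟩ ≤ D.VV P 0 := by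
        apply sup_le
        · exact inf_le_right.trans inf_le_left
        · exact inf_le_right.trans inf_le_left
      have h3 := (h2 h1) m
      rw [hdiff, AddMonoidAlgebra.coeff_sub] at h3
      exact h3
  choose z hz hz' using hdeg
  let S : Finset ℤ := Finset.univ.biUnion (fun α : D.Idx' => (c α α0).coeff.support)
  let Z : F[T;T⁻¹] := ∑ m ∈ S, C (z m) * T m
  have hZ : ∀ m, Z.coeff m = if m ∈ S then z m else 0 := by
    intro m
    simp only [Z]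
    rw [AddMonoidAlgebra.coeff_sum, Finset.sum_apply']
    simp only [coeff_CT]
    rw [Finset.sum_ite_eq']
  refine ⟨fun α => c α α0 - Z, fun α => ?_, fun α β => by rw [hdiff α β]; ring⟩
  rw [mem_U]
  intro m
  rw [AddMonoidAlgebra.coeff_sub]
  have h1 : (c α α0).coeff m - Z.coeff m = if m ∈ S then (c α α0).coeff m - z m else 0 := by
    rw [hZ]
    split_ifs with h
    · rfl
    · have : (c α α0).coeff m = 0 := by
        by_contra h2
        exact h (Finset.mem_biUnion.mpr ⟨α, Finset.mem_univ _, Finsupp.mem_support_iff.mpr h2⟩)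
      rw [this, sub_zero]
  have h2 : ((c α α0).coeff - Z.coeff) m = (c α α0).coeff m - Z.coeff m := rfl
  rw [h2, h1]
  split_ifs with h
  · exact ⟨D.Pl.sub_mem (hPT α m) (hz m), hz' m α⟩
  · exact ⟨D.Pl.zero_mem, Submodule.zero_mem _, Submodule.zero_mem _⟩

end Star

end

end Pool.Agent.J6H82.Kollar
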