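import Pool.Agent.J6H82.Kollar.Res1
import Pool.Agent.J6H82.Kollar.Count1

/-!
# Star-shaped resolutions: the charts are localisations of polynomial rings
-/

namespace Pool.Agent.J6H82.Kollar

noncomputable section

set_option maxHeartbeats 400000

open LaurentPolynomial

/-- a star together with local coordinates -/
structure LStar (k F : Type) [Field k] [Field F] [Algebra k F] (ι : Type) extends Star k F ι where
  /-- the equation of the other places -/
  δ : ι → Polynomial k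
  δ_zero : ∀ P, (δ P).coeff 0 ≠ 0
  δ_inv : ∀ P, (Polynomial.aeval (π P) (δ P))⁻¹ ∈ Pl
  pres : ∀ P φ, φ ∈ Pl → ∃ (N : ℕ) (f : Polynomial k),
    φ * (π P * Polynomial.aeval (π P) (δ P)) ^ N = Polynomial.aeval (π P) f
  transc : ∀ P, Function.Injective (Polynomial.aeval (π P) : Polynomial k → F)
  unit : ∀ P (f : Polynomial k), f.coeff 0 ≠ 0 → (Polynomial.aeval (π P) f)⁻¹ ∈ O P
  inv_not_mem : ∀ P, (π P)⁻¹ ∉ O P
  cover : ∀ V : ValuationSubring F, (∀ c : k, algebraMap k F c ∈ V) →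
    ∃ P, π P ∈ V ∧ (Polynomial.aeval (π P) (δ P))⁻¹ ∈ V
  frac : ∀ (P : ι) (φ : F), ∃ f g : Polynomial k, g ≠ 0 ∧
    φ * Polynomial.aeval (π P) g = Polynomial.aeval (π P) f

variable {k F : Type} [Field k] [Field F] [Algebra k F]

theorem S2_top (A : Subalgebra k (S2 k)) (hx : (Polynomial.C Polynomial.X : S2 k) ∈ A)
    (hy : (Polynomial.X : S2 k) ∈ A) (f : S2 k) : f ∈ A := by
  have hc : ∀ c : k, (Polynomial.C (Polynomial.C c) : S2 k) ∈ A := by
    intro c
    have : (Polynomial.C (Polynomial.C c) : S2 k) = algebraMap k (S2 k) c := by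
      simp [Polynomial.algebraMap_apply]
    rw [this]; exact A.algebraMap_mem c
  have hC : ∀ g : Polynomial k, (Polynomial.C g : S2 k) ∈ A := by
    intro g
    induction g using Polynomial.induction_on' with
    | add p q hp hq => rw [Polynomial.C_add]; exact A.add_mem hp hq
    | monomial n a =>
      rw [← Polynomial.C_mul_X_pow_eq_monomial, Polynomial.C_mul, Polynomial.C_pow]
      exact A.mul_mem (hc a) (A.pow_mem hx n)
  induction f using Polynomial.induction_on' with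
  | add p q hp hq => exact A.add_mem hp hq
  | monomial n a =>
    rw [← Polynomial.C_mul_X_pow_eq_monomial]
    exact A.mul_mem (hC a) (A.pow_mem hy n)

theorem C_inv_mul {x : F} (h : x ≠ 0) : (C x⁻¹ * C x : F[T;T⁻¹]) = 1 := by
  rw [← map_mul, inv_mul_cancel₀ h, map_one]

theorem T_mul_T (a b : ℤ) : (T a * T b : F[T;T⁻¹]) = T (a + b) := (T_add a b).symm

theorem C_aeval (x : F) (f : Polynomial k) :
    (C (Polynomial.aeval x f) : F[T;T⁻¹]) = Polynomial.aeval (C x : F[T;T⁻¹]) f := by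
  induction f using Polynomial.induction_on' with
  | add p q hp hq => rw [map_add, map_add, map_add, hp, hq]
  | monomial n a =>
    rw [Polynomial.aeval_monomial, Polynomial.aeval_monomial, map_mul, map_pow]
    rfl

/-- the ring map from the polynomials in two variables given by two elements -/
def ev2 {B : Type*} [CommRing B] [Algebra k B] (a b : B) : S2 k →ₐ[k] B :=
  Polynomial.eval₂AlgHom (Polynomial.aeval a) b (fun _ => Commute.all _ _)

@[simp] theorem ev2_C {B : Type*} [CommRing B] [Algebra k B] (a b : B) (g : Polynomial k) :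
    ev2 a b (Polynomial.C g) = Polynomial.aeval a g := by simp [ev2]

@[simp] theorem ev2_X {B : Type*} [CommRing B] [Algebra k B] (a b : B) :
    ev2 (k := k) a b Polynomial.X = b := by simp [ev2]

namespace LStar

variable {ι : Type} (D : LStar k F ι)

/-- the first coordinate of the chart -/
def ga (α : D.Idx') : F[T;T⁻¹] := C (D.π α.1) * T (-(α.2 : ℕ))

/-- the second coordinate of the chart -/
def gb (α : D.Idx') : F[T;T⁻¹] := C (D.π α.1)⁻¹ * T ((α.2 : ℕ) + 1)

/-- the map from the polynomial ring -/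
def chi (α : D.Idx') : S2 k →ₐ[k] F[T;T⁻¹] := ev2 (D.ga α) (D.gb α)

/-- the element defining the chart -/
def dD (α : D.Idx') : S2 k :=
  Polynomial.aeval ((Polynomial.C Polynomial.X) ^ ((α.2 : ℕ) + 1) * Polynomial.X ^ (α.2 : ℕ) : S2 k)
    (D.δ α.1)

theorem ga_pow (α : D.Idx') (n : ℕ) : D.ga α ^ n = C (D.π α.1 ^ n) * T (n * -((α.2 : ℕ) : ℤ)) := by
  unfold ga
  rw [mul_pow, T_pow, map_pow]

theorem gb_pow (α : D.Idx') (n : ℕ) :
    D.gb α ^ n = C ((D.π α.1)⁻¹ ^ n) * T (n * (((α.2 : ℕ) : ℤ) + 1)) := by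
  unfold gb
  rw [mul_pow, T_pow, map_pow]

theorem ga_pow_mul_gb_pow (α : D.Idx') (p q : ℕ) : D.ga α ^ p * D.gb α ^ q =
    C (D.π α.1 ^ ((p : ℤ) - q)) * T (q * (((α.2 : ℕ) : ℤ) + 1) - p * ((α.2 : ℕ) : ℤ)) := by
  rw [ga_pow, gb_pow]
  have h1 : (D.π α.1 ^ ((p : ℤ) - q)) = D.π α.1 ^ p * (D.π α.1)⁻¹ ^ q := by
    rw [zpow_sub₀ (D.π_ne _), zpow_natCast, zpow_natCast, inv_pow, div_eq_mul_inv]
  have h2 : (q * (((α.2 : ℕ) : ℤ) + 1) - p * ((α.2 : ℕ) : ℤ)) =
      p * -((α.2 : ℕ) : ℤ) + q * (((α.2 : ℕ) : ℤ) + 1) := by ring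
  rw [h1, h2, T_add, map_mul]
  ring

theorem chi_x (α : D.Idx') : D.chi α (Polynomial.C Polynomial.X) = D.ga α := by
  unfold chi; simp

theorem chi_y (α : D.Idx') : D.chi α Polynomial.X = D.gb α := by
  unfold chi; simp

theorem chi_xy (α : D.Idx') : D.chi α (Polynomial.C Polynomial.X * Polynomial.X) = T 1 := by
  rw [map_mul, chi_x, chi_y]
  have := D.ga_pow_mul_gb_pow α 1 1
  rw [pow_one, pow_one] at this
  rw [this]
  simp

theorem chi_p (α : D.Idx') :
    D.chi α ((Polynomial.C Polynomial.X) ^ ((α.2 : ℕ) + 1) * Polynomial.X ^ (α.2 : ℕ)) =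
      C (D.π α.1) := by
  rw [map_mul, map_pow, map_pow, chi_x, chi_y, ga_pow_mul_gb_pow]
  have h1 : (((α.2 : ℕ) + 1 : ℕ) : ℤ) - ((α.2 : ℕ) : ℤ) = 1 := by push_cast; ring
  have h2 : (((α.2 : ℕ) : ℤ) * (((α.2 : ℕ) : ℤ) + 1) - (((α.2 : ℕ) + 1 : ℕ) : ℤ) * ((α.2 : ℕ) : ℤ)) = 0 := by
    push_cast; ring
  rw [h1, h2, T_zero, mul_one, zpow_one]

theorem chi_aeval (α : D.Idx') (f : Polynomial k) : D.chi α (Polynomial.aeval
    ((Polynomial.C Polynomial.X) ^ ((α.2 : ℕ) + 1) * Polynomial.X ^ (α.2 : ℕ) : S2 k) f) =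
    C (Polynomial.aeval (D.π α.1) f) := by
  rw [← Polynomial.aeval_algHom_apply, chi_p, C_aeval]

theorem chi_dD (α : D.Idx') : D.chi α (D.dD α) = C (Polynomial.aeval (D.π α.1) (D.δ α.1)) :=
  D.chi_aeval α _

theorem aeval_ne {P : ι} {f : Polynomial k} (h : f ≠ 0) : Polynomial.aeval (D.π P) f ≠ 0 := by
  intro h1
  apply h
  apply D.transc P
  rw [h1, map_zero]

theorem δ_ne (P : ι) : D.δ P ≠ 0 := by
  intro h
  apply D.δ_zero P
  rw [h, Polynomial.coeff_zero]

theorem aeval_mem_O (P : ι) (f : Polynomial k) : Polynomial.aeval (D.π P) f ∈ D.O P := by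
  have : Polynomial.aeval (D.π P) f = (D.O P).val (Polynomial.aeval
      (⟨D.π P, D.π_mem_O P⟩ : D.O P) f) := by
    rw [← Polynomial.aeval_algHom_apply]; rfl
  rw [this]
  exact Subtype.property _

theorem aeval_mem_Pl (P : ι) (f : Polynomial k) : Polynomial.aeval (D.π P) f ∈ D.Pl := by
  have : Polynomial.aeval (D.π P) f = D.Pl.val (Polynomial.aeval
      (⟨D.π P, D.π_mem P⟩ : D.Pl) f) := by
    rw [← Polynomial.aeval_algHom_apply]; rfl
  rw [this]
  exact Subtype.property _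

/-- the order at a place -/
theorem nonneg_of_mem {P : ι} {a : ℤ} {u : F} (hu : u⁻¹ ∈ D.O P) (hu0 : u ≠ 0)
    (h : D.π P ^ a * u ∈ D.O P) : 0 ≤ a := by
  by_contra hcon
  push Not at hcon
  have h1 := (D.O P).mul_mem h hu
  rw [mul_assoc, mul_inv_cancel₀ hu0, mul_one] at h1
  have h2 := (D.O P).mul_mem h1 (D.π_zpow_mem_O P (a := -a - 1) (by omega))
  rw [← zpow_add₀ (D.π_ne P)] at h2
  have h3 : a + (-a - 1) = -1 := by ring
  rw [h3, zpow_neg_one] at h2
  exact D.inv_not_mem P h2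

theorem ga_mem_U (α : D.Idx') : D.ga α ∈ D.U α := by
  obtain ⟨P, ⟨j, hj⟩⟩ := α
  apply D.CT_mem_U
  · exact D.π_mem P
  · rcases j with _ | j
    · exact (D.mem_vS_zero).mpr (Or.inl (by simp))
    · rw [Star.mem_vS_succ]
      have : (-((j + 1 : ℕ) : ℤ)) / ((j + 1 : ℕ) : ℤ) = -1 := by
        rw [Int.neg_ediv_of_dvd dvd_rfl, Int.ediv_self (by positivity)]
      simp only
      rw [this, zpow_neg_one, mul_inv_cancel₀ (D.π_ne P)]
      exact (D.O P).one_mem
  · rw [Star.mem_vS_succ]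
    have h1 : (-1 : ℤ) ≤ (-(j : ℕ) : ℤ) / ((j + 1 : ℕ) : ℤ) := by
      rw [Int.le_ediv_iff_mul_le (by positivity)]
      push_cast
      linarith
    apply D.mul_zpow_mem_of_le h1
    rw [zpow_neg_one, mul_inv_cancel₀ (D.π_ne P)]
    exact (D.O P).one_mem

theorem gb_mem_U (α : D.Idx') : D.gb α ∈ D.U α := by
  obtain ⟨P, ⟨j, hj⟩⟩ := α
  apply D.CT_mem_U
  · exact D.π_inv_mem P
  · rcases j with _ | j
    · exact (D.mem_vS_zero).mpr (Or.inl (by positivity))
    · rw [Star.mem_vS_succ]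
      have h1 : (1 : ℤ) ≤ (((j + 1 : ℕ) : ℤ) + 1) / ((j + 1 : ℕ) : ℤ) := by
        rw [Int.le_ediv_iff_mul_le (by positivity)]
        push_cast
        linarith
      apply D.mul_zpow_mem_of_le h1
      rw [zpow_one, inv_mul_cancel₀ (D.π_ne P)]
      exact (D.O P).one_mem
  · rw [Star.mem_vS_succ]
    have h1 : (((j : ℕ) : ℤ) + 1) / ((j + 1 : ℕ) : ℤ) = 1 := by
      push_cast
      exact Int.ediv_self (by positivity)
    simp only
    rw [h1, zpow_one, inv_mul_cancel₀ (D.π_ne P)]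
    exact (D.O P).one_mem

theorem C_mem_U {α : D.Idx'} {φ : F} (h1 : φ ∈ D.Pl) (h2 : φ ∈ D.O α.1) :
    (C φ : F[T;T⁻¹]) ∈ D.U α := by
  have h3 : (C φ : F[T;T⁻¹]) = C φ * T 0 := by rw [T_zero, mul_one]
  rw [h3]
  apply D.CT_mem_U h1
  · obtain ⟨P, ⟨j, hj⟩⟩ := α
    rcases j with _ | j
    · exact (D.mem_vS_zero).mpr (Or.inl le_rfl)
    · exact D.O_le_vS le_rfl h2
  · exact D.O_le_vS le_rfl h2

theorem chi_mem_U (α : D.Idx') (f : S2 k) : D.chi α f ∈ D.U α := by
  apply S2_top ((D.U α).comap (D.chi α))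
  · show D.chi α _ ∈ D.U α
    rw [chi_x]; exact D.ga_mem_U α
  · show D.chi α _ ∈ D.U α
    rw [chi_y]; exact D.gb_mem_U α

theorem inv_dD_mem_U (α : D.Idx') :
    (C (Polynomial.aeval (D.π α.1) (D.δ α.1))⁻¹ : F[T;T⁻¹]) ∈ D.U α :=
  D.C_mem_U (D.δ_inv α.1) (D.unit α.1 _ (D.δ_zero α.1))

/-- the elements with a denominator a power of `dD` -/
def CH (α : D.Idx') : Subalgebra k F[T;T⁻¹] where
  carrier := {x | ∃ (N : ℕ) (f : S2 k), x * D.chi α (D.dD α) ^ N = D.chi α f}
  mul_mem' := by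
    rintro x y ⟨N, f, h⟩ ⟨M, g, h'⟩
    exact ⟨N + M, f * g, by rw [map_mul, ← h, ← h', pow_add]; ring⟩
  add_mem' := by
    rintro x y ⟨N, f, h⟩ ⟨M, g, h'⟩
    refine ⟨N + M, f * D.dD α ^ M + g * D.dD α ^ N, ?_⟩
    rw [map_add, map_mul, map_mul, map_pow, map_pow, ← h, ← h', pow_add]; ring
  algebraMap_mem' := by
    intro r
    exact ⟨0, algebraMap k _ r, by rw [pow_zero, mul_one, AlgHom.commutes]⟩

theorem U_eq_CH (α : D.Idx') : D.U α = D.CH α := by
  apply le_antisymm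
  · intro x hx
    apply mem_of_CT_mem
    intro m
    obtain ⟨h1, h2, h3⟩ := D.mem_U.mp hx m
    generalize x.coeff m = φ at h1 h2 h3
    by_cases hφ : φ = 0
    · rw [hφ, map_zero, zero_mul]; exact (D.CH α).zero_mem
    obtain ⟨N, f, hf⟩ := D.pres α.1 φ h1
    have hδ : Polynomial.aeval (D.π α.1) (D.δ α.1) ≠ 0 := D.aeval_ne (D.δ_ne α.1)
    have hπ := D.π_ne α.1
    have hf0 : f ≠ 0 := by
      rintro rfl
      rw [map_zero] at hf
      exact mul_ne_zero hφ (pow_ne_zero _ (mul_ne_zero hπ hδ)) hf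
    obtain ⟨f1, hf1, hf1'⟩ :=
      (FiniteMultiplicity.of_prime_left Polynomial.prime_X hf0).exists_eq_pow_mul_and_not_dvd
    set e := multiplicity Polynomial.X f with he
    have hf1c : f1.coeff 0 ≠ 0 := by
      intro h; exact hf1' (Polynomial.X_dvd_iff.mpr h)
    have hf10 : Polynomial.aeval (D.π α.1) f1 ≠ 0 := D.aeval_ne (by
      rintro rfl; simp at hf1c)
    -- the unit part
    set δ' := Polynomial.aeval (D.π α.1) (D.δ α.1) with hδ'
    have hφ2 : φ = D.π α.1 ^ ((e : ℤ) - N) * (Polynomial.aeval (D.π α.1) f1 * (δ'⁻¹) ^ N) := by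
      rw [hf1, map_mul, map_pow, Polynomial.aeval_X] at hf
      rw [zpow_sub₀ hπ, zpow_natCast, zpow_natCast, inv_pow]
      field_simp
      rw [← hf, mul_pow]
      ring
    set u := Polynomial.aeval (D.π α.1) f1 * (δ'⁻¹) ^ N with hu
    have hu0 : u ≠ 0 := mul_ne_zero hf10 (pow_ne_zero _ (inv_ne_zero hδ))
    have hu' : u⁻¹ ∈ D.O α.1 := by
      rw [hu, mul_inv, inv_pow, inv_inv]
      exact (D.O α.1).mul_mem (D.unit α.1 f1 hf1c) ((D.O α.1).pow_mem (D.aeval_mem_O _ _) _)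
    set r := (e : ℤ) - N with hr
    have key : ∀ q : ℤ, φ * D.π α.1 ^ q ∈ D.O α.1 → 0 ≤ r + q := by
      intro q hq
      apply D.nonneg_of_mem hu' hu0
      rw [hφ2] at hq
      rwa [zpow_add₀ hπ, show D.π α.1 ^ r * D.π α.1 ^ q * u = D.π α.1 ^ r * u * D.π α.1 ^ q by ring]
    have hx : 0 ≤ m + (((α.2 : ℕ) : ℤ) + 1) * r := by
      have h4 := key _ (D.mem_vS_succ.mp h3)
      have h5 := Int.ediv_mul_le m (b := (((α.2 : ℕ) + 1 : ℕ) : ℤ)) (by positivity)
      push_cast at h4 h5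
      nlinarith
    have hy : 0 ≤ m + ((α.2 : ℕ) : ℤ) * r := by
      rcases hj : (α.2 : ℕ) with _ | j
      · rw [hj] at h2
        rcases D.mem_vS_zero.mp h2 with h6 | h6
        · simpa using h6
        · exact absurd h6 hφ
      · rw [hj] at h2
        have h4 := key _ (D.mem_vS_succ.mp h2)
        have h5 := Int.ediv_mul_le m (b := ((j + 1 : ℕ) : ℤ)) (by positivity)
        push_cast at h4 h5 ⊢
        nlinarith
    obtain ⟨p, hp⟩ := Int.eq_ofNat_of_zero_le hx
    obtain ⟨q, hq⟩ := Int.eq_ofNat_of_zero_le hy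
    have hCT : (C φ * T m : F[T;T⁻¹]) = D.ga α ^ p * D.gb α ^ q * C u := by
      rw [ga_pow_mul_gb_pow, ← hp, ← hq]
      have h7 : m + (((α.2 : ℕ) : ℤ) + 1) * r - (m + ((α.2 : ℕ) : ℤ) * r) = r := by ring
      have h8 : (m + ((α.2 : ℕ) : ℤ) * r) * (((α.2 : ℕ) : ℤ) + 1) -
          (m + (((α.2 : ℕ) : ℤ) + 1) * r) * ((α.2 : ℕ) : ℤ) = m := by ring
      rw [h7, h8, mul_right_comm, ← map_mul, ← hφ2]
    rw [hCT]
    refine ⟨N, (Polynomial.C Polynomial.X) ^ p * Polynomial.X ^ q * Polynomial.aeval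
      ((Polynomial.C Polynomial.X) ^ ((α.2 : ℕ) + 1) * Polynomial.X ^ (α.2 : ℕ) : S2 k) f1, ?_⟩
    rw [map_mul (D.chi α), map_mul (D.chi α), map_pow (D.chi α), map_pow (D.chi α), chi_x, chi_y,
      chi_aeval, chi_dD, ← hδ', mul_assoc]
    congr 1
    rw [← map_pow, ← map_mul, hu, mul_assoc, ← mul_pow, inv_mul_cancel₀ hδ, one_pow, mul_one]
  · rintro x ⟨N, f, h⟩
    have h1 := (D.U α).mul_mem (D.chi_mem_U α f) ((D.U α).pow_mem (D.inv_dD_mem_U α) N)
    rw [← h, chi_dD, mul_assoc, ← mul_pow] at h1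
    have hδ : Polynomial.aeval (D.π α.1) (D.δ α.1) ≠ 0 := D.aeval_ne (D.δ_ne α.1)
    rwa [mul_comm (C _) (C _), C_inv_mul hδ, one_pow, mul_one] at h1

/-! ## injectivity -/

/-- polynomials in `π` and `T` -/
def kapT (P : ι) : S2 k →ₐ[k] F[T;T⁻¹] := ev2 (C (D.π P)) (T 1)

theorem kapT_inj (P : ι) : Function.Injective (D.kapT P) := by
  have h1 : ∀ f : S2 k, D.kapT P f = Polynomial.toLaurent
      (Polynomial.map (Polynomial.aeval (D.π P) : Polynomial k →ₐ[k] F).toRingHom f) := by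
    intro f
    induction f using Polynomial.induction_on' with
    | add p q hp hq => rw [map_add, hp, hq, Polynomial.map_add, map_add]
    | monomial n g =>
      rw [← Polynomial.C_mul_X_pow_eq_monomial]
      unfold kapT
      rw [map_mul, map_pow, ev2_C, ev2_X, Polynomial.map_mul, Polynomial.map_pow,
        Polynomial.map_C, Polynomial.map_X, map_mul, map_pow, Polynomial.toLaurent_C,
        Polynomial.toLaurent_X, ← C_aeval]
      rfl
  intro f g h
  rw [h1, h1] at h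
  exact Polynomial.map_injective _ (D.transc P) (Polynomial.toLaurent_injective h)

/-- monomial substitution -/
def tau (j : ℕ) : S2 k →ₐ[k] S2 k :=
  ev2 ((Polynomial.C Polynomial.X) ^ (j + 1) * Polynomial.X ^ j)
    (Polynomial.C Polynomial.X * Polynomial.X)

theorem exists_tau (j : ℕ) (f : S2 k) : ∃ (N M : ℕ) (g : S2 k),
    (Polynomial.C Polynomial.X * Polynomial.X) ^ N *
      ((Polynomial.C Polynomial.X) ^ (j + 1) * Polynomial.X ^ j) ^ M * f = tau j g := by
  set x : S2 k := Polynomial.C Polynomial.X with hx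
  set y : S2 k := Polynomial.X with hy
  have hτx : tau j x = x ^ (j + 1) * y ^ j := by
    unfold tau; rw [hx, ev2_C, Polynomial.aeval_X]
  have hτy : tau j y = x * y := by
    unfold tau; rw [hy, ev2_X]
  let A : Subalgebra k (S2 k) :=
    { carrier := {f | ∃ (N M : ℕ) (g : S2 k), (x * y) ^ N * (x ^ (j + 1) * y ^ j) ^ M * f = tau j g}
      mul_mem' := by
        rintro f f' ⟨N, M, g, h⟩ ⟨N', M', g', h'⟩
        exact ⟨N + N', M + M', g * g', by rw [map_mul, ← h, ← h', pow_add, pow_add]; ring⟩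
      add_mem' := by
        rintro f f' ⟨N, M, g, h⟩ ⟨N', M', g', h'⟩
        refine ⟨N + N', M + M', y ^ N' * x ^ M' * g + y ^ N * x ^ M * g', ?_⟩
        simp only [map_add, map_mul, map_pow]
        rw [hτx, hτy, ← h, ← h', pow_add, pow_add]; ring
      algebraMap_mem' := by
        intro r
        exact ⟨0, 0, algebraMap k _ r, by rw [AlgHom.commutes]; simp⟩ }
  refine S2_top A ?_ ?_ f
  · exact ⟨j, 0, x, by rw [hτx]; ring⟩
  · exact ⟨0, 1, y ^ (j + 1), by rw [map_pow, hτy]; ring⟩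

theorem chi_inj (α : D.Idx') : Function.Injective (D.chi α) := by
  rw [injective_iff_map_eq_zero]
  intro f hf
  obtain ⟨N, M, g, hg⟩ := exists_tau (α.2 : ℕ) f
  have h1 : (D.chi α).comp (tau (α.2 : ℕ)) = D.kapT α.1 := by
    apply algHom_ext2
    · rw [AlgHom.comp_apply]
      unfold tau kapT
      rw [ev2_C, ev2_C, Polynomial.aeval_X, Polynomial.aeval_X, chi_p]
    · rw [AlgHom.comp_apply]
      unfold tau kapT
      rw [ev2_X, ev2_X, chi_xy]
  have h2 : D.kapT α.1 g = 0 := by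
    rw [← h1, AlgHom.comp_apply, ← hg, map_mul, hf, mul_zero]
  have h3 : g = 0 := D.kapT_inj α.1 (by rw [h2, map_zero])
  rw [h3, map_zero] at hg
  have hx : (Polynomial.C Polynomial.X : S2 k) ≠ 0 := by
    rw [Ne, Polynomial.C_eq_zero]; exact Polynomial.X_ne_zero
  have hy : (Polynomial.X : S2 k) ≠ 0 := Polynomial.X_ne_zero
  rcases mul_eq_zero.mp hg with h | h
  · exact absurd h (mul_ne_zero (pow_ne_zero _ (mul_ne_zero hx hy))
      (pow_ne_zero _ (mul_ne_zero (pow_ne_zero _ hx) (pow_ne_zero _ hy))))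
  · exact h

/-! ## the charts are smooth and integrally closed -/

theorem chart_props (α : D.Idx') : Algebra.Smooth k (D.U α) ∧ IsIntegrallyClosed (D.U α) := by
  let _ : Algebra (S2 k) (D.U α) := ((D.chi α).codRestrict (D.U α) (D.chi_mem_U α)).toRingHom.toAlgebra
  have hmap : ∀ f : S2 k, ((algebraMap (S2 k) (D.U α) f : D.U α) : F[T;T⁻¹]) = D.chi α f :=
    fun _ => rfl
  have : IsScalarTower k (S2 k) (D.U α) := by
    apply IsScalarTower.of_algebraMap_eq
    intro c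
    apply Subtype.ext
    rw [hmap, AlgHom.commutes]
    rfl
  have hδ : Polynomial.aeval (D.π α.1) (D.δ α.1) ≠ 0 := D.aeval_ne (D.δ_ne α.1)
  have : IsLocalization.Away (D.dD α) (D.U α) := by
    apply IsLocalization.Away.mk
    · refine IsUnit.of_mul_eq_one ⟨_, D.inv_dD_mem_U α⟩ ?_
      apply Subtype.ext
      show D.chi α (D.dD α) * C (Polynomial.aeval (D.π α.1) (D.δ α.1))⁻¹ = 1
      rw [chi_dD, mul_comm, C_inv_mul hδ]
    · rintro ⟨x, hx⟩
      have hx' := hx
      rw [U_eq_CH] at hx'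
      obtain ⟨N, f, h⟩ := hx'
      refine ⟨N, f, ?_⟩
      apply Subtype.ext
      exact h
    · intro a b hab
      refine ⟨0, ?_⟩
      have : D.chi α a = D.chi α b := congrArg Subtype.val hab
      rw [D.chi_inj α this]
  have hd0 : D.dD α ≠ 0 := by
    intro h
    have := D.chi_dD α
    rw [h, map_zero] at this
    exact hδ (by
      have h2 : (C (Polynomial.aeval (D.π α.1) (D.δ α.1)) : F[T;T⁻¹]) = C 0 := by
        rw [← this, map_zero]
      have h3 := congrArg (fun z : F[T;T⁻¹] => z.coeff 0) h2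
      simpa using h3)
  constructor
  · have : Algebra.Smooth (S2 k) (D.U α) := Algebra.Smooth.of_isLocalization_Away (D.dD α)
    have h1 : Algebra.Smooth k (Polynomial k) := ⟨inferInstance, inferInstance⟩
    have h2 : Algebra.Smooth (Polynomial k) (S2 k) := ⟨inferInstance, inferInstance⟩
    have h3 : Algebra.Smooth k (S2 k) := Algebra.Smooth.comp k (Polynomial k) (S2 k)
    exact Algebra.Smooth.comp k (S2 k) (D.U α)
  · exact isIntegrallyClosed_of_isLocalization (R := S2 k) (S := D.U α) (Submonoid.powers (D.dD α))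
      (by
        rintro _ ⟨n, rfl⟩
        exact mem_nonZeroDivisors_of_ne_zero (pow_ne_zero n hd0))

end LStar

end

end Pool.Agent.J6H82.Kollar
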