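import Pool.Agent.J6H82.Kollar.Res2

/-!
# Star-shaped resolutions: gluing, properness, the ring of global functions
-/

namespace Pool.Agent.J6H82.Kollar

noncomputable section

set_option maxHeartbeats 400000

open LaurentPolynomial

variable {k F : Type} [Field k] [Field F] [Algebra k F]

namespace LStar

variable {ι : Type} (D : LStar k F ι)

theorem U_le_of {α : D.Idx'} {A : Subalgebra k F[T;T⁻¹]} (h1 : D.ga α ∈ A) (h2 : D.gb α ∈ A)
    (h3 : (C (Polynomial.aeval (D.π α.1) (D.δ α.1))⁻¹ : F[T;T⁻¹]) ∈ A) : D.U α ≤ A := by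
  intro x hx
  rw [U_eq_CH] at hx
  obtain ⟨N, f, h⟩ := hx
  have hf : D.chi α f ∈ A := by
    apply S2_top (A.comap (D.chi α))
    · show D.chi α _ ∈ A
      rw [chi_x]; exact h1
    · show D.chi α _ ∈ A
      rw [chi_y]; exact h2
  have h4 := A.mul_mem hf (A.pow_mem h3 N)
  rw [← h, chi_dD, mul_assoc, ← mul_pow] at h4
  have hδ : Polynomial.aeval (D.π α.1) (D.δ α.1) ≠ 0 := D.aeval_ne (D.δ_ne α.1)
  rwa [mul_comm (C _) (C _), C_inv_mul hδ, one_pow, mul_one] at h4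

theorem ga_mul_gb (α : D.Idx') : D.ga α * D.gb α = T 1 := by
  have := D.chi_xy α
  rwa [map_mul, chi_x, chi_y] at this

theorem T_mem_U (α : D.Idx') : (T 1 : F[T;T⁻¹]) ∈ D.U α := by
  rw [← D.ga_mul_gb α]
  exact (D.U α).mul_mem (D.ga_mem_U α) (D.gb_mem_U α)

/-- a subalgebra containing `π` and its inverse and the inverse of `δ` contains `Pl` -/
theorem C_mem_of {P : ι} {A : Subalgebra k F[T;T⁻¹]} (h1 : (C (D.π P) : F[T;T⁻¹]) ∈ A)
    (h2 : (C (D.π P)⁻¹ : F[T;T⁻¹]) ∈ A)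
    (h3 : (C (Polynomial.aeval (D.π P) (D.δ P))⁻¹ : F[T;T⁻¹]) ∈ A) {φ : F} (hφ : φ ∈ D.Pl) :
    (C φ : F[T;T⁻¹]) ∈ A := by
  obtain ⟨N, f, hf⟩ := D.pres P φ hφ
  have hδ : Polynomial.aeval (D.π P) (D.δ P) ≠ 0 := D.aeval_ne (D.δ_ne P)
  have hπ := D.π_ne P
  have h4 : (C (Polynomial.aeval (D.π P) f) : F[T;T⁻¹]) ∈ A := by
    rw [C_aeval]
    have : Polynomial.aeval (C (D.π P) : F[T;T⁻¹]) f = A.val (Polynomial.aeval
        (⟨C (D.π P), h1⟩ : A) f) := by
      rw [← Polynomial.aeval_algHom_apply]; rfl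
    rw [this]
    exact Subtype.property _
  have h5 := A.mul_mem h4 (A.mul_mem (A.pow_mem h2 N) (A.pow_mem h3 N))
  rw [← hf, ← map_pow, ← map_pow, ← map_mul, ← map_mul] at h5
  rwa [show φ * (D.π P * Polynomial.aeval (D.π P) (D.δ P)) ^ N * ((D.π P)⁻¹ ^ N *
    (Polynomial.aeval (D.π P) (D.δ P))⁻¹ ^ N) = φ by
    rw [mul_pow, inv_pow, inv_pow]
    field_simp] at h5

theorem T_neg_pow (n : ℕ) : (T (-1) : F[T;T⁻¹]) ^ n = T (-(n : ℤ)) := by
  rw [T_pow]; congr 1; ring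

theorem T_one_pow (n : ℕ) : (T 1 : F[T;T⁻¹]) ^ n = T (n : ℤ) := by
  rw [T_pow]; congr 1; ring

/-- a chart with `T` inverted is everything -/
theorem PT_le (α : D.Idx') : D.PT ≤ D.U α ⊔ Algebra.adjoin k {(T (-1) : F[T;T⁻¹])} := by
  set A := D.U α ⊔ Algebra.adjoin k {(T (-1) : F[T;T⁻¹])} with hA
  have hU : D.U α ≤ A := le_sup_left
  have hT : (T (-1) : F[T;T⁻¹]) ∈ A :=
    (le_sup_right : _ ≤ A) (Algebra.subset_adjoin (Set.mem_singleton _))
  have hT1 : (T 1 : F[T;T⁻¹]) ∈ A := hU (D.T_mem_U α)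
  have hTm : ∀ m : ℤ, (T m : F[T;T⁻¹]) ∈ A := by
    intro m
    rcases Int.le_total 0 m with hm | hm
    · obtain ⟨n, rfl⟩ := Int.eq_ofNat_of_zero_le hm
      have := A.pow_mem hT1 n
      rwa [T_one_pow] at this
    · obtain ⟨n, rfl⟩ : ∃ n : ℕ, m = -n := ⟨m.natAbs, by omega⟩
      have := A.pow_mem hT n
      rwa [T_neg_pow] at this
  have h1 : (C (D.π α.1) : F[T;T⁻¹]) ∈ A := by
    have := A.mul_mem (hU (D.ga_mem_U α)) (hTm (α.2 : ℕ))
    unfold ga at this
    rwa [mul_assoc, T_mul_T, neg_add_cancel, T_zero, mul_one] at this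
  have h2 : (C (D.π α.1)⁻¹ : F[T;T⁻¹]) ∈ A := by
    have := A.mul_mem (hU (D.gb_mem_U α)) (hTm (-((α.2 : ℕ) + 1)))
    unfold gb at this
    rwa [mul_assoc, T_mul_T, add_neg_cancel, T_zero, mul_one] at this
  intro x hx
  apply mem_of_CT_mem
  intro m
  exact A.mul_mem (D.C_mem_of h1 h2 (hU (D.inv_dD_mem_U α)) (hx m)) (hTm m)

/-- gluing along the locus where `T` does not vanish -/
theorem glue_T {α β : D.Idx'} (h : (T (-1) : F[T;T⁻¹]) ∈ D.U α ⊔ D.U β) :
    ∃ f ∈ D.U α, ∃ g, f * g = 1 ∧ D.U α ⊔ D.U β = D.U α ⊔ Algebra.adjoin k {g} := by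
  refine ⟨T 1, D.T_mem_U α, T (-1), by rw [T_mul_T]; simp, ?_⟩
  apply le_antisymm
  · exact sup_le le_sup_left ((D.U_le_PT β).trans (D.PT_le α))
  · apply sup_le le_sup_left
    rw [Algebra.adjoin_le_iff, Set.singleton_subset_iff]
    exact h

theorem T_neg_one_mem {A : Subalgebra k F[T;T⁻¹]} (h1 : (T 1 : F[T;T⁻¹]) ∈ A) {l : ℕ}
    (h : (T (-((l : ℤ) + 1)) : F[T;T⁻¹]) ∈ A) : (T (-1) : F[T;T⁻¹]) ∈ A := by
  have h2 := A.mul_mem h (A.pow_mem h1 l)
  rw [T_one_pow, T_mul_T] at h2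
  rwa [show -((l : ℤ) + 1) + l = -1 by ring] at h2

/-- **Gluing.** -/
theorem glue (α β : D.Idx') : ∃ f ∈ D.U α, ∃ g, f * g = 1 ∧
    D.U α ⊔ D.U β = D.U α ⊔ Algebra.adjoin k {g} := by
  classical
  by_cases hαβ : α = β
  · subst hαβ
    refine ⟨1, (D.U α).one_mem, 1, by ring, ?_⟩
    apply le_antisymm
    · exact sup_le le_sup_left le_sup_left
    · apply sup_le le_sup_left
      rw [Algebra.adjoin_le_iff, Set.singleton_subset_iff]
      exact Subalgebra.one_mem _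
  obtain ⟨P, ⟨j, hj⟩⟩ := α
  obtain ⟨Q, ⟨l, hl⟩⟩ := β
  set α : D.Idx' := ⟨P, ⟨j, hj⟩⟩ with hα
  set β : D.Idx' := ⟨Q, ⟨l, hl⟩⟩ with hβ
  have hga : D.ga α = C (D.π P) * T (-(j : ℤ)) := rfl
  have hgb : D.gb α = C (D.π P)⁻¹ * T ((j : ℤ) + 1) := rfl
  have hga' : D.ga β = C (D.π Q) * T (-(l : ℤ)) := rfl
  have hgb' : D.gb β = C (D.π Q)⁻¹ * T ((l : ℤ) + 1) := rfl
  have hS1 : (T 1 : F[T;T⁻¹]) ∈ D.U α ⊔ D.U β := (le_sup_left : D.U α ≤ _) (D.T_mem_U α)
  by_cases hPQ : P = Q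
  · subst hPQ
    have hjl : j ≠ l := by
      rintro rfl; exact hαβ rfl
    rcases Nat.lt_or_ge j l with hlt | hge
    · rcases Nat.lt_or_ge (j + 1) l with hlt2 | hge2
      · -- far apart
        apply D.glue_T
        obtain ⟨d, rfl⟩ : ∃ d, l = j + 2 + d := ⟨l - (j + 2), by omega⟩
        apply T_neg_one_mem hS1 (l := d)
        have h1 := (D.U α ⊔ D.U β).mul_mem ((le_sup_left : D.U α ≤ _) (D.gb_mem_U α))
          ((le_sup_right : D.U β ≤ _) (D.ga_mem_U β))
        rw [hgb, hga'] at h1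
        rwa [show (C (D.π P)⁻¹ * T ((j : ℤ) + 1) * (C (D.π P) * T (-((j + 2 + d : ℕ) : ℤ))) :
          F[T;T⁻¹]) = (C (D.π P)⁻¹ * C (D.π P)) * (T ((j : ℤ) + 1) * T (-((j + 2 + d : ℕ) : ℤ))) by
          ring, C_inv_mul (D.π_ne P), one_mul, T_mul_T, show (j : ℤ) + 1 + -((j + 2 + d : ℕ) : ℤ) =
          -((d : ℤ) + 1) by push_cast; ring] at h1
      · -- adjacent
        have hl' : l = j + 1 := by omega
        refine ⟨D.gb α, D.gb_mem_U α, D.ga β, ?_, ?_⟩
        · rw [hgb, hga', hl']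
          rw [show (C (D.π P)⁻¹ * T ((j : ℤ) + 1) * (C (D.π P) * T (-((j + 1 : ℕ) : ℤ))) :
            F[T;T⁻¹]) = (C (D.π P)⁻¹ * C (D.π P)) * (T ((j : ℤ) + 1) * T (-((j + 1 : ℕ) : ℤ))) by
            ring, C_inv_mul (D.π_ne P), one_mul, T_mul_T, show (j : ℤ) + 1 + -((j + 1 : ℕ) : ℤ) =
            0 by push_cast; ring, T_zero]
        · have hg : D.ga β ∈ D.U α ⊔ Algebra.adjoin k {D.ga β} :=
            (le_sup_right : _ ≤ D.U α ⊔ Algebra.adjoin k {D.ga β})
              (Algebra.subset_adjoin (Set.mem_singleton _))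
          have hU : D.U α ≤ D.U α ⊔ Algebra.adjoin k {D.ga β} := le_sup_left
          apply le_antisymm
          · apply sup_le hU
            apply D.U_le_of hg
            · have h1 := Subalgebra.mul_mem _ (hU (D.gb_mem_U α)) (hU (D.T_mem_U α))
              rw [hgb, mul_assoc, T_mul_T] at h1
              rw [hgb', hl']
              push_cast
              exact h1
            · exact hU (D.inv_dD_mem_U α)
          · apply sup_le le_sup_left
            rw [Algebra.adjoin_le_iff, Set.singleton_subset_iff]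
            exact (le_sup_right : D.U β ≤ _) (D.ga_mem_U β)
    · rcases Nat.lt_or_ge (l + 1) j with hlt2 | hge2
      · -- far apart
        apply D.glue_T
        obtain ⟨d, rfl⟩ : ∃ d, j = l + 2 + d := ⟨j - (l + 2), by omega⟩
        apply T_neg_one_mem hS1 (l := d)
        have h1 := (D.U α ⊔ D.U β).mul_mem ((le_sup_right : D.U β ≤ _) (D.gb_mem_U β))
          ((le_sup_left : D.U α ≤ _) (D.ga_mem_U α))
        rw [hgb', hga] at h1
        rwa [show (C (D.π P)⁻¹ * T ((l : ℤ) + 1) * (C (D.π P) * T (-((l + 2 + d : ℕ) : ℤ))) :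
          F[T;T⁻¹]) = (C (D.π P)⁻¹ * C (D.π P)) * (T ((l : ℤ) + 1) * T (-((l + 2 + d : ℕ) : ℤ))) by
          ring, C_inv_mul (D.π_ne P), one_mul, T_mul_T, show (l : ℤ) + 1 + -((l + 2 + d : ℕ) : ℤ) =
          -((d : ℤ) + 1) by push_cast; ring] at h1
      · -- adjacent
        have hj' : j = l + 1 := by omega
        refine ⟨D.ga α, D.ga_mem_U α, D.gb β, ?_, ?_⟩
        · rw [hga, hgb', hj']
          rw [show (C (D.π P) * T (-((l + 1 : ℕ) : ℤ)) * (C (D.π P)⁻¹ * T ((l : ℤ) + 1)) :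
            F[T;T⁻¹]) = (C (D.π P)⁻¹ * C (D.π P)) * (T (-((l + 1 : ℕ) : ℤ)) * T ((l : ℤ) + 1)) by
            ring, C_inv_mul (D.π_ne P), one_mul, T_mul_T, show -((l + 1 : ℕ) : ℤ) + ((l : ℤ) + 1) =
            0 by push_cast; ring, T_zero]
        · have hg : D.gb β ∈ D.U α ⊔ Algebra.adjoin k {D.gb β} :=
            (le_sup_right : _ ≤ D.U α ⊔ Algebra.adjoin k {D.gb β})
              (Algebra.subset_adjoin (Set.mem_singleton _))
          have hU : D.U α ≤ D.U α ⊔ Algebra.adjoin k {D.gb β} := le_sup_left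
          apply le_antisymm
          · apply sup_le hU
            apply D.U_le_of _ hg
            · exact hU (D.inv_dD_mem_U α)
            · have h1 := Subalgebra.mul_mem _ (hU (D.ga_mem_U α)) (hU (D.T_mem_U α))
              rw [hga, mul_assoc, T_mul_T, hj'] at h1
              rw [hga']
              rwa [show -((l + 1 : ℕ) : ℤ) + 1 = -(l : ℤ) by push_cast; ring] at h1
          · apply sup_le le_sup_left
            rw [Algebra.adjoin_le_iff, Set.singleton_subset_iff]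
            exact (le_sup_right : D.U β ≤ _) (D.gb_mem_U β)
  · -- different arms
    have hα' : (C (D.π Q)⁻¹ : F[T;T⁻¹]) ∈ D.U α :=
      D.C_mem_U (D.π_inv_mem Q) (D.π_inv_O Q P (fun h => hPQ h.symm))
    have hβ' : (C (D.π P)⁻¹ : F[T;T⁻¹]) ∈ D.U β :=
      D.C_mem_U (D.π_inv_mem P) (D.π_inv_O P Q hPQ)
    rcases l with _ | l
    · rcases j with _ | j
      · -- both on the central curve
        refine ⟨D.ga α, D.ga_mem_U α, C (D.π P)⁻¹, ?_, ?_⟩
        · rw [hga]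
          rw [show -((0 : ℕ) : ℤ) = 0 by simp, T_zero, mul_one, mul_comm, C_inv_mul (D.π_ne P)]
        · have hg : (C (D.π P)⁻¹ : F[T;T⁻¹]) ∈ D.U α ⊔ Algebra.adjoin k {(C (D.π P)⁻¹ : F[T;T⁻¹])} :=
            (le_sup_right : _ ≤ D.U α ⊔ Algebra.adjoin k {(C (D.π P)⁻¹ : F[T;T⁻¹])})
              (Algebra.subset_adjoin (Set.mem_singleton _))
          have hU : D.U α ≤ D.U α ⊔ Algebra.adjoin k {(C (D.π P)⁻¹ : F[T;T⁻¹])} := le_sup_left
          have hπ : (C (D.π P) : F[T;T⁻¹]) ∈ D.U α := by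
            have := D.ga_mem_U α
            rw [hga] at this
            rwa [show -((0 : ℕ) : ℤ) = 0 by simp, T_zero, mul_one] at this
          have hC : ∀ φ ∈ D.Pl, (C φ : F[T;T⁻¹]) ∈
              D.U α ⊔ Algebra.adjoin k {(C (D.π P)⁻¹ : F[T;T⁻¹])} :=
            fun φ hφ => D.C_mem_of (hU hπ) hg (hU (D.inv_dD_mem_U α)) hφ
          apply le_antisymm
          · apply sup_le hU
            apply D.U_le_of
            · rw [hga', show -((0 : ℕ) : ℤ) = 0 by simp, T_zero, mul_one]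
              exact hC _ (D.π_mem Q)
            · rw [hgb', show ((0 : ℕ) : ℤ) + 1 = 1 by simp]
              exact Subalgebra.mul_mem _ (hC _ (D.π_inv_mem Q)) (hU (D.T_mem_U α))
            · exact hC _ (D.δ_inv Q)
          · apply sup_le le_sup_left
            rw [Algebra.adjoin_le_iff, Set.singleton_subset_iff]
            exact (le_sup_right : D.U β ≤ _) hβ'
      · apply D.glue_T
        apply T_neg_one_mem hS1 (l := j)
        have h1 := (D.U α ⊔ D.U β).mul_mem ((le_sup_left : D.U α ≤ _) (D.ga_mem_U α))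
          ((le_sup_right : D.U β ≤ _) hβ')
        rw [hga] at h1
        rwa [show (C (D.π P) * T (-((j + 1 : ℕ) : ℤ)) * C (D.π P)⁻¹ : F[T;T⁻¹]) =
          (C (D.π P)⁻¹ * C (D.π P)) * T (-((j + 1 : ℕ) : ℤ)) by ring, C_inv_mul (D.π_ne P),
          one_mul, show -((j + 1 : ℕ) : ℤ) = -((j : ℤ) + 1) by push_cast; ring] at h1
    · apply D.glue_T
      apply T_neg_one_mem hS1 (l := l)
      have h1 := (D.U α ⊔ D.U β).mul_mem ((le_sup_right : D.U β ≤ _) (D.ga_mem_U β))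
        ((le_sup_left : D.U α ≤ _) hα')
      rw [hga'] at h1
      rwa [show (C (D.π Q) * T (-((l + 1 : ℕ) : ℤ)) * C (D.π Q)⁻¹ : F[T;T⁻¹]) =
        (C (D.π Q)⁻¹ * C (D.π Q)) * T (-((l + 1 : ℕ) : ℤ)) by ring, C_inv_mul (D.π_ne Q),
        one_mul, show -((l + 1 : ℕ) : ℤ) = -((l : ℤ) + 1) by push_cast; ring] at h1

/-! ## the ring of global functions -/

/-- the generators of the ring of global functions -/
def gP (P : ι) : F[T;T⁻¹] := C (D.π P)⁻¹ * T (D.n P : ℤ)

/-- the ring of global functions -/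
def Bgen : Subalgebra k F[T;T⁻¹] := Algebra.adjoin k ({T 1} ∪ Set.range D.gP)

theorem T_mem_Bgen : (T 1 : F[T;T⁻¹]) ∈ D.Bgen := Algebra.subset_adjoin (Or.inl rfl)

theorem gP_mem_Bgen (P : ι) : D.gP P ∈ D.Bgen := Algebra.subset_adjoin (Or.inr ⟨P, rfl⟩)

theorem Bgen_le_U (α : D.Idx') : D.Bgen ≤ D.U α := by
  unfold Bgen
  rw [Algebra.adjoin_le_iff]
  rintro _ (rfl | ⟨P, rfl⟩)
  · exact D.T_mem_U α
  · obtain ⟨Q, ⟨j, hj⟩⟩ := α
    by_cases hPQ : P = Q
    · subst hPQ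
      apply D.CT_mem_U (D.π_inv_mem P)
      · rcases j with _ | j
        · exact (D.mem_vS_zero).mpr (Or.inl (by positivity))
        · rw [Star.mem_vS_succ]
          have h1 : (1 : ℤ) ≤ (D.n P : ℤ) / ((j + 1 : ℕ) : ℤ) := by
            rw [Int.le_ediv_iff_mul_le (by positivity)]
            push_cast
            omega
          apply D.mul_zpow_mem_of_le h1
          rw [zpow_one, inv_mul_cancel₀ (D.π_ne P)]
          exact (D.O P).one_mem
      · rw [Star.mem_vS_succ]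
        have h1 : (1 : ℤ) ≤ (D.n P : ℤ) / ((j + 1 : ℕ) : ℤ) := by
          rw [Int.le_ediv_iff_mul_le (by positivity)]
          push_cast
          omega
        apply D.mul_zpow_mem_of_le h1
        rw [zpow_one, inv_mul_cancel₀ (D.π_ne P)]
        exact (D.O P).one_mem
    · have h2 : (D.π P)⁻¹ ∈ D.O Q := D.π_inv_O P Q hPQ
      apply D.CT_mem_U (D.π_inv_mem P)
      · rcases j with _ | j
        · exact (D.mem_vS_zero).mpr (Or.inl (by positivity))
        · exact D.O_le_vS (by positivity) h2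
      · exact D.O_le_vS (by positivity) h2

theorem homog_mem_Bgen [Fintype ι] (s : ℕ) : ∀ (N : ι → ℕ), ∑ P, N P = s → ∀ (φ : F) (m : ℤ),
    φ ∈ D.Pl → 0 ≤ m → (∀ P, φ * D.π P ^ N P ∈ D.O P) → (∀ P, (N P : ℤ) ≤ m / (D.n P : ℤ)) →
    (C φ * T m : F[T;T⁻¹]) ∈ D.Bgen := by
  classical
  induction s with
  | zero =>
    intro N hN φ m h1 hm h2 _
    have hN0 : ∀ P, N P = 0 := fun P => Finset.sum_eq_zero_iff.mp hN P (Finset.mem_univ P)
    obtain ⟨c, rfl⟩ := D.const φ h1 (fun P => by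
      have := h2 P
      rwa [hN0 P, pow_zero, mul_one] at this)
    obtain ⟨n, rfl⟩ := Int.eq_ofNat_of_zero_le hm
    rw [← T_one_pow]
    exact D.Bgen.mul_mem (D.Bgen.algebraMap_mem c) (D.Bgen.pow_mem D.T_mem_Bgen n)
  | succ s ih =>
    intro N hN φ m h1 hm h2 h3
    obtain ⟨P, hP⟩ : ∃ P, 0 < N P := by
      by_contra hcon
      push Not at hcon
      have : ∑ P, N P = 0 := Finset.sum_eq_zero (fun P _ => by have := hcon P; omega)
      omega
    obtain ⟨N', hN'⟩ : ∃ N', N P = N' + 1 := ⟨N P - 1, by omega⟩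
    have h4 := h2 P
    rw [hN'] at h4
    obtain ⟨c, hc⟩ := D.res P _ h4
    have hπ := D.π_ne P
    have hmem : (φ - algebraMap k F c * (D.π P)⁻¹ ^ (N' + 1)) * D.π P ^ N' ∈ D.O P := by
      rwa [show (φ - algebraMap k F c * (D.π P)⁻¹ ^ (N' + 1)) * D.π P ^ N' =
        (φ * D.π P ^ (N' + 1) - algebraMap k F c) * (D.π P)⁻¹ by
        rw [inv_pow]
        field_simp
        ring]
    have hPl : φ - algebraMap k F c * (D.π P)⁻¹ ^ (N' + 1) ∈ D.Pl :=
      D.Pl.sub_mem h1 (D.Pl.mul_mem (D.Pl.algebraMap_mem c) (D.Pl.pow_mem (D.π_inv_mem P) _))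
    have h5 : (C (φ - algebraMap k F c * (D.π P)⁻¹ ^ (N' + 1)) * T m : F[T;T⁻¹]) ∈ D.Bgen := by
      apply ih (Function.update N P N') _ _ m hPl hm
      · intro Q
        by_cases hQ : Q = P
        · subst hQ
          rw [Function.update_self]
          exact hmem
        · rw [Function.update_of_ne hQ, sub_mul]
          apply (D.O Q).sub_mem (h2 Q)
          exact (D.O Q).mul_mem ((D.O Q).mul_mem ((D.O Q).algebraMap_mem c)
            ((D.O Q).pow_mem (D.π_inv_O P Q (fun h => hQ h.symm)) _))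
            ((D.O Q).pow_mem (D.π_mem_O Q) _)
      · intro Q
        by_cases hQ : Q = P
        · subst hQ
          rw [Function.update_self]
          have := h3 Q
          omega
        · rw [Function.update_of_ne hQ]
          exact h3 Q
      · have h6 := Finset.add_sum_erase Finset.univ (Function.update N P N') (Finset.mem_univ P)
        have h7 := Finset.add_sum_erase Finset.univ N (Finset.mem_univ P)
        have h8 : ∑ Q ∈ Finset.univ.erase P, Function.update N P N' Q =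
            ∑ Q ∈ Finset.univ.erase P, N Q := by
          apply Finset.sum_congr rfl
          intro Q hQ
          rw [Function.update_of_ne (Finset.ne_of_mem_erase hQ)]
        rw [Function.update_self] at h6
        omega
    have h6 : (C (algebraMap k F c * (D.π P)⁻¹ ^ (N' + 1)) * T m : F[T;T⁻¹]) ∈ D.Bgen := by
      have h7 : ((N' + 1 : ℕ) : ℤ) * (D.n P : ℤ) ≤ m := by
        have h8 := h3 P
        rw [hN'] at h8
        have h9 : (0 : ℤ) < (D.n P : ℤ) := by exact_mod_cast D.n_pos P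
        rwa [Int.le_ediv_iff_mul_le h9] at h8
      obtain ⟨r, hr⟩ := Int.eq_ofNat_of_zero_le (sub_nonneg.mpr h7)
      have h8 : (C (algebraMap k F c * (D.π P)⁻¹ ^ (N' + 1)) * T m : F[T;T⁻¹]) =
          C (algebraMap k F c) * D.gP P ^ (N' + 1) * T 1 ^ r := by
        unfold gP
        rw [T_one_pow, mul_pow, T_pow, map_mul, ← map_pow, ← hr]
        rw [show m = ((N' + 1 : ℕ) : ℤ) * (D.n P : ℤ) + (m - ((N' + 1 : ℕ) : ℤ) * (D.n P : ℤ)) by ring,
          T_add]
        ring_nf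
      rw [h8]
      exact D.Bgen.mul_mem (D.Bgen.mul_mem (D.Bgen.algebraMap_mem c)
        (D.Bgen.pow_mem (D.gP_mem_Bgen P) _)) (D.Bgen.pow_mem D.T_mem_Bgen r)
    have h9 := D.Bgen.add_mem h5 h6
    rwa [← add_mul, ← map_add, sub_add_cancel] at h9

theorem mem_Bgen_of_forall [Fintype ι] [Nonempty ι] {x : F[T;T⁻¹]} (h : ∀ α, x ∈ D.U α) :
    x ∈ D.Bgen := by
  apply mem_of_CT_mem
  intro m
  obtain ⟨P0⟩ := (inferInstance : Nonempty ι)
  have h0 := D.mem_U.mp (h ⟨P0, ⟨0, D.n_pos P0⟩⟩) m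
  rcases (D.mem_vS_zero).mp h0.2.1 with hm | hm
  · apply D.homog_mem_Bgen _ (fun P => (m / (D.n P : ℤ)).toNat) rfl _ m h0.1 hm
    · intro P
      have h1 := (D.mem_U.mp (h ⟨P, ⟨D.n P - 1, D.last_lt P⟩⟩) m).2.2
      rw [Star.mem_vS_succ] at h1
      have h2 : D.n P - 1 + 1 = D.n P := by have := D.n_pos P; omega
      simp only [h2] at h1
      rw [← zpow_natCast, Int.toNat_of_nonneg (Int.ediv_nonneg hm (by positivity))]
      exact h1
    · intro P
      rw [Int.toNat_of_nonneg (Int.ediv_nonneg hm (by positivity))]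
  · rw [hm, map_zero, zero_mul]
    exact D.Bgen.zero_mem

end LStar

end

end Pool.Agent.J6H82.Kollar
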