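import Mathlib

/-!
# Rational surface singularities: definitions

A resolution of an affine surface `Spec B` with function field `L` is given by finitely many affine charts,
that is by finitely many subalgebras `U i` of `L`, which are smooth over the ground field, glue to a
separated scheme (the intersection of two charts is a principal open subset of each of them, with ring of
functions generated by the two rings), map to `Spec B`, and satisfy the valuative criterion of
properness.  The singularities of `Spec B` are rational if the first cohomology of the structure sheaf of
the resolution vanishes; it is computed by the Cech complex of the affine cover.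
-/

namespace Pool.Agent.J6H82.Kollar

/-- The subalgebras `U i` of the function field `L` of `B` are the rings of functions of an affine open
cover of a smooth separated scheme which is proper and birational over `Spec B`. -/
structure IsResolution (k B L : Type) [Field k] [CommRing B] [Field L] [Algebra k B] [Algebra k L]
    [Algebra B L] {ι : Type} (U : ι → Subalgebra k L) : Prop where
  /-- every chart maps to `Spec B` -/
  algebraMap_mem : ∀ i b, algebraMap B L b ∈ U i
  /-- every chart is smooth -/
  smooth : ∀ i, Algebra.Smooth k (U i)
  /-- two charts are glued along a principal open subset of each of them, whose ring of functions is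
  generated by the two rings of functions -/
  glue : ∀ i j, ∃ f ∈ U i, f ≠ 0 ∧ U i ⊔ U j = U i ⊔ Algebra.adjoin k {f⁻¹}
  /-- the valuative criterion: every valuation ring of `L` that contains `B` contains the ring of
  functions of some chart -/
  proper : ∀ V : ValuationSubring L, (∀ b, algebraMap B L b ∈ V) → ∃ i, ∀ x ∈ U i, x ∈ V

/-- The first Cech cohomology of the structure sheaf with respect to the cover by the charts vanishes. -/
def CechVanishing {k L : Type} [Field k] [Field L] [Algebra k L] {ι : Type}
    (U : ι → Subalgebra k L) : Prop :=
  ∀ c : ι → ι → L, (∀ i j, c i j ∈ U i ⊔ U j) → (∀ i j l, c i j + c j l = c i l) →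
    ∃ b : ι → L, (∀ i, b i ∈ U i) ∧ ∀ i j, c i j = b i - b j

/-- `Spec B` is a normal affine surface over `k` all of whose singularities are rational. -/
structure IsRationalSurface (k B : Type) [Field k] [CommRing B] [Algebra k B] : Prop where
  isDomain : IsDomain B
  finiteType : Algebra.FiniteType k B
  isIntegrallyClosed : IsIntegrallyClosed B
  trdeg : Algebra.trdeg k B = 2
  resolution : ∃ (L : Type) (_ : Field L) (_ : Algebra k L) (_ : Algebra B L)
    (_ : IsScalarTower k B L) (_ : IsFractionRing B L) (ι : Type) (_ : Finite ι)
    (U : ι → Subalgebra k L), IsResolution k B L U ∧ CechVanishing U

end Pool.Agent.J6H82.Kollar
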