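import Pool.Agent.J6H82.Kollar.Res3
import Pool.Agent.J6H82.Kollar.SurfDefs

/-!
# Star-shaped resolutions: the surface is rational
-/

namespace Pool.Agent.J6H82.Kollar

noncomputable section

set_option maxHeartbeats 400000

open LaurentPolynomial

variable {k F : Type} [Field k] [Field F] [Algebra k F]

/-- the fractions of a subalgebra -/
def Qs (B : Subalgebra k F[T;T⁻¹]) : Subalgebra k F[T;T⁻¹] where
  carrier := {a | ∃ x ∈ B, ∃ y ∈ B, y ≠ 0 ∧ a * y = x}
  mul_mem' := by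
    rintro a a' ⟨x, hx, y, hy, h0, h⟩ ⟨x', hx', y', hy', h0', h'⟩
    exact ⟨x * x', B.mul_mem hx hx', y * y', B.mul_mem hy hy', mul_ne_zero h0 h0', by
      rw [← h, ← h']; ring⟩
  add_mem' := by
    rintro a a' ⟨x, hx, y, hy, h0, h⟩ ⟨x', hx', y', hy', h0', h'⟩
    exact ⟨x * y' + x' * y, B.add_mem (B.mul_mem hx hy') (B.mul_mem hx' hy), y * y',
      B.mul_mem hy hy', mul_ne_zero h0 h0', by rw [← h, ← h']; ring⟩
  algebraMap_mem' := by
    intro r
    exact ⟨_, B.algebraMap_mem r, 1, B.one_mem, one_ne_zero, mul_one _⟩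

theorem le_Qs (B : Subalgebra k F[T;T⁻¹]) : B ≤ Qs B :=
  fun x hx => ⟨x, hx, 1, B.one_mem, one_ne_zero, mul_one _⟩

theorem Qs_div {B : Subalgebra k F[T;T⁻¹]} {a b c : F[T;T⁻¹]} (hb : b ∈ Qs B) (hc : c ∈ Qs B)
    (hb0 : b ≠ 0) (h : a * b = c) : a ∈ Qs B := by
  obtain ⟨x, hx, y, hy, h0, h1⟩ := hb
  obtain ⟨x', hx', y', hy', h0', h1'⟩ := hc
  have hx0 : x ≠ 0 := by rw [← h1]; exact mul_ne_zero hb0 h0
  refine ⟨x' * y, B.mul_mem hx' hy, x * y', B.mul_mem hx hy', mul_ne_zero hx0 h0', ?_⟩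
  rw [← h1, ← h1', ← h]; ring

theorem C_ne {x : F} (hx : x ≠ 0) : (C x : F[T;T⁻¹]) ≠ 0 := by
  intro h
  have h3 := congrArg (fun z : F[T;T⁻¹] => z.coeff 0) h
  simp at h3
  exact hx h3

theorem T_ne (n : ℤ) : (T n : F[T;T⁻¹]) ≠ 0 := (isUnit_T n).ne_zero

namespace LStar

variable {ι : Type} (D : LStar k F ι)

theorem Qs_top {B : Subalgebra k F[T;T⁻¹]} (h1 : (T 1 : F[T;T⁻¹]) ∈ B) {P : ι}
    (h2 : (C (D.π P) : F[T;T⁻¹]) ∈ Qs B) (a : F[T;T⁻¹]) : a ∈ Qs B := by
  have hT : (T 1 : F[T;T⁻¹]) ∈ Qs B := le_Qs B h1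
  have hTn : (T (-1) : F[T;T⁻¹]) ∈ Qs B :=
    Qs_div hT (Subalgebra.one_mem _) (T_ne 1) (by rw [T_mul_T]; simp)
  have hTm : ∀ m : ℤ, (T m : F[T;T⁻¹]) ∈ Qs B := by
    intro m
    rcases Int.le_total 0 m with hm | hm
    · obtain ⟨n, rfl⟩ := Int.eq_ofNat_of_zero_le hm
      have := (Qs B).pow_mem hT n
      rwa [T_one_pow] at this
    · obtain ⟨n, rfl⟩ : ∃ n : ℕ, m = -n := ⟨m.natAbs, by omega⟩
      have := (Qs B).pow_mem hTn n
      rwa [T_neg_pow] at this
  have hpol : ∀ f : Polynomial k, (C (Polynomial.aeval (D.π P) f) : F[T;T⁻¹]) ∈ Qs B := by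
    intro f
    rw [C_aeval]
    have : Polynomial.aeval (C (D.π P) : F[T;T⁻¹]) f = (Qs B).val (Polynomial.aeval
        (⟨C (D.π P), h2⟩ : Qs B) f) := by
      rw [← Polynomial.aeval_algHom_apply]; rfl
    rw [this]
    exact Subtype.property _
  apply mem_of_CT_mem
  intro m
  refine (Qs B).mul_mem ?_ (hTm m)
  obtain ⟨f, g, hg, h⟩ := D.frac P (a.coeff m)
  refine Qs_div (hpol g) (hpol f) (C_ne (D.aeval_ne hg)) ?_
  rw [← map_mul, h]

theorem Qs_Bgen_top [Nonempty ι] (a : F[T;T⁻¹]) : a ∈ Qs D.Bgen := by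
  obtain ⟨P⟩ := (inferInstance : Nonempty ι)
  apply D.Qs_top D.T_mem_Bgen (P := P)
  refine ⟨T (D.n P : ℤ), ?_, D.gP P, D.gP_mem_Bgen P, ?_, ?_⟩
  · have := D.Bgen.pow_mem D.T_mem_Bgen (D.n P)
    rwa [T_one_pow] at this
  · exact mul_ne_zero (C_ne (inv_ne_zero (D.π_ne P))) (T_ne _)
  · unfold gP
    rw [← mul_assoc, mul_comm (C (D.π P)) _, C_inv_mul (D.π_ne P), one_mul]

theorem Qs_kapT_top (P : ι) (a : F[T;T⁻¹]) : a ∈ Qs (D.kapT P).range := by
  apply D.Qs_top (P := P)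
  · exact ⟨Polynomial.X, by
      show D.kapT P Polynomial.X = T 1
      unfold kapT; rw [ev2_X]⟩
  · apply le_Qs
    exact ⟨Polynomial.C Polynomial.X, by
      show D.kapT P _ = _
      unfold kapT; rw [ev2_C, Polynomial.aeval_X]⟩

/-- the function field -/
abbrev LL' (F : Type) [Field F] := FractionRing F[T;T⁻¹]

/-- the embedding -/
def jL (k F : Type) [Field k] [Field F] [Algebra k F] : F[T;T⁻¹] →ₐ[k] LL' F :=
  IsScalarTower.toAlgHom k F[T;T⁻¹] (LL' F)

theorem jL_inj : Function.Injective (jL k F) :=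
  IsFractionRing.injective F[T;T⁻¹] (LL' F)

/-- the charts in the function field -/
def UL (α : D.Idx') : Subalgebra k (LL' F) := (D.U α).map (jL k F)

theorem UL_sup (α β : D.Idx') : D.UL α ⊔ D.UL β = (D.U α ⊔ D.U β).map (jL k F) :=
  (Algebra.map_sup (jL k F) (D.U α) (D.U β)).symm

theorem UL_smooth (α : D.Idx') : Algebra.Smooth k (D.UL α) := by
  have := (D.chart_props α).1
  exact Algebra.Smooth.of_equiv (Subalgebra.equivMapOfInjective (D.U α) (jL k F) jL_inj)

theorem UL_glue (α β : D.Idx') : ∃ f ∈ D.UL α, f ≠ 0 ∧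
    D.UL α ⊔ D.UL β = D.UL α ⊔ Algebra.adjoin k {f⁻¹} := by
  obtain ⟨f, hf, g, hfg, h⟩ := D.glue α β
  have h1 : jL k F f * jL k F g = 1 := by rw [← map_mul, hfg, map_one]
  have h2 : (jL k F f)⁻¹ = jL k F g := inv_eq_of_mul_eq_one_right h1
  refine ⟨jL k F f, ⟨f, hf, rfl⟩, left_ne_zero_of_mul (by rw [h1]; exact one_ne_zero), ?_⟩
  rw [UL_sup, h, h2, Algebra.map_sup, AlgHom.map_adjoin_singleton]
  rfl

theorem UL_cech [Fintype ι] : CechVanishing D.UL := by
  intro c hc hcoc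
  have h1 : ∀ α β, ∃ x ∈ D.U α ⊔ D.U β, jL k F x = c α β := by
    intro α β
    have := hc α β
    rw [UL_sup] at this
    exact this
  choose c' hc' hcc using h1
  obtain ⟨b, hb, hb'⟩ := D.cech c' hc' (by
    intro α β γ
    apply jL_inj (k := k)
    rw [map_add, hcc, hcc, hcc]
    exact hcoc α β γ)
  exact ⟨fun α => jL k F (b α), fun α => ⟨b α, hb α, rfl⟩, fun α β => by
    rw [← hcc, hb', map_sub]⟩

/-- a valuation ring containing the global functions contains a chart -/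
theorem UL_proper (V : ValuationSubring (LL' F)) (hV : ∀ b ∈ D.Bgen, jL k F b ∈ V) :
    ∃ α, ∀ x ∈ D.UL α, x ∈ V := by
  have hk : ∀ c : k, jL k F (algebraMap k F[T;T⁻¹] c) ∈ V :=
    fun c => hV _ (D.Bgen.algebraMap_mem c)
  -- the subalgebra of elements mapping to `V`
  let A : Subalgebra k F[T;T⁻¹] :=
    { carrier := {x | jL k F x ∈ V}
      mul_mem' := by
        intro a b ha hb
        show jL k F (a * b) ∈ V
        rw [map_mul]; exact V.mul_mem _ _ ha hb
      add_mem' := by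
        intro a b ha hb
        show jL k F (a + b) ∈ V
        rw [map_add]; exact V.add_mem _ _ ha hb
      algebraMap_mem' := hk }
  have hA : ∀ x, x ∈ A ↔ jL k F x ∈ V := fun x => Iff.rfl
  obtain ⟨P, hP1, hP2⟩ := D.cover (V.comap (((jL k F).toRingHom).comp (C : F →+* F[T;T⁻¹])))
    (fun c => hk c)
  have hπ : (C (D.π P) : F[T;T⁻¹]) ∈ A := hP1
  have hδ : (C (Polynomial.aeval (D.π P) (D.δ P))⁻¹ : F[T;T⁻¹]) ∈ A := hP2
  -- walk along the arm
  have walk : ∀ j, j < D.n P → (∃ (i : ℕ) (hi : i < D.n P), D.ga ⟨P, ⟨i, hi⟩⟩ ∈ A ∧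
      D.gb ⟨P, ⟨i, hi⟩⟩ ∈ A) ∨ (C (D.π P) * T (-(j : ℤ)) : F[T;T⁻¹]) ∈ A := by
    intro j
    induction j with
    | zero =>
      intro _
      right
      rw [show -((0 : ℕ) : ℤ) = 0 by simp, T_zero, mul_one]
      exact hπ
    | succ j ih =>
      intro hj
      rcases ih (by omega) with h | h
      · exact Or.inl h
      · rcases V.mem_or_inv_mem (jL k F (C (D.π P) * T (-((j + 1 : ℕ) : ℤ)))) with h1 | h1
        · exact Or.inr h1
        · left
          refine ⟨j, by omega, h, ?_⟩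
          rw [hA]
          have h2 : jL k F (C (D.π P) * T (-((j + 1 : ℕ) : ℤ))) *
              jL k F (D.gb ⟨P, ⟨j, by omega⟩⟩) = 1 := by
            rw [← map_mul]
            have h3 : (C (D.π P) * T (-((j + 1 : ℕ) : ℤ)) * D.gb ⟨P, ⟨j, by omega⟩⟩ :
                F[T;T⁻¹]) = 1 := by
              unfold gb
              simp only
              rw [show (C (D.π P) * T (-((j + 1 : ℕ) : ℤ)) * (C (D.π P)⁻¹ * T ((j : ℤ) + 1)) :
                F[T;T⁻¹]) = (C (D.π P)⁻¹ * C (D.π P)) * (T (-((j + 1 : ℕ) : ℤ)) * T ((j : ℤ) + 1))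
                by ring, C_inv_mul (D.π_ne P), one_mul, T_mul_T,
                show -((j + 1 : ℕ) : ℤ) + ((j : ℤ) + 1) = 0 by push_cast; ring, T_zero]
            rw [h3, map_one]
          have h3 : jL k F (D.gb ⟨P, ⟨j, by omega⟩⟩) =
              (jL k F (C (D.π P) * T (-((j + 1 : ℕ) : ℤ))))⁻¹ :=
            eq_inv_of_mul_eq_one_right h2
          rw [h3]
          exact h1
  have hfin : ∃ (i : ℕ) (hi : i < D.n P), D.ga ⟨P, ⟨i, hi⟩⟩ ∈ A ∧ D.gb ⟨P, ⟨i, hi⟩⟩ ∈ A := by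
    rcases walk (D.n P - 1) (D.last_lt P) with h | h
    · exact h
    · refine ⟨D.n P - 1, D.last_lt P, h, ?_⟩
      have h1 : D.gb ⟨P, ⟨D.n P - 1, D.last_lt P⟩⟩ = D.gP P := by
        unfold gb gP
        simp only
        congr 2
        have := D.n_pos P
        omega
      rw [h1]
      exact hV _ (D.gP_mem_Bgen P)
  obtain ⟨i, hi, h1, h2⟩ := hfin
  refine ⟨⟨P, ⟨i, hi⟩⟩, ?_⟩
  rintro _ ⟨x, hx, rfl⟩
  exact (hA x).mp (D.U_le_of h1 h2 hδ hx)

/-- **The surface is rational.** -/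
theorem isRationalSurface [Fintype ι] [Nonempty ι] (B : Type) [CommRing B] [Algebra k B]
    (e : B ≃ₐ[k] D.Bgen) : IsRationalSurface k B := by
  have hdom : IsDomain B := e.toMulEquiv.isDomain D.Bgen
  let θ : B →ₐ[k] LL' F := (jL k F).comp (D.Bgen.val.comp e.toAlgHom)
  have hθ : ∀ b, θ b = jL k F (e b : D.Bgen) := fun _ => rfl
  have hθinj : Function.Injective θ := by
    intro a b h
    apply e.injective
    apply Subtype.ext
    exact jL_inj (k := k) h
  have hθmem : ∀ x ∈ D.Bgen, ∃ b, θ b = jL k F x := by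
    intro x hx
    refine ⟨e.symm ⟨x, hx⟩, ?_⟩
    rw [hθ, AlgEquiv.apply_symm_apply]
  let _ : Algebra B (LL' F) := θ.toRingHom.toAlgebra
  have hmap : ∀ b, algebraMap B (LL' F) b = θ b := fun _ => rfl
  have hst : IsScalarTower k B (LL' F) := by
    apply IsScalarTower.of_algebraMap_eq
    intro c
    rw [hmap, AlgHom.commutes]
  have hfaith : FaithfulSMul B (LL' F) := by
    rw [faithfulSMul_iff_algebraMap_injective]
    exact hθinj
  have hfrac : IsFractionRing B (LL' F) := by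
    apply IsFractionRing.of_field
    intro z
    obtain ⟨a, b, hb, rfl⟩ := IsFractionRing.div_surjective (A := F[T;T⁻¹]) z
    have hb0 : b ≠ 0 := nonZeroDivisors.ne_zero hb
    obtain ⟨x, hx, y, hy, hy0, h1⟩ := D.Qs_Bgen_top a
    obtain ⟨x', hx', y', hy', hy0', h1'⟩ := D.Qs_Bgen_top b
    obtain ⟨s, hs⟩ := hθmem _ (D.Bgen.mul_mem hx hy')
    obtain ⟨t, ht⟩ := hθmem _ (D.Bgen.mul_mem hx' hy)
    refine ⟨s, t, ?_⟩
    rw [hmap, hmap, hs, ht, ← h1, ← h1']
    have e1 : (algebraMap F[T;T⁻¹] (LL' F) a) = jL k F a := rfl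
    have e2 : (algebraMap F[T;T⁻¹] (LL' F) b) = jL k F b := rfl
    have n1 : jL k F b ≠ 0 := by
      rwa [Ne, map_eq_zero_iff _ (jL_inj (k := k))]
    have n2 : jL k F y ≠ 0 := by
      rwa [Ne, map_eq_zero_iff _ (jL_inj (k := k))]
    have n3 : jL k F y' ≠ 0 := by
      rwa [Ne, map_eq_zero_iff _ (jL_inj (k := k))]
    rw [e1, e2]
    simp only [map_mul]
    field_simp
  refine ⟨hdom, ?_, ?_, ?_, ?_⟩
  · -- finite type
    have h1 : D.Bgen.FG := by
      have hfin : ({T 1} ∪ Set.range D.gP : Set F[T;T⁻¹]).Finite :=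
        (Set.finite_singleton _).union (Set.finite_range _)
      exact ⟨hfin.toFinset, by rw [hfin.coe_toFinset]; rfl⟩
    have h2 : Algebra.FiniteType k D.Bgen := D.Bgen.fg_iff_finiteType.mp h1
    exact Algebra.FiniteType.equiv h2 e.symm
  · -- integrally closed
    rw [isIntegrallyClosed_iff (LL' F)]
    intro x hx
    have h1 : ∀ α, x ∈ D.UL α := by
      intro α
      have h2 := (D.chart_props α).2
      have h3 : IsIntegrallyClosed (D.UL α) :=
        IsIntegrallyClosed.of_equiv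
          (Subalgebra.equivMapOfInjective (D.U α) (jL k F) jL_inj).toRingEquiv
      have h4 : ∀ b, θ b ∈ D.UL α := fun b => ⟨e b, D.Bgen_le_U α (e b).2, rfl⟩
      have h5 : IsFractionRing (D.UL α) (LL' F) := by
        apply IsFractionRing.of_field
        intro z
        obtain ⟨a, b, hb, rfl⟩ := IsFractionRing.div_surjective (A := B) z
        exact ⟨⟨θ a, h4 a⟩, ⟨θ b, h4 b⟩, rfl⟩
      have h6 : IsIntegral (D.UL α) x := by
        obtain ⟨p, hp, hpx⟩ := hx
        let ψ : B →+* D.UL α := (θ.codRestrict (D.UL α) h4).toRingHom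
        refine ⟨p.map ψ, hp.map ψ, ?_⟩
        rw [Polynomial.eval₂_map]
        exact hpx
      obtain ⟨y, hy⟩ := (isIntegrallyClosed_iff (LL' F)).mp h3 h6
      rw [← hy]
      exact y.2
    obtain ⟨α0⟩ : Nonempty D.Idx' := by
      obtain ⟨P⟩ := (inferInstance : Nonempty ι)
      exact ⟨⟨P, ⟨0, D.n_pos P⟩⟩⟩
    obtain ⟨y, _, hy⟩ := h1 α0
    have h2 : y ∈ D.Bgen := by
      apply D.mem_Bgen_of_forall
      intro α
      obtain ⟨z, hz, hz'⟩ := h1 α
      have : z = y := jL_inj (k := k) (hz'.trans hy.symm)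
      rwa [← this]
    obtain ⟨b, hb⟩ := hθmem y h2
    exact ⟨b, by rw [hmap, hb]; exact hy⟩
  · -- transcendence degree
    obtain ⟨P⟩ := (inferInstance : Nonempty ι)
    have h1 : Algebra.IsAlgebraic B (LL' F) :=
      IsLocalization.isAlgebraic (LL' F) (nonZeroDivisors B)
    have h2 : Algebra.trdeg k (LL' F) = Algebra.trdeg k B := by
      have h3 : FaithfulSMul k B := by
        rw [faithfulSMul_iff_algebraMap_injective]
        exact (algebraMap k B).injective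
      have := trdeg_add_eq k B (A := LL' F)
      rw [trdeg_eq_zero (R := B) (A := LL' F), add_zero] at this
      exact this.symm
    rw [← h2]
    let θ2 : S2 k →ₐ[k] LL' F := (jL k F).comp (D.kapT P)
    have hθ2 : Function.Injective θ2 := (jL_inj (k := k)).comp (D.kapT_inj P)
    let _ : Algebra (S2 k) (LL' F) := θ2.toRingHom.toAlgebra
    have hmap2 : ∀ b, algebraMap (S2 k) (LL' F) b = θ2 b := fun _ => rfl
    have hst2 : IsScalarTower k (S2 k) (LL' F) := by
      apply IsScalarTower.of_algebraMap_eq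
      intro c
      rw [hmap2, AlgHom.commutes]
    have hfaith2 : FaithfulSMul (S2 k) (LL' F) := by
      rw [faithfulSMul_iff_algebraMap_injective]
      exact hθ2
    have hfrac2 : IsFractionRing (S2 k) (LL' F) := by
      apply IsFractionRing.of_field
      intro z
      obtain ⟨a, b, hb, rfl⟩ := IsFractionRing.div_surjective (A := F[T;T⁻¹]) z
      have hb0 : b ≠ 0 := nonZeroDivisors.ne_zero hb
      obtain ⟨x, ⟨x1, hx1⟩, y, ⟨y1, hy1⟩, hy0, h1⟩ := D.Qs_kapT_top P a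
      obtain ⟨x', ⟨x1', hx1'⟩, y', ⟨y1', hy1'⟩, hy0', h1'⟩ := D.Qs_kapT_top P b
      have hx1 : D.kapT P x1 = x := hx1
      have hy1 : D.kapT P y1 = y := hy1
      have hx1' : D.kapT P x1' = x' := hx1'
      have hy1' : D.kapT P y1' = y' := hy1'
      refine ⟨x1 * y1', x1' * y1, ?_⟩
      rw [hmap2, hmap2]
      have e3 : θ2 (x1 * y1') = jL k F (x * y') := by
        rw [← hx1, ← hy1', ← map_mul]; rfl
      have e4 : θ2 (x1' * y1) = jL k F (x' * y) := by
        rw [← hx1', ← hy1, ← map_mul]; rfl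
      rw [e3, e4, ← h1, ← h1']
      have e1 : (algebraMap F[T;T⁻¹] (LL' F) a) = jL k F a := rfl
      have e2 : (algebraMap F[T;T⁻¹] (LL' F) b) = jL k F b := rfl
      have n1 : jL k F b ≠ 0 := by
        rwa [Ne, map_eq_zero_iff _ (jL_inj (k := k))]
      have n2 : jL k F y ≠ 0 := by
        rwa [Ne, map_eq_zero_iff _ (jL_inj (k := k))]
      have n3 : jL k F y' ≠ 0 := by
        rwa [Ne, map_eq_zero_iff _ (jL_inj (k := k))]
      rw [e1, e2]
      simp only [map_mul]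
      field_simp
    have h4 : Algebra.IsAlgebraic (S2 k) (LL' F) :=
      IsLocalization.isAlgebraic (LL' F) (nonZeroDivisors (S2 k))
    have h5 := trdeg_add_eq k (S2 k) (A := LL' F)
    rw [trdeg_eq_zero (R := S2 k) (A := LL' F), add_zero] at h5
    rw [← h5]
    have h6 := trdeg_add_eq k (Polynomial k) (A := S2 k)
    rw [Polynomial.trdeg_of_isDomain, Polynomial.trdeg_of_isDomain] at h6
    rw [← h6]
    norm_num
  · exact ⟨LL' F, inferInstance, inferInstance, inferInstance, hst, hfrac, D.Idx', inferInstance,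
      D.UL, ⟨fun α b => ⟨e b, D.Bgen_le_U α (e b).2, rfl⟩, D.UL_smooth, D.UL_glue,
      fun V hV => D.UL_proper V (fun b hb => by
        obtain ⟨b', hb'⟩ := hθmem b hb
        rw [← hb']
        exact hV b')⟩, D.UL_cech⟩

end LStar

end

end Pool.Agent.J6H82.Kollar
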