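import Pool.Agent.J6H82.Kollar.Res4
import Pool.Agent.J6H82.Kollar.Data

/-!
# The concrete star: eleven finite places and the place at infinity
-/

namespace Pool.Agent.J6H82.Kollar

noncomputable section

set_option maxHeartbeats 400000

open Polynomial

variable {k : Type} [Field k]

/-! ## local rings defined by an element -/

section Op

variable {F : Type} [Field F] [Algebra k F]

/-- fractions in `π` with denominator not vanishing at the origin -/
def Op (π : F) : Subalgebra k F where
  carrier := {φ | ∃ f g : k[X], g.coeff 0 ≠ 0 ∧ φ * aeval π g = aeval π f}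
  mul_mem' := by
    rintro a b ⟨f, g, hg, h⟩ ⟨f', g', hg', h'⟩
    refine ⟨f * f', g * g', ?_, by rw [map_mul, map_mul, ← h, ← h']; ring⟩
    rw [mul_coeff_zero]; exact mul_ne_zero hg hg'
  add_mem' := by
    rintro a b ⟨f, g, hg, h⟩ ⟨f', g', hg', h'⟩
    refine ⟨f * g' + f' * g, g * g', ?_, by
      rw [map_mul, map_add, map_mul, map_mul, ← h, ← h']; ring⟩
    rw [mul_coeff_zero]; exact mul_ne_zero hg hg'
  algebraMap_mem' := by
    intro r
    exact ⟨C r, 1, by simp, by simp⟩

theorem mem_Op {π φ : F} : φ ∈ Op (k := k) π ↔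
    ∃ f g : k[X], g.coeff 0 ≠ 0 ∧ φ * aeval π g = aeval π f := Iff.rfl

theorem aeval_mem_Op (π : F) (f : k[X]) : aeval π f ∈ Op (k := k) π :=
  ⟨f, 1, by simp, by simp⟩

theorem self_mem_Op (π : F) : π ∈ Op (k := k) π := by
  have := aeval_mem_Op (k := k) π X
  rwa [aeval_X] at this

variable {π : F} (hπ : Function.Injective (aeval π : k[X] →ₐ[k] F))

include hπ

theorem aeval_ne_of {f : k[X]} (h : f ≠ 0) : aeval π f ≠ 0 := by
  intro h1
  apply h
  apply hπ
  rw [h1, map_zero]

theorem inv_mem_Op {f : k[X]} (h : f.coeff 0 ≠ 0) : (aeval π f)⁻¹ ∈ Op (k := k) π := by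
  have hf : f ≠ 0 := by rintro rfl; simp at h
  exact ⟨1, f, h, by rw [map_one, inv_mul_cancel₀ (aeval_ne_of hπ hf)]⟩

theorem π_ne_zero_of : π ≠ 0 := by
  have := aeval_ne_of hπ (f := X) X_ne_zero
  rwa [aeval_X] at this

theorem res_Op {x : F} (hx : x ∈ Op (k := k) π) :
    ∃ c : k, (x - algebraMap k F c) * π⁻¹ ∈ Op (k := k) π := by
  obtain ⟨f, g, hg, h⟩ := hx
  refine ⟨f.coeff 0 / g.coeff 0, ?_⟩
  have h1 : (f - C (f.coeff 0 / g.coeff 0) * g).coeff 0 = 0 := by
    rw [coeff_sub, coeff_C_mul, div_mul_cancel₀ _ hg, sub_self]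
  obtain ⟨q, hq⟩ := X_dvd_iff.mpr h1
  refine ⟨q, g, hg, ?_⟩
  have h2 := congrArg (aeval π) hq
  rw [map_sub, map_mul, map_mul, aeval_C, aeval_X, ← h] at h2
  have hπ0 := π_ne_zero_of hπ
  rw [mul_assoc, mul_comm π⁻¹, ← mul_assoc, sub_mul, h2]
  field_simp

theorem inv_not_mem_Op : π⁻¹ ∉ Op (k := k) π := by
  rintro ⟨f, g, hg, h⟩
  have hπ0 := π_ne_zero_of hπ
  have h1 : g = X * f := by
    apply hπ
    rw [map_mul, aeval_X, ← h]
    field_simp
  apply hg
  rw [h1, coeff_X_mul_zero]

end Op

/-! ## the places -/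

/-- the function field of the line -/
abbrev FF (k : Type) [Field k] := FractionRing k[X]

/-- the coordinate -/
def ww (k : Type) [Field k] : FF k := algebraMap k[X] (FF k) X

theorem aeval_ww (f : k[X]) : aeval (ww k) f = algebraMap k[X] (FF k) f := by
  have : (aeval (ww k) : k[X] →ₐ[k] FF k) = IsScalarTower.toAlgHom k k[X] (FF k) := by
    apply Polynomial.algHom_ext
    rw [aeval_X]; rfl
  rw [this]; rfl

theorem aeval_ww_inj : Function.Injective (aeval (ww k) : k[X] →ₐ[k] FF k) := by
  intro f g h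
  rw [aeval_ww, aeval_ww] at h
  exact IsFractionRing.injective k[X] (FF k) h

theorem ww_ne : ww k ≠ 0 := π_ne_zero_of aeval_ww_inj

/-- translation -/
theorem aeval_shift (s : k) (f : k[X]) :
    aeval (ww k - algebraMap k (FF k) s) (f.comp (X + C s)) = aeval (ww k) f := by
  rw [aeval_comp]
  congr 2
  simp

theorem aeval_shift' (s : k) (f : k[X]) :
    aeval (ww k - algebraMap k (FF k) s) f = aeval (ww k) (f.comp (X - C s)) := by
  rw [aeval_comp]
  congr 2
  simp

theorem comp_inj (s : k) : Function.Injective (fun f : k[X] => f.comp (X - C s)) := by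
  intro f g h
  have : ∀ f : k[X], (f.comp (X - C s)).comp (X + C s) = f := by
    intro f
    rw [comp_assoc]
    simp
  rw [← this f, ← this g]
  exact congrArg (fun f => f.comp (X + C s)) h

theorem aeval_shift_inj (s : k) :
    Function.Injective (aeval (ww k - algebraMap k (FF k) s) : k[X] →ₐ[k] FF k) := by
  intro f g h
  rw [aeval_shift', aeval_shift'] at h
  exact comp_inj s (aeval_ww_inj h)

/-- inversion -/
theorem aeval_reflect (N : ℕ) (f : k[X]) (hf : f.natDegree ≤ N) :
    aeval (ww k)⁻¹ (reflect N f) * ww k ^ N = aeval (ww k) f := by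
  let _ : Invertible (ww k) := invertibleOfNonzero ww_ne
  have := eval₂_reflect_mul_pow (algebraMap k (FF k)) (ww k) N f hf
  rw [invOf_eq_inv] at this
  exact this

theorem aeval_inv_inj : Function.Injective (aeval (ww k)⁻¹ : k[X] →ₐ[k] FF k) := by
  rw [injective_iff_map_eq_zero]
  intro f hf
  let _ : Invertible (ww k)⁻¹ := invertibleOfNonzero (inv_ne_zero ww_ne)
  have := eval₂_reflect_mul_pow (algebraMap k (FF k)) (ww k)⁻¹ f.natDegree f le_rfl
  rw [invOf_eq_inv, inv_inv] at this
  have h2 : aeval (ww k) (reflect f.natDegree f) * (ww k)⁻¹ ^ f.natDegree = aeval (ww k)⁻¹ f := this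
  rw [hf] at h2
  rcases mul_eq_zero.mp h2 with h | h
  · have h3 : reflect f.natDegree f = 0 := aeval_ww_inj (by rw [h, map_zero])
    exact reverse_eq_zero.mp h3
  · exact absurd h (pow_ne_zero _ (inv_ne_zero ww_ne))

section places

variable [CharZero k]

/-- uniformisers -/
def piP (k : Type) [Field k] : Option (Fin 11) → FF k
  | some i => ww k - algebraMap k (FF k) (lineS i : k)
  | none => (ww k)⁻¹

omit [CharZero k] in
theorem piP_inj (P : Option (Fin 11)) : Function.Injective (aeval (piP k P) : k[X] →ₐ[k] FF k) := by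
  rcases P with _ | i
  · exact aeval_inv_inj
  · exact aeval_shift_inj _

/-- the polynomial of the finite places -/
def DD (k : Type) [Field k] : k[X] := ∏ i : Fin 11, (X - C (lineS i : k))

omit [CharZero k] in
theorem DD_ne : DD k ≠ 0 := Finset.prod_ne_zero_iff.mpr (fun i _ => X_sub_C_ne_zero _)

omit [CharZero k] in
theorem DD_natDegree : (DD k).natDegree = 11 := by
  unfold DD
  rw [natDegree_prod_of_monic _ _ (fun i _ => monic_X_sub_C _),
    Finset.sum_congr rfl (fun i _ => natDegree_X_sub_C _)]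
  simp

/-- functions regular away from the places -/
def PlP (k : Type) [Field k] : Subalgebra k (FF k) where
  carrier := {φ | ∃ (N : ℕ) (f : k[X]), φ * aeval (ww k) (DD k) ^ N = aeval (ww k) f}
  mul_mem' := by
    rintro a b ⟨N, f, h⟩ ⟨M, g, h'⟩
    exact ⟨N + M, f * g, by rw [map_mul, ← h, ← h', pow_add]; ring⟩
  add_mem' := by
    rintro a b ⟨N, f, h⟩ ⟨M, g, h'⟩
    exact ⟨N + M, f * DD k ^ M + g * DD k ^ N, by
      rw [map_add, map_mul, map_mul, map_pow, map_pow, ← h, ← h', pow_add]; ring⟩
  algebraMap_mem' := by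
    intro r
    exact ⟨0, C r, by simp⟩

omit [CharZero k] in
theorem aeval_mem_PlP (f : k[X]) : aeval (ww k) f ∈ PlP k := ⟨0, f, by simp⟩

omit [CharZero k] in
theorem aeval_DD_ne : aeval (ww k) (DD k) ≠ 0 := by
  have h : DD k ≠ 0 := DD_ne
  generalize DD k = f at h
  exact aeval_ne_of (k := k) aeval_ww_inj h

omit [CharZero k] in
/-- the product of the other factors -/
theorem DD_eq (i : Fin 11) : DD k = (X - C (lineS i : k)) *
    ∏ j ∈ Finset.univ.erase i, (X - C (lineS j : k)) := by
  unfold DD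
  rw [Finset.mul_prod_erase _ (fun j => X - C (lineS j : k)) (Finset.mem_univ i)]

omit [CharZero k] in
theorem inv_mem_PlP_of_mul {f g : k[X]} (h : DD k = f * g) : (aeval (ww k) f)⁻¹ ∈ PlP k := by
  refine ⟨1, g, ?_⟩
  have hf : f ≠ 0 := by
    rintro rfl
    rw [zero_mul] at h
    exact DD_ne h
  have := aeval_ne_of (k := k) aeval_ww_inj hf
  rw [pow_one, h, map_mul]
  field_simp

theorem lineS_zero : (lineS 10 : k) = 0 := by
  have : lineS 10 = 0 := by decide
  rw [this]; simp

theorem piP_mem (P : Option (Fin 11)) : piP k P ∈ PlP k := by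
  rcases P with _ | i
  · have h := DD_eq (k := k) 10
    rw [lineS_zero, C_0, sub_zero] at h
    have := inv_mem_PlP_of_mul h
    rwa [aeval_X] at this
  · have := aeval_mem_PlP (k := k) (X - C (lineS i : k))
    rwa [map_sub, aeval_X, aeval_C] at this

omit [CharZero k] in
theorem piP_inv_mem (P : Option (Fin 11)) : (piP k P)⁻¹ ∈ PlP k := by
  rcases P with _ | i
  · have := aeval_mem_PlP (k := k) X
    rw [aeval_X] at this
    show (ww k)⁻¹⁻¹ ∈ _
    rwa [inv_inv]
  · have := inv_mem_PlP_of_mul (DD_eq (k := k) i)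
    rwa [map_sub, aeval_X, aeval_C] at this

theorem lineS_sub_ne {i j : Fin 11} (h : i ≠ j) : (lineS i : k) - lineS j ≠ 0 := by
  intro h1
  apply h
  apply lineS_inj
  have : (lineS i : k) = lineS j := by linear_combination h1
  exact_mod_cast this

theorem piP_inv_O (P Q : Option (Fin 11)) (h : P ≠ Q) : (piP k P)⁻¹ ∈ Op (k := k) (piP k Q) := by
  rcases P with _ | i
  · rcases Q with _ | j
    · exact absurd rfl h
    · show (ww k)⁻¹⁻¹ ∈ _
      rw [inv_inv]
      have := aeval_mem_Op (k := k) (piP k (some j)) (X + C (lineS j : k))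
      rw [map_add, aeval_X, aeval_C] at this
      rwa [show piP k (some j) + algebraMap k (FF k) (lineS j : k) = ww k by
        unfold piP; ring] at this
  · rcases Q with _ | j
    · refine ⟨X, 1 - C (lineS i : k) * X, by simp, ?_⟩
      have h1 : piP k (some i) ≠ 0 := π_ne_zero_of (piP_inj (some i))
      have h2 := ww_ne (k := k)
      simp only [map_sub, map_one, map_mul, aeval_X, aeval_C]
      show (piP k (some i))⁻¹ * (1 - algebraMap k (FF k) (lineS i : k) * (ww k)⁻¹) = (ww k)⁻¹
      have h3 : 1 - algebraMap k (FF k) (lineS i : k) * (ww k)⁻¹ = piP k (some i) * (ww k)⁻¹ := by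
        show _ = (ww k - algebraMap k (FF k) (lineS i : k)) * (ww k)⁻¹
        rw [sub_mul, mul_inv_cancel₀ h2]
      rw [h3, ← mul_assoc, inv_mul_cancel₀ h1, one_mul]
    · have hij : i ≠ j := fun h' => h (by rw [h'])
      have h1 : (X + C ((lineS j : k) - lineS i)).coeff 0 ≠ 0 := by
        simp only [coeff_add, coeff_X_zero, coeff_C_zero, zero_add]
        exact lineS_sub_ne (fun h' => hij h'.symm)
      have := inv_mem_Op (piP_inj (k := k) (some j)) h1
      rwa [map_add, aeval_X, aeval_C, map_sub, show piP k (some j) +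
        (algebraMap k (FF k) (lineS j : k) - algebraMap k (FF k) (lineS i : k)) =
        piP k (some i) by unfold piP; ring] at this

/-- local equations of the other places -/
def deltaP (k : Type) [Field k] : Option (Fin 11) → k[X]
  | some i => (∏ j ∈ Finset.univ.erase i, (X - C (lineS j : k))).comp (X + C (lineS i : k))
  | none => ∏ j : Fin 11, (1 - C (lineS j : k) * X)

theorem deltaP_zero (P : Option (Fin 11)) : (deltaP k P).coeff 0 ≠ 0 := by
  rcases P with _ | i
  · show (∏ j : Fin 11, (1 - C (lineS j : k) * X)).coeff 0 ≠ 0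
    rw [coeff_zero_eq_eval_zero, eval_prod]
    simp
  · show ((∏ j ∈ Finset.univ.erase i, (X - C (lineS j : k))).comp (X + C (lineS i : k))).coeff 0 ≠ 0
    rw [coeff_zero_eq_eval_zero, eval_comp, eval_prod, Finset.prod_ne_zero_iff]
    intro j hj
    simp only [eval_add, eval_X, eval_C, zero_add, eval_sub]
    exact lineS_sub_ne (Finset.ne_of_mem_erase hj).symm

omit [CharZero k] in
theorem aeval_deltaP_some (i : Fin 11) : aeval (piP k (some i)) (deltaP k (some i)) =
    aeval (ww k) (∏ j ∈ Finset.univ.erase i, (X - C (lineS j : k))) :=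
  aeval_shift _ _

omit [CharZero k] in
theorem aeval_deltaP_none : aeval (piP k none) (deltaP k none) =
    aeval (ww k) (DD k) * (ww k)⁻¹ ^ 11 := by
  show aeval (ww k)⁻¹ (∏ j : Fin 11, (1 - C (lineS j : k) * X)) = _
  have h2 := ww_ne (k := k)
  have h3 : (ww k)⁻¹ ^ 11 = ∏ _j : Fin 11, (ww k)⁻¹ := by simp
  unfold DD
  rw [map_prod, map_prod, h3, ← Finset.prod_mul_distrib]
  apply Finset.prod_congr rfl
  intro j _
  simp only [map_sub, map_one, map_mul, aeval_X, aeval_C]
  rw [sub_mul, mul_inv_cancel₀ h2]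

omit [CharZero k] in
theorem deltaP_inv (P : Option (Fin 11)) : (aeval (piP k P) (deltaP k P))⁻¹ ∈ PlP k := by
  rcases P with _ | i
  · rw [aeval_deltaP_none, mul_inv, inv_pow, inv_inv]
    apply (PlP k).mul_mem
    · exact inv_mem_PlP_of_mul (f := DD k) (g := 1) (by rw [mul_one])
    · have := aeval_mem_PlP (k := k) (X ^ 11)
      rwa [map_pow, aeval_X] at this
  · rw [aeval_deltaP_some]
    exact inv_mem_PlP_of_mul (by rw [mul_comm]; exact DD_eq (k := k) i)

omit [CharZero k] in
theorem presP (P : Option (Fin 11)) (φ : FF k) (hφ : φ ∈ PlP k) : ∃ (N : ℕ) (f : k[X]),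
    φ * (piP k P * aeval (piP k P) (deltaP k P)) ^ N = aeval (piP k P) f := by
  obtain ⟨N, f, h⟩ := hφ
  rcases P with _ | i
  · have h2 := ww_ne (k := k)
    have hdeg : (f * DD k ^ f.natDegree).natDegree ≤ 12 * (N + f.natDegree) := by
      refine natDegree_mul_le.trans ?_
      have := natDegree_pow_le (p := DD k) (n := f.natDegree)
      rw [DD_natDegree] at this
      omega
    refine ⟨N + f.natDegree, reflect (12 * (N + f.natDegree)) (f * DD k ^ f.natDegree), ?_⟩
    have h3 := aeval_reflect (k := k) _ _ hdeg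
    show φ * ((ww k)⁻¹ * aeval (piP k none) (deltaP k none)) ^ (N + f.natDegree) =
      aeval (ww k)⁻¹ (reflect (12 * (N + f.natDegree)) (f * DD k ^ f.natDegree))
    rw [aeval_deltaP_none]
    have h4 : aeval (ww k)⁻¹ (reflect (12 * (N + f.natDegree)) (f * DD k ^ f.natDegree)) =
        aeval (ww k) (f * DD k ^ f.natDegree) * (ww k)⁻¹ ^ (12 * (N + f.natDegree)) := by
      rw [← h3, mul_assoc, ← mul_pow, mul_inv_cancel₀ h2, one_pow, mul_one]
    rw [h4, map_mul, map_pow, ← h]
    rw [show (ww k)⁻¹ ^ (12 * (N + f.natDegree)) = ((ww k)⁻¹ * (ww k)⁻¹ ^ 11) ^ (N + f.natDegree) by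
      rw [← pow_succ', ← pow_mul]]
    rw [show (ww k)⁻¹ * (aeval (ww k) (DD k) * (ww k)⁻¹ ^ 11) =
      aeval (ww k) (DD k) * ((ww k)⁻¹ * (ww k)⁻¹ ^ 11) by ring, mul_pow, pow_add]
    ring
  · refine ⟨N, f.comp (X + C (lineS i : k)), ?_⟩
    have h1 : piP k (some i) * aeval (piP k (some i)) (deltaP k (some i)) =
        aeval (ww k) (DD k) := by
      rw [aeval_deltaP_some, DD_eq i, map_mul, map_sub, aeval_X, aeval_C]
      rfl
    rw [h1, h]
    exact (aeval_shift _ _).symm

theorem poleP (P : Option (Fin 11)) (φ : FF k) (hφ : φ ∈ PlP k) :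
    ∃ N : ℕ, φ * piP k P ^ N ∈ Op (k := k) (piP k P) := by
  obtain ⟨N, f, h⟩ := presP P φ hφ
  refine ⟨N, f, deltaP k P ^ N, ?_, ?_⟩
  · rw [coeff_zero_eq_eval_zero, eval_pow, ← coeff_zero_eq_eval_zero]
    exact pow_ne_zero _ (deltaP_zero P)
  · rw [← h, map_pow, mul_pow]; ring

theorem constP (φ : FF k) (hφ : φ ∈ PlP k) (h : ∀ P, φ ∈ Op (k := k) (piP k P)) :
    ∃ c : k, algebraMap k (FF k) c = φ := by
  obtain ⟨N, f, hf⟩ := hφ
  -- remove the denominators
  have h1 : ∀ (N : ℕ) (f : k[X]), φ * aeval (ww k) (DD k) ^ N = aeval (ww k) f →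
      ∃ g : k[X], φ = aeval (ww k) g := by
    intro N
    induction N with
    | zero => intro f hf; exact ⟨f, by rw [pow_zero, mul_one] at hf; exact hf⟩
    | succ N ih =>
      intro f hf
      have h2 : DD k ∣ f := by
        unfold DD
        apply Finset.prod_dvd_of_coprime
        · intro i _ j _ hij
          apply isCoprime_X_sub_C_of_isUnit_sub
          rw [isUnit_iff_ne_zero]
          exact lineS_sub_ne hij
        · intro i _
          obtain ⟨a, b, hb, hab⟩ := h (some i)
          rw [dvd_iff_isRoot, IsRoot.def]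
          have h3 : f * b.comp (X - C (lineS i : k)) =
              a.comp (X - C (lineS i : k)) * DD k ^ (N + 1) := by
            apply aeval_ww_inj
            rw [map_mul, map_mul, map_pow, ← aeval_shift', ← aeval_shift', ← hf]
            have : φ * aeval (ww k - algebraMap k (FF k) (lineS i : k)) b =
              aeval (ww k - algebraMap k (FF k) (lineS i : k)) a := hab
            rw [← this]; ring
          have h4 := congrArg (eval (lineS i : k)) h3
          rw [eval_mul, eval_mul, eval_pow, eval_comp, eval_sub, eval_X, eval_C, sub_self,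
            ← coeff_zero_eq_eval_zero] at h4
          have h5 : eval (lineS i : k) (DD k) = 0 := by
            rw [DD_eq i, eval_mul, eval_sub, eval_X, eval_C, sub_self, zero_mul]
          rw [h5, zero_pow (Nat.succ_ne_zero N), mul_zero] at h4
          exact (mul_eq_zero.mp h4).resolve_right hb
      obtain ⟨f', rfl⟩ := h2
      apply ih f'
      rw [map_mul, pow_succ, ← mul_assoc, mul_comm] at hf
      exact mul_left_cancel₀ aeval_DD_ne hf
  obtain ⟨g, rfl⟩ := h1 N f hf
  obtain ⟨a, b, hb, hab⟩ := h none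
  have hab' : aeval (ww k) g * aeval (ww k)⁻¹ b = aeval (ww k)⁻¹ a := hab
  have h2 := ww_ne (k := k)
  have h3 := aeval_reflect (k := k) g.natDegree g le_rfl
  have h4 : reflect g.natDegree g * b = X ^ g.natDegree * a := by
    apply aeval_inv_inj
    rw [map_mul, map_mul, map_pow, aeval_X, ← hab', ← h3]
    rw [show (ww k)⁻¹ ^ g.natDegree * (aeval (ww k)⁻¹ (reflect g.natDegree g) *
      ww k ^ g.natDegree * aeval (ww k)⁻¹ b) = ((ww k)⁻¹ * ww k) ^ g.natDegree *
      (aeval (ww k)⁻¹ (reflect g.natDegree g) * aeval (ww k)⁻¹ b) by rw [mul_pow]; ring,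
      inv_mul_cancel₀ h2, one_pow, one_mul]
  have h5 : g.natDegree = 0 := by
    by_contra hne
    have h6 := congrArg (fun f => f.coeff 0) h4
    simp only [mul_coeff_zero] at h6
    rw [coeff_X_pow, if_neg (fun h => hne h.symm), zero_mul] at h6
    rcases mul_eq_zero.mp h6 with h7 | h7
    · have h8 : g.leadingCoeff = 0 := by
        rw [← coeff_zero_reverse]; exact h7
      rw [leadingCoeff_eq_zero] at h8
      rw [h8] at hne
      simp at hne
    · exact hb h7
  refine ⟨g.coeff 0, ?_⟩
  conv_rhs => rw [eq_C_of_natDegree_eq_zero h5]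
  rw [aeval_C]

theorem coverP (V : ValuationSubring (FF k)) (hk : ∀ c : k, algebraMap k (FF k) c ∈ V) :
    ∃ P, piP k P ∈ V ∧ (aeval (piP k P) (deltaP k P))⁻¹ ∈ V := by
  have hunit : ∀ c : k, c ≠ 0 → V.valuation (algebraMap k (FF k) c) = 1 := by
    intro c hc
    apply le_antisymm
    · exact (V.valuation_le_one_iff _).mpr (hk c)
    · have h1 := (V.valuation_le_one_iff _).mpr (hk c⁻¹)
      rw [map_inv₀, map_inv₀] at h1
      have h2 : V.valuation (algebraMap k (FF k) c) ≠ 0 := by
        rw [Valuation.ne_zero_iff]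
        rwa [Ne, map_eq_zero]
      exact (inv_le_one₀ (zero_lt_iff.mpr h2)).mp h1
  by_cases hw : ww k ∈ V
  · have hmem : ∀ i, piP k (some i) ∈ V := fun i => sub_mem hw (hk _)
    by_cases hex : ∃ i, (piP k (some i))⁻¹ ∉ V
    · obtain ⟨i, hi⟩ := hex
      refine ⟨some i, hmem i, ?_⟩
      rw [aeval_deltaP_some, map_prod, ← Finset.prod_inv_distrib]
      have hlt : V.valuation (piP k (some i)) < 1 :=
        (V.mem_nonunits_iff_or).mpr (Or.inr hi)
      apply prod_mem
      intro j hj
      rw [map_sub, aeval_X, aeval_C]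
      by_contra hj'
      have hlt' : V.valuation (piP k (some j)) < 1 :=
        (V.mem_nonunits_iff_or).mpr (Or.inr hj')
      have h1 := Valuation.map_sub_lt _ hlt hlt'
      have h2 : piP k (some i) - piP k (some j) =
          algebraMap k (FF k) ((lineS j : k) - lineS i) := by
        rw [map_sub]; unfold piP; ring
      rw [h2, hunit _ (lineS_sub_ne (Finset.ne_of_mem_erase hj))] at h1
      exact lt_irrefl _ h1
    · push Not at hex
      refine ⟨some 0, hmem 0, ?_⟩
      rw [aeval_deltaP_some, map_prod, ← Finset.prod_inv_distrib]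
      apply prod_mem
      intro j _
      rw [map_sub, aeval_X, aeval_C]
      exact hex j
  · have hw' : (ww k)⁻¹ ∈ V := (V.mem_or_inv_mem (ww k)).resolve_left hw
    refine ⟨none, hw', ?_⟩
    have hlt : V.valuation (ww k)⁻¹ < 1 := by
      apply (V.mem_nonunits_iff_or).mpr
      right
      rwa [inv_inv]
    show (aeval (ww k)⁻¹ (∏ j : Fin 11, (1 - C (lineS j : k) * X)))⁻¹ ∈ V
    rw [map_prod, ← Finset.prod_inv_distrib]
    apply prod_mem
    intro j _
    simp only [map_sub, map_one, map_mul, aeval_X, aeval_C]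
    rw [← V.valuation_le_one_iff, map_inv₀, Valuation.map_one_sub_of_lt, inv_one]
    rw [map_mul]
    have h1 : V.valuation (algebraMap k (FF k) (lineS j : k)) ≤ 1 :=
      (V.valuation_le_one_iff _).mpr (hk _)
    exact mul_lt_one_of_nonneg_of_lt_one_right h1 (zero_le) hlt

omit [CharZero k] in
theorem fracP (P : Option (Fin 11)) (φ : FF k) : ∃ f g : k[X], g ≠ 0 ∧
    φ * aeval (piP k P) g = aeval (piP k P) f := by
  obtain ⟨a, b, hb, rfl⟩ := IsFractionRing.div_surjective (A := k[X]) φ
  have hb0 : b ≠ 0 := nonZeroDivisors.ne_zero hb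
  rw [← aeval_ww, ← aeval_ww]
  have hb1 := aeval_ne_of (k := k) aeval_ww_inj hb0
  rcases P with _ | i
  · refine ⟨reflect (a.natDegree + b.natDegree) a, reflect (a.natDegree + b.natDegree) b, ?_, ?_⟩
    · intro h
      rw [reflect_eq_zero_iff] at h
      exact hb0 h
    · have h1 := aeval_reflect (k := k) (a.natDegree + b.natDegree) a (by omega)
      have h2 := aeval_reflect (k := k) (a.natDegree + b.natDegree) b (by omega)
      show aeval (ww k) a / aeval (ww k) b * aeval (ww k)⁻¹ _ = aeval (ww k)⁻¹ _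
      have h3 := ww_ne (k := k)
      rw [div_mul_eq_mul_div, div_eq_iff hb1, ← h1, ← h2]
      ring
  · refine ⟨a.comp (X + C (lineS i : k)), b.comp (X + C (lineS i : k)), ?_, ?_⟩
    · intro h
      apply hb1
      rw [← aeval_shift (lineS i : k), h, map_zero]
    · show _ * aeval (ww k - algebraMap k (FF k) (lineS i : k)) _ = aeval (ww k - _) _
      rw [aeval_shift, aeval_shift, div_mul_cancel₀ _ hb1]

/-- lengths of the arms -/
def nP : Option (Fin 11) → ℕ
  | some i => (LL i).card - 1
  | none => 1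

theorem nP_pos (P : Option (Fin 11)) : 0 < nP P := by
  rcases P with _ | i
  · exact Nat.one_pos
  · have : ∀ i, 0 < (LL i).card - 1 := by decide +kernel
    exact this i

/-- the star -/
def theStar (k : Type) [Field k] [CharZero k] : LStar k (FF k) (Option (Fin 11)) where
  Pl := PlP k
  O := fun P => Op (k := k) (piP k P)
  π := piP k
  n := nP
  n_pos := nP_pos
  π_ne := fun P => π_ne_zero_of (k := k) (piP_inj P)
  π_mem := piP_mem
  π_inv_mem := piP_inv_mem
  π_mem_O := fun P => self_mem_Op (k := k) (piP k P)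
  π_inv_O := piP_inv_O
  res := fun P _ hx => res_Op (k := k) (π := piP k P) (piP_inj P) hx
  pole := poleP
  const := constP
  δ := deltaP k
  δ_zero := deltaP_zero
  δ_inv := deltaP_inv
  pres := presP
  transc := piP_inj
  unit := fun P _ hf => inv_mem_Op (k := k) (π := piP k P) (piP_inj P) hf
  inv_not_mem := fun P => inv_not_mem_Op (k := k) (π := piP k P) (piP_inj P)
  cover := coverP
  frac := fracP

end places

end

end Pool.Agent.J6H82.Kollar
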