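import Pool.Agent.J6H82.Kollar.Central

/-!
# Smoothness: reduction to charts
-/

namespace Pool.Agent.J6H82.Kollar

noncomputable section

set_option maxHeartbeats 400000

open MvPolynomial

variable {k : Type} [Field k]

/-- localisation of a subalgebra of a field at the powers of an element -/
def locA {K : Type*} [Field K] [Algebra k K] (T : Subalgebra k K) (f : K) (hf : f ∈ T) :
    Subalgebra k K where
  carrier := {x | ∃ n : ℕ, x * f ^ n ∈ T}
  mul_mem' := by
    rintro x y ⟨n, h⟩ ⟨m, h'⟩
    refine ⟨n + m, ?_⟩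
    have := T.mul_mem h h'
    rwa [show x * f ^ n * (y * f ^ m) = x * y * f ^ (n + m) by rw [pow_add]; ring] at this
  add_mem' := by
    rintro x y ⟨n, h⟩ ⟨m, h'⟩
    refine ⟨n + m, ?_⟩
    have := T.add_mem (T.mul_mem h (T.pow_mem hf m)) (T.mul_mem h' (T.pow_mem hf n))
    rwa [show x * f ^ n * f ^ m + y * f ^ m * f ^ n = (x + y) * f ^ (n + m) by
      rw [pow_add]; ring] at this
  algebraMap_mem' := by
    intro r
    exact ⟨0, by rw [pow_zero, mul_one]; exact T.algebraMap_mem r⟩

section locA

variable {K : Type*} [Field K] [Algebra k K] {T : Subalgebra k K} {f : K} {hf : f ∈ T}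

theorem mem_locA {x : K} : x ∈ locA T f hf ↔ ∃ n : ℕ, x * f ^ n ∈ T := Iff.rfl

theorem le_locA : T ≤ locA T f hf := fun x hx => ⟨0, by rwa [pow_zero, mul_one]⟩

theorem inv_mem_locA {a b : K} (ha : a ≠ 0) (hb : b ∈ T) (h : a * b = f) : a⁻¹ ∈ locA T f hf := by
  refine ⟨1, ?_⟩
  rw [pow_one, ← h, ← mul_assoc, inv_mul_cancel₀ ha, one_mul]
  exact hb

end locA

/-- the inclusion of the polynomials in the last variable is smooth -/
theorem smooth_X2 (k : Type) [Field k] :
    RingHom.Smooth (Polynomial.aeval (X 2 : P3 k) : Polynomial k →ₐ[k] P3 k).toRingHom := by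
  have h1 : RingHom.Smooth (algebraMap (Polynomial k) (MvPolynomial (Fin 2) (Polynomial k))) := by
    rw [RingHom.smooth_algebraMap]
    exact ⟨inferInstance, inferInstance⟩
  let e : MvPolynomial (Fin 2) (Polynomial k) ≃ₐ[k] P3 k :=
    ((renameEquiv k (finSuccEquivLast (n := 2))).trans (optionEquivRight k (Fin 2))).symm
  have h2 : RingHom.Smooth (e : MvPolynomial (Fin 2) (Polynomial k) →+* P3 k) :=
    RingHom.Smooth.of_bijective e.bijective
  have h3 := h1.comp h2
  have h4 : (Polynomial.aeval (X 2 : P3 k) : Polynomial k →ₐ[k] P3 k).toRingHom =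
      (e : MvPolynomial (Fin 2) (Polynomial k) →+* P3 k).comp
        (algebraMap (Polynomial k) (MvPolynomial (Fin 2) (Polynomial k))) := by
    apply Polynomial.ringHom_ext
    · intro c
      show Polynomial.aeval (X 2 : P3 k) (Polynomial.C c) = e (C (Polynomial.C c))
      rw [Polynomial.aeval_C]
      have : (C (Polynomial.C c) : MvPolynomial (Fin 2) (Polynomial k)) =
          algebraMap k (MvPolynomial (Fin 2) (Polynomial k)) c := by
        rw [MvPolynomial.algebraMap_apply]; rfl
      rw [this, AlgEquiv.commutes]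
    · show Polynomial.aeval (X 2 : P3 k) Polynomial.X = e (C Polynomial.X)
      rw [Polynomial.aeval_X]
      symm
      rw [AlgEquiv.symm_apply_eq]
      show C Polynomial.X = optionEquivRight k (Fin 2) (rename _ (X 2))
      have h5 : finSuccEquivLast (n := 2) (2 : Fin 3) = none := finSuccEquivLast_last
      rw [rename_X, h5, optionEquivRight_X_none]
  rw [h4]
  exact h3

variable [CharZero k]

/-- the structure morphism of the family -/
def gHom (k : Type) [Field k] [CharZero k] : Polynomial k →ₐ[k] AA k := Polynomial.aeval (gZ k)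

/-- **Chart criterion.** -/
theorem smooth_chart (θ : P3 k →ₐ[k] KK k) (hinj : Function.Injective θ)
    (hZ : θ (X 2) = inc (X 2)) (r : AA k) (H : P3 k) (hr : (gZ k * r : AA k) ≠ 0)
    (hH : X 2 * H ≠ 0)
    (hB : ∀ x : KK k, (∃ n : ℕ, x * ((gZ k * r : AA k) : KK k) ^ n ∈ AA k) ↔
      ∃ (n : ℕ) (F : P3 k), x * θ (X 2 * H) ^ n = θ F) :
    RingHom.Smooth ((algebraMap (Localization.Away (gZ k))
      (Localization.Away (algebraMap (AA k) (Localization.Away (gZ k)) r))).comp
      ((algebraMap (AA k) (Localization.Away (gZ k))).comp (gHom k).toRingHom)) := by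
  let f : KK k := ((gZ k * r : AA k) : KK k)
  have hfA : f ∈ AA k := (gZ k * r : AA k).2
  have hf0 : f ≠ 0 := fun h => hr (Subtype.ext h)
  let B := locA (AA k) f hfA
  -- the structure of algebra over `AA`
  let _ : Algebra (AA k) B := (Subalgebra.inclusion (le_locA : AA k ≤ B)).toRingHom.toAlgebra
  have hmapA : ∀ a : AA k, ((algebraMap (AA k) B a : B) : KK k) = a := fun _ => rfl
  have hlocA : IsLocalization.Away (gZ k * r) B := by
    apply IsLocalization.Away.mk
    · refine IsUnit.of_mul_eq_one ⟨f⁻¹, ⟨1, ?_⟩⟩ ?_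
      · rw [pow_one, inv_mul_cancel₀ hf0]; exact (AA k).one_mem
      · apply Subtype.ext
        show f * f⁻¹ = 1
        exact mul_inv_cancel₀ hf0
    · rintro ⟨x, n, hx⟩
      exact ⟨n, ⟨_, hx⟩, Subtype.ext rfl⟩
    · intro a b h
      refine ⟨0, ?_⟩
      have h' : ((algebraMap (AA k) B a : B) : KK k) = ((algebraMap (AA k) B b : B) : KK k) := by
        rw [h]
      have : a = b := Subtype.ext h'
      rw [this]
  -- the structure of algebra over the polynomial ring
  have hθB : ∀ F : P3 k, θ F ∈ B := by
    intro F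
    exact (hB _).mpr ⟨0, F, by rw [pow_zero, mul_one]⟩
  let θB : P3 k →ₐ[k] B := θ.codRestrict B hθB
  have hθinj : Function.Injective θB := by
    intro a b h
    exact hinj (congrArg Subtype.val h)
  have hθ0 : θ (X 2 * H) ≠ 0 := by
    rwa [Ne, map_eq_zero_iff _ hinj]
  have hsm2 : RingHom.Smooth θB.toRingHom := by
    let _ : Algebra (P3 k) B := θB.toRingHom.toAlgebra
    have hloc : IsLocalization.Away (X 2 * H) B := by
      apply IsLocalization.Away.mk
      · refine IsUnit.of_mul_eq_one ⟨(θ (X 2 * H))⁻¹, (hB _).mpr ⟨1, 1, ?_⟩⟩ ?_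
        · rw [pow_one, inv_mul_cancel₀ hθ0, map_one]
        · apply Subtype.ext
          show θ (X 2 * H) * (θ (X 2 * H))⁻¹ = 1
          exact mul_inv_cancel₀ hθ0
      · rintro ⟨x, hx⟩
        obtain ⟨n, F, h⟩ := (hB x).mp hx
        exact ⟨n, F, Subtype.ext h⟩
      · intro a b h
        refine ⟨0, ?_⟩
        have : a = b := hθinj h
        rw [this]
    have : Algebra.Smooth (P3 k) B := Algebra.Smooth.of_isLocalization_Away (X 2 * H)
    exact this
  have hsm : RingHom.Smooth ((algebraMap (AA k) B).comp (gHom k).toRingHom) := by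
    have h1 := (smooth_X2 k).comp hsm2
    have h2 : (algebraMap (AA k) B).comp (gHom k).toRingHom = θB.toRingHom.comp
        (Polynomial.aeval (X 2 : P3 k) : Polynomial k →ₐ[k] P3 k).toRingHom := by
      apply Polynomial.ringHom_ext
      · intro c
        apply Subtype.ext
        show ((Polynomial.aeval (gZ k) (Polynomial.C c) : AA k) : KK k) =
          θ (Polynomial.aeval (X 2 : P3 k) (Polynomial.C c))
        rw [Polynomial.aeval_C, Polynomial.aeval_C, AlgHom.commutes]
        rfl
      · apply Subtype.ext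
        show ((Polynomial.aeval (gZ k) Polynomial.X : AA k) : KK k) =
          θ (Polynomial.aeval (X 2 : P3 k) Polynomial.X)
        rw [Polynomial.aeval_X, Polynomial.aeval_X, hZ]
        rfl
    rw [h2]
    exact h1
  -- compare the two localisations
  let e : B ≃ₐ[AA k] Localization.Away (algebraMap (AA k) (Localization.Away (gZ k)) r) :=
    IsLocalization.algEquiv (Submonoid.powers (gZ k * r)) _ _
  have h3 : RingHom.Smooth (e : B →+* Localization.Away
      (algebraMap (AA k) (Localization.Away (gZ k)) r)) :=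
    RingHom.Smooth.of_bijective e.bijective
  have h4 := hsm.comp h3
  have h5 : (algebraMap (Localization.Away (gZ k))
      (Localization.Away (algebraMap (AA k) (Localization.Away (gZ k)) r))).comp
      ((algebraMap (AA k) (Localization.Away (gZ k))).comp (gHom k).toRingHom) =
      (e : B →+* Localization.Away (algebraMap (AA k) (Localization.Away (gZ k)) r)).comp
        ((algebraMap (AA k) B).comp (gHom k).toRingHom) := by
    rw [← RingHom.comp_assoc, ← RingHom.comp_assoc]
    congr 1
    ext a
    show algebraMap _ _ (algebraMap _ _ a) = e (algebraMap (AA k) B a)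
    rw [AlgEquiv.commutes, ← IsScalarTower.algebraMap_apply]
  rw [h5]
  exact h4

end

end Pool.Agent.J6H82.Kollar
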