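import Pool.Agent.J6H82.Kollar.Sm1

/-!
# Smoothness: the charts
-/

namespace Pool.Agent.J6H82.Kollar

noncomputable section

set_option maxHeartbeats 400000

open MvPolynomial

variable {k : Type} [Field k] [CharZero k]

/-! ## the chart away from the lines -/

theorem chart_none (x : KK k) :
    (∃ n : ℕ, x * ((gZ k * ⟨inc (Le k 1), inc_mem_AA _⟩ : AA k) : KK k) ^ n ∈ AA k) ↔
      ∃ (n : ℕ) (F : P3 k), x * inc (X 2 * Le k 1) ^ n = inc F := by
  have h0 : ((gZ k * ⟨inc (Le k 1), inc_mem_AA _⟩ : AA k) : KK k) = inc (X 2 * Le k 1) := by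
    rw [map_mul]; rfl
  rw [h0]
  constructor
  · rintro ⟨n, h⟩
    obtain ⟨e, F, hF⟩ := (mem_AA.mp h).1
    -- a common exponent
    obtain ⟨M, e', he⟩ : ∃ (M : ℕ) (e' : Fin 11 → ℕ), e + e' = fun _ => M := by
      refine ⟨∑ i, e i, fun i => ∑ j, e j - e i, ?_⟩
      ext i
      have : e i ≤ ∑ j, e j := Finset.single_le_sum (fun _ _ => Nat.zero_le _) (Finset.mem_univ i)
      simp only [Pi.add_apply]
      omega
    have h1 : Le k 1 ^ M = Le k e * Le k e' := by
      rw [← Le_add, he]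
      unfold Le
      rw [← Finset.prod_pow]
      simp
    refine ⟨n + M, F * X 2 ^ M * Le k e', ?_⟩
    have h2 : inc (X 2 * Le k 1) ^ M = inc (Le k e) * (inc (X 2 ^ M) * inc (Le k e')) := by
      rw [← map_pow, mul_pow, h1, map_mul, map_mul]; ring
    rw [pow_add, h2, map_mul inc (F * X 2 ^ M), map_mul inc F, ← hF]
    ring
  · rintro ⟨n, F, h⟩
    exact ⟨n, by rw [h]; exact inc_mem_AA F⟩

/-! ## the chart at a point -/

/-- the cofactor of `al (xs p)` in the product `PP i` -/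
def cof (k : Type) [Field k] [CharZero k] (p : Fin 37) (i : Fin 11) : P3 k :=
  ∏ q ∈ (LL i).erase p, al (xs k q)

theorem al_mul_cof {p : Fin 37} {i : Fin 11} (h : OnI i p) : al (xs k p) * cof k p i = PP k i := by
  unfold cof PP
  exact Finset.mul_prod_erase _ (fun q => al (xs k q)) (by simp [LL, h])

/-- the element defining the chart at `p` -/
def hp (k : Type) [Field k] [CharZero k] (p : Fin 37) : P3 k :=
  ∏ i, if OnI i p then cof k p i else ell k i

theorem cof_dvd_hp {p : Fin 37} {i : Fin 11} (h : OnI i p) : ∃ G : P3 k, cof k p i * G = hp k p := by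
  classical
  refine ⟨∏ j ∈ Finset.univ.erase i, if OnI j p then cof k p j else ell k j, ?_⟩
  unfold hp
  rw [← Finset.mul_prod_erase _ _ (Finset.mem_univ i), if_pos h]

theorem ell_dvd_hp {p : Fin 37} {i : Fin 11} (h : ¬ OnI i p) :
    ∃ G : P3 k, ell k i * G = hp k p := by
  classical
  refine ⟨∏ j ∈ Finset.univ.erase i, if OnI j p then cof k p j else ell k j, ?_⟩
  unfold hp
  rw [← Finset.mul_prod_erase _ _ (Finset.mem_univ i), if_neg h]

theorem cof_ne (p : Fin 37) (i : Fin 11) : cof k p i ≠ 0 :=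
  Finset.prod_ne_zero_iff.mpr (fun _ _ => al_ne _)

theorem hp_ne (p : Fin 37) : hp k p ≠ 0 := by
  apply Finset.prod_ne_zero_iff.mpr
  intro i _
  split_ifs
  · exact cof_ne p i
  · exact ell_ne i

/-- the slope coordinate -/
def bb (k : Type) [Field k] [CharZero k] (p : Fin 37) (i : Fin 11) : KK k :=
  inc (al (xs k p)) / inc (ell k i)

/-- the coordinates of the chart -/
def thc (k : Type) [Field k] [CharZero k] (p : Fin 37) (i : Fin 11) : P3 k →ₐ[k] KK k :=
  aeval ![inc (ell k i), bb k p i, inc (X 2)]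

@[simp] theorem thc_X0 (p : Fin 37) (i : Fin 11) : thc k p i (X 0) = inc (ell k i) := by simp [thc]
@[simp] theorem thc_X1 (p : Fin 37) (i : Fin 11) : thc k p i (X 1) = bb k p i := by simp [thc]
@[simp] theorem thc_X2 (p : Fin 37) (i : Fin 11) : thc k p i (X 2) = inc (X 2) := by simp [thc]
theorem thc_C (p : Fin 37) (i : Fin 11) (c : k) : thc k p i (C c) = inc (C c) := by
  rw [← MvPolynomial.algebraMap_eq, AlgHom.commutes, AlgHom.commutes]

/-- the inverse substitution -/
def tauc (k : Type) [Field k] [CharZero k] (p : Fin 37) (i : Fin 11) : P3 k →ₐ[k] P3 k :=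
  aeval ![X 0 * X 1 + C (xs k p) * X 2, C (ys k p) * X 2 + X 0 * (1 + C (lineS i : k) * X 1), X 2]

@[simp] theorem tauc_X0 (p : Fin 37) (i : Fin 11) :
    tauc k p i (X 0) = X 0 * X 1 + C (xs k p) * X 2 := by simp [tauc]
@[simp] theorem tauc_X1 (p : Fin 37) (i : Fin 11) :
    tauc k p i (X 1) = C (ys k p) * X 2 + X 0 * (1 + C (lineS i : k) * X 1) := by simp [tauc]
@[simp] theorem tauc_X2 (p : Fin 37) (i : Fin 11) : tauc k p i (X 2) = X 2 := by simp [tauc]
@[simp] theorem tauc_C (p : Fin 37) (i : Fin 11) (c : k) : tauc k p i (C c) = C c := by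
  rw [← MvPolynomial.algebraMap_eq, AlgHom.commutes]

theorem ell_mul_bb (p : Fin 37) (i : Fin 11) : inc (ell k i) * bb k p i = inc (al (xs k p)) := by
  unfold bb
  rw [mul_div_cancel₀ _ (inc_ne (ell_ne i))]

theorem thc_tauc {p : Fin 37} {i : Fin 11} (h : OnI i p) (F : P3 k) :
    thc k p i (tauc k p i F) = inc F := by
  have hy := (onI_iff (k := k) i p).mp h
  have : (thc k p i).comp (tauc k p i) = inc := by
    apply algHom_ext3
    · simp only [AlgHom.comp_apply, tauc_X0, map_add, map_mul, thc_X0, thc_X1, thc_X2, thc_C]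
      rw [ell_mul_bb, ← map_mul, ← map_add]
      congr 1
      unfold al; ring
    · simp only [AlgHom.comp_apply, tauc_X1, map_add, map_mul, thc_X0, thc_X1, thc_X2, thc_C,
        map_one]
      rw [mul_add, mul_one, show inc (ell k i) * (inc (C (lineS i : k)) * bb k p i) =
        inc (C (lineS i : k)) * (inc (ell k i) * bb k p i) by ring, ell_mul_bb]
      rw [← map_mul, ← map_mul, ← map_add, ← map_add]
      congr 1
      unfold ell al
      rw [hy]
      simp only [map_add, map_mul]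
      ring
    · simp only [AlgHom.comp_apply, tauc_X2, thc_X2]
  exact congrArg (fun f => f F) this

theorem tauc_ell {p : Fin 37} {i j : Fin 11} (h : OnI i p) (hj : OnI j p) :
    tauc k p i (ell k j) = X 0 * (1 + C ((lineS i : k) - lineS j) * X 1) := by
  have hy := (onI_iff (k := k) j p).mp hj
  unfold ell
  simp only [map_sub, map_mul, tauc_X0, tauc_X1, tauc_X2, tauc_C]
  rw [hy]
  simp only [map_add, map_mul]
  ring

theorem tauc_al (p : Fin 37) (i : Fin 11) : tauc k p i (al (xs k p)) = X 0 * X 1 := by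
  unfold al
  simp only [map_sub, map_mul, tauc_X0, tauc_X2, tauc_C]
  ring

theorem exists_tauc {p : Fin 37} {i : Fin 11} (h : OnI i p) (F : P3 k) :
    ∃ (N : ℕ) (G : P3 k), X 0 ^ N * F = tauc k p i G := by
  have h0 : tauc k p i (ell k i) = X 0 := by
    rw [tauc_ell h h, sub_self]; simp
  induction F using MvPolynomial.induction_on with
  | C c => exact ⟨0, C c, by simp⟩
  | add f g hf hg =>
    obtain ⟨N, G, hG⟩ := hf
    obtain ⟨M, G', hG'⟩ := hg
    refine ⟨N + M, ell k i ^ M * G + ell k i ^ N * G', ?_⟩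
    rw [map_add, map_mul, map_mul, map_pow, map_pow, h0, ← hG, ← hG']
    ring
  | mul_X f j hf =>
    obtain ⟨N, G, hG⟩ := hf
    fin_cases j
    · refine ⟨N, G * ell k i, ?_⟩
      rw [map_mul, h0, ← hG]
      simp only [Fin.zero_eta]; ring
    · refine ⟨N + 1, G * al (xs k p), ?_⟩
      rw [map_mul, tauc_al, ← hG]
      simp only [Fin.mk_one]; ring
    · refine ⟨N, G * X 2, ?_⟩
      rw [map_mul, tauc_X2, ← hG]
      simp only [Fin.reduceFinMk]; ring

theorem thc_inj {p : Fin 37} {i : Fin 11} (h : OnI i p) : Function.Injective (thc k p i) := by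
  rw [injective_iff_map_eq_zero]
  intro F hF
  obtain ⟨N, G, hG⟩ := exists_tauc h F
  have h1 : thc k p i (X 0 ^ N * F) = 0 := by rw [map_mul, hF, mul_zero]
  rw [hG, thc_tauc h, map_eq_zero_iff _ inc_inj] at h1
  rw [h1, map_zero] at hG
  rcases mul_eq_zero.mp hG with h | h
  · exact absurd h (pow_ne_zero N (X_ne_zero 0))
  · exact h

/-- the units appearing on the chart -/
def cu (k : Type) [Field k] [CharZero k] (i j : Fin 11) : P3 k :=
  1 + C ((lineS i : k) - lineS j) * X 1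

theorem cu_ne (i j : Fin 11) : cu k i j ≠ 0 := by
  intro h
  have := congrArg (MvPolynomial.eval ![0, 0, 0]) h
  simp [cu] at this

/-- the polynomial defining the chart in its coordinates -/
def HH (k : Type) [Field k] [CharZero k] (p : Fin 37) (i : Fin 11) : P3 k :=
  tauc k p i (hp k p) * ∏ j, if OnI j p then cu k i j else 1

theorem HH_ne {p : Fin 37} {i : Fin 11} (h : OnI i p) : HH k p i ≠ 0 := by
  unfold HH
  apply mul_ne_zero
  · intro h1
    have h2 := thc_tauc h (hp k p)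
    rw [h1, map_zero] at h2
    exact inc_ne (hp_ne p) h2.symm
  · apply Finset.prod_ne_zero_iff.mpr
    intro j _
    split_ifs
    · exact cu_ne i j
    · exact one_ne_zero

theorem thc_HH {p : Fin 37} {i : Fin 11} (h : OnI i p) :
    thc k p i (HH k p i) = inc (hp k p) * ∏ j, thc k p i (if OnI j p then cu k i j else 1) := by
  unfold HH
  rw [map_mul, thc_tauc h, map_prod]

theorem thc_ne {p : Fin 37} {i : Fin 11} (h : OnI i p) {F : P3 k} (hF : F ≠ 0) :
    thc k p i F ≠ 0 := by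
  rwa [Ne, map_eq_zero_iff _ (thc_inj h)]

theorem inc_ell_eq {p : Fin 37} {i j : Fin 11} (h : OnI i p) (hj : OnI j p) :
    inc (ell k j) = inc (ell k i) * thc k p i (cu k i j) := by
  rw [← thc_tauc h (ell k j), tauc_ell h hj, map_mul, thc_X0]
  rfl

/-- the additional generators on the chart -/
theorem uu_eq {p : Fin 37} {i j : Fin 11} (h : OnI i p) (hj : OnI j p) :
    uu k j * thc k p i (cu k i j) = bb k p i * inc (cof k p j) := by
  have h1 := uu_mul (k := k) j
  rw [inc_ell_eq h hj, ← al_mul_cof hj, map_mul, ← ell_mul_bb p i] at h1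
  have hl : inc (ell k i) ≠ 0 := inc_ne (ell_ne i)
  apply mul_left_cancel₀ hl
  linear_combination h1

section B1

variable {B1 : Subalgebra k (KK k)} (hA1 : AA k ≤ B1) {p : Fin 37} {i : Fin 11} (h : OnI i p)
  (hcof1 : ∀ j, OnI j p → (inc (cof k p j))⁻¹ ∈ B1)

include hA1 h hcof1

theorem bb_mem_B1 : bb k p i ∈ B1 := by
  have h1 := uu_eq (k := k) h h
  have h2 : thc k p i (cu k i i) = 1 := by
    unfold cu; rw [sub_self, C_0, zero_mul, add_zero, map_one]
  rw [h2, mul_one] at h1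
  have h3 := B1.mul_mem (hA1 (uu_mem_AA i)) (hcof1 i h)
  rwa [h1, mul_assoc, mul_inv_cancel₀ (inc_ne (cof_ne p i)), mul_one] at h3

theorem thc_mem_B1 (F : P3 k) : thc k p i F ∈ B1 := by
  have hb1 := bb_mem_B1 hA1 h hcof1
  induction F using MvPolynomial.induction_on with
  | C c => rw [thc_C]; exact hA1 (inc_mem_AA _)
  | add f g hf hg => rw [map_add]; exact B1.add_mem hf hg
  | mul_X f j hf =>
    rw [map_mul]
    refine B1.mul_mem hf ?_
    fin_cases j
    · simp only [Fin.zero_eta, thc_X0]; exact hA1 (inc_mem_AA _)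
    · simp only [Fin.mk_one, thc_X1]; exact hb1
    · simp only [Fin.reduceFinMk, thc_X2]; exact hA1 (inc_mem_AA _)

theorem cu_mem_B1 {j : Fin 11} (hj : OnI j p) : (thc k p i (cu k i j))⁻¹ ∈ B1 := by
  have h1 := uu_eq (k := k) h hj
  have hc := thc_ne h (cu_ne (k := k) i j)
  have hco : inc (cof k p j) ≠ 0 := inc_ne (cof_ne p j)
  have h4 : thc k p i (cu k i j) = 1 + inc (C ((lineS i : k) - lineS j)) * bb k p i := by
    unfold cu
    rw [map_add, map_one, map_mul, thc_C, thc_X1]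
  have h5 : uu k j * (inc (cof k p j))⁻¹ ∈ B1 := B1.mul_mem (hA1 (uu_mem_AA j)) (hcof1 j hj)
  have h6 : inc (C ((lineS i : k) - lineS j)) ∈ B1 := hA1 (inc_mem_AA _)
  generalize inc (C ((lineS i : k) - lineS j)) = c at h4 h6
  generalize inc (cof k p j) = d at h1 hco h5
  generalize thc k p i (cu k i j) = u at h1 hc h4 ⊢
  generalize bb k p i = b at h1 h4
  generalize uu k j = v at h1 h5
  have h2 : u⁻¹ = 1 - c * (v * d⁻¹) := by
    have h3 : v * d⁻¹ = b * u⁻¹ := by
      field_simp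
      linear_combination h1
    rw [h3]
    field_simp
    rw [h4]
    ring
  rw [h2]
  exact B1.sub_mem B1.one_mem (B1.mul_mem h6 h5)

theorem HH_mem_B1 (hz1 : (inc (X 2 : P3 k))⁻¹ ∈ B1) (hh1 : (inc (hp k p))⁻¹ ∈ B1) :
    (thc k p i (X 2 * HH k p i))⁻¹ ∈ B1 := by
  rw [map_mul, thc_HH h, thc_X2, mul_inv, mul_inv, ← Finset.prod_inv_distrib]
  refine B1.mul_mem hz1 (B1.mul_mem hh1 (B1.prod_mem ?_))
  intro j _
  split_ifs with hj
  · exact cu_mem_B1 hA1 h hcof1 hj
  · rw [map_one, inv_one]; exact B1.one_mem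

end B1

section B2

variable {B2 : Subalgebra k (KK k)} {p : Fin 37} {i : Fin 11} (h : OnI i p)
  (hR2 : ∀ F : P3 k, thc k p i F ∈ B2)
  (hcu2 : ∀ j, OnI j p → (thc k p i (cu k i j))⁻¹ ∈ B2)
  (hell2 : ∀ j, ¬ OnI j p → (inc (ell k j))⁻¹ ∈ B2)

include h hR2 hcu2 hell2

theorem AA_le_B2 : AA k ≤ B2 := by
  rw [AA_eq_Agen]
  unfold Agen
  have hinc : ∀ F : P3 k, inc F ∈ B2 := by
    intro F
    rw [← thc_tauc h F]
    exact hR2 _
  rw [Algebra.adjoin_le_iff]
  rintro _ (⟨j, rfl⟩ | ⟨j, rfl⟩)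
  · exact hinc _
  · by_cases hj : OnI j p
    · have h1 := uu_eq (k := k) h hj
      have hc := thc_ne h (cu_ne (k := k) i j)
      have h2 : uu k j = bb k p i * inc (cof k p j) * (thc k p i (cu k i j))⁻¹ := by
        rw [← h1, mul_assoc, mul_inv_cancel₀ hc, mul_one]
      rw [h2]
      have h3 := hR2 (X 1)
      rw [thc_X1] at h3
      exact B2.mul_mem (B2.mul_mem h3 (hinc _)) (hcu2 j hj)
    · have h2 : uu k j = inc (PP k j) * (inc (ell k j))⁻¹ := div_eq_mul_inv _ _
      rw [h2]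
      exact B2.mul_mem (hinc _) (hell2 j hj)

end B2

theorem chart_some {p : Fin 37} {i : Fin 11} (h : OnI i p) (x : KK k) :
    (∃ n : ℕ, x * ((gZ k * ⟨inc (hp k p), inc_mem_AA _⟩ : AA k) : KK k) ^ n ∈ AA k) ↔
      ∃ (n : ℕ) (F : P3 k), x * thc k p i (X 2 * HH k p i) ^ n = thc k p i F := by
  have h0 : ((gZ k * ⟨inc (hp k p), inc_mem_AA _⟩ : AA k) : KK k) = inc (X 2) * inc (hp k p) := rfl
  have hf : inc (X 2) * inc (hp k p) ∈ AA k := (AA k).mul_mem (inc_mem_AA _) (inc_mem_AA _)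
  have hf' : thc k p i (X 2 * HH k p i) ∈ (thc k p i).range := ⟨_, rfl⟩
  rw [h0]
  have hz : inc (X 2 : P3 k) ≠ 0 := inc_ne (X_ne_zero 2)
  have hh : inc (hp k p) ≠ 0 := inc_ne (hp_ne p)
  have hzH : thc k p i (X 2 * HH k p i) ≠ 0 := thc_ne h (mul_ne_zero (X_ne_zero 2) (HH_ne h))
  constructor
  · -- the ring of the threefold is contained in the chart ring
    obtain ⟨B2, hB2⟩ : ∃ B2, B2 = locA (thc k p i).range (thc k p i (X 2 * HH k p i)) hf' := ⟨_, rfl⟩
    have hR2 : ∀ F : P3 k, thc k p i F ∈ B2 := by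
      intro F
      rw [hB2]
      exact le_locA ⟨F, rfl⟩
    have hdiv : ∀ a b : P3 k, a * b = X 2 * HH k p i → (thc k p i a)⁻¹ ∈ B2 := by
      intro a b hab
      have ha : a ≠ 0 := by
        rintro rfl
        rw [zero_mul] at hab
        exact mul_ne_zero (X_ne_zero 2) (HH_ne h) hab.symm
      rw [hB2]
      exact inv_mem_locA (thc_ne h ha) (b := thc k p i b) ⟨b, rfl⟩ (by rw [← map_mul, hab])
    have hcu2 : ∀ j, OnI j p → (thc k p i (cu k i j))⁻¹ ∈ B2 := by
      intro j hj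
      apply hdiv (cu k i j) (X 2 * tauc k p i (hp k p) *
        ∏ l ∈ Finset.univ.erase j, if OnI l p then cu k i l else 1)
      unfold HH
      rw [← Finset.mul_prod_erase Finset.univ _ (Finset.mem_univ j), if_pos hj]
      ring
    have hell2 : ∀ j, ¬ OnI j p → (inc (ell k j))⁻¹ ∈ B2 := by
      intro j hj
      obtain ⟨G, hG⟩ := ell_dvd_hp (k := k) hj
      rw [← thc_tauc h (ell k j)]
      apply hdiv _ (X 2 * tauc k p i G * ∏ l, if OnI l p then cu k i l else 1)
      unfold HH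
      rw [← hG, map_mul]
      ring
    have hA2 := AA_le_B2 h hR2 hcu2 hell2
    have hzh2 : (inc (X 2) * inc (hp k p))⁻¹ ∈ B2 := by
      have : inc (X 2) * inc (hp k p) = thc k p i (X 2 * tauc k p i (hp k p)) := by
        rw [map_mul, thc_X2, thc_tauc h]
      rw [this]
      apply hdiv _ (∏ l, if OnI l p then cu k i l else 1)
      unfold HH
      ring
    rintro ⟨n, hn⟩
    have h1 := B2.mul_mem (hA2 hn) (B2.pow_mem hzh2 n)
    rw [mul_assoc, ← mul_pow, mul_inv_cancel₀ (mul_ne_zero hz hh), one_pow, mul_one, hB2] at h1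
    obtain ⟨m, F, hF⟩ := h1
    exact ⟨m, F, hF.symm⟩
  · obtain ⟨B1, hB1⟩ : ∃ B1, B1 = locA (AA k) (inc (X 2) * inc (hp k p)) hf := ⟨_, rfl⟩
    have hA1 : AA k ≤ B1 := by rw [hB1]; exact le_locA
    have hdiv : ∀ a b : P3 k, a * b = X 2 * hp k p → (inc a)⁻¹ ∈ B1 := by
      intro a b hab
      have ha : a ≠ 0 := by
        rintro rfl
        rw [zero_mul] at hab
        exact mul_ne_zero (X_ne_zero 2) (hp_ne p) hab.symm
      rw [hB1]
      exact inv_mem_locA (inc_ne ha) (b := inc b) (inc_mem_AA b) (by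
        rw [← map_mul, hab, map_mul])
    have hcof1 : ∀ j, OnI j p → (inc (cof k p j))⁻¹ ∈ B1 := by
      intro j hj
      obtain ⟨G, hG⟩ := cof_dvd_hp (k := k) hj
      apply hdiv _ (X 2 * G)
      rw [← hG]; ring
    have hz1 : (inc (X 2 : P3 k))⁻¹ ∈ B1 := hdiv _ (hp k p) rfl
    have hh1 : (inc (hp k p))⁻¹ ∈ B1 := hdiv _ (X 2) (mul_comm _ _)
    have h1 := HH_mem_B1 hA1 h hcof1 hz1 hh1
    rintro ⟨n, F, hF⟩
    have h2 := B1.mul_mem (thc_mem_B1 hA1 h hcof1 F) (B1.pow_mem h1 n)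
    rw [← hF, mul_assoc, ← mul_pow, mul_inv_cancel₀ hzH, one_pow, mul_one, hB1] at h2
    exact h2

end

end Pool.Agent.J6H82.Kollar
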