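import Pool.Agent.J6H82.Kollar.CanonInv
import Pool.Agent.J6H82.Kollar.SurfDefs

/-!
# One-parameter smoothings: definitions
-/

namespace Pool.Agent.J6H82.Kollar

open scoped Polynomial

noncomputable section

/-- The canonical algebra `⨁ₙ O(nK)` of `R`, where `Spec R` is (a germ of) a normal variety of dimension
`d` over `k`, is not a finitely generated `R`-algebra.  The canonical algebra is formed with the help of a
fraction field `K` of `R`, for which `Ω[K⁄k]` has dimension `d` over `K`, and a nonzero alternating form `ω`
in `d` variables on `Ω[K⁄k]`; it is required that such data exist, and that for every choice of them the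
canonical algebra is not finitely generated (by `canonicalAlgebra_fg_iff` the choice does not matter). -/
structure CanonicalAlgebraNotFG (k R : Type) [Field k] [CommRing R] [Algebra k R] (d : ℕ) : Prop where
  exists_data : ∃ (K : Type) (_ : Field K) (_ : Algebra k K) (_ : Algebra R K)
    (_ : IsScalarTower k R K) (_ : IsFractionRing R K), Module.finrank K Ω[K⁄k] = d ∧
      ∃ ω : Ω[K⁄k] [⋀^Fin d]→ₗ[K] K, ω ≠ 0
  not_fg : ∀ (K : Type) [Field K] [Algebra k K] [Algebra R K] [IsScalarTower k R K]
    [IsFractionRing R K] (ω : Ω[K⁄k] [⋀^Fin d]→ₗ[K] K), ω ≠ 0 →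
      ¬ (canonicalAlgebra k R K d ω).FG

/-- `g : Spec A ⟶ 𝔸¹` is, near the closed point `𝔪` of the fibre over the origin, a one-parameter
smoothing of a rational surface singularity: `Spec A` is a normal threefold, `g` is flat, it is smooth
away from `g = 0`, and the fibre `Spec (A / (g))` over the origin is a normal surface with rational
singularities. -/
structure IsSmoothingOfRational (k A : Type) [Field k] [CommRing A] [Algebra k A] (g : A)
    (𝔪 : Ideal A) : Prop where
  isDomain : IsDomain A
  finiteType : Algebra.FiniteType k A
  isIntegrallyClosed : IsIntegrallyClosed A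
  trdeg : Algebra.trdeg k A = 3
  isMaximal : 𝔪.IsMaximal
  mem : g ∈ 𝔪
  flat : (Polynomial.aeval g : k[X] →ₐ[k] A).toRingHom.Flat
  smooth : ((algebraMap A (Localization.Away g)).comp
    (Polynomial.aeval g : k[X] →ₐ[k] A).toRingHom).Smooth
  central : IsRationalSurface k (A ⧸ Ideal.span {g})

end

end Pool.Agent.J6H82.Kollar
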